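import Mathlib
set_option autoImplicit false

/-!
# Linear programs that have to be solved one after the other, and shadow vertex pivots
-/

namespace Pool.Agent.Run7.h689.SH

open Set

section abs
variable {E F : Type} [AddCommGroup E] [Module ℝ E] [AddCommGroup F] [Module ℝ F]

/-- the points of `P` where `ψ` is maximal -/
def mx (P : Set E) (ψ : E →ₗ[ℝ] ℝ) : Set E := {u | u ∈ P ∧ ∀ v ∈ P, ψ v ≤ ψ u}

/-- a pivot which is seen on the boundary of the shadow given by `C` and `z` -/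
def Step (P : Set E) (C z : E →ₗ[ℝ] ℝ) (x y : E) : Prop :=
  C x < C y ∧ ∃ σ : ℝ, mx P (z - σ • C) = segment ℝ x y

/-- a path of such pivots -/
def Path (P : Set E) (C : E →ₗ[ℝ] ℝ) (T : ℕ) (x : ℕ → E) (z : ℕ → (E →ₗ[ℝ] ℝ)) : Prop :=
  ∀ s < T, Step P C (z s) (x s) (x (s + 1))

/-- every path from `v` to the top `t` is long or uses more than `r` auxiliary objectives -/
structure Hard (P : Set E) (C : E →ₗ[ℝ] ℝ) (v t : E) (γ : ℝ) (r N : ℕ) : Prop where
  hv : v ∈ P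
  ht : t ∈ P
  ne : v ≠ t
  top : ∀ p ∈ P, C p ≤ C t
  gap : ∀ p ∈ P.extremePoints ℝ, p ≠ t → C p + γ ≤ C t
  vext : v ∈ P.extremePoints ℝ
  uniq : ∀ p ∈ P, C p = C t → p = t
  long : ∀ (T : ℕ) (x : ℕ → E) (z : ℕ → (E →ₗ[ℝ] ℝ)), x 0 = v → x T = t → Path P C T x z →
    N ≤ T ∨ r < (z '' Iio T).ncard

/-- `z` is, up to a multiple of `c`, maximal at `v` -/
def Thin (X : Set F) (c : F →ₗ[ℝ] ℝ) (v : F) (z : F →ₗ[ℝ] ℝ) : Prop :=
  ∃ σ : ℝ, ∀ y ∈ X, (z - σ • c) y ≤ (z - σ • c) v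

/-- the affine function which gives the shrinking factors -/
def aff (s₀ κ : ℝ) (z₀ : F →ₗ[ℝ] ℝ) (x : F) : ℝ := s₀ + κ * z₀ x

/-- the building block -/
structure Block (X : Set F) (c z₀ : F →ₗ[ℝ] ℝ) (v t : F) (s₀ κ M γ : ℝ) (N : ℕ) : Prop where
  hv : v ∈ X
  ht : t ∈ X
  ne : v ≠ t
  top : ∀ p ∈ X, c p ≤ c t
  gap : ∀ p ∈ X.extremePoints ℝ, p ≠ t → c p + γ ≤ c t
  vext : v ∈ X.extremePoints ℝ
  uniq : ∀ p ∈ X, c p = c t → p = t
  lip : ∀ x ∈ X, c x - c v ≤ M * (z₀ v - z₀ x)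
  zmax : ∀ x ∈ X, z₀ x ≤ z₀ v
  s0 : ∀ x ∈ X, 0 ≤ aff s₀ κ z₀ x
  s1 : ∀ x ∈ X, aff s₀ κ z₀ x ≤ 1 / 2
  long : ∀ (T : ℕ) (x : ℕ → F) (z : ℕ → (F →ₗ[ℝ] ℝ)), x 0 = v → x T = t → Path X c T x z →
    (∀ s < T, Thin X c v (z s)) → N ≤ T

theorem left_mem_mx {P : Set E} {ψ : E →ₗ[ℝ] ℝ} {x y : E} (h : mx P ψ = segment ℝ x y) : x ∈ mx P ψ := by
  rw [h]; exact left_mem_segment ℝ x y

theorem right_mem_mx {P : Set E} {ψ : E →ₗ[ℝ] ℝ} {x y : E} (h : mx P ψ = segment ℝ x y) : y ∈ mx P ψ := by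
  rw [h]; exact right_mem_segment ℝ x y

/-- the ends of an exposed edge are extreme points -/
theorem left_extreme {P : Set E} {ψ : E →ₗ[ℝ] ℝ} {x y : E} (h : mx P ψ = segment ℝ x y) :
    x ∈ P.extremePoints ℝ := by
  have hx := left_mem_mx h
  refine ⟨hx.1, ?_⟩
  rintro a ha b hb ⟨α, β, hα, hβ, hαβ, rfl⟩
  have h1 := hx.2 a ha
  have h2 := hx.2 b hb
  rw [map_add, map_smul, map_smul, smul_eq_mul, smul_eq_mul] at h1 h2
  have e1 : ψ a = α * ψ a + β * ψ a := by rw [← add_mul, hαβ, one_mul]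
  have e2 : ψ b = α * ψ b + β * ψ b := by rw [← add_mul, hαβ, one_mul]
  have hab : ψ a = ψ b := le_antisymm
    (le_of_mul_le_mul_left (by linarith : β * ψ a ≤ β * ψ b) hβ)
    (le_of_mul_le_mul_left (by linarith : α * ψ b ≤ α * ψ a) hα)
  have ha' : a ∈ mx P ψ := by
    refine ⟨ha, fun v hv => ?_⟩
    have := hx.2 v hv
    rw [map_add, map_smul, map_smul, smul_eq_mul, smul_eq_mul] at this
    rw [← hab] at this
    linarith
  have hb' : b ∈ mx P ψ := by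
    refine ⟨hb, fun v hv => ?_⟩
    have := hx.2 v hv
    rw [map_add, map_smul, map_smul, smul_eq_mul, smul_eq_mul, hab] at this
    linarith
  rw [h, segment_eq_image'] at ha' hb'
  obtain ⟨p, hp, hpa⟩ := ha'
  obtain ⟨q, hq, hqb⟩ := hb'
  simp only [mem_Icc] at hp hq
  simp only at hpa hqb
  set x := α • a + β • b with hxd
  -- a = x + p (y - x), b = x + q (y - x)
  have e : (α * p + β * q) • (y - x) = 0 := by
    have : α • a + β • b = x + (α * p + β * q) • (y - x) := by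
      rw [← hpa, ← hqb]
      have e1 : (α + β) • x = x := by rw [hαβ, one_smul]
      calc α • (x + p • (y - x)) + β • (x + q • (y - x)) = (α + β) • x + (α * p + β * q) • (y - x) := by
            module
        _ = _ := by rw [e1]
    rw [← hxd] at this
    simpa using this
  rcases smul_eq_zero.1 e with e | e
  · have : p = 0 := by nlinarith [hp.1, hq.1, mul_nonneg hα.le hp.1, mul_nonneg hβ.le hq.1]
    rw [← hpa, this]; simp
  · rw [← hpa, e]; simp

theorem right_extreme {P : Set E} {ψ : E →ₗ[ℝ] ℝ} {x y : E} (h : mx P ψ = segment ℝ x y) :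
    y ∈ P.extremePoints ℝ := by
  rw [segment_symm] at h
  exact left_extreme h

/-- the block alone -/
theorem Block.hard {X : Set F} {c z₀ : F →ₗ[ℝ] ℝ} {v t : F} {s₀ κ M γ : ℝ} {N : ℕ}
    (b : Block X c z₀ v t s₀ κ M γ N) : Hard X c v t γ 1 N := by
  refine ⟨b.hv, b.ht, b.ne, b.top, b.gap, b.vext, b.uniq, fun T x z h0 hT hp => ?_⟩
  by_cases hall : ∀ s < T, Thin X c v (z s)
  · exact Or.inl (b.long T x z h0 hT hp hall)
  · right
    push Not at hall
    obtain ⟨s₁, hs₁, hn⟩ := hall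
    have hT0 : 0 < T := by omega
    have h1 : Thin X c v (z 0) := by
      obtain ⟨-, σ, hσ⟩ := hp 0 hT0
      have := left_mem_mx hσ
      rw [h0] at this
      exact ⟨σ, this.2⟩
    have hne : z 0 ≠ z s₁ := fun h => hn (h ▸ h1)
    have hsub : ({z 0, z s₁} : Set (F →ₗ[ℝ] ℝ)) ⊆ z '' Iio T := by
      rintro w (rfl | rfl)
      · exact ⟨0, hT0, rfl⟩
      · exact ⟨s₁, hs₁, rfl⟩
    calc 1 < 2 := by norm_num
      _ = ({z 0, z s₁} : Set (F →ₗ[ℝ] ℝ)).ncard := (ncard_pair hne).symm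
      _ ≤ (z '' Iio T).ncard := ncard_le_ncard hsub ((finite_Iio T).image z)

/-- the composition: `X` comes after `P`; over the point `x` of `X` the set `P` is shrunk towards its
top `t` by the factor `1 - s x` -/
def comp (P : Set E) (t : E) (X : Set F) (s : F → ℝ) : Set (F × E) :=
  {p | p.1 ∈ X ∧ ∃ w ∈ P, p.2 = s p.1 • t + (1 - s p.1) • w}

/-- the point of `P` which belongs to the point `p` of the composition -/
noncomputable def fib (t : E) (s : F → ℝ) (p : F × E) : E := (1 - s p.1)⁻¹ • (p.2 - s p.1 • t)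

/-- the objective of the composition -/
noncomputable def cobj (C : E →ₗ[ℝ] ℝ) (c : F →ₗ[ℝ] ℝ) (η : ℝ) : F × E →ₗ[ℝ] ℝ :=
  C ∘ₗ LinearMap.snd ℝ F E + η • (c ∘ₗ LinearMap.fst ℝ F E)

theorem cobj_apply (C : E →ₗ[ℝ] ℝ) (c : F →ₗ[ℝ] ℝ) (η : ℝ) (x : F) (w : E) :
    cobj C c η (x, w) = C w + η * c x := by simp [cobj]

theorem split (ψ : F × E →ₗ[ℝ] ℝ) (x : F) (w : E) :
    ψ (x, w) = (ψ ∘ₗ LinearMap.inl ℝ F E) x + (ψ ∘ₗ LinearMap.inr ℝ F E) w := by
  simp only [LinearMap.comp_apply, LinearMap.inl_apply, LinearMap.inr_apply]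
  rw [← map_add]; simp

/-- transport along a linear equivalence -/
theorem Hard.map {P : Set E} {C : E →ₗ[ℝ] ℝ} {v t : E} {γ : ℝ} {r N : ℕ} (h : Hard P C v t γ r N)
    (e : E ≃ₗ[ℝ] F) : Hard (e '' P) (C ∘ₗ e.symm.toLinearMap) (e v) (e t) γ r N := by
  have hC : ∀ p : E, (C ∘ₗ e.symm.toLinearMap) (e p) = C p := by intro p; simp
  have hext : ∀ p : E, e p ∈ (e '' P).extremePoints ℝ ↔ p ∈ P.extremePoints ℝ := by
    intro p
    constructor
    · rintro ⟨⟨q, hq, hqp⟩, h2⟩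
      have : q = p := e.injective hqp
      subst this
      refine ⟨hq, ?_⟩
      rintro a ha b hb ⟨α, β, hα, hβ, hαβ, he⟩
      apply e.injective
      exact h2 ⟨a, ha, rfl⟩ ⟨b, hb, rfl⟩ ⟨α, β, hα, hβ, hαβ, by rw [← he, map_add, map_smul, map_smul]⟩
    · rintro ⟨hp, h2⟩
      refine ⟨⟨p, hp, rfl⟩, ?_⟩
      rintro _ ⟨a, ha, rfl⟩ _ ⟨b, hb, rfl⟩ ⟨α, β, hα, hβ, hαβ, he⟩
      rw [h2 ha hb ⟨α, β, hα, hβ, hαβ, by
        apply e.injective
        rw [map_add, map_smul, map_smul, he]⟩]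
  refine ⟨⟨v, h.hv, rfl⟩, ⟨t, h.ht, rfl⟩, fun he => h.ne (e.injective he), ?_, ?_, (hext v).2 h.vext, ?_, ?_⟩
  · rintro _ ⟨p, hp, rfl⟩
    rw [hC, hC]
    exact h.top p hp
  · intro q hq hne
    obtain ⟨p, hp, rfl⟩ := hq.1
    rw [hC, hC]
    exact h.gap p ((hext p).1 hq) (fun he => hne (by rw [he]))
  · rintro _ ⟨p, hp, rfl⟩ he
    rw [hC, hC] at he
    rw [h.uniq p hp he]
  · intro T x z hx0 hxT hpath
    have hp : Path P C T (fun s => e.symm (x s)) (fun s => z s ∘ₗ e.toLinearMap) := by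
      intro s hs
      obtain ⟨h1, σ, hσ⟩ := hpath s hs
      refine ⟨h1, σ, ?_⟩
      ext p
      have hseg : p ∈ segment ℝ (e.symm (x s)) (e.symm (x (s + 1))) ↔
          e p ∈ segment ℝ (x s) (x (s + 1)) := by
        constructor
        · rintro ⟨α, β, hα, hβ, hαβ, rfl⟩
          exact ⟨α, β, hα, hβ, hαβ, by simp⟩
        · rintro ⟨α, β, hα, hβ, hαβ, he⟩
          refine ⟨α, β, hα, hβ, hαβ, ?_⟩
          apply e.injective
          rw [← he]; simp
      rw [hseg, ← hσ]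
      constructor
      · rintro ⟨h2, h3⟩
        refine ⟨⟨p, h2, rfl⟩, ?_⟩
        rintro _ ⟨q, hq, rfl⟩
        have := h3 q hq
        simpa using this
      · rintro ⟨⟨q, hq, hqp⟩, h3⟩
        have : q = p := e.injective hqp
        subst this
        refine ⟨hq, fun q' hq' => ?_⟩
        have := h3 (e q') ⟨q', hq', rfl⟩
        simpa using this
    rcases h.long T _ _ (by simp [hx0]) (by simp [hxT]) hp with h1 | h1
    · exact Or.inl h1
    · right
      refine lt_of_lt_of_le h1 ?_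
      have : (fun s => z s ∘ₗ e.toLinearMap) '' Iio T =
          (fun ζ : F →ₗ[ℝ] ℝ => ζ ∘ₗ e.toLinearMap) '' (z '' Iio T) := by rw [image_image]
      rw [this]
      exact ncard_image_le ((finite_Iio T).image z)

end abs

end Pool.Agent.Run7.h689.SH
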