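import Pool.Agent.Run7.h689.Jump
set_option autoImplicit false

/-!
# The building block has all the properties which are needed
-/

namespace Pool.Agent.Run7.h689.SH

open Set

/-- the objective of the block is controlled by `z₀` at the start vertex -/
theorem blk_zmax {m : ℕ} {y : Fin (m + 1) → ℝ} (h : y ∈ blk m) : zz m y ≤ zz m (vv m) := by
  obtain ⟨-, h1, h2⟩ := h
  have h3 := Finset.sum_le_sum (s := Finset.univ) (fun k (_ : k ∈ Finset.univ) => h1 k)
  simp only [Finset.sum_add_distrib, ← Finset.mul_sum, Finset.sum_const, Finset.card_univ,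
    Fintype.card_fin, nsmul_eq_mul] at h3
  have h4 : ((m : ℝ) + 1) * zz m y ≤ (m + 1) * zz m (vv m) := by nlinarith
  exact le_of_mul_le_mul_left h4 (by positivity)

theorem geom_le (m : ℕ) : ∑ k : Fin m, (1 / 4 : ℝ) ^ (k.1 + 1) ≤ 1 / 3 := by
  have : ∀ m : ℕ, ∑ k : Fin m, (1 / 4 : ℝ) ^ (k.1 + 1) = (1 - (1 / 4) ^ m) / 3 := by
    intro m
    induction m with
    | zero => simp
    | succ m ih =>
      rw [Fin.sum_univ_castSucc]
      simp only [Fin.val_castSucc, Fin.val_last]
      rw [ih, pow_succ]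
      ring
  rw [this]
  have : (0 : ℝ) ≤ (1 / 4) ^ m := by positivity
  linarith

theorem blk_lip {m : ℕ} (hm : 1 ≤ m) {y : Fin (m + 1) → ℝ} (h : y ∈ blk m) :
    cc m y - cc m (vv m) ≤ 2 ^ (3 * m + 4) * (zz m (vv m) - zz m y) := by
  have hz := blk_zmax h
  have hd := dl_pos m
  set D := zz m (vv m) - zz m y with hD
  have hD0 : 0 ≤ D := by linarith
  have h1 : ∀ k : Fin m, y k.succ - ep m ≤ D / dl m := by
    intro k
    have := h.2.1 k
    rw [le_div_iff₀ hd]
    linarith
  have h2 : ff m y - ff m (vv m) ≤ 1 / 3 * (D / dl m) := by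
    rw [ff_apply, ff_apply, ← Finset.sum_sub_distrib]
    calc ∑ k : Fin m, ((1 / 4 : ℝ) ^ (k.1 + 1) * y k.succ - (1 / 4 : ℝ) ^ (k.1 + 1) * vv m k.succ)
        ≤ ∑ k : Fin m, (1 / 4 : ℝ) ^ (k.1 + 1) * (D / dl m) := by
          apply Finset.sum_le_sum
          intro k _
          have e : vv m k.succ = ep m := rfl
          rw [e, ← mul_sub]
          exact mul_le_mul_of_nonneg_left (h1 k) (by positivity)
      _ = (∑ k : Fin m, (1 / 4 : ℝ) ^ (k.1 + 1)) * (D / dl m) := by rw [Finset.sum_mul]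
      _ ≤ _ := mul_le_mul_of_nonneg_right (geom_le m) (div_nonneg hD0 hd.le)
  have h3 : cc m y - cc m (vv m) = D + 2 * (ff m y - ff m (vv m)) := by
    rw [hD, cc_apply, cc_apply, zz_apply, zz_apply]
    ring
  have h4 : D / dl m = 2 ^ (3 * m + 4) * D := by
    unfold dl
    field_simp
  have h5 : D ≤ 1 / 16 * (2 ^ (3 * m + 4) * D) := by
    have : (16 : ℝ) ≤ 2 ^ (3 * m + 4) := by
      calc (16 : ℝ) = 2 ^ 4 := by norm_num
        _ ≤ 2 ^ (3 * m + 4) := pow_le_pow_right₀ (by norm_num) (by omega)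
    nlinarith
  rw [h3]
  rw [h4] at h2
  have h6 : 0 ≤ 2 ^ (3 * m + 4) * D := by positivity
  linarith

theorem blk_top {m : ℕ} {y : Fin (m + 1) → ℝ} (h : Fold m y) : cc m y + (1 - y 0) ≤ cc m (tp m) := by
  rw [cc_apply, cc_apply, ff_tp, tp_zero]
  have h1 := ff_le m y h
  have h2 := h.1 0
  have h3 := h.2.1
  nlinarith

/-- coordinates are small near the top -/
theorem small_near_top {m : ℕ} {y : Fin (m + 1) → ℝ} (h : Fold m y) :
    ∀ k : ℕ, ∀ hk : k < m, y (Fin.succ ⟨k, hk⟩) ≤ 2 ^ (k + 1) * (1 - y 0) := by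
  intro k
  induction k with
  | zero =>
    intro hk
    have := (h.2.2 ⟨0, hk⟩).2
    have e : (Fin.castSucc ⟨0, hk⟩ : Fin (m + 1)) = 0 := rfl
    rw [e] at this
    rw [zero_add, pow_one]
    linarith
  | succ k ih =>
    intro hk
    have h1 := ih (by omega)
    have h2 := (h.2.2 ⟨k + 1, hk⟩).1
    have e : (Fin.castSucc ⟨k + 1, hk⟩ : Fin (m + 1)) = Fin.succ ⟨k, by omega⟩ := rfl
    rw [e] at h2
    calc y (Fin.succ ⟨k + 1, hk⟩) ≤ 2 * y (Fin.succ ⟨k, by omega⟩) := h2
      _ ≤ 2 * (2 ^ (k + 1) * (1 - y 0)) := by linarith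
      _ = _ := by ring

theorem blk_gap {m : ℕ} (hm : 1 ≤ m) {y : Fin (m + 1) → ℝ} (h : y ∈ (blk m).extremePoints ℝ)
    (hne : y ≠ tp m) : cc m y + ep m ≤ cc m (tp m) := by
  have htop := blk_top h.1.1
  by_contra hcon
  push Not at hcon
  have hy0 : 1 - y 0 < ep m := by linarith
  have he := ep_le hm
  have hp := ep_pos m
  have hf : Fold m y := h.1.1
  have hsm : ∀ k : Fin m, y k.succ ≤ 1 / 4 := by
    intro k
    have h1 := small_near_top hf k.1 k.2
    have h2 : (2 : ℝ) ^ (k.1 + 1) * (1 - y 0) ≤ 2 ^ m * ep m := by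
      apply mul_le_mul (pow_le_pow_right₀ (by norm_num) (by have := k.2; omega)) hy0.le
      · have := hf.2.1
        linarith
      · positivity
    have h3 : (2 : ℝ) ^ m * ep m = 1 / 4 := by
      unfold ep
      rw [pow_add]
      field_simp
      norm_num
    exact (h1.trans h2).trans h3.le
  -- the reflected point
  set w : Fin (m + 1) → ℝ := (2 : ℝ) • y - tp m with hw
  have hw0 : w 0 = 2 * y 0 - 1 := by simp [hw, tp_zero]
  have hws : ∀ k : Fin m, w k.succ = 2 * y k.succ := by
    intro k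
    simp [hw, tp_succ]
  have hwf : Fold m w := by
    refine ⟨fun k => ?_, ?_, fun k => ?_⟩
    · refine Fin.cases ?_ (fun j => ?_) k
      · rw [hw0]; linarith
      · rw [hws]; have := hf.1 j.succ; linarith
    · rw [hw0]; have := hf.2.1; linarith
    · rw [hws]
      have h1 := hf.2.2 k
      have h2 := hsm k
      rcases Nat.eq_zero_or_pos k.1 with hk | hk
      · have e : k.castSucc = (0 : Fin (m + 1)) := Fin.ext hk
        rw [e] at h1 ⊢
        rw [hw0]
        constructor <;> linarith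
      · have e : k.castSucc = Fin.succ (⟨k.1 - 1, by have := k.2; omega⟩ : Fin m) := by
          apply Fin.ext
          simp only [Fin.val_castSucc, Fin.val_succ]
          omega
        rw [e] at h1 ⊢
        rw [hws]
        have h3 := hsm ⟨k.1 - 1, by have := k.2; omega⟩
        constructor <;> linarith
  have hwm : w ∈ blk m := by
    apply mem_blk_of hwf
    have h1 : zz m w = 2 * zz m y - zz m (tp m) := by
      rw [hw, map_sub, map_smul]; rfl
    rw [h1, zz_apply, zz_apply, ff_tp, tp_zero]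
    have h2 := ff_le m y hf
    have h3 : y 0 - y 0 ^ 2 ≤ 1 - y 0 := by nlinarith [hf.2.1]
    linarith
  have hseg : y ∈ openSegment ℝ (tp m) w := by
    refine ⟨1 / 2, 1 / 2, by norm_num, by norm_num, by norm_num, ?_⟩
    rw [hw]
    module
  exact hne (h.2 (tp_mem hm) hwm hseg).symm

theorem blk_aff {m : ℕ} {y : Fin (m + 1) → ℝ} (h : Fold m y) :
    0 ≤ aff (1 / 2) (1 / 4) (zz m) y ∧ aff (1 / 2) (1 / 4) (zz m) y ≤ 1 / 2 := by
  unfold aff
  rw [zz_apply]
  have h1 := ff_nonneg h
  have h2 := ff_le m y h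
  have h3 := h.1 0
  have h4 := h.2.1
  constructor <;> nlinarith

/-- a path along thin functionals is long -/
theorem blk_long {m : ℕ} (hm : 1 ≤ m) (T : ℕ) (x : ℕ → (Fin (m + 1) → ℝ))
    (z : ℕ → ((Fin (m + 1) → ℝ) →ₗ[ℝ] ℝ)) (h0 : x 0 = vv m) (hT : x T = tp m)
    (hp : Path (blk m) (cc m) T x z) (hthin : ∀ s < T, Thin (blk m) (cc m) (vv m) (z s)) :
    2 ^ m - 2 ≤ T := by
  classical
  -- the objective increases
  have hinc : ∀ s ≤ T, cc m (vv m) ≤ cc m (x s) := by
    intro s
    induction s with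
    | zero => intro _; rw [h0]
    | succ s ih =>
      intro hs
      exact (ih (by omega)).trans (hp s (by omega)).1.le
  -- every vertex is visited
  have hvis : ∀ i : ℕ, 1 ≤ i → i ≤ 2 ^ m - 1 → ∃ j ≤ T, |x j 0 - i / 2 ^ m| < 1 / 2 ^ (m + 1) := by
    intro i hi1 hi2
    have hi3 : i ≤ 2 ^ m := by omega
    set q : ℝ := i / 2 ^ m with hq
    have hq1 : q ≤ 1 := by
      rw [hq, div_le_one (by positivity)]
      exact_mod_cast hi3
    have hqe : ep m < q := by
      have h1 : (1 : ℝ) / 2 ^ m ≤ q := by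
        apply div_le_div_of_nonneg_right _ (by positivity)
        exact_mod_cast hi1
      have h2 : ep m < 1 / 2 ^ m := by
        unfold ep
        apply one_div_lt_one_div_of_lt (by positivity)
        exact pow_lt_pow_right₀ (by norm_num) (by omega)
      linarith
    have hex : ∃ j, q ≤ x j 0 := ⟨T, by rw [hT, tp_zero]; exact hq1⟩
    set j := Nat.find hex with hj
    have hj1 : q ≤ x j 0 := Nat.find_spec hex
    have hjT : j ≤ T := Nat.find_min' hex (by rw [hT, tp_zero]; exact hq1)
    have hj0 : j ≠ 0 := by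
      intro h
      rw [h, h0] at hj1
      have : vv m 0 = ep m := rfl
      linarith
    obtain ⟨s, hs⟩ : ∃ s, j = s + 1 := ⟨j - 1, by omega⟩
    have hsj : x s 0 < q := by
      have := Nat.find_min hex (m := s) (by omega)
      push Not at this
      exact this
    obtain ⟨hC, σ, hσ⟩ := hp s (by omega)
    obtain ⟨σ', hσ'⟩ := hthin s (by omega)
    -- the functional
    set ν := z s - σ' • cc m with hν
    have hfun : z s - σ • cc m = ν + (σ' - σ) • cc m := by
      rw [hν]; module
    rw [hfun] at hσ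
    have hμ : 0 ≤ σ' - σ := by
      have hR := right_mem_mx hσ
      have h1 := hR.2 _ (vv_mem hm)
      have h2 := hσ' _ hR.1
      simp only [LinearMap.add_apply, LinearMap.smul_apply, smul_eq_mul] at h1
      have h3 : cc m (vv m) < cc m (x (s + 1)) := lt_of_le_of_lt (hinc s (by omega)) hC
      have h4 : 0 ≤ (σ' - σ) * (cc m (x (s + 1)) - cc m (vv m)) := by
        linarith
      by_contra hc
      push Not at hc
      nlinarith
    have hlift := lift_mem hi1 hi3
    have hjump := jump hm ν hσ' (σ' - σ) hμ hlift (ff_lift m i hi3) hσ (by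
      change x s 0 ≤ q
      exact hsj.le) (by
      change q ≤ x (s + 1) 0
      rw [← hs]
      exact hj1)
    have e : lift m ((i : ℝ) / 2 ^ m) 0 = q := rfl
    rw [e, ← hs] at hjump
    have hnum : 2 * ((m : ℝ) * dl m) < 1 / 2 ^ (m + 1) * (1 / 2 ^ (m + 1)) := by
      unfold dl
      have h1 := two_pow_ge m
      have h2 : (2 : ℝ) ^ (3 * m + 4) = 2 ^ m * (2 ^ (m + 1) * 2 ^ (m + 1)) * 4 := by ring
      rw [h2]
      have h3 : (0 : ℝ) < 2 ^ m := by positivity
      have h4 : (0 : ℝ) < 2 ^ (m + 1) := by positivity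
      have h5 : 2 * ((m : ℝ) * (1 / (2 ^ m * (2 ^ (m + 1) * 2 ^ (m + 1)) * 4))) =
          (m / 2 ^ m) * (1 / 2) * (1 / 2 ^ (m + 1) * (1 / 2 ^ (m + 1))) := by
        field_simp
        norm_num
      rw [h5]
      have h6 : (m : ℝ) / 2 ^ m ≤ 1 := by
        rw [div_le_one h3]; exact h1
      have h7 : (0 : ℝ) < 1 / 2 ^ (m + 1) * (1 / 2 ^ (m + 1)) := by positivity
      nlinarith
    by_contra hcon
    push Not at hcon
    have c1 := hcon s (by omega)
    have c2 := hcon j hjT
    rw [abs_of_neg (by linarith)] at c1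
    rw [abs_of_nonneg (by linarith)] at c2
    have c3 : 1 / 2 ^ (m + 1) * (1 / 2 ^ (m + 1)) ≤ (q - x s 0) * (x j 0 - q) :=
      mul_le_mul (by linarith) c2 (by positivity) (by linarith)
    linarith
  -- counting
  choose! j hjT hj using hvis
  have hinj : Set.InjOn j (Finset.Icc 1 (2 ^ m - 1) : Finset ℕ) := by
    intro i hi i' hi' he
    simp only [Finset.coe_Icc, Set.mem_Icc] at hi hi'
    have h1 := hj i hi.1 hi.2
    have h2 := hj i' hi'.1 hi'.2
    rw [← he] at h2
    have h3 : |(i : ℝ) / 2 ^ m - i' / 2 ^ m| < 1 / 2 ^ m := by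
      have e : (i : ℝ) / 2 ^ m - i' / 2 ^ m = (x (j i) 0 - i' / 2 ^ m) - (x (j i) 0 - i / 2 ^ m) := by ring
      rw [e]
      refine lt_of_le_of_lt (abs_sub _ _) ?_
      have : (1 : ℝ) / 2 ^ m = 1 / 2 ^ (m + 1) + 1 / 2 ^ (m + 1) := by
        rw [pow_succ]; field_simp; norm_num
      linarith
    rw [← sub_div, abs_div, abs_of_pos (by positivity : (0 : ℝ) < 2 ^ m),
      div_lt_div_iff_of_pos_right (by positivity)] at h3
    have h4 : |((i : ℤ) - (i' : ℤ) : ℤ)| < 1 := by
      have : ((|((i : ℤ) - (i' : ℤ) : ℤ)| : ℤ) : ℝ) < 1 := by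
        push_cast
        exact h3
      exact_mod_cast this
    have h5 := Int.abs_lt_one_iff.1 h4
    omega
  have hcard := Finset.card_le_card_of_injOn (s := Finset.Icc 1 (2 ^ m - 1)) (t := Finset.range (T + 1)) j
    (by
      intro i hi
      simp only [Finset.coe_Icc, Set.mem_Icc] at hi
      have := hjT i hi.1 hi.2
      simp only [Finset.coe_range, Set.mem_Iio]
      omega) hinj
  rw [Nat.card_Icc, Finset.card_range] at hcard
  omega

theorem vv_ne_tp {m : ℕ} (hm : 1 ≤ m) : vv m ≠ tp m := by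
  intro h
  have := congrFun h 0
  rw [tp_zero] at this
  have h1 : vv m 0 = ep m := rfl
  have h2 := ep_le hm
  linarith

theorem vv_extreme {m : ℕ} (hm : 1 ≤ m) : vv m ∈ (blk m).extremePoints ℝ := by
  refine ⟨vv_mem hm, ?_⟩
  rintro y hy w hw ⟨α, β, hα, hβ, hαβ, he⟩
  have hd := dl_pos m
  have hz : zz m y = zz m (vv m) := by
    have h1 := blk_zmax hy
    have h2 := blk_zmax hw
    have h3 : α * zz m y + β * zz m w = zz m (vv m) := by
      rw [← he, map_add, map_smul, map_smul]; rfl
    have h4 : α * (zz m (vv m) - zz m y) + β * (zz m (vv m) - zz m w) = 0 := by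
      have : zz m (vv m) = α * zz m (vv m) + β * zz m (vv m) := by rw [← add_mul, hαβ, one_mul]
      linarith
    have h5 := mul_nonneg hα.le (by linarith : 0 ≤ zz m (vv m) - zz m y)
    have h6 := mul_nonneg hβ.le (by linarith : 0 ≤ zz m (vv m) - zz m w)
    have h7 : α * (zz m (vv m) - zz m y) = 0 := by linarith
    rcases mul_eq_zero.1 h7 with h | h
    · linarith
    · linarith
  have hs : ∀ k : Fin m, y k.succ = ep m := by
    intro k
    have h1 := hy.2.1 k
    have h2 := hw.2.1 k
    have h3 : α * (zz m y + dl m * y k.succ) + β * (zz m w + dl m * w k.succ) =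
        zz m (vv m) + dl m * ep m := by
      have e1 : α * zz m y + β * zz m w = zz m (vv m) := by
        rw [← he, map_add, map_smul, map_smul]; rfl
      have e2 : α * y k.succ + β * w k.succ = ep m := by
        have := congrFun he k.succ
        simpa [vv] using this
      rw [← e1, ← e2]; ring
    have h4 : α * ((zz m (vv m) + dl m * ep m) - (zz m y + dl m * y k.succ)) +
        β * ((zz m (vv m) + dl m * ep m) - (zz m w + dl m * w k.succ)) = 0 := by
      have : zz m (vv m) + dl m * ep m =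
        α * (zz m (vv m) + dl m * ep m) + β * (zz m (vv m) + dl m * ep m) := by
        rw [← add_mul, hαβ, one_mul]
      linarith
    have h5 := mul_nonneg hα.le (by linarith : 0 ≤ (zz m (vv m) + dl m * ep m) - (zz m y + dl m * y k.succ))
    have h6 := mul_nonneg hβ.le (by linarith : 0 ≤ (zz m (vv m) + dl m * ep m) - (zz m w + dl m * w k.succ))
    have h7 : α * ((zz m (vv m) + dl m * ep m) - (zz m y + dl m * y k.succ)) = 0 := by linarith
    rcases mul_eq_zero.1 h7 with h | h
    · linarith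
    · rw [hz] at h
      have : dl m * (ep m - y k.succ) = 0 := by linarith
      rcases mul_eq_zero.1 this with h' | h'
      · linarith
      · linarith
  funext k
  refine Fin.cases ?_ (fun j => hs j) k
  rw [zz_apply, zz_apply] at hz
  have hf : ff m y = ff m (vv m) := by
    rw [ff_apply, ff_apply]
    apply Finset.sum_congr rfl
    intro j _
    rw [hs j]
    rfl
  rw [hf] at hz
  linarith

theorem blk_uniq {m : ℕ} {y : Fin (m + 1) → ℝ} (h : Fold m y) (he : cc m y = cc m (tp m)) : y = tp m := by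
  have h1 := blk_top h
  have h0 : y 0 = 1 := by have := h.2.1; linarith
  have h2 : ∀ k : Fin m, y k.succ = 0 := by
    intro k
    have h3 := small_near_top h k.1 k.2
    rw [h0, sub_self, mul_zero] at h3
    exact le_antisymm h3 (h.1 _)
  funext k
  refine Fin.cases ?_ (fun j => ?_) k
  · rw [h0, tp_zero]
  · rw [h2, tp_succ]

/-- the building block -/
theorem block {m : ℕ} (hm : 1 ≤ m) :
    Block (blk m) (cc m) (zz m) (vv m) (tp m) (1 / 2) (1 / 4) (2 ^ (3 * m + 4)) (ep m) (2 ^ m - 2) where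
  hv := vv_mem hm
  ht := tp_mem hm
  ne := vv_ne_tp hm
  top := fun p hp => by have := blk_top hp.1; have := hp.1.2.1; linarith
  gap := fun p hp hne => blk_gap hm hp hne
  vext := vv_extreme hm
  uniq := fun p hp he => blk_uniq hp.1 he
  lip := fun x hx => blk_lip hm hx
  zmax := fun x hx => blk_zmax hx
  s0 := fun x hx => (blk_aff hx.1).1
  s1 := fun x hx => (blk_aff hx.1).2
  long := fun T x z h0 hT hp ht => blk_long hm T x z h0 hT hp ht

end Pool.Agent.Run7.h689.SH
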