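import Pool.Agent.Run7.h689.Comp
import Pool.Agent.Run7.h689.Blk2
set_option autoImplicit false

/-!
# The linear program with `r + 1` blocks
-/

namespace Pool.Agent.Run7.h689.SH

open Set

/-- the row functionals of a block -/
noncomputable def rl (m : ℕ) (ρ : Fin (m + 1) × Fin 3) : (Fin (m + 1) → ℝ) →ₗ[ℝ] ℝ :=
  Fin.cases
    (match ρ.2 with
      | 0 => -LinearMap.proj 0
      | 1 => LinearMap.proj 0
      | 2 => zz m - dl m • ∑ k : Fin m, LinearMap.proj k.succ)
    (fun j => match ρ.2 with
      | 0 => LinearMap.proj j.succ - (2 : ℝ) • LinearMap.proj j.castSucc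
      | 1 => LinearMap.proj j.succ + (2 : ℝ) • LinearMap.proj j.castSucc
      | 2 => zz m + dl m • LinearMap.proj j.succ) ρ.1

/-- the right hand sides of a block -/
noncomputable def rb (m : ℕ) (ρ : Fin (m + 1) × Fin 3) : ℝ :=
  Fin.cases
    (match ρ.2 with
      | 0 => 0
      | 1 => 1
      | 2 => zz m (vv m) - dl m * (m * ep m))
    (fun _ => match ρ.2 with
      | 0 => 0
      | 1 => 2
      | 2 => zz m (vv m) + dl m * ep m) ρ.1

theorem blk_iff (m : ℕ) (y : Fin (m + 1) → ℝ) :
    y ∈ blk m ↔ (∀ j : Fin m, 0 ≤ y j.succ) ∧ ∀ ρ, rl m ρ y ≤ rb m ρ := by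
  constructor
  · rintro ⟨⟨h1, h2, h3⟩, h4, h5⟩
    refine ⟨fun j => h1 _, ?_⟩
    rintro ⟨k, a⟩
    refine Fin.cases ?_ (fun j => ?_) k
    · fin_cases a
      · simp only [rl, rb, Fin.cases_zero]
        have := h1 0
        simp only [LinearMap.neg_apply, LinearMap.proj_apply]
        linarith
      · simpa [rl, rb] using h2
      · simp only [rl, rb, Fin.cases_zero, LinearMap.sub_apply, LinearMap.smul_apply,
          LinearMap.sum_apply, LinearMap.proj_apply, smul_eq_mul]
        exact h5
    · fin_cases a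
      · simp only [rl, rb, Fin.cases_succ, LinearMap.sub_apply, LinearMap.smul_apply,
          LinearMap.proj_apply, smul_eq_mul]
        have := (h3 j).1
        linarith
      · simp only [rl, rb, Fin.cases_succ, LinearMap.add_apply, LinearMap.smul_apply,
          LinearMap.proj_apply, smul_eq_mul]
        exact (h3 j).2
      · simp only [rl, rb, Fin.cases_succ, LinearMap.add_apply, LinearMap.smul_apply,
          LinearMap.proj_apply, smul_eq_mul]
        exact h4 j
  · rintro ⟨h1, h2⟩
    refine ⟨⟨fun k => ?_, ?_, fun j => ⟨?_, ?_⟩⟩, fun j => ?_, ?_⟩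
    · refine Fin.cases ?_ (fun j => h1 j) k
      have := h2 (0, 0)
      simp only [rl, rb, Fin.cases_zero, LinearMap.neg_apply, LinearMap.proj_apply] at this
      linarith
    · have := h2 (0, 1)
      simpa [rl, rb] using this
    · have := h2 (j.succ, 0)
      simp only [rl, rb, Fin.cases_succ, LinearMap.sub_apply, LinearMap.smul_apply,
          LinearMap.proj_apply, smul_eq_mul] at this
      linarith
    · have := h2 (j.succ, 1)
      simp only [rl, rb, Fin.cases_succ, LinearMap.add_apply, LinearMap.smul_apply,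
          LinearMap.proj_apply, smul_eq_mul] at this
      exact this
    · have := h2 (j.succ, 2)
      simp only [rl, rb, Fin.cases_succ, LinearMap.add_apply, LinearMap.smul_apply,
          LinearMap.proj_apply, smul_eq_mul] at this
      exact this
    · have := h2 (0, 2)
      simp only [rl, rb, Fin.cases_zero, LinearMap.sub_apply, LinearMap.smul_apply,
          LinearMap.sum_apply, LinearMap.proj_apply, smul_eq_mul] at this
      exact this

/-- the slack of a row at the top -/
noncomputable def sl (m : ℕ) (ρ : Fin (m + 1) × Fin 3) : ℝ := rb m ρ - rl m ρ (tp m)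

/-- the factor by which the earlier blocks are shrunk -/
noncomputable def af (m : ℕ) (y : Fin (m + 1) → ℝ) : ℝ := aff (1 / 2) (1 / 4) (zz m) y

theorem af_tp (m : ℕ) : af m (tp m) = 0 := by
  unfold af aff
  rw [zz_apply, ff_tp, tp_zero]
  norm_num

/-- sum of the factors of the blocks before `i` -/
noncomputable def sm {r : ℕ} (m : ℕ) (i : Fin r) (x : Fin r → Fin (m + 1) → ℝ) : ℝ :=
  ∑ j, if j < i then af m (x j) else 0

theorem sm_zero {r : ℕ} (m : ℕ) (x : Fin (r + 1) → Fin (m + 1) → ℝ) : sm m 0 x = 0 := by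
  unfold sm
  simp

theorem sm_succ {r : ℕ} (m : ℕ) (i : Fin r) (x : Fin (r + 1) → Fin (m + 1) → ℝ) :
    sm m i.succ x = af m (x 0) + sm m i (fun j => x j.succ) := by
  unfold sm
  rw [Fin.sum_univ_succ]
  simp

/-- the feasible region -/
def PS (r m : ℕ) : Set (Fin (r + 1) → Fin (m + 1) → ℝ) :=
  {x | (∀ i (j : Fin m), 0 ≤ x i j.succ) ∧ ∀ i ρ, rl m ρ (x i) + sl m ρ * sm m i x ≤ rb m ρ}

/-- the objective -/
noncomputable def qq (m : ℕ) : ℝ := (1 / 2) ^ (4 * m + 8)

/-- the objective -/
noncomputable def CC (r m : ℕ) : (Fin (r + 1) → Fin (m + 1) → ℝ) →ₗ[ℝ] ℝ :=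
  ∑ i : Fin (r + 1), (qq m ^ (r - i.1)) • (cc m ∘ₗ LinearMap.proj i)

theorem CC_apply (r m : ℕ) (x : Fin (r + 1) → Fin (m + 1) → ℝ) :
    CC r m x = ∑ i : Fin (r + 1), qq m ^ (r - i.1) * cc m (x i) := by
  simp [CC, LinearMap.sum_apply]

/-- the start vertex -/
noncomputable def st (m : ℕ) : (r : ℕ) → (Fin (r + 1) → Fin (m + 1) → ℝ)
  | 0 => fun _ => vv m
  | r + 1 => Fin.cons (vv m) (fun i => af m (vv m) • tp m + (1 - af m (vv m)) • st m r i)

/-- the equivalence -/
noncomputable def eqv (r m : ℕ) : ((Fin (m + 1) → ℝ) × (Fin (r + 1) → Fin (m + 1) → ℝ)) ≃ₗ[ℝ]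
    (Fin (r + 2) → Fin (m + 1) → ℝ) :=
  Fin.consLinearEquiv ℝ (fun _ : Fin (r + 2) => Fin (m + 1) → ℝ)

theorem eqv_apply (r m : ℕ) (p : (Fin (m + 1) → ℝ) × (Fin (r + 1) → Fin (m + 1) → ℝ)) :
    eqv r m p = Fin.cons p.1 p.2 := rfl

theorem eqv_symm_apply (r m : ℕ) (x : Fin (r + 2) → Fin (m + 1) → ℝ) :
    (eqv r m).symm x = (x 0, fun i => x i.succ) := by
  apply (eqv r m).injective
  rw [LinearEquiv.apply_symm_apply, eqv_apply]
  funext i
  refine Fin.cases rfl (fun j => rfl) i

theorem af_affine (m : ℕ) (y w : Fin (m + 1) → ℝ) (s : ℝ) :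
    af m (s • y + (1 - s) • w) = s * af m y + (1 - s) * af m w := by
  unfold af
  exact s_affine y w s (1 - s) (by ring)

theorem sm_affine {r : ℕ} (m : ℕ) (i : Fin r) (w : Fin r → Fin (m + 1) → ℝ) (s : ℝ) :
    sm m i (fun j => s • tp m + (1 - s) • w j) = (1 - s) * sm m i w := by
  unfold sm
  rw [Finset.mul_sum]
  apply Finset.sum_congr rfl
  intro j _
  rw [af_affine, af_tp]
  split_ifs <;> ring

theorem PS_succ (r m : ℕ) : PS (r + 1) m =
    eqv r m '' comp (PS r m) (fun _ => tp m) (blk m) (aff (1 / 2) (1 / 4) (zz m)) := by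
  ext x
  constructor
  · rintro ⟨h1, h2⟩
    have h0 : x 0 ∈ blk m := by
      rw [blk_iff]
      refine ⟨h1 0, fun ρ => ?_⟩
      have := h2 0 ρ
      rw [sm_zero, mul_zero, add_zero] at this
      exact this
    refine ⟨(x 0, fun i => x i.succ), ⟨h0, ?_⟩, ?_⟩
    · set s := af m (x 0) with hs
      have hs1 : s ≤ 1 / 2 := (blk_aff h0.1).2
      have hs0 : 0 < 1 - s := by linarith
      set w : Fin (r + 1) → Fin (m + 1) → ℝ := fun i => (1 - s)⁻¹ • (x i.succ - s • tp m) with hw
      have hxw : ∀ i, x i.succ = s • tp m + (1 - s) • w i := by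
        intro i
        simp only [hw]
        rw [smul_smul, mul_inv_cancel₀ hs0.ne', one_smul]
        module
      refine ⟨w, ⟨fun i j => ?_, fun i ρ => ?_⟩, ?_⟩
      · have h3 := h1 i.succ j
        rw [hxw i] at h3
        simp only [Pi.add_apply, Pi.smul_apply, smul_eq_mul, tp_succ, mul_zero, zero_add] at h3
        exact (mul_nonneg_iff_of_pos_left hs0).1 h3
      · have h3 := h2 i.succ ρ
        have e : (fun j : Fin (r + 1) => x j.succ) = fun j => s • tp m + (1 - s) • w j := by
          funext j; exact hxw j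
        rw [sm_succ, e, sm_affine, hxw i, map_add, map_smul, map_smul, ← hs] at h3
        simp only [smul_eq_mul] at h3
        have h4 : (1 - s) * (rl m ρ (w i) + sl m ρ * sm m i w) ≤ (1 - s) * rb m ρ := by
          have : rl m ρ (tp m) = rb m ρ - sl m ρ := by unfold sl; ring
          rw [this] at h3
          linarith
        exact le_of_mul_le_mul_left h4 hs0
      · funext i
        exact hxw i
    · rw [eqv_apply]
      funext i
      refine Fin.cases rfl (fun j => rfl) i
  · rintro ⟨p, ⟨h0, w, hw, hp⟩, rfl⟩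
    obtain ⟨y, x⟩ := p
    simp only at h0 hp
    set s := aff (1 / 2) (1 / 4) (zz m) y with hs
    have hs1 : s ≤ 1 / 2 := (blk_aff h0.1).2
    have hs0 : 0 < 1 - s := by linarith
    have hxw : ∀ i, x i = s • tp m + (1 - s) • w i := by
      intro i
      rw [hp]
      rfl
    rw [blk_iff] at h0
    rw [eqv_apply]
    refine ⟨fun i j => ?_, fun i ρ => ?_⟩
    · refine Fin.cases ?_ (fun i => ?_) i
      · exact h0.1 j
      · simp only [Fin.cons_succ]
        rw [hxw i]
        simp only [Pi.add_apply, Pi.smul_apply, smul_eq_mul, tp_succ, mul_zero, zero_add]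
        exact mul_nonneg hs0.le (hw.1 i j)
    · refine Fin.cases ?_ (fun i => ?_) i
      · rw [sm_zero, mul_zero, add_zero]
        exact h0.2 ρ
      · rw [sm_succ]
        simp only [Fin.cons_succ, Fin.cons_zero]
        have e : (fun j : Fin (r + 1) => x j) = fun j => s • tp m + (1 - s) • w j := by
          funext j; exact hxw j
        rw [e, sm_affine, hxw i, map_add, map_smul, map_smul]
        simp only [smul_eq_mul]
        have h4 := mul_le_mul_of_nonneg_left (hw.2 i ρ) hs0.le
        have h5 : rl m ρ (tp m) = rb m ρ - sl m ρ := by unfold sl; ring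
        have h6 : af m y = s := rfl
        rw [h5, h6]
        linarith

theorem PS_zero (m : ℕ) : PS 0 m = (LinearEquiv.funUnique (Fin 1) ℝ (Fin (m + 1) → ℝ)).symm '' blk m := by
  ext x
  constructor
  · rintro ⟨h1, h2⟩
    refine ⟨x 0, ?_, ?_⟩
    · rw [blk_iff]
      refine ⟨h1 0, fun ρ => ?_⟩
      have := h2 0 ρ
      rw [sm_zero, mul_zero, add_zero] at this
      exact this
    · funext i
      have : i = 0 := Subsingleton.elim _ _
      rw [this]
      rfl
  · rintro ⟨y, hy, rfl⟩
    rw [blk_iff] at hy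
    refine ⟨fun i j => hy.1 j, fun i ρ => ?_⟩
    have hi : i = 0 := by
      apply Fin.ext
      have := i.2
      simp only [Fin.val_zero]
      omega
    rw [hi, sm_zero, mul_zero, add_zero]
    exact hy.2 ρ

theorem qq_pos (m : ℕ) : 0 < qq m := by unfold qq; positivity

/-- the linear program with `r + 1` blocks is hard -/
theorem hard {m : ℕ} (hm : 1 ≤ m) : ∀ r : ℕ,
    Hard (PS r m) (CC r m) (st m r) (fun _ => tp m) (qq m ^ r * ep m) (r + 1) (2 ^ m - 2) := by
  intro r
  induction r with
  | zero =>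
    have h := (block hm).hard.map (LinearEquiv.funUnique (Fin 1) ℝ (Fin (m + 1) → ℝ)).symm
    rw [← PS_zero] at h
    have e1 : (LinearEquiv.funUnique (Fin 1) ℝ (Fin (m + 1) → ℝ)).symm (vv m) = st m 0 := rfl
    have e2 : (LinearEquiv.funUnique (Fin 1) ℝ (Fin (m + 1) → ℝ)).symm (tp m) = fun _ => tp m := rfl
    have e3 : cc m ∘ₗ (LinearEquiv.funUnique (Fin 1) ℝ (Fin (m + 1) → ℝ)).symm.symm.toLinearMap = CC 0 m := by
      apply LinearMap.ext
      intro x
      rw [CC_apply]
      simp
    rw [e1, e2, e3] at h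
    rw [pow_zero, one_mul]
    exact h
  | succ r ih =>
    have hq := qq_pos m
    have he := ep_pos m
    have h := (ih.comp (block hm) (by norm_num) (η := qq m ^ (r + 1)) (by positivity) (by
      have e : qq m ^ (r + 1) * 2 ^ (3 * m + 4) = 1 / 4 * (qq m ^ r * ep m) := by
        have : qq m * 2 ^ (3 * m + 4) = 1 / 4 * ep m := by
          unfold qq ep
          have e1 : (2 : ℝ) ^ (4 * m + 8) = 2 ^ (3 * m + 4) * (2 ^ (m + 2) * 4) := by ring
          rw [one_div_pow, e1]
          field_simp
        rw [pow_succ, mul_assoc, this]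
        ring
      exact e.le) (by
      have : qq m ≤ 1 / 2 := by
        unfold qq
        calc (1 / 2 : ℝ) ^ (4 * m + 8) ≤ (1 / 2) ^ 1 :=
              pow_le_pow_of_le_one (by norm_num) (by norm_num) (by omega)
          _ = 1 / 2 := by norm_num
      have h2 : (0 : ℝ) < qq m ^ r * ep m := by positivity
      calc qq m ^ (r + 1) * ep m = qq m * (qq m ^ r * ep m) := by rw [pow_succ]; ring
        _ ≤ 1 / 2 * (qq m ^ r * ep m) := mul_le_mul_of_nonneg_right this h2.le
        _ = qq m ^ r * ep m / 2 := by ring) (by positivity)).map (eqv r m)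
    rw [← PS_succ] at h
    have e1 : eqv r m (emb (fun _ => tp m) (aff (1 / 2) (1 / 4) (zz m)) (vv m) (st m r)) = st m (r + 1) := rfl
    have e2 : eqv r m (tp m, fun _ => tp m) = fun _ => tp m := by
      rw [eqv_apply]
      funext i
      refine Fin.cases rfl (fun j => rfl) i
    have e3 : cobj (CC r m) (cc m) (qq m ^ (r + 1)) ∘ₗ (eqv r m).symm.toLinearMap = CC (r + 1) m := by
      apply LinearMap.ext
      intro x
      rw [LinearMap.comp_apply]
      have : (eqv r m).symm.toLinearMap x = (eqv r m).symm x := rfl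
      have h4 := Fin.sum_univ_succ (fun i : Fin (r + 2) => qq m ^ (r + 1 - i.1) * cc m (x i))
      rw [this, eqv_symm_apply, cobj_apply, CC_apply, CC_apply, h4]
      simp only [Fin.val_zero, Nat.sub_zero, Fin.val_succ, Nat.add_sub_add_right]
      ring
    rw [e1, e2, e3] at h
    exact h

end Pool.Agent.Run7.h689.SH
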