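import Mathlib

set_option autoImplicit false

/-! The kernel functional for the Bohr sets (helper689, MP_112ba8_nt). -/

namespace Pool.Agent.Run7.h689.BH

open Finset Filter Topology MeasureTheory Complex

noncomputable section

/-- the values of the local functional at the characters -/
def cc (r : ℝ) (k : ℤ) : ℝ := if 0 ≤ k then r ^ k.toNat else 0

/-- the kernel -/
def Kr (r y : ℝ) : ℂ := (1 - r * Complex.exp (-(y * I)))⁻¹

lemma nexp (y : ℝ) : ‖Complex.exp (-(y * I))‖ = 1 := by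
  rw [show -((y:ℂ) * I) = ((-y : ℝ) : ℂ) * I by push_cast; ring]
  exact Complex.norm_exp_ofReal_mul_I _

lemma base_low {r : ℝ} (hr0 : 0 ≤ r) (y : ℝ) : 1 - r ≤ ‖1 - r * Complex.exp (-(y * I))‖ := by
  have h := norm_sub_norm_le (1:ℂ) (r * Complex.exp (-(y * I)))
  rw [norm_one, norm_mul, nexp, mul_one, Complex.norm_real, Real.norm_eq_abs, abs_of_nonneg hr0] at h
  exact h

lemma base_up {r : ℝ} (hr0 : 0 ≤ r) (y : ℝ) : ‖1 - r * Complex.exp (-(y * I))‖ ≤ 1 + r := by
  have h := norm_sub_le (1:ℂ) (r * Complex.exp (-(y * I)))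
  rw [norm_one, norm_mul, nexp, mul_one, Complex.norm_real, Real.norm_eq_abs, abs_of_nonneg hr0] at h
  exact h

lemma base_ne {r : ℝ} (hr0 : 0 ≤ r) (hr : r < 1) (y : ℝ) : 1 - r * Complex.exp (-(y * I)) ≠ 0 := by
  rw [← norm_pos_iff]
  exact lt_of_lt_of_le (by linarith) (base_low hr0 y)

lemma Kr_cont {r : ℝ} (hr0 : 0 ≤ r) (hr : r < 1) : Continuous (Kr r) := by
  unfold Kr
  exact Continuous.inv₀ (by fun_prop) (base_ne hr0 hr)

lemma Kr_norm {r : ℝ} (hr0 : 0 ≤ r) (hr : r < 1) (y : ℝ) : ‖Kr r y‖ ≤ 1 / (1 - r) := by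
  unfold Kr
  rw [norm_inv, ← one_div]
  exact one_div_le_one_div_of_le (by linarith) (base_low hr0 y)

lemma Kr_re {r : ℝ} (hr0 : 0 ≤ r) (hr : r < 1) (y : ℝ) : (1 - r) / 4 ≤ (Kr r y).re := by
  unfold Kr
  rw [Complex.inv_re]
  have h1 : 1 - r ≤ (1 - r * Complex.exp (-(y * I))).re := by
    rw [Complex.sub_re, Complex.one_re, Complex.re_ofReal_mul]
    have h2 := Complex.re_le_norm (Complex.exp (-(y * I)))
    rw [nexp] at h2
    nlinarith
  have h3 : Complex.normSq (1 - r * Complex.exp (-(y * I))) ≤ 4 := by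
    rw [Complex.normSq_eq_norm_sq]
    have h4 := base_up hr0 y
    have h5 := norm_nonneg (1 - r * Complex.exp (-(y * I)))
    nlinarith
  have h6 : 0 < Complex.normSq (1 - r * Complex.exp (-(y * I))) := Complex.normSq_pos.mpr (base_ne hr0 hr y)
  rw [div_le_div_iff₀ (by norm_num) h6]
  nlinarith

lemma int_exp {k : ℤ} (hk : k ≠ 0) : ∫ y in (-Real.pi)..Real.pi, Complex.exp (k * y * I) = 0 := by
  have hc : (k:ℂ) * I ≠ 0 := mul_ne_zero (by exact_mod_cast hk) I_ne_zero
  have h := integral_exp_mul_complex (a := -Real.pi) (b := Real.pi) hc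
  have e1 : ∀ y : ℝ, Complex.exp (k * y * I) = Complex.exp (k * I * y) := fun y => by congr 1; ring
  simp_rw [e1]
  rw [h]
  have e2 : Complex.exp (k * I * (Real.pi : ℝ)) = Complex.exp (k * I * ((-Real.pi : ℝ) : ℂ)) := by
    have e3 : (k:ℂ) * I * (Real.pi : ℝ) = k * I * ((-Real.pi : ℝ) : ℂ) + k * (2 * Real.pi * I) := by
      push_cast; ring
    rw [e3, Complex.exp_add, Complex.exp_int_mul_two_pi_mul_I, mul_one]
  rw [e2, sub_self, zero_div]

/-- the functional at the characters -/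
def GK (r : ℝ) (k : ℤ) : ℂ := ∫ y in (-Real.pi)..Real.pi, Complex.exp (k * y * I) * Kr r y

lemma GK_cont {r : ℝ} (hr0 : 0 ≤ r) (hr : r < 1) (k : ℤ) :
    Continuous fun y : ℝ => Complex.exp (k * y * I) * Kr r y := by
  have := Kr_cont hr0 hr
  fun_prop

lemma GK_norm {r : ℝ} (hr0 : 0 ≤ r) (hr : r < 1) (k : ℤ) : ‖GK r k‖ ≤ 1 / (1 - r) * |Real.pi - -Real.pi| := by
  unfold GK
  refine intervalIntegral.norm_integral_le_of_norm_le_const fun y _ => ?_
  rw [norm_mul, show (k:ℂ) * y * I = ((k * y : ℝ) : ℂ) * I by push_cast; ring,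
    Complex.norm_exp_ofReal_mul_I, one_mul]
  exact Kr_norm hr0 hr y

lemma GK_rec {r : ℝ} (hr0 : 0 ≤ r) (hr : r < 1) (k : ℤ) :
    GK r k = (∫ y in (-Real.pi)..Real.pi, Complex.exp (k * y * I)) + r * GK r (k - 1) := by
  have e : ∀ y : ℝ, Complex.exp (k * y * I) * Kr r y =
      Complex.exp (k * y * I) + r * (Complex.exp (((k - 1 : ℤ) : ℂ) * y * I) * Kr r y) := by
    intro y
    have h1 : Kr r y * (1 - r * Complex.exp (-(y * I))) = 1 := by
      unfold Kr; exact inv_mul_cancel₀ (base_ne hr0 hr y)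
    have h2 : Complex.exp (((k - 1 : ℤ) : ℂ) * y * I) = Complex.exp (k * y * I) * Complex.exp (-(y * I)) := by
      rw [← Complex.exp_add]; congr 1; push_cast; ring
    rw [h2]
    linear_combination (Complex.exp (k * y * I)) * h1
  unfold GK
  rw [intervalIntegral.integral_congr (fun y _ => e y), intervalIntegral.integral_add,
    intervalIntegral.integral_const_mul]
  · exact (by fun_prop : Continuous fun y : ℝ => Complex.exp (k * y * I)).intervalIntegrable _ _
  · exact (continuous_const.mul (GK_cont hr0 hr (k - 1))).intervalIntegrable _ _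

lemma GK_neg {r : ℝ} (hr0 : 0 ≤ r) (hr : r < 1) {k : ℤ} (hk : k < 0) : GK r k = 0 := by
  have h1 : ∀ n : ℕ, GK r k = r ^ n * GK r (k - n) := by
    intro n
    induction n with
    | zero => simp
    | succ n ih =>
      rw [ih, GK_rec hr0 hr (k - n), int_exp (by omega), zero_add, pow_succ]
      have : k - (n:ℤ) - 1 = k - ((n + 1 : ℕ) : ℤ) := by push_cast; ring
      rw [this]; ring
  have h2 : ∀ n : ℕ, ‖GK r k‖ ≤ r ^ n * (1 / (1 - r) * |Real.pi - -Real.pi|) := by
    intro n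
    have h3 := h1 n
    have h4 : ‖GK r k‖ = r ^ n * ‖GK r (k - n)‖ := by
      rw [h3, norm_mul, norm_pow, Complex.norm_real, Real.norm_eq_abs, abs_of_nonneg hr0]
    rw [h4]
    exact mul_le_mul_of_nonneg_left (GK_norm hr0 hr _) (by positivity)
  have h3 : Tendsto (fun n : ℕ => r ^ n * (1 / (1 - r) * |Real.pi - -Real.pi|)) atTop (𝓝 0) := by
    simpa using (tendsto_pow_atTop_nhds_zero_of_lt_one hr0 hr).mul_const (1 / (1 - r) * |Real.pi - -Real.pi|)
  have h4 := ge_of_tendsto' h3 h2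
  exact norm_le_zero_iff.mp h4

lemma GK_nat {r : ℝ} (hr0 : 0 ≤ r) (hr : r < 1) (k : ℕ) : GK r k = 2 * Real.pi * r ^ k := by
  induction k with
  | zero =>
    rw [GK_rec hr0 hr]
    have h0 : GK r (((0:ℕ):ℤ) - 1) = 0 := GK_neg hr0 hr (by norm_num)
    rw [h0]
    simp
    ring
  | succ k ih =>
    rw [GK_rec hr0 hr, int_exp (by omega)]
    have : (((k + 1 : ℕ) : ℤ) - 1) = (k:ℤ) := by push_cast; ring
    rw [this, ih, pow_succ]
    ring

lemma GK_eq {r : ℝ} (hr0 : 0 ≤ r) (hr : r < 1) (k : ℤ) : GK r k = 2 * Real.pi * (cc r k : ℝ) := by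
  unfold cc
  split_ifs with h
  · obtain ⟨n, rfl⟩ := Int.eq_ofNat_of_zero_le h
    rw [GK_nat hr0 hr, Int.toNat_natCast]
    push_cast
    rfl
  · rw [GK_neg hr0 hr (not_le.mp h)]
    simp

/-- one variable -/
theorem one_dim {r : ℝ} (hr0 : 0 ≤ r) (hr : r < 1) {v : ℂ} (hv : ‖v‖ = 1) {δ : ℝ} (hδ : 0 < δ) :
    ∃ φ : ℝ → ℝ, Continuous φ ∧ (∀ x, 0 ≤ φ x ∧ φ x ≤ 1) ∧ (∀ x : ℝ, 0 < φ x → ‖Complex.exp (x * I) - v‖ < δ) ∧
      ∃ lam0 : ℝ, 0 < lam0 ∧ ∀ ε : ℝ, 0 < ε → ∃ (s : Finset ℤ) (a : ℤ → ℂ),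
        (∀ x : ℝ, ‖(φ x : ℂ) - ∑ k ∈ s, a k * Complex.exp (k * x * I)‖ ≤ ε) ∧
        lam0 ≤ ‖∑ k ∈ s, a k * (cc r k : ℝ)‖ := by
  have : Fact (0 < 2 * Real.pi) := ⟨Real.two_pi_pos⟩
  set g : ℂ → ℝ := fun z => max 0 (1 - ‖z - v‖ / δ) with hg
  have hgc : Continuous g := by rw [hg]; fun_prop
  set φ : ℝ → ℝ := fun x => g (Complex.exp (x * I)) with hφ
  have hφc : Continuous φ := hgc.comp (by fun_prop)
  have hφ0 : ∀ x, 0 ≤ φ x := fun x => le_max_left _ _
  have hφ1 : ∀ x, φ x ≤ 1 := fun x => max_le zero_le_one (by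
    have : 0 ≤ ‖Complex.exp (x * I) - v‖ / δ := by positivity
    linarith)
  have hφd : ∀ x : ℝ, 0 < φ x → ‖Complex.exp (x * I) - v‖ < δ := by
    intro x hx
    have h1 : 0 < 1 - ‖Complex.exp (x * I) - v‖ / δ := by
      by_contra hcon
      have : φ x = 0 := max_eq_left (not_lt.mp hcon)
      linarith
    have h2 : ‖Complex.exp (x * I) - v‖ / δ < 1 := by linarith
    rwa [div_lt_one hδ] at h2
  set LL : (ℝ → ℂ) → ℂ := fun f => ∫ y in (-Real.pi)..Real.pi, f y * Kr r y with hLL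
  -- positivity
  set Lφ : ℂ := LL fun y => (φ y : ℂ) with hLφ
  have hcφK : Continuous fun y : ℝ => (φ y : ℂ) * Kr r y :=
    (Complex.continuous_ofReal.comp hφc).mul (Kr_cont hr0 hr)
  have hpos : 0 < ‖Lφ‖ := by
    have h1 : 0 < ∫ y in (-Real.pi)..Real.pi, φ y := by
      refine intervalIntegral.integral_pos (by linarith [Real.pi_pos]) hφc.continuousOn (fun x _ => hφ0 x) ?_
      refine ⟨Complex.arg v, ⟨(Complex.neg_pi_lt_arg v).le, Complex.arg_le_pi v⟩, ?_⟩
      have h2 : Complex.exp (Complex.arg v * I) = v := by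
        have := Complex.norm_mul_exp_arg_mul_I v
        rwa [hv, Complex.ofReal_one, one_mul] at this
      have h3 : φ (Complex.arg v) = 1 := by
        show max 0 (1 - ‖Complex.exp (Complex.arg v * I) - v‖ / δ) = 1
        rw [h2]; simp
      rw [h3]; norm_num
    have h2 : (1 - r) / 4 * (∫ y in (-Real.pi)..Real.pi, φ y) ≤ Lφ.re := by
      have e1 : Lφ.re = ∫ y in (-Real.pi)..Real.pi, ((φ y : ℂ) * Kr r y).re := by
        rw [hLφ, hLL]
        simp only
        rw [intervalIntegral.integral_of_le (by linarith [Real.pi_pos]),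
          intervalIntegral.integral_of_le (by linarith [Real.pi_pos])]
        exact (integral_re (hcφK.integrableOn_Ioc)).symm
      rw [e1, ← intervalIntegral.integral_const_mul]
      refine intervalIntegral.integral_mono_on (by linarith [Real.pi_pos])
        ((hφc.const_mul _).intervalIntegrable _ _)
        ((Complex.continuous_re.comp hcφK).intervalIntegrable _ _) fun y _ => ?_
      rw [Complex.re_ofReal_mul, mul_comm]
      exact mul_le_mul_of_nonneg_left (Kr_re hr0 hr y) (hφ0 y)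
    have h3 := Complex.re_le_norm Lφ
    have h4 : 0 < (1 - r) / 4 * (∫ y in (-Real.pi)..Real.pi, φ y) := mul_pos (by linarith) h1
    linarith
  have hpi := Real.pi_pos
  refine ⟨φ, hφc, fun x => ⟨hφ0 x, hφ1 x⟩, hφd, ‖Lφ‖ / (4 * Real.pi), by positivity, fun ε hε => ?_⟩
  set ε' : ℝ := min ε (‖Lφ‖ * (1 - r) / (4 * Real.pi)) with hε'
  have h1r : 0 < 1 - r := by linarith
  have hε'0 : 0 < ε' := lt_min hε (by positivity)
  -- approximation
  set f : C(AddCircle (2 * Real.pi), ℂ) :=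
    ⟨fun θ => (g (AddCircle.toCircle θ : ℂ) : ℂ), by
      have h1 : Continuous fun θ : AddCircle (2 * Real.pi) => (AddCircle.toCircle θ : ℂ) :=
        continuous_subtype_val.comp AddCircle.continuous_toCircle
      exact Complex.continuous_ofReal.comp (hgc.comp h1)⟩ with hf
  have hfφ : ∀ x : ℝ, f (x : AddCircle (2 * Real.pi)) = (φ x : ℂ) := by
    intro x
    show (g (AddCircle.toCircle (x : AddCircle (2 * Real.pi)) : ℂ) : ℂ) = (φ x : ℂ)
    rw [AddCircle.toCircle_apply_mk, Circle.coe_exp, hφ]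
    simp only
    congr 3
    rw [div_self (by positivity), one_mul]
  have hmem : f ∈ (Submodule.span ℂ (Set.range (fourier (T := 2 * Real.pi)))).topologicalClosure := by
    rw [span_fourier_closure_eq_top]; trivial
  have hcl : f ∈ closure ((Submodule.span ℂ (Set.range (fourier (T := 2 * Real.pi)))) : Set _) := hmem
  obtain ⟨P, hP, hdist⟩ := Metric.mem_closure_iff.mp hcl ε' hε'0
  rw [SetLike.mem_coe, Finsupp.mem_span_range_iff_exists_finsupp] at hP
  obtain ⟨a, ha⟩ := hP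
  have hPx : ∀ x : ℝ, P (x : AddCircle (2 * Real.pi)) = ∑ k ∈ a.support, a k * Complex.exp (k * x * I) := by
    intro x
    rw [← ha, Finsupp.sum, ContinuousMap.sum_apply]
    refine sum_congr rfl fun k _ => ?_
    rw [ContinuousMap.smul_apply, fourier_coe_apply, smul_eq_mul]
    congr 2
    have : (Real.pi : ℂ) ≠ 0 := by exact_mod_cast hpi.ne'
    push_cast
    field_simp
  have happ : ∀ x : ℝ, ‖(φ x : ℂ) - ∑ k ∈ a.support, a k * Complex.exp (k * x * I)‖ ≤ ε' := by
    intro x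
    rw [← hfφ, ← hPx, ← dist_eq_norm]
    exact (ContinuousMap.dist_apply_le_dist _).trans hdist.le
  refine ⟨a.support, a, fun x => (happ x).trans (min_le_left _ _), ?_⟩
  -- the functional at P
  have hLP : LL (fun y => ∑ k ∈ a.support, a k * Complex.exp (k * y * I)) =
      2 * Real.pi * ∑ k ∈ a.support, a k * (cc r k : ℝ) := by
    rw [hLL]
    simp only
    have e1 : ∀ y : ℝ, (∑ k ∈ a.support, a k * Complex.exp (k * y * I)) * Kr r y =
        ∑ k ∈ a.support, a k * (Complex.exp (k * y * I) * Kr r y) := by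
      intro y
      rw [sum_mul]
      refine sum_congr rfl fun k _ => by ring
    rw [intervalIntegral.integral_congr (fun y _ => e1 y), intervalIntegral.integral_finsetSum]
    · rw [mul_sum]
      refine sum_congr rfl fun k _ => ?_
      rw [intervalIntegral.integral_const_mul]
      have := GK_eq hr0 hr k
      unfold GK at this
      rw [this]; ring
    · intro k _
      exact (continuous_const.mul (GK_cont hr0 hr k)).intervalIntegrable _ _
  have hdiff : ‖Lφ - 2 * Real.pi * ∑ k ∈ a.support, a k * (cc r k : ℝ)‖ ≤ ‖Lφ‖ / 2 := by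
    rw [← hLP, hLφ, hLL]
    simp only
    have hcP : Continuous fun y : ℝ => (∑ k ∈ a.support, a k * Complex.exp (k * y * I)) * Kr r y :=
      (continuous_finsetSum _ fun k _ => by fun_prop).mul (Kr_cont hr0 hr)
    rw [← intervalIntegral.integral_sub (hcφK.intervalIntegrable _ _) (hcP.intervalIntegrable _ _)]
    have h5 : ‖∫ y in (-Real.pi)..Real.pi, ((φ y : ℂ) * Kr r y -
        (∑ k ∈ a.support, a k * Complex.exp (k * y * I)) * Kr r y)‖ ≤ (ε' * (1 / (1 - r))) * |Real.pi - -Real.pi| := by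
      refine intervalIntegral.norm_integral_le_of_norm_le_const fun y _ => ?_
      rw [← sub_mul, norm_mul]
      exact mul_le_mul (happ y) (Kr_norm hr0 hr y) (norm_nonneg _) hε'0.le
    refine h5.trans ?_
    have h6 : |Real.pi - -Real.pi| = 2 * Real.pi := by
      rw [abs_of_pos (by linarith)]; ring
    rw [h6]
    calc ε' * (1 / (1 - r)) * (2 * Real.pi) ≤
        (‖Lφ‖ * (1 - r) / (4 * Real.pi)) * (1 / (1 - r)) * (2 * Real.pi) := by
          gcongr
          exact min_le_right _ _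
      _ = ‖Lφ‖ / 2 := by field_simp; ring
  have h7 := norm_sub_norm_le Lφ (2 * Real.pi * ∑ k ∈ a.support, a k * (cc r k : ℝ))
  have h8 : ‖2 * (Real.pi : ℂ) * ∑ k ∈ a.support, a k * (cc r k : ℝ)‖ =
      2 * Real.pi * ‖∑ k ∈ a.support, a k * (cc r k : ℝ)‖ := by
    rw [norm_mul, norm_mul, Complex.norm_real, Real.norm_eq_abs, abs_of_pos hpi]
    norm_num
  rw [h8] at h7
  rw [div_le_iff₀ (by positivity)]
  linarith

end

end Pool.Agent.Run7.h689.BH
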