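import Pool.Agent.Run7.h689.BH4

set_option autoImplicit false

/-! The local constants (helper689, MP_112ba8_nt). -/

namespace Pool.Agent.Run7.h689.BH

open Finset Filter Topology MeasureTheory Complex MonoidAlgebra
open Pool.Agent.W184.NZ
open Pool.Agent.TH806 Pool.Agent.TH806.LK
open Pool.Agent.H306R2.SM (om cl Yf ef)
open Pool.Agent.H262R4.TM (Rng Ck)

noncomputable section

lemma cc_zero (k : ℤ) : cc 0 k = if k = 0 then 1 else 0 := by
  unfold cc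
  by_cases h : k = 0
  · simp [h]
  · rw [if_neg h]
    split_ifs with h1
    · exact zero_pow (by omega)
    · rfl

/-- numerator -/
def lN (S : Finset ℕ) (k : S → ℤ) : ℕ := ∏ p : S, (p : ℕ) ^ (k p).toNat

/-- denominator -/
def hN (S : Finset ℕ) (k : S → ℤ) : ℕ := ∏ p : S, (p : ℕ) ^ (-k p).toNat

lemma mem_MI_N {S : Finset ℕ} (hS : ∀ p ∈ S, p.Prime) (k : S → ℤ) : (hN S k, lN S k) ∈ MI S := by
  have key : ∀ e : S → ℕ, (∏ p : S, (p : ℕ) ^ e p) ≠ 0 ∧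
      ∀ q : ℕ, q.Prime → q ∣ (∏ p : S, (p : ℕ) ^ e p) → q ∈ S := by
    intro e
    refine ⟨prod_ne_zero_iff.mpr fun p _ => pow_ne_zero _ (hS p p.2).ne_zero, fun q hq hd => ?_⟩
    obtain ⟨p, _, hp⟩ := (Prime.dvd_finsetProd_iff hq.prime _).mp hd
    have h1 := hq.dvd_of_dvd_pow hp
    rw [(Nat.prime_dvd_prime_iff_eq hq (hS p p.2)).mp h1]
    exact p.2
  refine ⟨(key fun p => (-k p).toNat).1, (key fun p => (k p).toNat).1, fun q hq hd => ?_⟩
  rcases hd with h | h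
  · exact (key fun p => (-k p).toNat).2 q hq h
  · exact (key fun p => (k p).toNat).2 q hq h

lemma log_N {S : Finset ℕ} (hS : ∀ p ∈ S, p.Prime) (k : S → ℤ) :
    Real.log (lN S k) - Real.log (hN S k) = ∑ p : S, (k p : ℝ) * Real.log (p : ℕ) := by
  unfold lN hN
  push_cast
  rw [Real.log_prod (fun p _ => pow_ne_zero _ (by exact_mod_cast (hS p p.2).ne_zero)),
    Real.log_prod (fun p _ => pow_ne_zero _ (by exact_mod_cast (hS p p.2).ne_zero)), ← sum_sub_distrib]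
  refine sum_congr rfl fun p _ => ?_
  rw [Real.log_pow, Real.log_pow, ← sub_mul]
  congr 1
  have := Int.toNat_sub_toNat_neg (k p)
  exact_mod_cast this

lemma const_N {S : Finset ℕ} (hS : ∀ p ∈ S, p.Prime) (k : S → ℤ) :
    Real.sqrt (hN S k) * Real.sqrt (lN S k) * wF (hN S k, lN S k) =
      ∏ p : S, cc (((p : ℕ) : ℝ) ^ (-(1 / 2) : ℝ)) (k p) := by
  by_cases hall : ∀ p : S, 0 ≤ k p
  · have h1 : hN S k = 1 := by
      unfold hN
      refine prod_eq_one fun p _ => ?_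
      have : (-k p).toNat = 0 := by
        have := hall p
        omega
      rw [this, pow_zero]
    have hl0 : (0:ℝ) < lN S k := by
      exact_mod_cast Nat.pos_of_ne_zero (mem_MI_N hS k).2.1
    have h2 : wF (hN S k, lN S k) = 1 / (lN S k : ℝ) := by
      unfold wF
      rw [if_pos]
      rw [h1]; exact one_dvd _
    rw [h2, h1]
    have h3 : ∏ p : S, cc (((p : ℕ) : ℝ) ^ (-(1 / 2) : ℝ)) (k p) = (lN S k : ℝ) ^ (-(1 / 2) : ℝ) := by
      unfold lN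
      push_cast
      rw [← Real.finsetProd_rpow _ _ (fun p _ => by positivity)]
      refine prod_congr rfl fun p _ => ?_
      unfold cc
      rw [if_pos (hall p), ← Real.rpow_natCast, ← Real.rpow_natCast, ← Real.rpow_mul (by positivity),
        ← Real.rpow_mul (by positivity), mul_comm]
    rw [h3, Real.rpow_neg hl0.le, ← Real.sqrt_eq_rpow]
    have h4 : 0 < Real.sqrt (lN S k) := Real.sqrt_pos.mpr hl0
    have h5 : Real.sqrt (lN S k) * Real.sqrt (lN S k) = lN S k := Real.mul_self_sqrt hl0.le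
    rw [Nat.cast_one, Real.sqrt_one, one_mul]
    rw [mul_one_div, div_eq_iff hl0.ne', eq_comm, inv_mul_eq_div, div_eq_iff h4.ne', h5]
  · push Not at hall
    obtain ⟨p₀, hp₀⟩ := hall
    rw [prod_eq_zero (mem_univ p₀) (show cc (((p₀ : ℕ) : ℝ) ^ (-(1 / 2) : ℝ)) (k p₀) = 0 from if_neg (by omega))]
    have hnd : ¬ hN S k ∣ lN S k := by
      intro hd
      have hp : (p₀ : ℕ).Prime := hS p₀ p₀.2
      have h1 : (p₀ : ℕ) ∣ hN S k := by
        refine dvd_trans (dvd_pow_self _ (show (-k p₀).toNat ≠ 0 by omega)) ?_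
        exact dvd_prod_of_mem (fun p : S => (p : ℕ) ^ (-k p).toNat) (mem_univ p₀)
      have h2 : (p₀ : ℕ) ∣ lN S k := h1.trans hd
      obtain ⟨q, _, hq⟩ := (Prime.dvd_finsetProd_iff hp.prime _).mp h2
      by_cases hq0 : (k q).toNat = 0
      · rw [hq0, pow_zero] at hq
        exact hp.one_lt.ne' (Nat.dvd_one.mp hq)
      · have h3 := (Nat.prime_dvd_prime_iff_eq hp (hS q q.2)).mp (hp.dvd_of_dvd_pow hq)
        have h4 : p₀ = q := Subtype.ext h3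
        rw [← h4] at hq0
        omega
    unfold wF
    rw [if_neg hnd, mul_zero]

lemma EL_mono {σ σ' ω : ℝ} {χ : ℂ} (h : σ ≤ σ') (hE : EL σ' ω χ) : EL σ ω χ := by
  filter_upwards [hE, eventually_ge_atTop (1:ℝ)] with T hT hT1 κ hκ a b ha hb h1 h2
  exact hT κ hκ a b ha hb (h1.trans (Real.rpow_le_rpow_of_exponent_le hT1 h))
    (h2.trans (Real.rpow_le_rpow_of_exponent_le hT1 h))

/-- the frequencies -/
def al (S : Finset ℕ) {m : ℕ} (θ : Fin m → ℝ) : S ⊕ Fin m → ℝ := Sum.elim (fun p => Real.log (p : ℕ)) θ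

/-- the radii -/
def rr (S : Finset ℕ) (m : ℕ) : S ⊕ Fin m → ℝ := Sum.elim (fun p => ((p : ℕ) : ℝ) ^ (-(1 / 2) : ℝ)) fun _ => 0

theorem tw_all (hZ : P_ZM) (hF : P_WF) {S : Finset ℕ} (hS : ∀ p ∈ S, p.Prime) {m : ℕ} {θ : Fin m → ℝ} {n : ℕ}
    (hθ : ∀ j : Fin m → ℤ, j ≠ 0 → ∃ c : ℝ, 0 < c ∧ ∀ a b : ℕ, 1 ≤ b →
      c / (b:ℝ) ^ n ≤ |Real.exp (∑ i, j i * θ i) - a / b|) (k : S ⊕ Fin m → ℤ) :
    TwP S (1 / (4 * ((n:ℝ) + 1)) / 8) (∑ i, k i * al S θ i) ((∏ i, cc (rr S m i) (k i) : ℝ) : ℂ) := by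
  have hσ0 : 0 < 1 / (4 * ((n:ℝ) + 1)) := by positivity
  have hσ4 : 1 / (4 * ((n:ℝ) + 1)) ≤ 1 / 4 := by
    apply one_div_le_one_div_of_le (by norm_num)
    have : (0:ℝ) ≤ n := Nat.cast_nonneg n
    linarith
  have hE : EL (1 / (4 * ((n:ℝ) + 1))) (∑ i, ((k (Sum.inr i) : ℤ) : ℝ) * θ i)
      ((∏ i : Fin m, cc 0 (k (Sum.inr i)) : ℝ) : ℂ) := by
    by_cases h0 : (fun i : Fin m => k (Sum.inr i)) = 0
    · have h1 : ∀ i : Fin m, k (Sum.inr i) = 0 := fun i => congrFun h0 i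
      have e1 : ∑ i : Fin m, ((k (Sum.inr i) : ℤ) : ℝ) * θ i = 0 :=
        sum_eq_zero fun i _ => by rw [h1]; simp
      have e2 : (∏ i : Fin m, cc 0 (k (Sum.inr i)) : ℝ) = 1 :=
        prod_eq_one fun i _ => by rw [h1, cc_zero, if_pos rfl]
      rw [e1, e2, Complex.ofReal_one]
      exact EL_mono hσ4 (EL_zero hZ)
    · obtain ⟨c, hc, hgap⟩ := hθ _ h0
      obtain ⟨i₀, hi₀'⟩ := Function.ne_iff.mp h0
      have hi₀ : k (Sum.inr i₀) ≠ 0 := hi₀'
      have e2 : (∏ i : Fin m, cc 0 (k (Sum.inr i)) : ℝ) = 0 :=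
        prod_eq_zero (mem_univ i₀) (by rw [cc_zero, if_neg hi₀])
      rw [e2, Complex.ofReal_zero]
      exact EL_gen hc hgap
  have h2 := TwP_of_EL hF hσ0 hσ4 hE (mem_MI_N hS fun p => k (Sum.inl p))
  rw [log_N hS, const_N hS] at h2
  have e3 : ∑ i, (k i : ℝ) * al S θ i =
      (∑ i, ((k (Sum.inr i) : ℤ) : ℝ) * θ i) + ∑ p : S, ((k (Sum.inl p) : ℤ) : ℝ) * Real.log (p : ℕ) := by
    rw [Fintype.sum_sum_type, add_comm]
    rfl
  have e4 : (∏ i, cc (rr S m i) (k i) : ℝ) = (∏ i : Fin m, cc 0 (k (Sum.inr i))) *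
      ∏ p : S, cc (((p : ℕ) : ℝ) ^ (-(1 / 2) : ℝ)) (k (Sum.inl p)) := by
    rw [Fintype.prod_sum_type, mul_comm]
    rfl
  rw [e3, e4, Complex.ofReal_mul]
  exact h2

end

end Pool.Agent.Run7.h689.BH
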