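import Pool.Agent.Run7.h689.BH8a

set_option autoImplicit false

/-! The local lower bound in the windows with a weight (helper689, MP_112ba8_nt). -/

namespace Pool.Agent.Run7.h689.BH

open Finset Filter Topology MeasureTheory Complex MonoidAlgebra
open Pool.Agent.W184.NZ
open Pool.Agent.TH806
open Pool.Agent.TH806.LK
open Pool.Agent.H306R2.SM (om cl Yf ef)
open Pool.Agent.H262R4.TM (Rng Ck)

noncomputable section

theorem t_WINF (hSet : P_SET) (hPT : P_PT) (h1 : P_U1) (h2 : P_U2) (h3 : P_U3) (h4 : P_U4) (hL : P_LB)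
    (hA : P_ALG) (hLa : P_LAW) (hAV : P_AV1) {S : Finset ℕ} {F : ℝ → ℝ} (hF : APX S F) :
    ∀ B : ℝ, 0 ≤ B → ∃ c C : ℝ, 0 < c ∧ 0 < C ∧ ∀ᶠ T : ℝ in atTop, ∀ κ : ℕ, Rng T κ →
      ∀ k : ℝ, |k| ≤ B →
        c * (Real.exp (-(k ^ 2 * Real.log (Real.log T))) / Real.sqrt (Real.log (Real.log T))) ≤
          ∫ t in Set.Ioi (0:ℝ) ∩ {t | Real.exp (k * Real.log (Real.log T) - C) ≤ Xz t ∧
            Xz t ≤ Real.exp (k * Real.log (Real.log T) + C)}, om κ (κ / T) t * F t := by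
  intro B hB
  obtain ⟨hFc, hFb, ηF, lam0, hηF, hlam00, happ⟩ := hF
  obtain ⟨c₀, hc₀, hSet⟩ := hSet
  set n : ℕ := ⌈B⌉₊ + 1 with hn
  have hn1 : 1 ≤ n := by omega
  have hn1R : (1:ℝ) ≤ n := by exact_mod_cast hn1
  have hBn : B + 1 ≤ n := by rw [hn]; push_cast; linarith [Nat.le_ceil B]
  obtain ⟨P1, C1, η1, hC1, hη1, H1⟩ := h1 n c₀ hn1 hc₀
  obtain ⟨P2, C2, η2, hC2, hη2, H2⟩ := h2 n c₀ hn1 hc₀
  obtain ⟨P3, C3, η3, hC3, hη3, H3⟩ := h3 n c₀ hn1 hc₀
  obtain ⟨P4, C4, η4, hC4, hη4, H4⟩ := h4 n c₀ hn1 hc₀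
  obtain ⟨P5, R5, c₁₀, e₀, η5, hc₁₀, he₀, he1, hη5, H5⟩ := hL n c₀ hn1 hc₀
  obtain ⟨P7, H7⟩ := tw_LB hA hLa hAV hPT n c₀ hn1
  obtain ⟨P6, hSet⟩ := hSet e₀ he₀
  set c₁ : ℝ := lam0 * c₁₀ / 2 with hc₁d
  have hc₁ : 0 < c₁ := by positivity
  set P : ℕ := P1 + P2 + P3 + P4 + P5 + P6 + P7 + (S.sup id + 1) with hP
  obtain ⟨CV, hCV, hSet⟩ := hSet P (by omega)
  obtain ⟨η, hη0, hη1', g1, g2, g3, g4, g5, g6, g7⟩ : ∃ η : ℝ, 0 < η ∧ η ≤ 1 ∧ η ≤ η1 ∧ η ≤ η2 ∧ η ≤ η3 ∧ η ≤ η4 ∧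
      η ≤ η5 ∧ 240 * η ≤ ηF ∧ 240 * η ≤ 1 / 100 := by
    refine ⟨min (min (ηF / 240) (1 / 24000)) (min 1 (min η1 (min η2 (min η3 (min η4 η5))))), by positivity,
      (min_le_right _ _).trans (min_le_left _ _), ?_, ?_, ?_, ?_, ?_, ?_, ?_⟩
    · exact (min_le_right _ _).trans ((min_le_right _ _).trans (min_le_left _ _))
    · exact (min_le_right _ _).trans ((min_le_right _ _).trans ((min_le_right _ _).trans (min_le_left _ _)))
    · exact (min_le_right _ _).trans ((min_le_right _ _).trans ((min_le_right _ _).trans ((min_le_right _ _).trans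
        (min_le_left _ _))))
    · exact (min_le_right _ _).trans ((min_le_right _ _).trans ((min_le_right _ _).trans ((min_le_right _ _).trans
        ((min_le_right _ _).trans (min_le_left _ _)))))
    · exact (min_le_right _ _).trans ((min_le_right _ _).trans ((min_le_right _ _).trans ((min_le_right _ _).trans
        ((min_le_right _ _).trans (min_le_right _ _)))))
    · have := (min_le_left (min (ηF / 240) (1 / 24000)) (min 1 (min η1 (min η2 (min η3 (min η4 η5)))))).trans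
        (min_le_left _ _)
      linarith
    · have := (min_le_left (min (ηF / 240) (1 / 24000)) (min 1 (min η1 (min η2 (min η3 (min η4 η5)))))).trans
        (min_le_right _ _)
      linarith
  obtain ⟨Rs, hR5, hR1, hRs⟩ := LK.Rs_ex (64 * C3 * C4 * (Real.exp CV * n / η) / c₁ ^ 2) R5
  have hRs1 : (1:ℝ) ≤ Rs := by exact_mod_cast hR1
  set cc : ℝ := η / (n * ((Rs:ℝ) + 1)) with hcc
  have hcc0 : 0 < cc := by positivity
  have hcc1 : cc ≤ 1 := by
    rw [hcc, div_le_one (by positivity)]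
    exact hη1'.trans (one_le_mul_of_one_le_of_one_le hn1R (by linarith))
  set Λ : ℝ := Real.exp CV / cc with hΛ
  have hΛ0 : 0 < Λ := by positivity
  set lam : ℝ := c₁ / (8 * C4 * Λ) with hlam
  have hlam0 : 0 < lam := by positivity
  set M' : ℝ := 32 * C4 * Λ / c₁ with hM'
  have hM'0 : 0 < M' := by positivity
  set c' : ℝ := c₁ / (128 * C1) with hc'
  have hc'0 : 0 < c' := by positivity
  set B' : ℝ := 1 + 4 * C2 / (lam * c₁) with hB'
  have hB'1 : 1 ≤ B' := by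
    have : 0 < 4 * C2 / (lam * c₁) := by positivity
    linarith
  have hB'0 : 0 < B' := by linarith
  have hcB : 1 / (2 * lam * B' ^ 2) * C2 ≤ c₁ / 8 := by
    have e0 : 4 * C2 / (lam * c₁) ≤ B' := by rw [hB']; linarith
    have e1 : 4 * C2 / (lam * c₁) ≤ B' ^ 2 := e0.trans (le_self_pow₀ hB'1 two_ne_zero)
    rw [div_le_iff₀ (by positivity)] at e1
    rw [one_div, inv_mul_le_iff₀ (by positivity)]
    calc C2 = (4 * C2) / 4 := by ring
      _ ≤ (B' ^ 2 * (lam * c₁)) / 4 := div_le_div_of_nonneg_right e1 (by norm_num)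
      _ = 2 * lam * B' ^ 2 * (c₁ / 8) := by ring
  have hcE : 1 / lam * (C3 * Real.exp (-(Rs:ℝ))) ≤ c₁ / 8 := by
    have e1 : 1 / lam * (C3 * Real.exp (-(Rs:ℝ))) =
        (64 * C3 * C4 * (Real.exp CV * n / η) / c₁ ^ 2 * ((Rs:ℝ) + 1) * Real.exp (-(Rs:ℝ))) * (c₁ / 8) := by
      rw [hlam, hΛ, hcc]
      field_simp
      ring
    rw [e1]
    have := mul_le_mul_of_nonneg_right hRs (show 0 ≤ c₁ / 8 by positivity)
    linarith
  -- the approximation
  set ε : ℝ := lam0 * c₁₀ / (2 * (C4 * Λ + C1)) with hε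
  have hε0 : 0 < ε := by positivity
  obtain ⟨ι, s, ω, a, cω, hTw, hap, hlow⟩ := happ ε hε0
  set A0 : ℝ := ∑ i ∈ s, ‖a i‖ * (4 * (1 + ‖cω i‖)) with hA0
  have hA00 : 0 ≤ A0 := sum_nonneg fun i _ => by positivity
  have hTwE : ∀ᶠ T : ℝ in atTop, ∀ i ∈ s, ∀ κ : ℕ, Rng T κ → ∀ (y : ℝ) (J : ℕ) (I : ℕ → Finset ℕ),
      Cfg c₀ 1 P7 y J I → (∀ i < J, Disjoint S (I i)) → 240 * (n * ((Rs:ℝ) + 1) * Real.log y) ≤ ηF * Real.log T →
        240 * (n * ((Rs:ℝ) + 1) * Real.log y) ≤ 1 / 100 * Real.log T →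
        ∀ k u : ℝ, |k| + 1 ≤ n →
          ‖NF n Rs J I κ T k u (ef (ω i)) - cω i * NF n Rs J I κ T k u (fun _ => 1)‖ ≤
            4 * ((1 + ‖cω i‖) * T ^ (-(1 / 2) : ℝ)) :=
    (Filter.eventually_all_finset s).mpr fun i hi => H7 S ηF (ω i) (cω i) (hTw i hi) Rs hR1
  set DV : ℝ := c₀ + CV + |Real.log cc| with hDV
  have hDV0 : 0 ≤ DV := by positivity
  set c_out : ℝ := c₁ / 4 / (64 * M' * Real.exp (2 * B * B')) *
    (Real.exp (-(B ^ 2 * DV)) * (2 + DV) ^ (-(1 / 2) : ℝ)) with hcout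
  have h2DV : 0 < (2 + DV) ^ (-(1 / 2) : ℝ) := Real.rpow_pos_of_pos (by linarith) _
  set C_out : ℝ := B' + B * DV + |Real.log c'| + |Real.log M'| with hCout
  refine ⟨c_out, C_out, by positivity, by positivity, ?_⟩
  have hbig : ∀ᶠ T : ℝ in atTop, 144 ≤ Real.exp (cc * Real.log T) := by
    have h5 := Real.tendsto_log_atTop.eventually_ge_atTop (Real.log 144 / cc)
    filter_upwards [h5] with T hT
    rw [div_le_iff₀ hcc0] at hT
    rw [← Real.log_le_iff_le_exp (by norm_num)]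
    linarith
  filter_upwards [H1 Rs hR1, H2 Rs hR1, H3 Rs hR1, H4 Rs hR1, H5 Rs hR5 hR1, hTwE,
    Pool.Agent.TH986.LK_B.small (show (0:ℝ) < 1 / 2 by norm_num)
      (show 0 < lam0 * c₁₀ / 4 * Real.exp (-c₀) / (A0 + 1) by positivity), hbig, eventually_gt_atTop (0:ℝ),
    Real.tendsto_log_atTop.eventually_ge_atTop 1,
    (Real.tendsto_log_atTop.comp Real.tendsto_log_atTop).eventually_ge_atTop 1] with
    T h1T h2T h3T h4T h5T h7T hsm hy hT0 hL1 hl1 κ hκ k hk
  simp only [Function.comp] at hl1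
  set L := Real.log T with hLd
  set l := Real.log L with hld
  have hL0 : 0 < L := by linarith
  obtain ⟨J, I, hcfg, hV⟩ := hSet (Real.exp (cc * L)) hy
  have hlogy : Real.log (Real.exp (cc * L)) = cc * L := Real.log_exp _
  have hlen : n * ((Rs:ℝ) + 1) * Real.log (Real.exp (cc * L)) = η * L := by
    rw [hlogy, hcc]; field_simp
  set V := VV I J with hVd
  have hV0 : 0 ≤ V := sum_nonneg fun i _ => vI_nonneg _
  have hVup : V ≤ l + c₀ := by
    have h6 := hcfg.vv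
    rw [hlogy] at h6
    have h7 : Real.log (cc * L) ≤ l := Real.log_le_log (by positivity) (mul_le_of_le_one_left hL0.le hcc1)
    linarith
  have hVlow : l - DV ≤ V := by
    rw [hlogy, Real.log_mul hcc0.ne' hL0.ne'] at hV
    have := neg_abs_le (Real.log cc)
    linarith
  have hk1 : |k| + 1 ≤ n := by linarith
  have hkn : |k| ≤ n := by linarith
  have hkn' : |k - 1| ≤ n := (abs_sub _ _).trans (by simpa using hk1)
  have hκ0 : (0:ℝ) < κ := lt_of_lt_of_le (by positivity) hκ.1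
  have hδ : 0 < (κ:ℝ) / T := by positivity
  have hI : ∀ i, ∀ p ∈ I i, p.Prime := fun i p hp => (hcfg.rg.pr i p hp).1
  have hc1 : Cfg c₀ 1 P1 (Real.exp (cc * L)) J I := hcfg.mono he1 (by omega)
  have hc2 : Cfg c₀ 1 P2 (Real.exp (cc * L)) J I := hcfg.mono he1 (by omega)
  have hc3 : Cfg c₀ 1 P3 (Real.exp (cc * L)) J I := hcfg.mono he1 (by omega)
  have hc4 : Cfg c₀ 1 P4 (Real.exp (cc * L)) J I := hcfg.mono he1 (by omega)
  have hc5 : Cfg c₀ e₀ P5 (Real.exp (cc * L)) J I := hcfg.mono le_rfl (by omega)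
  have hc7 : Cfg c₀ 1 P7 (Real.exp (cc * L)) J I := hcfg.mono he1 (by omega)
  have hdisj : ∀ i < J, Disjoint S (I i) := by
    intro i _
    rw [Finset.disjoint_left]
    intro p hpS hpI
    have h8 : p ≤ S.sup id := Finset.le_sup (f := id) hpS
    have h9 := hcfg.P i p hpI
    omega
  have key := int_keyF hPT hI hn1 hR1 (κ := κ) (T := T) hδ (u := k * V) (k := k) hk1 hlam0 hB'0 hc'0 hM'0 (J := J)
    hFc hFb
  have low := h5T κ hκ _ J I hc5 (by rw [hlen]; gcongr) k hk1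
  have u1 := h1T κ hκ _ J I hc1 (by rw [hlen]; gcongr) k (k * V) hkn
  have u2 := h2T κ hκ _ J I hc2 (by rw [hlen]; gcongr) k (k * V) hkn
  have u3 := h3T κ hκ _ J I hc3 (by rw [hlen]; gcongr) k (k * V) hkn
  have u4 := h4T κ hκ _ J I hc4 (by rw [hlen]; gcongr) (k - 1) (k * V) hkn'
  set W := WW (k ^ 2) V with hW
  have hW0 : 0 < W := by unfold W WW; positivity
  have hWW : WW (2 * (k - 1) + (k - 1) ^ 2) V = W * Real.exp (-V) := by
    rw [hW]; unfold WW
    rw [mul_assoc, ← Real.exp_add]; congr 2; ring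
  have hLT : L * Real.exp (-V) ≤ Λ := by
    have h6 := lam_T (V := V) hL1 hcc0 (by rw [hlogy] at hV; exact hV)
    rw [Real.exp_neg]
    rw [mul_inv_le_iff₀ (Real.exp_pos _)]
    exact h6
  have u4' : ∫ t in Set.Ioi (0:ℝ), wz κ T t * AD n Rs J I (k - 1) (k * V) t ≤ C4 * (Λ * W) := by
    refine u4.trans ?_
    rw [hWW]
    calc C4 * L * (W * Real.exp (-V)) = C4 * ((L * Real.exp (-V)) * W) := by ring
      _ ≤ C4 * (Λ * W) := by gcongr
  have u3' : ∑ i ∈ range J, ∫ t in Set.Ioi (0:ℝ), om κ (κ / T) t *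
        ((‖zz I t i‖ / RR Rs i) ^ (2 * RR Rs i) * AD n Rs J I k (k * V) t) ≤
      2 * (C3 * Real.exp (-(Rs:ℝ))) * W := by
    refine (sum_le_sum fun i hi => u3 i (mem_range.mp hi)).trans ?_
    rw [← sum_mul, ← mul_sum]
    have h6 := sum_exp_le J Rs (RR_ge Rs)
    calc C3 * (∑ i ∈ range J, Real.exp (-(RR Rs i : ℝ))) * W ≤ C3 * (2 * Real.exp (-(Rs:ℝ))) * W := by gcongr
      _ = _ := by ring
  -- the lower bound with the weight
  have lowF : c₁ * W ≤ ‖NF n Rs J I κ T k (k * V) (fun t => (F t : ℂ))‖ := by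
    have hWge := Pool.Agent.TH986.LK_B.WW_ge0 hV0 hL0 (show V ≤ Real.log L + c₀ by linarith) (sq_nonneg k)
    have hsmall : A0 * T ^ (-(1 / 2) : ℝ) ≤ lam0 * c₁₀ / 4 * W := by
      calc A0 * T ^ (-(1 / 2) : ℝ) ≤ (A0 + 1) * (lam0 * c₁₀ / 4 * Real.exp (-c₀) / (A0 + 1) / L) := by
            refine mul_le_mul (by linarith) hsm (by positivity) (by positivity)
        _ = lam0 * c₁₀ / 4 * (Real.exp (-c₀) / L) := by field_simp
        _ ≤ lam0 * c₁₀ / 4 * W := mul_le_mul_of_nonneg_left hWge (by positivity)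
    have hN0l : c₁₀ * W ≤ ‖NF n Rs J I κ T k (k * V) (fun _ => 1)‖ := by
      refine le_trans ?_ (Complex.re_le_norm _)
      rw [NF_one]
      exact low
    have hlf := low_F hPT hI hδ k (k * V) hFc (n := n) (Rs := Rs) (J := J) (e := T ^ (-(1 / 2) : ℝ))
      (U := 1 / 2 * (C4 * (Λ * W)) + 1 / 2 * (C1 * W)) hap hlow (by positivity) hN0l (fun i hi => by
        refine h7T i hi κ hκ _ J I hc7 hdisj ?_ ?_ k (k * V) hk1
        · rw [hlen, ← mul_assoc]; exact mul_le_mul_of_nonneg_right g6 hL0.le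
        · rw [hlen, ← mul_assoc]; exact mul_le_mul_of_nonneg_right g7 hL0.le) (by linarith)
    have herr2 : ε * (1 / 2 * (C4 * (Λ * W)) + 1 / 2 * (C1 * W)) = lam0 * c₁₀ / 4 * W := by
      rw [hε]; field_simp; ring
    have e9 : c₁ * W = lam0 * (c₁₀ * W) - lam0 * c₁₀ / 4 * W - lam0 * c₁₀ / 4 * W := by rw [hc₁d]; ring
    rw [herr2] at hlf
    rw [e9]
    linarith
  have hfin := final_num (c₁ := c₁) (C1 := C1) (C2 := C2) (C3 := C3) (C4 := C4) (Λ := Λ) (W := W)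
    (G := 64 * M' * Real.exp (2 * k * (k * V) + 2 * |k| * B'))
    (X := ∫ t in Set.Ioi (0:ℝ) ∩ SS Rs J I (k * V) B' c' M', om κ (κ / T) t * F t)
    (lam := lam) (B' := B') (c' := c') (M' := M') (E := Real.exp (-(Rs:ℝ))) hc₁ hC1 hC4 hΛ0 hW0.le hlam hM' hc'
    hcB hcE (by
      refine lowF.trans (key.trans ?_)
      gcongr)
  -- the set
  have hSsub : SS Rs J I (k * V) B' c' M' ⊆ {t | Real.exp (k * l - C_out) ≤ Xz t ∧ Xz t ≤ Real.exp (k * l + C_out)} := by
    intro t ht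
    obtain ⟨_, hx, hlo, hhi⟩ := ht
    have hVl : |V - l| ≤ DV := by
      rw [abs_le]; constructor
      · linarith
      · have := abs_nonneg (Real.log cc)
        linarith
    have hxk : |xx I J t - k * l| ≤ B' + B * DV := by
      have e1 : xx I J t - k * l = (xx I J t - k * V) + k * (V - l) := by ring
      rw [e1]
      refine (abs_add_le _ _).trans (add_le_add hx ?_)
      rw [abs_mul]
      exact mul_le_mul hk hVl (abs_nonneg _) hB
    obtain ⟨q1, q2⟩ := abs_le.mp hxk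
    have r1 := neg_abs_le (Real.log c')
    have r2 := le_abs_self (Real.log M')
    have r3 := abs_nonneg (Real.log c')
    have r4 := abs_nonneg (Real.log M')
    constructor
    · refine le_trans ?_ hlo
      rw [← Real.exp_log hc'0, ← Real.exp_add]
      apply Real.exp_le_exp.mpr
      linarith
    · refine hhi.trans ?_
      rw [← Real.exp_log hM'0, ← Real.exp_add]
      apply Real.exp_le_exp.mpr
      linarith
  have hTm : MeasurableSet {t : ℝ | Real.exp (k * l - C_out) ≤ Xz t ∧ Xz t ≤ Real.exp (k * l + C_out)} :=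
    (measurableSet_le measurable_const Xz_cont.measurable).inter
      (measurableSet_le Xz_cont.measurable measurable_const)
  have iomF : IntegrableOn (fun t => om κ (κ / T) t * F t) (Set.Ioi 0) := by
    refine Integrable.mul_bdd (c := 1) (om_int0 κ hδ) hFc.aestronglyMeasurable (Eventually.of_forall fun t => ?_)
    rw [Real.norm_eq_abs, abs_of_nonneg (hFb t).1]; exact (hFb t).2
  have hmono : ∫ t in Set.Ioi (0:ℝ) ∩ SS Rs J I (k * V) B' c' M', om κ (κ / T) t * F t ≤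
      ∫ t in Set.Ioi (0:ℝ) ∩ {t | Real.exp (k * l - C_out) ≤ Xz t ∧ Xz t ≤ Real.exp (k * l + C_out)},
        om κ (κ / T) t * F t := by
    refine setIntegral_mono_set (iomF.mono_set Set.inter_subset_left) ?_ ?_
    · refine (ae_restrict_iff' (measurableSet_Ioi.inter hTm)).mpr (Eventually.of_forall fun t ht => ?_)
      exact mul_nonneg (om_nn κ hδ (le_of_lt ht.1)) (hFb t).1
    · exact (Set.inter_subset_inter_right _ hSsub).eventuallyLE
  refine le_trans ?_ hmono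
  -- numbers
  have hww := fin_WW (B := B) hl1 hV0 hDV0 (show V ≤ l + DV by
    have := abs_nonneg (Real.log cc)
    linarith) hk
  have hGpos : 0 < 64 * M' * Real.exp (2 * k * (k * V) + 2 * |k| * B') := by positivity
  have hXlow : c₁ / 4 * W / (64 * M' * Real.exp (2 * k * (k * V) + 2 * |k| * B')) ≤
      ∫ t in Set.Ioi (0:ℝ) ∩ SS Rs J I (k * V) B' c' M', om κ (κ / T) t * F t := by
    rw [div_le_iff₀ hGpos]; linarith
  refine le_trans ?_ hXlow
  have e5 : c₁ / 4 * W / (64 * M' * Real.exp (2 * k * (k * V) + 2 * |k| * B')) =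
      c₁ / 4 / (64 * M' * Real.exp (2 * |k| * B')) * ((1 + V) ^ (-(1 / 2) : ℝ) * Real.exp (-(k ^ 2 * V))) := by
    rw [hW]; unfold WW
    have e6 : Real.exp (2 * k * (k * V) + 2 * |k| * B') =
        Real.exp (k ^ 2 * V) * Real.exp (k ^ 2 * V) * Real.exp (2 * |k| * B') := by
      rw [← Real.exp_add, ← Real.exp_add]; congr 1; ring
    rw [e6, Real.exp_neg]
    field_simp
  rw [e5]
  have e7 : c₁ / 4 / (64 * M' * Real.exp (2 * B * B')) ≤ c₁ / 4 / (64 * M' * Real.exp (2 * |k| * B')) := by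
    gcongr
  calc c_out * (Real.exp (-(k ^ 2 * l)) / Real.sqrt l) =
      c₁ / 4 / (64 * M' * Real.exp (2 * B * B')) *
        (Real.exp (-(B ^ 2 * DV)) * (2 + DV) ^ (-(1 / 2) : ℝ) * (Real.exp (-(k ^ 2 * l)) / Real.sqrt l)) := by
        rw [hcout]; ring
    _ ≤ c₁ / 4 / (64 * M' * Real.exp (2 * |k| * B')) * ((1 + V) ^ (-(1 / 2) : ℝ) * Real.exp (-(k ^ 2 * V))) := by
        refine mul_le_mul e7 hww (by positivity) (by positivity)

end

end Pool.Agent.Run7.h689.BH
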