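import Pool.Agent.Run7.h689.BH7
import Pool.Agent.TH806.LK.Main

set_option autoImplicit false

/-! From the windows to the final statements (helper689, MP_112ba8_nt). -/

namespace Pool.Agent.Run7.h689.BH

open Finset Filter Topology MeasureTheory Complex MonoidAlgebra
open Pool.Agent.W184.NZ
open Pool.Agent.TH806
open Pool.Agent.TH806.LK
open Pool.Agent.H306R2.SM (om cl Yf ef)
open Pool.Agent.H262R4.TM (Rng Ck)

noncomputable section

theorem t_MAINF (hS : P_SH) {F : ℝ → ℝ} (hFc : Continuous F) (hFb : ∀ t, 0 ≤ F t ∧ F t ≤ 1)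
    (hW : ∀ B : ℝ, 0 ≤ B → ∃ c C : ℝ, 0 < c ∧ 0 < C ∧ ∀ᶠ T : ℝ in atTop, ∀ κ : ℕ, Rng T κ →
      ∀ k : ℝ, |k| ≤ B →
        c * (Real.exp (-(k ^ 2 * Real.log (Real.log T))) / Real.sqrt (Real.log (Real.log T))) ≤
          ∫ t in Set.Ioi (0:ℝ) ∩ {t | Real.exp (k * Real.log (Real.log T) - C) ≤ Xz t ∧
            Xz t ≤ Real.exp (k * Real.log (Real.log T) + C)}, om κ (κ / T) t * F t) :
    ∀ B : ℝ, 0 ≤ B → ∃ c C : ℝ, 0 < c ∧ 0 < C ∧ ∀ α : ℝ, 0 ≤ α → α < 1 →
      ∀ᶠ T : ℝ in atTop, ∀ H : ℝ, T / Real.log T ^ α ≤ H → H ≤ T →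
      ∀ V : ℝ, |V| ≤ B * Real.log (Real.log T) →
        c * H * (Real.exp (-(V ^ 2 / Real.log (Real.log T))) / Real.sqrt (Real.log (Real.log T))) ≤
          volume.real {t ∈ Set.Icc T (T + H) | 0 < F t ∧ Real.exp (V - C) ≤ Xz t ∧ Xz t ≤ Real.exp (V + C)} := by
  intro B hB
  obtain ⟨c, C, hc, hC, hW⟩ := hW B hB
  refine ⟨c / 4, C + 1, by positivity, by positivity, fun α hα0 hα1 => ?_⟩
  obtain ⟨κ, hS⟩ := hS α (B ^ 2 + 1) hα0 hα1 (by positivity)
  obtain ⟨T0, hT0⟩ := eventually_atTop.1 hW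
  have hsm : ∀ᶠ T : ℝ in atTop, 2 / c * Real.sqrt (Real.log (Real.log T)) ≤ Real.log T := by
    have h1 := (Real.isLittleO_log_id_atTop.comp_tendsto Real.tendsto_log_atTop).def
      (show (0:ℝ) < min 1 (c / 2) by positivity)
    filter_upwards [h1, Real.tendsto_log_atTop.eventually_ge_atTop 3,
      (Real.tendsto_log_atTop.comp Real.tendsto_log_atTop).eventually_ge_atTop 1] with T h1 h2 h3
    simp only [Function.comp, id, Real.norm_eq_abs] at h1 h3
    rw [abs_of_nonneg (by linarith), abs_of_nonneg (by linarith)] at h1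
    have h4 : Real.sqrt (Real.log (Real.log T)) ≤ Real.log (Real.log T) := by
      rw [Real.sqrt_le_left (by linarith)]
      nlinarith
    have h5 : min 1 (c / 2) ≤ c / 2 := min_le_right _ _
    have h6 : Real.log (Real.log T) ≤ c / 2 * Real.log T :=
      h1.trans (mul_le_mul_of_nonneg_right h5 (by linarith))
    calc 2 / c * Real.sqrt (Real.log (Real.log T)) ≤ 2 / c * (c / 2 * Real.log T) := by
          gcongr; exact h4.trans h6
      _ = Real.log T := by field_simp
  filter_upwards [hS, hsm, eventually_ge_atTop T0, eventually_ge_atTop (1:ℝ),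
    Real.tendsto_log_atTop.eventually_ge_atTop 3,
    (Real.tendsto_log_atTop.comp Real.tendsto_log_atTop).eventually_ge_atTop 1] with
    T hS hsm hT0' hT1 hL hLL H hH1 hH2 V hV
  simp only [Function.comp] at hLL
  obtain ⟨hR, hS⟩ := hS
  have hT : 0 < T := by linarith
  set L := Real.log T with hLdef
  set l := Real.log L with hldef
  have hL0 : 0 < L := by linarith
  have hl0 : 0 < l := by linarith
  have hH0 : 0 < H := lt_of_lt_of_le (by positivity) hH1
  set f : ℝ → ℝ := fun t => bmp (Real.exp (V - (C + 1))) (Real.exp (V - C)) (Real.exp (V + C))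
    (Real.exp (V + (C + 1))) (Xz t) * F t with hf
  have ha1 : Real.exp (V - (C + 1)) < Real.exp (V - C) := Real.exp_lt_exp.mpr (by linarith)
  have hb1 : Real.exp (V + C) < Real.exp (V + (C + 1)) := Real.exp_lt_exp.mpr (by linarith)
  have hfc : Continuous f := ((bmp_cont _ _ _ _).comp Xz_cont).mul hFc
  have hf0 : ∀ t, 0 ≤ f t := fun t => mul_nonneg (bmp_nonneg _ _ _ _ _) (hFb t).1
  have hf1 : ∀ t, f t ≤ 1 := fun t => mul_le_one₀ (bmp_le_one _ _ _ _ _) (hFb t).1 (hFb t).2
  set w : ℝ := c / 2 * (Real.exp (-(V ^ 2 / l)) / Real.sqrt l) with hw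
  have hsl : 0 < Real.sqrt l := Real.sqrt_pos.mpr hl0
  have hw0 : 0 < w := by positivity
  have hV2 : V ^ 2 / l ≤ B ^ 2 * l := by
    rw [div_le_iff₀ hl0]
    have h1 : V ^ 2 ≤ (B * l) ^ 2 := by
      rw [← sq_abs V]; exact pow_le_pow_left₀ (abs_nonneg _) hV 2
    nlinarith
  have hwlow : 1 / L ^ (B ^ 2 + 1) ≤ w := by
    have e1 : L ^ (B ^ 2 + 1) = Real.exp (B ^ 2 * l) * L := by
      rw [Real.rpow_add hL0, Real.rpow_one, Real.rpow_def_of_pos hL0]
      congr 2; ring
    rw [e1, hw, div_le_iff₀ (by positivity)]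
    have h2 : Real.exp (-(B ^ 2 * l)) ≤ Real.exp (-(V ^ 2 / l)) := Real.exp_le_exp.mpr (by linarith)
    have h3 : 2 / c * Real.sqrt l ≤ L := hsm
    calc (1:ℝ) = c / 2 * (Real.exp (-(B ^ 2 * l)) / Real.sqrt l) * (Real.exp (B ^ 2 * l) * (2 / c * Real.sqrt l)) := by
          rw [Real.exp_neg]; field_simp
      _ ≤ c / 2 * (Real.exp (-(V ^ 2 / l)) / Real.sqrt l) * (Real.exp (B ^ 2 * l) * L) := by gcongr
  have hwin : ∀ x ∈ Set.Icc T (T + H), w ≤ ∫ t in Set.Ioi (0:ℝ), om (κ T) ((κ T : ℝ) / x) t * f t := by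
    intro x hx
    have hx0 : 0 < x := lt_of_lt_of_le hT hx.1
    have hx2 : x ≤ 2 * T := hx.2.trans (by linarith)
    have hlx : L ≤ Real.log x := Real.log_le_log hT hx.1
    have hlx2 : Real.log x ≤ 2 * L := by
      have h1 : Real.log x ≤ Real.log (2 * T) := Real.log_le_log hx0 hx2
      rw [Real.log_mul (by norm_num) hT.ne'] at h1
      have := Real.log_two_lt_d9
      linarith
    have hllx : l ≤ Real.log (Real.log x) := Real.log_le_log hL0 hlx
    have hllx2 : Real.log (Real.log x) ≤ 2 * l := by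
      have h1 : Real.log (Real.log x) ≤ Real.log (2 * L) := Real.log_le_log (by linarith) hlx2
      rw [Real.log_mul (by norm_num) hL0.ne'] at h1
      have := Real.log_two_lt_d9
      linarith
    set lx := Real.log (Real.log x) with hlxdef
    have hlx0 : 0 < lx := by linarith
    have hk : |V / lx| ≤ B := by
      rw [abs_div, abs_of_pos hlx0, div_le_iff₀ hlx0]
      exact hV.trans (mul_le_mul_of_nonneg_left hllx hB)
    have h1 := hT0 x (hT0'.trans hx.1) (κ T) (hR x ⟨hx.1, hx2⟩) (V / lx) hk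
    rw [← hlxdef] at h1
    rw [show V / lx * lx = V by field_simp] at h1
    rw [show (V / lx) ^ 2 * lx = V ^ 2 / lx by field_simp] at h1
    have hk0 : (0:ℝ) < κ T := by
      have h2 := (hR x ⟨hx.1, hx2⟩).1
      have h3 : 0 < Real.log x ^ 2 := by
        have : 0 < Real.log x := by linarith
        positivity
      linarith
    have hδ : 0 < (κ T : ℝ) / x := by positivity
    have h2 : w ≤ c * (Real.exp (-(V ^ 2 / lx)) / Real.sqrt lx) := by
      rw [hw]
      have e1 : Real.exp (-(V ^ 2 / l)) ≤ Real.exp (-(V ^ 2 / lx)) := by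
        apply Real.exp_le_exp.mpr
        have : V ^ 2 / lx ≤ V ^ 2 / l := div_le_div_of_nonneg_left (sq_nonneg _) hl0 hllx
        linarith
      have e2 : Real.sqrt lx ≤ 2 * Real.sqrt l := by
        rw [Real.sqrt_le_left (by positivity), mul_pow, Real.sq_sqrt hl0.le]
        linarith
      have hslx : 0 < Real.sqrt lx := Real.sqrt_pos.mpr hlx0
      have e3 : Real.exp (-(V ^ 2 / l)) / Real.sqrt l ≤ 2 * (Real.exp (-(V ^ 2 / lx)) / Real.sqrt lx) := by
        rw [div_le_iff₀ hsl]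
        calc Real.exp (-(V ^ 2 / l)) ≤ Real.exp (-(V ^ 2 / lx)) := e1
          _ = (Real.exp (-(V ^ 2 / lx)) / Real.sqrt lx) * Real.sqrt lx := by field_simp
          _ ≤ (Real.exp (-(V ^ 2 / lx)) / Real.sqrt lx) * (2 * Real.sqrt l) := by gcongr
          _ = _ := by ring
      calc _ ≤ c / 2 * (2 * (Real.exp (-(V ^ 2 / lx)) / Real.sqrt lx)) := by gcongr
        _ = _ := by ring
    refine h2.trans (h1.trans ?_)
    have hom0 : ∀ t ∈ Set.Ioi (0:ℝ), 0 ≤ om (κ T) ((κ T : ℝ) / x) t := by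
      intro t ht
      have : (0:ℝ) < t := ht
      unfold om; positivity
    have hi1 : IntegrableOn (fun t => om (κ T) ((κ T : ℝ) / x) t) (Set.Ioi 0) := om_int0 _ hδ
    have hi1F : IntegrableOn (fun t => om (κ T) ((κ T : ℝ) / x) t * F t) (Set.Ioi 0) := by
      refine hi1.mul_bdd (c := 1) hFc.aestronglyMeasurable (Eventually.of_forall fun t => ?_)
      rw [Real.norm_eq_abs, abs_of_nonneg (hFb t).1]
      exact (hFb t).2
    have hi2 : IntegrableOn (fun t => om (κ T) ((κ T : ℝ) / x) t * f t) (Set.Ioi 0) := by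
      refine hi1.mul_bdd (c := 1) hfc.aestronglyMeasurable (Eventually.of_forall fun t => ?_)
      rw [Real.norm_eq_abs, abs_of_nonneg (hf0 t)]
      exact hf1 t
    have hms : MeasurableSet {t : ℝ | Real.exp (V - C) ≤ Xz t ∧ Xz t ≤ Real.exp (V + C)} :=
      (measurableSet_le measurable_const Xz_cont.measurable).inter
        (measurableSet_le Xz_cont.measurable measurable_const)
    rw [← MeasureTheory.setIntegral_indicator hms]
    refine setIntegral_mono_on (hi1F.indicator hms) hi2 measurableSet_Ioi fun t ht => ?_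
    by_cases hts : t ∈ {t : ℝ | Real.exp (V - C) ≤ Xz t ∧ Xz t ≤ Real.exp (V + C)}
    · rw [Set.indicator_of_mem hts]
      have : bmp (Real.exp (V - (C + 1))) (Real.exp (V - C)) (Real.exp (V + C))
        (Real.exp (V + (C + 1))) (Xz t) = 1 := bmp_one ha1 hb1 hts.1 hts.2
      rw [hf]
      simp only
      rw [this, one_mul]
    · rw [Set.indicator_of_notMem hts]
      exact mul_nonneg (hom0 t ht) (hf0 t)
  have h1 := hS H hH1 hH2 f hfc (fun t => ⟨hf0 t, hf1 t⟩) w hwlow hwin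
  set S : Set ℝ := {t ∈ Set.Icc T (T + H) | 0 < F t ∧ Real.exp (V - (C + 1)) ≤ Xz t ∧
        Xz t ≤ Real.exp (V + (C + 1))} with hSdef
  have hSm : MeasurableSet S := by
    have e1 : S = Set.Icc T (T + H) ∩ ({t : ℝ | 0 < F t} ∩ {t : ℝ | Real.exp (V - (C + 1)) ≤ Xz t ∧
        Xz t ≤ Real.exp (V + (C + 1))}) := rfl
    rw [e1]
    exact measurableSet_Icc.inter ((measurableSet_lt measurable_const hFc.measurable).inter
      ((measurableSet_le measurable_const Xz_cont.measurable).inter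
        (measurableSet_le Xz_cont.measurable measurable_const)))
  have h2 : ∫ t in T..(T + H), f t ≤ volume.real S := by
    rw [intervalIntegral.integral_of_le (by linarith)]
    have e1 : volume.real S = ∫ t in Set.Icc T (T + H), S.indicator (fun _ => (1:ℝ)) t := by
      rw [MeasureTheory.setIntegral_indicator hSm, setIntegral_const, smul_eq_mul, mul_one]
      congr 2
      exact (Set.inter_eq_self_of_subset_right fun t ht => ht.1).symm
    rw [e1, ← integral_Icc_eq_integral_Ioc]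
    refine setIntegral_mono_on (hfc.integrableOn_Icc) ?_ measurableSet_Icc fun t ht => ?_
    · exact (integrableOn_const (by simp) (by simp)).indicator hSm
    · by_cases hts : t ∈ S
      · rw [Set.indicator_of_mem hts]; exact hf1 t
      · rw [Set.indicator_of_notMem hts]
        rcases eq_or_lt_of_le (hFb t).1 with h0 | h0
        · show bmp _ _ _ _ _ * F t ≤ 0
          rw [← h0, mul_zero]
        · show bmp _ _ _ _ _ * F t ≤ 0
          rw [bmp_zero ha1 hb1 fun h => hts ⟨ht, h0, h⟩, zero_mul]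
  refine le_trans (le_of_eq ?_) (h1.trans h2)
  rw [hw]; ring

/-- moments from the local law -/
theorem mom_of_loc {A : Set ℝ} (hA : MeasurableSet A)
    (h : ∀ B : ℝ, 0 ≤ B → ∃ c C : ℝ, 0 < c ∧ 0 < C ∧ ∀ α : ℝ, 0 ≤ α → α < 1 →
      ∀ᶠ T : ℝ in atTop, ∀ H : ℝ, T / Real.log T ^ α ≤ H → H ≤ T →
      ∀ V : ℝ, |V| ≤ B * Real.log (Real.log T) →
        c * H * (Real.exp (-(V ^ 2 / Real.log (Real.log T))) / Real.sqrt (Real.log (Real.log T))) ≤
          volume.real {t ∈ Set.Icc T (T + H) | t ∈ A ∧ Real.exp (V - C) ≤ Xz t ∧ Xz t ≤ Real.exp (V + C)}) :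
    ∀ B : ℝ, 0 ≤ B → ∃ c : ℝ, 0 < c ∧ ∀ α : ℝ, 0 ≤ α → α < 1 →
      ∀ᶠ T : ℝ in atTop, ∀ H : ℝ, T / Real.log T ^ α ≤ H → H ≤ T →
      ∀ k : ℝ, |k| ≤ B → ENNReal.ofReal (c * H * Real.log T ^ (k ^ 2)) ≤
          ∫⁻ t in Set.Icc T (T + H) ∩ A, ENNReal.ofReal (Xz t ^ (2 * k)) := by
  intro B hB
  obtain ⟨c, C, hc, hC, h⟩ := h (B + 1) (by linarith)
  refine ⟨1 / 2 * (c * Real.exp (-(2 * B * C + 9 * C ^ 2))), by positivity, fun α h0 h1 => ?_⟩
  filter_upwards [h α h0 h1, Real.tendsto_log_atTop.eventually_gt_atTop 0, eventually_gt_atTop (0:ℝ),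
    (Real.tendsto_log_atTop.comp Real.tendsto_log_atTop).eventually_ge_atTop (max 1 ((3 * C) ^ 2))] with
    T hT hL hT0 hl H hH1 hH2 k hk
  simp only [Function.comp] at hl
  set L := Real.log T with hLd
  set l := Real.log L with hld
  have hl1 : 1 ≤ l := (le_max_left _ _).trans hl
  have hlC : (3 * C) ^ 2 ≤ l := (le_max_right _ _).trans hl
  have hH0 : 0 < H := lt_of_lt_of_le (by positivity) hH1
  set q := Real.sqrt l with hq
  have hq1 : 1 ≤ q := by rw [hq]; exact Real.one_le_sqrt.mpr hl1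
  have hqC : 3 * C ≤ q := by
    rw [hq]
    exact Real.le_sqrt_of_sq_le hlC
  have hqq : q * q = l := Real.mul_self_sqrt (by linarith)
  set M : ℕ := ⌊q⌋₊ with hM
  have hM1 : q / 2 ≤ M := by
    have f1 := Nat.lt_floor_add_one q
    have f2 : (1:ℝ) ≤ M := by
      have : 1 ≤ ⌊q⌋₊ := Nat.one_le_floor_iff q |>.mpr hq1
      exact_mod_cast this
    linarith
  have hM2 : (M:ℝ) ≤ q := Nat.floor_le (by linarith)
  set V : ℕ → ℝ := fun j => k * l + 3 * C * j with hV
  set Lv : ℕ → Set ℝ := fun j => {t ∈ Set.Icc T (T + H) | t ∈ A ∧ Real.exp (V j - C) ≤ Xz t ∧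
    Xz t ≤ Real.exp (V j + C)} with hLv
  have hLvm : ∀ j, MeasurableSet (Lv j) := by
    intro j
    have e1 : Lv j = Set.Icc T (T + H) ∩ (A ∩ {t : ℝ | Real.exp (V j - C) ≤ Xz t ∧
        Xz t ≤ Real.exp (V j + C)}) := rfl
    rw [e1]
    exact measurableSet_Icc.inter (hA.inter ((measurableSet_le measurable_const Xz_cont.measurable).inter
        (measurableSet_le Xz_cont.measurable measurable_const)))
  have hdis : Set.Pairwise (↑(range M) : Set ℕ) (Function.onFun Disjoint Lv) := by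
    have key : ∀ i j : ℕ, i < j → Disjoint (Lv i) (Lv j) := by
      intro i j hij
      rw [Set.disjoint_left]
      rintro t ⟨_, _, _, h4⟩ ⟨_, _, h5, _⟩
      have h6 := Real.exp_le_exp.mp (h5.trans h4)
      have h7 : (i:ℝ) + 1 ≤ j := by exact_mod_cast hij
      rw [hV] at h6
      simp only at h6
      nlinarith
    intro i _ j _ hij
    rcases lt_or_gt_of_ne hij with h4 | h4
    · exact key i j h4
    · exact (key j i h4).symm
  have hsub : (⋃ j ∈ range M, Lv j) ⊆ Set.Icc T (T + H) ∩ A := by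
    intro t ht
    simp only [Set.mem_iUnion] at ht
    obtain ⟨j, _, h4, h5, _⟩ := ht
    exact ⟨h4, h5⟩
  refine le_trans ?_ (lintegral_mono_set hsub)
  rw [lintegral_biUnion_finset hdis fun j _ => hLvm j]
  have hterm : ∀ j ∈ range M, ENNReal.ofReal (c * H * Real.exp (-(2 * B * C + 9 * C ^ 2)) * Real.exp (k ^ 2 * l) / q) ≤
      ∫⁻ t in Lv j, ENNReal.ofReal (Xz t ^ (2 * k)) := by
    intro j hj
    have hjM : (j:ℝ) ≤ q := by
      have : (j:ℝ) ≤ M := by exact_mod_cast (mem_range.mp hj).le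
      linarith
    have hj0 : (0:ℝ) ≤ j := Nat.cast_nonneg j
    have hVj : |V j| ≤ (B + 1) * l := by
      rw [hV]
      simp only
      refine (abs_add_le _ _).trans ?_
      rw [abs_mul, abs_of_pos (by linarith : 0 < l), abs_of_nonneg (by positivity : 0 ≤ 3 * C * j)]
      have h4 : 3 * C * j ≤ l := by
        calc 3 * C * j ≤ q * q := mul_le_mul hqC hjM hj0 (by linarith)
          _ = l := hqq
      nlinarith
    have h5 := hT H hH1 hH2 (V j) hVj
    have h6 : ENNReal.ofReal (Real.exp (2 * k * V j - 2 * B * C)) * volume (Lv j) ≤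
        ∫⁻ t in Lv j, ENNReal.ofReal (Xz t ^ (2 * k)) := by
      rw [← setLIntegral_const]
      refine setLIntegral_mono_ae' (hLvm j) (Eventually.of_forall fun t ht => ?_)
      apply ENNReal.ofReal_le_ofReal
      obtain ⟨_, _, h7, h8⟩ := ht
      have h9 : 0 < Xz t := lt_of_lt_of_le (Real.exp_pos _) h7
      rw [Real.rpow_def_of_pos h9]
      apply Real.exp_le_exp.mpr
      have h10 : V j - C ≤ Real.log (Xz t) := by rwa [Real.le_log_iff_exp_le h9]
      have h11 : Real.log (Xz t) ≤ V j + C := by rwa [Real.log_le_iff_le_exp h9]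
      obtain ⟨h12, h13⟩ := abs_le.mp hk
      rcases le_total 0 k with h14 | h14
      · nlinarith
      · nlinarith
    refine le_trans ?_ h6
    have hfin : volume (Lv j) ≠ ⊤ := by
      refine ne_top_of_le_ne_top ?_ (measure_mono (show Lv j ⊆ Set.Icc T (T + H) from fun t ht => ht.1))
      rw [Real.volume_Icc]; exact ENNReal.ofReal_ne_top
    rw [← ENNReal.ofReal_toReal hfin, ← ENNReal.ofReal_mul (Real.exp_pos _).le]
    apply ENNReal.ofReal_le_ofReal
    have h7 : c * H * (Real.exp (-(V j ^ 2 / l)) / q) ≤ (volume (Lv j)).toReal := h5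
    have hl0 : 0 < l := by linarith
    have h8 : -(9 * C ^ 2) + k ^ 2 * l ≤ 2 * k * V j + -(V j ^ 2 / l) := by
      have e1 : 2 * k * V j + -(V j ^ 2 / l) = k ^ 2 * l - (3 * C * j) ^ 2 / l := by
        rw [hV]; field_simp; ring
      have e2 : (3 * C * j) ^ 2 / l ≤ 9 * C ^ 2 := by
        rw [div_le_iff₀ hl0]
        have : (j:ℝ) ^ 2 ≤ l := by nlinarith
        calc (3 * C * j) ^ 2 = 9 * C ^ 2 * j ^ 2 := by ring
          _ ≤ 9 * C ^ 2 * l := by gcongr
      linarith
    calc c * H * Real.exp (-(2 * B * C + 9 * C ^ 2)) * Real.exp (k ^ 2 * l) / q =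
        c * H / q * (Real.exp (-(2 * B * C)) * Real.exp (-(9 * C ^ 2) + k ^ 2 * l)) := by
          rw [← Real.exp_add, mul_assoc (c * H), ← Real.exp_add]
          have : -(2 * B * C + 9 * C ^ 2) + k ^ 2 * l = -(2 * B * C) + (-(9 * C ^ 2) + k ^ 2 * l) := by ring
          rw [this]; ring
      _ ≤ c * H / q * (Real.exp (-(2 * B * C)) * Real.exp (2 * k * V j + -(V j ^ 2 / l))) := by gcongr
      _ = Real.exp (2 * k * V j - 2 * B * C) * (c * H * (Real.exp (-(V j ^ 2 / l)) / q)) := by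
          rw [Real.exp_add, show 2 * k * V j - 2 * B * C = -(2 * B * C) + 2 * k * V j by ring, Real.exp_add]
          ring
      _ ≤ _ := by gcongr
  refine le_trans ?_ (sum_le_sum hterm)
  rw [sum_const, card_range, nsmul_eq_mul, ← ENNReal.ofReal_natCast, ← ENNReal.ofReal_mul (Nat.cast_nonneg _)]
  apply ENNReal.ofReal_le_ofReal
  have e3 : L ^ (k ^ 2) = Real.exp (k ^ 2 * l) := by
    rw [Real.rpow_def_of_pos hL, mul_comm]
  rw [e3]
  have hq0 : 0 < q := by linarith
  calc 1 / 2 * (c * Real.exp (-(2 * B * C + 9 * C ^ 2))) * H * Real.exp (k ^ 2 * l) =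
      q / 2 * (c * H * Real.exp (-(2 * B * C + 9 * C ^ 2)) * Real.exp (k ^ 2 * l) / q) := by field_simp
    _ ≤ M * (c * H * Real.exp (-(2 * B * C + 9 * C ^ 2)) * Real.exp (k ^ 2 * l) / q) := by gcongr

end

end Pool.Agent.Run7.h689.BH
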