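import Mathlib

set_option autoImplicit false

/-! Almost every vector of frequencies is admissible (helper689, MP_112ba8_nt). -/

namespace Pool.Agent.Run7.h689.BH

open Finset Filter Topology MeasureTheory

noncomputable section

/-- the numbers that are not close to rational numbers -/
def Gd (y : ℝ) : Prop := ∃ c : ℝ, 0 < c ∧ ∀ a b : ℕ, 1 ≤ b → c / (b:ℝ) ^ 3 ≤ |y - a / b|

lemma Gd_of {y : ℝ} (h1 : Irrational y) (h2 : ¬ LiouvilleWith 3 y) : Gd y := by
  unfold LiouvilleWith at h2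
  push Not at h2
  have h3 := h2 1
  rw [Filter.eventually_atTop] at h3
  obtain ⟨N, hN⟩ := h3
  -- for each `b` a positive distance
  have hb : ∀ b : ℕ, ∃ c : ℝ, 0 < c ∧ (1 ≤ b → ∀ a : ℕ, c ≤ |y - a / b|) := by
    intro b
    by_cases hb1 : 1 ≤ b
    · have hb0 : (0:ℝ) < b := by exact_mod_cast hb1
      refine ⟨|b * y - round (b * y)| / b, ?_, fun _ a => ?_⟩
      · apply div_pos _ hb0
        rw [abs_pos, sub_ne_zero]
        intro h
        exact (h1.natCast_mul (by omega)).ne_int _ h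
      · rw [div_le_iff₀ hb0]
        have h4 := round_le (b * y) (a : ℤ)
        refine h4.trans (le_of_eq ?_)
        rw [← abs_of_pos hb0, ← abs_mul, abs_of_pos hb0]
        congr 1
        push_cast
        field_simp
    · exact ⟨1, one_pos, fun h => absurd h hb1⟩
  choose c hc hcb using hb
  have hne : (Finset.range (N + 1)).Nonempty := Finset.nonempty_range_iff.mpr (by omega)
  set m : ℝ := (Finset.range (N + 1)).inf' hne c with hm
  have hm0 : 0 < m := by
    obtain ⟨b, _, e⟩ := Finset.exists_mem_eq_inf' hne c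
    rw [hm, e]
    exact hc b
  refine ⟨min 1 m, lt_min one_pos hm0, fun a b hb1 => ?_⟩
  have hb0 : (0:ℝ) < b := by exact_mod_cast hb1
  rcases lt_or_ge b N with h | h
  · have h5 : m ≤ c b := Finset.inf'_le _ (by simp; omega)
    have h6 := hcb b hb1 a
    have h7 : (1:ℝ) ≤ (b:ℝ) ^ 3 := one_le_pow₀ (by exact_mod_cast hb1)
    calc min 1 m / (b:ℝ) ^ 3 ≤ min 1 m := div_le_self (lt_min one_pos hm0).le h7
      _ ≤ m := min_le_right _ _
      _ ≤ _ := h5.trans h6
  · have h5 := hN b h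
    have h6 := h5 (a : ℤ) (by
      intro h7
      apply h1
      exact ⟨(a:ℚ) / b, by rw [h7]; push_cast; rfl⟩)
    push_cast at h6
    calc min 1 m / (b:ℝ) ^ 3 ≤ 1 / (b:ℝ) ^ 3 := by gcongr; exact min_le_left _ _
      _ = 1 / (b:ℝ) ^ (3:ℝ) := by norm_cast
      _ ≤ _ := h6

lemma ae_Gd_exp : ∀ᵐ x : ℝ, Gd (Real.exp x) := by
  have hirr : ∀ᵐ y : ℝ, Irrational y := by
    rw [ae_iff]
    have : {a : ℝ | ¬ Irrational a} = Set.range ((↑) : ℚ → ℝ) := by
      ext x; simp [Irrational]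
    rw [this]
    exact (Set.countable_range _).measure_zero _
  have h1 : ∀ᵐ y : ℝ, Gd y := by
    filter_upwards [ae_not_liouvilleWith, hirr] with y h2 h3
    exact Gd_of h3 (h2 3 (by norm_num))
  rw [ae_iff] at h1 ⊢
  set s : Set ℝ := {y | ¬ Gd y} ∩ Set.Ioi 0 with hs
  have hs0 : volume s = 0 := measure_mono_null Set.inter_subset_left h1
  have hd : DifferentiableOn ℝ Real.log s := fun x hx =>
    (Real.differentiableAt_log (ne_of_gt hx.2)).differentiableWithinAt
  have h4 := addHaar_image_eq_zero_of_differentiableOn_of_addHaar_eq_zero volume hd hs0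
  refine measure_mono_null (fun x hx => ?_) h4
  exact ⟨Real.exp x, ⟨hx, Real.exp_pos x⟩, Real.log_exp x⟩

/-- the admissible vectors -/
def Gen {m : ℕ} (θ : Fin m → ℝ) : Prop := ∃ n : ℕ, ∀ j : Fin m → ℤ, j ≠ 0 → ∃ c : ℝ, 0 < c ∧
  ∀ a b : ℕ, 1 ≤ b → c / (b:ℝ) ^ n ≤ |Real.exp (∑ i, j i * θ i) - a / b|

theorem ae_Gen (m : ℕ) : ∀ᵐ θ : Fin m → ℝ, Gen θ := by
  have h : ∀ j : Fin m → ℤ, j ≠ 0 → ∀ᵐ θ : Fin m → ℝ, Gd (Real.exp (∑ i, j i * θ i)) := by
    intro j hj
    obtain ⟨i₀, hi₀⟩ := Function.ne_iff.mp hj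
    set L : (Fin m → ℝ) →ₗ[ℝ] ℝ := ∑ i, (j i : ℝ) • LinearMap.proj i with hL
    have hLx : ∀ θ : Fin m → ℝ, L θ = ∑ i, (j i : ℝ) * θ i := by
      intro θ
      rw [hL, LinearMap.sum_apply]
      exact Finset.sum_congr rfl fun i _ => rfl
    have hsurj : Function.Surjective L := by
      intro x
      have hj0 : ((j i₀ : ℤ) : ℝ) ≠ 0 := by
        have : j i₀ ≠ 0 := hi₀
        exact_mod_cast this
      refine ⟨Pi.single i₀ (x / j i₀), ?_⟩
      rw [hLx, Finset.sum_eq_single i₀]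
      · rw [Pi.single_eq_same]; field_simp
      · intro i _ hi
        rw [Pi.single_eq_of_ne hi, mul_zero]
      · intro h; exact absurd (Finset.mem_univ _) h
    have hnull : volume {x : ℝ | ¬ Gd (Real.exp x)} = 0 := ae_iff.mp ae_Gd_exp
    obtain ⟨t, hst, htm, ht0⟩ := exists_measurable_superset_of_null hnull
    have h1 : ∀ᵐ y : ℝ, y ∈ tᶜ := by
      rw [ae_iff]
      simpa using ht0
    have h2 := (ae_comp_linearMap_mem_iff L (volume : Measure (Fin m → ℝ)) (volume : Measure ℝ) hsurj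
      htm.compl).mpr h1
    filter_upwards [h2] with θ hθ
    rw [hLx] at hθ
    by_contra hcon
    exact hθ (hst hcon)
  have h2 : ∀ᵐ θ : Fin m → ℝ, ∀ j : Fin m → ℤ, j ≠ 0 → Gd (Real.exp (∑ i, j i * θ i)) := by
    rw [ae_all_iff]
    intro j
    by_cases hj : j = 0
    · exact Eventually.of_forall fun θ h => absurd hj h
    · filter_upwards [h j hj] with θ hθ _
      exact hθ
  filter_upwards [h2] with θ hθ
  exact ⟨3, fun j hj => hθ j hj⟩

end

end Pool.Agent.Run7.h689.BH
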