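import Pool.Agent.Run7.h689.BH2
import Pool.Agent.Run7.h689.BH5
import Pool.Agent.Run7.h689.BH8
import Pool.Agent.Run7.h689.BH9
import Pool.Agent.Run7.h689.BHG
import Pool.Agent.TH806.LK.Fin

set_option autoImplicit false

/-! Assembly (helper689, MP_112ba8_nt). -/

namespace Pool.Agent.Run7.h689.BH

open Finset Filter Topology MeasureTheory Complex MonoidAlgebra
open Pool.Agent.W184.NZ
open Pool.Agent.TH806
open Pool.Agent.TH806.LK
open Pool.Agent.H306R2.SM (om cl Yf ef)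
open Pool.Agent.H262R4.TM (Rng Ck)

noncomputable section

theorem apx_ex {S : Finset ℕ} (hS : ∀ p ∈ S, p.Prime) {m : ℕ} {θ : Fin m → ℝ} (hθ : Gen θ) (u : ℕ → ℂ)
    (hu : ∀ p ∈ S, ‖u p‖ = 1) (v : Fin m → ℂ) (hv : ∀ j, ‖v j‖ = 1) {δ : ℝ} (hδ : 0 < δ) :
    ∃ F : ℝ → ℝ, APX S F ∧ ∀ t : ℝ, 0 < F t →
      (∀ p ∈ S, ‖(p:ℂ) ^ (t * Complex.I) - u p‖ < δ) ∧ ∀ j, ‖Complex.exp (t * θ j * Complex.I) - v j‖ < δ := by
  obtain ⟨n, hn⟩ := hθ
  have hr0 : ∀ i, 0 ≤ rr S m i := by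
    rintro (p | j)
    · exact Real.rpow_nonneg (Nat.cast_nonneg _) _
    · exact le_rfl
  have hr1 : ∀ i, rr S m i < 1 := by
    rintro (p | j)
    · show ((p : ℕ) : ℝ) ^ (-(1 / 2) : ℝ) < 1
      apply Real.rpow_lt_one_of_one_lt_of_neg
      · exact_mod_cast (hS p p.2).one_lt
      · norm_num
    · exact zero_lt_one
  have hv' : ∀ i : S ⊕ Fin m, ‖(Sum.elim (fun p : S => u p) v i : ℂ)‖ = 1 := by
    rintro (p | j)
    · exact hu p p.2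
    · exact hv j
  obtain ⟨F, hFc, hFb, hFd, lam0, hlam, happ⟩ := multi_dim (al S θ) (rr S m) hr0 hr1
    (Sum.elim (fun p : S => u p) v) hv' hδ
  refine ⟨F, ⟨hFc, hFb, 1 / (4 * ((n:ℝ) + 1)) / 8, lam0, by positivity, hlam, fun ε hε => ?_⟩, fun t ht => ⟨fun p hp => ?_, fun j => ?_⟩⟩
  · obtain ⟨s, a, h1, h2⟩ := happ ε hε
    refine ⟨S ⊕ Fin m → ℤ, s, fun k => ∑ i, k i * al S θ i, a, fun k => ((∏ i, cc (rr S m i) (k i) : ℝ) : ℂ),
      fun k _ => tw_all Pool.Agent.TH959.LK_ZM.t_ZM a_WF hS hn k, h1, h2⟩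
  · have h3 := hFd t ht (Sum.inl ⟨p, hp⟩)
    have hp0 : (p:ℂ) ≠ 0 := by exact_mod_cast (hS p hp).ne_zero
    have e1 : (p:ℂ) ^ (t * Complex.I) = Complex.exp (((al S θ (Sum.inl ⟨p, hp⟩) * t : ℝ) : ℂ) * Complex.I) := by
      rw [Complex.cpow_def_of_ne_zero hp0, ← Complex.natCast_log]
      congr 1
      show _ = (((Real.log (p:ℕ) * t : ℝ) : ℂ)) * Complex.I
      push_cast
      ring
    rw [e1]
    exact h3
  · have h3 := hFd t ht (Sum.inr j)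
    have e1 : Complex.exp (t * θ j * Complex.I) = Complex.exp (((al S θ (Sum.inr j) * t : ℝ) : ℂ) * Complex.I) := by
      congr 1
      show _ = (((θ j * t : ℝ) : ℂ)) * Complex.I
      push_cast
      ring
    rw [e1]
    exact h3

/-- the local law in a measurable set that contains an approximable weight -/
theorem loc_law {S : Finset ℕ} {F : ℝ → ℝ} (hF : APX S F) {A : Set ℝ} (hA : ∀ t, 0 < F t → t ∈ A) :
    ∀ B : ℝ, 0 ≤ B → ∃ c C : ℝ, 0 < c ∧ 0 < C ∧ ∀ α : ℝ, 0 ≤ α → α < 1 →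
      ∀ᶠ T : ℝ in atTop, ∀ H : ℝ, T / Real.log T ^ α ≤ H → H ≤ T →
      ∀ V : ℝ, |V| ≤ B * Real.log (Real.log T) →
        c * H * (Real.exp (-(V ^ 2 / Real.log (Real.log T))) / Real.sqrt (Real.log (Real.log T))) ≤
          volume.real {t ∈ Set.Icc T (T + H) | t ∈ A ∧ Real.exp (V - C) ≤ Xz t ∧ Xz t ≤ Real.exp (V + C)} := by
  intro B hB
  obtain ⟨c, C, hc, hC, h⟩ := t_MAINF Pool.Agent.TH959.LK_SH.t_SH hF.1 hF.2.1
    (t_WINF Pool.Agent.TH828.LK_SET.t_SET Pool.Agent.TH126.LK_PT.t_PT a_U13.1 a_U2 a_U13.2 a_U4 a_LB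
      a_ALG a_LAW a_AV1 hF) B hB
  refine ⟨c, C, hc, hC, fun α h0 h1 => ?_⟩
  filter_upwards [h α h0 h1] with T hT H hH1 hH2 V hV
  refine (hT H hH1 hH2 V hV).trans ?_
  refine measureReal_mono ?_ ?_
  · rintro t ⟨h2, h3, h4⟩
    exact ⟨h2, hA t h3, h4⟩
  · refine ne_top_of_le_ne_top ?_ (measure_mono (show _ ⊆ Set.Icc T (T + H) from fun t ht => ht.1))
    rw [Real.volume_Icc]; exact ENNReal.ofReal_ne_top

end

end Pool.Agent.Run7.h689.BH
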