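import Pool.Agent.Run7.h689.BH1

set_option autoImplicit false

/-! Several variables (helper689, MP_112ba8_nt). -/

namespace Pool.Agent.Run7.h689.BH

open Finset Filter Topology MeasureTheory Complex

noncomputable section

lemma prod_diff {ι : Type*} (s : Finset ι) (a b : ι → ℂ) {ε : ℝ} (hε : 0 ≤ ε) (ha : ∀ i ∈ s, ‖a i‖ ≤ 2)
    (hb : ∀ i ∈ s, ‖b i‖ ≤ 2) (h : ∀ i ∈ s, ‖a i - b i‖ ≤ ε) :
    ‖∏ i ∈ s, a i - ∏ i ∈ s, b i‖ ≤ s.card * 2 ^ s.card * ε := by
  classical
  induction s using Finset.induction_on with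
  | empty => simp
  | insert x s hx ih =>
    have ih' := ih (fun i hi => ha i (mem_insert_of_mem hi)) (fun i hi => hb i (mem_insert_of_mem hi))
      (fun i hi => h i (mem_insert_of_mem hi))
    rw [prod_insert hx, prod_insert hx, card_insert_of_notMem hx]
    have e : a x * ∏ i ∈ s, a i - b x * ∏ i ∈ s, b i =
        a x * (∏ i ∈ s, a i - ∏ i ∈ s, b i) + (a x - b x) * ∏ i ∈ s, b i := by ring
    rw [e]
    have h1 : ‖∏ i ∈ s, b i‖ ≤ 2 ^ s.card := by
      rw [norm_prod]
      refine (prod_le_prod (fun i _ => norm_nonneg _) fun i hi => hb i (mem_insert_of_mem hi)).trans ?_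
      rw [prod_const]
    calc ‖a x * (∏ i ∈ s, a i - ∏ i ∈ s, b i) + (a x - b x) * ∏ i ∈ s, b i‖
        ≤ ‖a x‖ * ‖∏ i ∈ s, a i - ∏ i ∈ s, b i‖ + ‖a x - b x‖ * ‖∏ i ∈ s, b i‖ := by
          refine (norm_add_le _ _).trans ?_
          rw [norm_mul, norm_mul]
      _ ≤ 2 * (s.card * 2 ^ s.card * ε) + ε * 2 ^ s.card := by
          gcongr
          · exact ha x (mem_insert_self _ _)
          · exact h x (mem_insert_self _ _)
      _ ≤ ((s.card + 1 : ℕ) : ℝ) * 2 ^ (s.card + 1) * ε := by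
          rw [pow_succ]
          push_cast
          have : 0 ≤ 2 ^ s.card * ε := by positivity
          nlinarith

theorem multi_dim {ι : Type} [Fintype ι] [DecidableEq ι] (α r : ι → ℝ) (hr0 : ∀ i, 0 ≤ r i) (hr : ∀ i, r i < 1)
    (v : ι → ℂ) (hv : ∀ i, ‖v i‖ = 1) {δ : ℝ} (hδ : 0 < δ) :
    ∃ F : ℝ → ℝ, Continuous F ∧ (∀ t, 0 ≤ F t ∧ F t ≤ 1) ∧
      (∀ t : ℝ, 0 < F t → ∀ i, ‖Complex.exp (((α i * t : ℝ) : ℂ) * I) - v i‖ < δ) ∧
      ∃ lam0 : ℝ, 0 < lam0 ∧ ∀ ε : ℝ, 0 < ε → ∃ (s : Finset (ι → ℤ)) (a : (ι → ℤ) → ℂ),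
        (∀ t : ℝ, ‖(F t : ℂ) - ∑ k ∈ s, a k * Complex.exp (((∑ i, k i * α i) * t : ℝ) * I)‖ ≤ ε) ∧
        lam0 ≤ ‖∑ k ∈ s, a k * ((∏ i, cc (r i) (k i) : ℝ) : ℂ)‖ := by
  choose φ hφc hφb hφd lam hlam happ using fun i => one_dim (hr0 i) (hr i) (hv i) hδ
  refine ⟨fun t => ∏ i, φ i (α i * t), ?_, ?_, ?_, ∏ i, lam i, prod_pos fun i _ => hlam i, ?_⟩
  · exact continuous_finsetProd _ fun i _ => (hφc i).comp (by fun_prop)
  · intro t
    exact ⟨prod_nonneg fun i _ => (hφb i _).1, prod_le_one (fun i _ => (hφb i _).1) fun i _ => (hφb i _).2⟩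
  · intro t ht i
    have h1 : φ i (α i * t) ≠ 0 := by
      intro h0
      have : ∏ i, φ i (α i * t) = 0 := prod_eq_zero (mem_univ i) h0
      exact absurd this ht.ne'
    exact hφd i _ (lt_of_le_of_ne (hφb i _).1 (Ne.symm h1))
  · intro ε hε
    set M : ℝ := (Fintype.card ι : ℝ) * 2 ^ (Fintype.card ι) with hM
    have hM0 : 0 ≤ M := by positivity
    set ε' : ℝ := min 1 (ε / (M + 1)) with hε'
    have hε'0 : 0 < ε' := lt_min one_pos (by positivity)
    choose s a h1 h2 using fun i => happ i ε' hε'0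
    refine ⟨Fintype.piFinset s, fun k => ∏ i, a i (k i), ?_, ?_⟩
    · intro t
      have e1 : ∑ k ∈ Fintype.piFinset s, (∏ i, a i (k i)) * Complex.exp (((∑ i, k i * α i) * t : ℝ) * I) =
          ∏ i, ∑ j ∈ s i, a i j * Complex.exp (j * ((α i * t : ℝ) : ℂ) * I) := by
        rw [prod_univ_sum]
        refine sum_congr rfl fun k _ => ?_
        rw [prod_mul_distrib, ← Complex.exp_sum]
        congr 2
        rw [← sum_mul]
        congr 1
        push_cast
        rw [sum_mul]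
        exact sum_congr rfl fun i _ => by ring
      rw [e1]
      push_cast
      have h3 := prod_diff (univ : Finset ι) (fun i => (φ i (α i * t) : ℂ))
        (fun i => ∑ j ∈ s i, a i j * Complex.exp (j * ((α i * t : ℝ) : ℂ) * I)) hε'0.le
        (fun i _ => by
          rw [Complex.norm_real, Real.norm_eq_abs, abs_of_nonneg (hφb i _).1]
          linarith [(hφb i (α i * t)).2])
        (fun i _ => by
          have h4 := h1 i (α i * t)
          have h5 := norm_sub_norm_le (∑ j ∈ s i, a i j * Complex.exp (j * ((α i * t : ℝ) : ℂ) * I))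
            (φ i (α i * t) : ℂ)
          rw [norm_sub_rev] at h5
          have h6 : ‖(φ i (α i * t) : ℂ)‖ ≤ 1 := by
            rw [Complex.norm_real, Real.norm_eq_abs, abs_of_nonneg (hφb i _).1]
            exact (hφb i (α i * t)).2
          have h7 : ε' ≤ 1 := min_le_left _ _
          linarith)
        (fun i _ => h1 i (α i * t))
      push_cast at h3
      refine h3.trans ?_
      rw [card_univ, ← hM]
      calc M * ε' ≤ M * (ε / (M + 1)) := mul_le_mul_of_nonneg_left (min_le_right _ _) hM0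
        _ ≤ ε := by
          rw [← mul_div_assoc, div_le_iff₀ (by positivity)]
          nlinarith
    · have e2 : ∑ k ∈ Fintype.piFinset s, (∏ i, a i (k i)) * ((∏ i, cc (r i) (k i) : ℝ) : ℂ) =
          ∏ i, ∑ j ∈ s i, a i j * ((cc (r i) j : ℝ) : ℂ) := by
        rw [prod_univ_sum]
        refine sum_congr rfl fun k _ => ?_
        rw [prod_mul_distrib]
        push_cast
        rfl
      rw [e2, norm_prod]
      exact prod_le_prod (fun i _ => (hlam i).le) fun i _ => h2 i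

end

end Pool.Agent.Run7.h689.BH
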