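import Pool.Agent.TH959.LK_ZM

set_option autoImplicit false

/-! The first moment of zeta times a frequency away from the logarithms (helper689, MP_112ba8_nt). -/

namespace Pool.Agent.Run7.h689.BH

open Finset Filter Topology MeasureTheory Complex
open Pool.Agent.H306R2.SM (om cl ef)
open Pool.Agent.H262R4.TM (Rng)
open Pool.Agent.W184.NZ (mh)
open Pool.Agent.H831R2.SMT5 (om_ef_norm_le om_ef_integrable mj)
open Pool.Agent.TH959.LK_ZM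

noncomputable section

/-- the monomial as a frequency -/
lemma mh_freq {h l : ℕ} (hh : 1 ≤ h) (hl : 1 ≤ l) (t : ℝ) : mh t (h, l) =
    (((h : ℝ) ^ (-(1 / 2) : ℝ) * (l : ℝ) ^ (-(1 / 2) : ℝ) : ℝ) : ℂ) * ef (Real.log l - Real.log h) t := by
  have hh0 : (0 : ℝ) < h := by exact_mod_cast hh
  have hl0 : (0 : ℝ) < l := by exact_mod_cast hl
  show (h : ℂ) ^ (-(1 / 2 + t * Complex.I)) * (l : ℂ) ^ (-(1 / 2 - t * Complex.I)) = _
  have hhc : (h : ℂ) ≠ 0 := by exact_mod_cast hh0.ne'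
  have hlc : (l : ℂ) ≠ 0 := by exact_mod_cast hl0.ne'
  rw [Complex.cpow_def_of_ne_zero hhc, Complex.cpow_def_of_ne_zero hlc,
    Real.rpow_def_of_pos hh0, Real.rpow_def_of_pos hl0]
  unfold ef
  rw [← Complex.natCast_log, ← Complex.natCast_log, Complex.ofReal_mul, Complex.ofReal_exp,
    Complex.ofReal_exp, ← Complex.exp_add, ← Complex.exp_add, ← Complex.exp_add]
  congr 1
  push_cast
  ring

/-- the polynomial part -/
lemma poly_gen (k : ℕ) (δ : ℝ) (hδ : 0 < δ) (θ τ : ℝ) (hτ : 0 < τ) (N : ℕ)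
    (h : ∀ m : ℕ, 1 ≤ m → τ ≤ |θ - Real.log m|) :
    ‖∫ t in Set.Ioi (0 : ℝ), (om k δ t : ℂ) * (Pp N (cl t) * ef θ t)‖ ≤ (N : ℝ) ^ 4 * (δ / τ) ^ (k + 1) := by
  simp_rw [poly_term]
  rw [integral_finsetSum _ (fun m _ => (om_ef_integrable k δ hδ _).const_mul _)]
  simp_rw [integral_const_mul]
  refine (norm_sum_le _ _).trans ?_
  calc _ ≤ ∑ _m ∈ range N, (N : ℝ) ^ 3 * (δ / τ) ^ (k + 1) := by
        refine sum_le_sum fun m hm => ?_
        rcases Nat.eq_zero_or_pos m with hm0 | hm0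
        · rw [hm0, d1_zero, zero_mul, Complex.ofReal_zero, zero_mul, norm_zero]
          positivity
        rw [norm_mul, Complex.norm_real, Real.norm_eq_abs]
        have hsep := h m hm0
        have hpos : 0 < |θ - Real.log m| := lt_of_lt_of_le hτ hsep
        have h1 := om_ef_norm_le k δ hδ _ (abs_pos.mp hpos)
        have h2 : (δ / |θ - Real.log m|) ^ (k + 1) ≤ (δ / τ) ^ (k + 1) := by
          apply pow_le_pow_left₀ (by positivity)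
          exact div_le_div_of_nonneg_left hδ.le hτ hsep
        have h3 : |d1 m * (m : ℝ) ^ (-(1 / 2) : ℝ)| ≤ (N : ℝ) ^ 3 := by
          rw [abs_of_nonneg (mul_nonneg (d1_nonneg m) (by positivity))]
          have h4 : (m : ℝ) ^ (-(1 / 2) : ℝ) ≤ 1 := by
            apply Real.rpow_le_one_of_one_le_of_nonpos
            · exact_mod_cast hm0
            · norm_num
          have h5 : (m : ℝ) ≤ N := by exact_mod_cast (mem_range.mp hm).le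
          calc d1 m * (m : ℝ) ^ (-(1 / 2) : ℝ) ≤ (m : ℝ) ^ 3 * 1 := by
                apply mul_le_mul (d1_le m) h4 (by positivity) (by positivity)
            _ = (m : ℝ) ^ 3 := mul_one _
            _ ≤ (N : ℝ) ^ 3 := by gcongr
        exact mul_le_mul h3 (h1.trans h2) (norm_nonneg _) (by positivity)
    _ = (N : ℝ) ^ 4 * (δ / τ) ^ (k + 1) := by
        rw [sum_const, card_range, nsmul_eq_mul]
        ring

/-- frequencies away from the logarithms -/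
theorem gen_small : ∀ᶠ T : ℝ in atTop, ∀ k : ℕ, Rng T k → ∀ n : ℕ, 1 ≤ n → (n : ℝ) ≤ T ^ (1 / 2 : ℝ) →
    ∀ θ : ℝ, θ ≤ Real.log n → (∀ m : ℕ, 1 ≤ m → T ^ (-(1 / 2) : ℝ) ≤ |θ - Real.log m|) →
      ‖∫ t in Set.Ioi (0 : ℝ), (om k (k / T) t : ℂ) * (riemannZeta (cl t) * ef θ t)‖ ≤ T ^ (-1 : ℝ) := by
  have hE1 : ∀ᶠ T : ℝ in atTop, 16 * Real.log T ^ 2 ≤ T ^ (1 / 4 : ℝ) := by
    have h := (isLittleO_log_rpow_rpow_atTop (s := 1 / 4) 2 (by positivity)).bound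
      (show (0 : ℝ) < 1 / 16 by norm_num)
    filter_upwards [h, eventually_ge_atTop 1] with T hT hT1
    rw [Real.norm_eq_abs, Real.norm_eq_abs, abs_of_nonneg (by
      have := Real.log_nonneg hT1
      positivity), abs_of_nonneg (by positivity)] at hT
    have e : Real.log T ^ (2 : ℝ) = Real.log T ^ 2 := by
      rw [← Real.rpow_natCast]
      norm_num
    rw [e] at hT
    linarith
  have hE2 : ∀ᶠ T : ℝ in atTop, 96 ≤ Real.log T ^ 2 :=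
    ((tendsto_pow_atTop (two_ne_zero)).comp Real.tendsto_log_atTop).eventually_ge_atTop _
  have hE3 : ∀ᶠ T : ℝ in atTop, 4 * 10 ^ 9 + 3 * C2 ≤ T ^ (1 / 2 : ℝ) :=
    (tendsto_rpow_atTop (by norm_num)).eventually_ge_atTop _
  filter_upwards [hE1, hE2, hE3, eventually_ge_atTop 2] with T h1 h2 h3 h4 k hk n hn hnT θ hθ hsep
  obtain ⟨hk1, hk2⟩ := hk
  have hT0 : 0 < T := by linarith
  have hT1 : 1 ≤ T := by linarith
  have hkpos : (0 : ℝ) < k := lt_of_lt_of_le (lt_of_lt_of_le (by positivity) h2) hk1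
  set δ : ℝ := (k : ℝ) / T with hδdef
  have hδ : 0 < δ := div_pos hkpos hT0
  have hn0 : (0 : ℝ) < n := by exact_mod_cast hn
  have hC2 := C2_nonneg
  set τ : ℝ := T ^ (-(1 / 2) : ℝ) with hτ
  have hτ0 : 0 < τ := by positivity
  -- the small parameter
  have hx : 4 * (δ / τ) ≤ T ^ (-(1 / 4) : ℝ) := by
    have e1 : δ / τ ≤ 4 * Real.log T ^ 2 * T ^ (-(1 / 2) : ℝ) := by
      rw [div_le_iff₀ hτ0, hδdef, hτ, mul_assoc, ← Real.rpow_add hT0]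
      norm_num
      rw [Real.rpow_neg_one, ← div_eq_mul_inv]
      exact div_le_div_of_nonneg_right hk2 hT0.le
    have e2 : T ^ (-(1 / 2) : ℝ) = T ^ (-(1 / 4) : ℝ) * T ^ (-(1 / 4) : ℝ) := by
      rw [← Real.rpow_add hT0]; norm_num
    have e3 : T ^ (1 / 4 : ℝ) * T ^ (-(1 / 4) : ℝ) = 1 := by
      rw [← Real.rpow_add hT0]; simp
    have hy : 0 < T ^ (-(1 / 4) : ℝ) := by positivity
    calc 4 * (δ / τ) ≤ 16 * Real.log T ^ 2 * (T ^ (-(1 / 4) : ℝ) * T ^ (-(1 / 4) : ℝ)) := by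
          rw [← e2]; linarith
      _ ≤ T ^ (1 / 4 : ℝ) * (T ^ (-(1 / 4) : ℝ) * T ^ (-(1 / 4) : ℝ)) := by gcongr
      _ = T ^ (-(1 / 4) : ℝ) := by rw [← mul_assoc, e3, one_mul]
  have hτ1 : τ ≤ 1 := Real.rpow_le_one_of_one_le_of_nonpos hT1 (by norm_num)
  have hδτ : δ ≤ δ / τ := by
    rw [le_div_iff₀ hτ0]; nlinarith
  have hx1 : 4 * δ ≤ T ^ (-(1 / 4) : ℝ) := by linarith
  have hsmall : T ^ (-(1 / 4) : ℝ) ≤ 1 :=
    Real.rpow_le_one_of_one_le_of_nonpos hT1 (by norm_num)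
  have hδ4 : δ ≤ 1 / 4 := by linarith
  have hX : (T ^ (-(1 / 4) : ℝ)) ^ (k + 1) ≤ (T ^ 24)⁻¹ := by
    rw [← Real.rpow_natCast, ← Real.rpow_mul hT0.le, ← Real.rpow_natCast T 24,
      ← Real.rpow_neg hT0.le]
    apply Real.rpow_le_rpow_of_exponent_le hT1
    have h5 : 96 ≤ (k:ℝ) := h2.trans hk1
    push_cast
    nlinarith
  -- the four terms
  set N : ℕ := ⌈T ^ 4⌉₊ with hN
  have hN1 : T ^ 4 ≤ N := Nat.le_ceil _
  have hT4 : (1 : ℝ) ≤ T ^ 4 := one_le_pow₀ hT1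
  have hN2 : (N : ℝ) ≤ 2 * T ^ 4 := by
    have := Nat.ceil_lt_add_one (show (0 : ℝ) ≤ T ^ 4 by positivity)
    linarith
  have hNpos : (0 : ℝ) < N := lt_of_lt_of_le (by positivity) hN1
  have hNpos' : 0 < N := by exact_mod_cast hNpos
  have hnT' : (n : ℝ) ≤ T := by
    refine hnT.trans ?_
    calc T ^ (1 / 2 : ℝ) ≤ T ^ (1 : ℝ) := Real.rpow_le_rpow_of_exponent_le hT1 (by norm_num)
      _ = T := Real.rpow_one T
  have hN4 : (N : ℝ) ^ 4 ≤ 16 * T ^ 16 := by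
    calc (N : ℝ) ^ 4 ≤ (2 * T ^ 4) ^ 4 := by gcongr
      _ = 16 * T ^ 16 := by ring
  have hK : 216 * 4 ^ 6 + (N : ℝ) ^ 4 ≤ 884752 * T ^ 16 := by
    have : (1 : ℝ) ≤ T ^ 16 := one_le_pow₀ hT1
    nlinarith
  have hXpos : 0 < (T ^ 24)⁻¹ := by positivity
  have hn52 : (n : ℝ) ^ (5 / 2 : ℝ) ≤ T ^ (5 / 2 : ℝ) := by gcongr
  have hT52 : T ^ (5 / 2 : ℝ) ≤ T ^ 3 := by
    rw [← Real.rpow_natCast]
    apply Real.rpow_le_rpow_of_exponent_le hT1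
    norm_num
  have hexp : Real.exp (5 / 2 * δ) ≤ 3 := by
    have h5 : Real.exp (5 / 2 * δ) ≤ Real.exp 1 := Real.exp_le_exp.mpr (by linarith)
    have := Real.exp_one_lt_d9
    linarith
  have t1 : (N : ℝ) ^ 4 * (δ / τ) ^ (k + 1) ≤ 16 * T ^ 16 * (T ^ 24)⁻¹ := by
    have h5 : (δ / τ) ^ (k + 1) ≤ (T ^ 24)⁻¹ := by
      refine le_trans ?_ hX
      apply pow_le_pow_left₀ (by positivity)
      have : 0 ≤ δ / τ := by positivity
      linarith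
    gcongr
  have hδX : δ ^ (k + 1) ≤ (T ^ 24)⁻¹ := by
    refine le_trans ?_ hX
    apply pow_le_pow_left₀ hδ.le
    linarith
  have t2 : δ ^ (k + 1) * ((216 * 4 ^ 6 + (N : ℝ) ^ 4) * 64) ≤
      (T ^ 24)⁻¹ * ((884752 * T ^ 16) * 64) := by
    gcongr
  have t3 : Real.exp (5 / 2 * δ) * (C2 / N) * (n : ℝ) ^ (5 / 2 : ℝ) ≤
      3 * C2 * T ^ (-(3 / 2) : ℝ) := by
    have e1 : T ^ (-(3 / 2) : ℝ) = (T ^ 4)⁻¹ * T ^ (5 / 2 : ℝ) := by
      rw [← Real.rpow_natCast, ← Real.rpow_neg hT0.le, ← Real.rpow_add hT0]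
      norm_num
    calc Real.exp (5 / 2 * δ) * (C2 / N) * (n : ℝ) ^ (5 / 2 : ℝ) ≤
        3 * (C2 / T ^ 4) * T ^ (5 / 2 : ℝ) := by gcongr
      _ = _ := by rw [e1]; ring
  have t4 : 5 / 2 * mj k δ n N 1 ≤ 35 * 10 ^ 8 * (T ^ 5)⁻¹ := by
    have h5 : δ ^ (k + 1) * (7 / 2 : ℝ) ^ (k + 1) ≤ (T ^ 24)⁻¹ := by
      rw [← mul_pow]
      refine le_trans ?_ hX
      apply pow_le_pow_left₀ (by positivity)
      linarith
    have hfac : (1 : ℝ) ≤ (k.factorial : ℝ) := by exact_mod_cast Nat.factorial_pos k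
    have hexp2 : Real.exp (-(δ * (1 + 5 / 2))) ≤ 1 := by
      rw [Real.exp_le_one_iff]
      linarith
    unfold mj
    calc 5 / 2 * ((Real.exp (5 / 2 * δ) * (δ ^ (k + 1) / (k.factorial : ℝ)) *
          (216 * 4 ^ 6 + (N : ℝ) ^ 4) * (n : ℝ) ^ (5 / 2 : ℝ)) *
          ((1 + 5 / 2) ^ (k + 6) * Real.exp (-(δ * (1 + 5 / 2)))))
        ≤ 5 / 2 * ((3 * (δ ^ (k + 1) / 1) * (884752 * T ^ 16) * T ^ 3) *
          ((1 + 5 / 2) ^ (k + 6) * 1)) := by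
          gcongr
          exact hn52.trans hT52
      _ = 5 / 2 * (3 * (884752 * T ^ 16) * T ^ 3) * (7 / 2) ^ 5 *
          (δ ^ (k + 1) * (7 / 2 : ℝ) ^ (k + 1)) := by
          rw [show (1 + 5 / 2 : ℝ) = 7 / 2 by norm_num, show k + 6 = (k + 1) + 5 by ring,
            pow_add (7 / 2 : ℝ) (k + 1) 5]
          ring
      _ ≤ 5 / 2 * (3 * (884752 * T ^ 16) * T ^ 3) * (7 / 2) ^ 5 * (T ^ 24)⁻¹ := by
          gcongr
      _ = 5 / 2 * 3 * 884752 * (7 / 2) ^ 5 * (T ^ 5)⁻¹ := by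
          field_simp
      _ ≤ 35 * 10 ^ 8 * (T ^ 5)⁻¹ := by
          apply mul_le_mul_of_nonneg_right _ (by positivity)
          norm_num
  have hmain : ‖∫ t in Set.Ioi (0 : ℝ), (om k δ t : ℂ) * (riemannZeta (cl t) * ef θ t)‖ ≤
      (N : ℝ) ^ 4 * (δ / τ) ^ (k + 1) +
      (δ ^ (k + 1) * ((216 * 4 ^ 6 + (N : ℝ) ^ 4) * 64) +
        (Real.exp (5 / 2 * δ) * (C2 / N) * (n : ℝ) ^ (5 / 2 : ℝ) + 5 / 2 * mj k δ n N 1)) := by
    have e : ∀ t : ℝ, (om k δ t : ℂ) * (riemannZeta (cl t) * ef θ t) =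
        (om k δ t : ℂ) * (Pp N (cl t) * ef θ t) + (om k δ t : ℂ) * (gg N (cl t) * ef θ t) := by
      intro t
      unfold gg
      ring
    simp_rw [e]
    rw [integral_add (poly_integrable k δ _ hδ N) (ff_cl_integrable k δ _ hδ N)]
    refine (norm_add_le _ _).trans (add_le_add ?_ ?_)
    · exact poly_gen k δ hδ θ τ hτ0 N hsep
    · exact rem_bound k δ θ hδ n N hn hθ hNpos'
  refine hmain.trans ?_
  have e32 : T ^ (-1 : ℝ) = T ^ (1 / 2 : ℝ) * T ^ (-(3 / 2) : ℝ) := by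
    rw [← Real.rpow_add hT0]
    norm_num
  have hs0 : 0 < T ^ (-(3 / 2) : ℝ) := by positivity
  have hs5 : (T ^ 5)⁻¹ ≤ T ^ (-(3 / 2) : ℝ) := by
    rw [← Real.rpow_natCast, ← Real.rpow_neg hT0.le]
    apply Real.rpow_le_rpow_of_exponent_le hT1
    norm_num
  have hs8 : T ^ 16 * (T ^ 24)⁻¹ ≤ T ^ (-(3 / 2) : ℝ) := by
    have e1 : T ^ 16 * (T ^ 24)⁻¹ = (T ^ 8)⁻¹ := by
      field_simp
    rw [e1, ← Real.rpow_natCast, ← Real.rpow_neg hT0.le]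
    apply Real.rpow_le_rpow_of_exponent_le hT1
    norm_num
  calc (N : ℝ) ^ 4 * (δ / τ) ^ (k + 1) +
      (δ ^ (k + 1) * ((216 * 4 ^ 6 + (N : ℝ) ^ 4) * 64) +
        (Real.exp (5 / 2 * δ) * (C2 / N) * (n : ℝ) ^ (5 / 2 : ℝ) + 5 / 2 * mj k δ n N 1))
      ≤ 16 * T ^ 16 * (T ^ 24)⁻¹ + ((T ^ 24)⁻¹ * ((884752 * T ^ 16) * 64) +
        (3 * C2 * T ^ (-(3 / 2) : ℝ) + 35 * 10 ^ 8 * (T ^ 5)⁻¹)) :=
        add_le_add t1 (add_le_add t2 (add_le_add t3 t4))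
    _ = (16 + 884752 * 64) * (T ^ 16 * (T ^ 24)⁻¹) + 3 * C2 * T ^ (-(3 / 2) : ℝ) +
        35 * 10 ^ 8 * (T ^ 5)⁻¹ := by ring
    _ ≤ (16 + 884752 * 64) * T ^ (-(3 / 2) : ℝ) + 3 * C2 * T ^ (-(3 / 2) : ℝ) +
        35 * 10 ^ 8 * T ^ (-(3 / 2) : ℝ) :=
        add_le_add (add_le_add (mul_le_mul_of_nonneg_left hs8 (by norm_num)) le_rfl)
          (mul_le_mul_of_nonneg_left hs5 (by norm_num))
    _ = (16 + 884752 * 64 + 35 * 10 ^ 8 + 3 * C2) * T ^ (-(3 / 2) : ℝ) := by ring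
    _ ≤ (4 * 10 ^ 9 + 3 * C2) * T ^ (-(3 / 2) : ℝ) := by
        apply mul_le_mul_of_nonneg_right _ hs0.le
        linarith
    _ ≤ T ^ (1 / 2 : ℝ) * T ^ (-(3 / 2) : ℝ) := mul_le_mul_of_nonneg_right h3 hs0.le
    _ = T ^ (-1 : ℝ) := e32.symm

end

end Pool.Agent.Run7.h689.BH
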