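import Pool.Agent.Run7.h689.BH1
import Pool.Agent.Run7.h689.BH3
import Pool.Agent.TH263.LK_AV1

set_option autoImplicit false

/-! The twisted first moment with additional frequencies (helper689, MP_112ba8_nt). -/

namespace Pool.Agent.Run7.h689.BH

open Finset Filter Topology MeasureTheory Complex MonoidAlgebra
open Pool.Agent.W184.NZ
open Pool.Agent.TH806 Pool.Agent.TH806.LK
open Pool.Agent.H306R2.SM (om cl Yf ef)
open Pool.Agent.H262R4.TM (Rng Ck)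
open Pool.Agent.TH263.LK_AV1 (Expn int_om ev_cont ev_le)

noncomputable section

/-- the twisted first moment with the frequency `ω`: the local constant is `c` -/
def TwP (S : Finset ℕ) (η ω : ℝ) (c : ℂ) : Prop := ∀ᶠ T : ℝ in atTop, ∀ κ : ℕ, Rng T κ →
  ∀ (c' Q C : ℝ) (J : ℕ) (I : ℕ → Finset ℕ) (b : ℕ → ℝ) (K : ℕ → ℕ) (f : ℕ → ℂ → ℂ) (ν : ℕ → Measure (ℂ × ℂ)),
    Rg c' J I b → (∀ i < J, Disjoint S (I i)) → (∀ i < J, LW wF 0 1 Q C (I i) (ν i)) →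
    (∀ i < J, 1 ≤ K i ∧ PB (K i) (f i)) →
    ∑ i ∈ range J, (K i : ℝ) * Real.log (b i) ≤ η * Real.log T →
    ‖(∫ t in Set.Ioi (0:ℝ), ((om κ (κ / T) t : ℝ) : ℂ) *
        (riemannZeta (cl t) * (ef ω t * ∏ i ∈ range J, f i (zz I t i)))) -
      c * ∏ i ∈ range J, ∫ q, q.2 * f i q.1 ∂(ν i)‖ ≤ T ^ (-(1 / 2) : ℝ)

/-- the elementary estimate -/
def EL (σ ω : ℝ) (χ : ℂ) : Prop := ∀ᶠ T : ℝ in atTop, ∀ κ : ℕ, Rng T κ → ∀ h l : ℕ, 1 ≤ h → 1 ≤ l →
  (h : ℝ) ≤ T ^ σ → (l : ℝ) ≤ T ^ σ →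
    ‖(∫ t in Set.Ioi (0 : ℝ), ((om κ (κ / T) t : ℝ) : ℂ) * (riemannZeta (cl t) * (ef ω t * mh t (h, l)))) -
      χ * ((wF (h, l) : ℝ) : ℂ)‖ ≤ T ^ (-1 : ℝ)

lemma ef_cont (θ : ℝ) : Continuous (ef θ) := Pool.Agent.H831R2.SMT5.ef_continuous θ
lemma ef_norm (θ t : ℝ) : ‖ef θ t‖ = 1 := Pool.Agent.H831R2.SMT5.ef_norm θ t
lemma ef_mul (a b t : ℝ) : ef a t * ef b t = ef (a + b) t := Pool.Agent.H831R2.SMT5.ef_mul a b t
lemma ef_zero (t : ℝ) : ef 0 t = 1 := Pool.Agent.H831R2.SMT5.ef_zero t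

lemma EL_zero (hZ : P_ZM) : EL (1 / 4) 0 1 := by
  filter_upwards [hZ] with T hT κ hκ h l hh hl h1 h2
  have := hT κ hκ h l hh hl h1 h2
  simp_rw [ef_zero, one_mul]
  exact this

/-- frequencies that are not approximable -/
lemma EL_gen {ω : ℝ} {n : ℕ} {c : ℝ} (hc : 0 < c)
    (hgap : ∀ a b : ℕ, 1 ≤ b → c / (b:ℝ) ^ n ≤ |Real.exp ω - a / b|) : EL (1 / (4 * ((n:ℝ) + 1))) ω 0 := by
  set σ : ℝ := 1 / (4 * ((n:ℝ) + 1)) with hσ
  have hn0 : (0:ℝ) ≤ n := Nat.cast_nonneg n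
  have hσ0 : 0 < σ := by positivity
  have hσ4 : σ ≤ 1 / 4 := by
    rw [hσ]
    apply one_div_le_one_div_of_le (by norm_num)
    linarith
  have hσn : σ * n ≤ 1 / 4 := by
    rw [hσ, one_div, inv_mul_le_iff₀ (by positivity)]
    linarith
  set n0 : ℕ := ⌈Real.exp |ω|⌉₊ with hn0'
  have hn01 : 1 ≤ n0 := Nat.one_le_ceil_iff.mpr (Real.exp_pos _)
  have hE1 : ∀ᶠ T : ℝ in atTop, (n0:ℝ) ≤ T ^ (1 / 4 : ℝ) := (tendsto_rpow_atTop (by norm_num)).eventually_ge_atTop _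
  have hE2 : ∀ᶠ T : ℝ in atTop, 2 * Real.exp ω / c + 1 ≤ T ^ (1 / 4 : ℝ) :=
    (tendsto_rpow_atTop (by norm_num)).eventually_ge_atTop _
  filter_upwards [gen_small, hE1, hE2, eventually_gt_atTop (1:ℝ)] with T hT h1 h2 hT1 κ hκ h l hh hl hhT hlT
  have hT0 : 0 < T := by linarith
  have hh0 : (0 : ℝ) < h := by exact_mod_cast hh
  have hl0 : (0 : ℝ) < l := by exact_mod_cast hl
  set θ : ℝ := ω + (Real.log l - Real.log h) with hθ
  set a0 : ℝ := (h : ℝ) ^ (-(1 / 2) : ℝ) * (l : ℝ) ^ (-(1 / 2) : ℝ) with ha0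
  have ha00 : 0 ≤ a0 := by positivity
  have ha01 : a0 ≤ 1 := by
    have a1 : (h : ℝ) ^ (-(1 / 2) : ℝ) ≤ 1 :=
      Real.rpow_le_one_of_one_le_of_nonpos (by exact_mod_cast hh) (by norm_num)
    have a2 : (l : ℝ) ^ (-(1 / 2) : ℝ) ≤ 1 :=
      Real.rpow_le_one_of_one_le_of_nonpos (by exact_mod_cast hl) (by norm_num)
    exact mul_le_one₀ a1 (by positivity) a2
  have e1 : ∀ t : ℝ, ((om κ (κ / T) t : ℝ) : ℂ) * (riemannZeta (cl t) * (ef ω t * mh t (h, l))) =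
      (a0 : ℂ) * (((om κ (κ / T) t : ℝ) : ℂ) * (riemannZeta (cl t) * ef θ t)) := by
    intro t
    rw [mh_freq hh hl, hθ, ← ef_mul]
    ring
  simp_rw [e1]
  rw [integral_const_mul, zero_mul, sub_zero, norm_mul, Complex.norm_real, Real.norm_eq_abs, abs_of_nonneg ha00]
  have hbound : ‖∫ t in Set.Ioi (0 : ℝ), ((om κ (κ / T) t : ℝ) : ℂ) * (riemannZeta (cl t) * ef θ t)‖ ≤
      T ^ (-1 : ℝ) := by
    refine hT κ hκ (n0 * l) (Nat.mul_pos hn01 hl) ?_ θ ?_ ?_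
    · push_cast
      calc (n0:ℝ) * l ≤ T ^ (1 / 4 : ℝ) * T ^ σ := by gcongr
        _ ≤ T ^ (1 / 4 : ℝ) * T ^ (1 / 4 : ℝ) := by
            gcongr
            exact hT1.le
        _ = T ^ (1 / 2 : ℝ) := by rw [← Real.rpow_add hT0]; norm_num
    · push_cast
      have hn00 : (0:ℝ) < n0 := by exact_mod_cast hn01
      rw [Real.log_mul hn00.ne' hl0.ne', hθ]
      have b1 : 0 ≤ Real.log h := Real.log_nonneg (by exact_mod_cast hh)
      have b2 : ω ≤ Real.log n0 := by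
        rw [Real.le_log_iff_exp_le hn00]
        exact (Real.exp_le_exp.mpr (le_abs_self ω)).trans (Nat.le_ceil _)
      linarith
    · intro m hm
      have hm0 : (0:ℝ) < m := by exact_mod_cast hm
      by_contra hcon
      push Not at hcon
      have hTs : T ^ (-(1 / 2) : ℝ) ≤ 1 := Real.rpow_le_one_of_one_le_of_nonpos hT1.le (by norm_num)
      set y : ℝ := Real.log m + Real.log h - Real.log l with hy
      have hey : Real.exp y = ((m * h : ℕ) : ℝ) / l := by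
        rw [hy, Real.exp_sub, Real.exp_add, Real.exp_log hm0, Real.exp_log hh0, Real.exp_log hl0]
        push_cast; ring
      have hωy : |y - ω| < T ^ (-(1 / 2) : ℝ) := by
        rw [abs_sub_comm]
        have : ω - y = θ - Real.log m := by rw [hy, hθ]; ring
        rw [this]; exact hcon
      have g1 := hgap (m * h) l hl
      rw [← hey] at g1
      have g2 : |Real.exp ω - Real.exp y| ≤ Real.exp ω * (2 * |y - ω|) := by
        have e2 : Real.exp ω - Real.exp y = -(Real.exp ω * (Real.exp (y - ω) - 1)) := by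
          rw [mul_sub, ← Real.exp_add]; ring_nf
        rw [e2, abs_neg, abs_mul, abs_of_pos (Real.exp_pos ω)]
        refine mul_le_mul_of_nonneg_left ?_ (Real.exp_pos ω).le
        exact Real.abs_exp_sub_one_le (hωy.le.trans hTs)
      have g3 : (l:ℝ) ^ n ≤ T ^ (1 / 4 : ℝ) := by
        calc (l:ℝ) ^ n ≤ (T ^ σ) ^ n := by gcongr
          _ = T ^ (σ * n) := by rw [← Real.rpow_natCast, ← Real.rpow_mul hT0.le]
          _ ≤ T ^ (1 / 4 : ℝ) := Real.rpow_le_rpow_of_exponent_le hT1.le hσn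
      have g4 : c / T ^ (1 / 4 : ℝ) ≤ c / (l:ℝ) ^ n := div_le_div_of_nonneg_left hc.le (by positivity) g3
      have g5 : c / T ^ (1 / 4 : ℝ) < Real.exp ω * (2 * T ^ (-(1 / 2) : ℝ)) := by
        refine lt_of_le_of_lt (g4.trans (g1.trans g2)) ?_
        have := Real.exp_pos ω
        gcongr
      have hq : 0 < T ^ (1 / 4 : ℝ) := by positivity
      rw [div_lt_iff₀ hq] at g5
      have e3 : Real.exp ω * (2 * T ^ (-(1 / 2) : ℝ)) * T ^ (1 / 4 : ℝ) =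
          2 * Real.exp ω * (T ^ (1 / 4 : ℝ))⁻¹ := by
        have : T ^ (-(1 / 2) : ℝ) * T ^ (1 / 4 : ℝ) = (T ^ (1 / 4 : ℝ))⁻¹ := by
          rw [← Real.rpow_add hT0, ← Real.rpow_neg hT0.le]; norm_num
        calc _ = 2 * Real.exp ω * (T ^ (-(1 / 2) : ℝ) * T ^ (1 / 4 : ℝ)) := by ring
          _ = _ := by rw [this]
      rw [e3, ← div_eq_mul_inv, lt_div_iff₀ hq] at g5
      have g6 : (2 * Real.exp ω / c + 1) * c ≤ T ^ (1 / 4 : ℝ) * c := mul_le_mul_of_nonneg_right h2 hc.le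
      have g7 : (2 * Real.exp ω / c + 1) * c = 2 * Real.exp ω + c := by field_simp
      rw [g7] at g6
      linarith
  calc a0 * _ ≤ 1 * T ^ (-1 : ℝ) := mul_le_mul ha01 hbound (norm_nonneg _) zero_le_one
    _ = _ := one_mul _

/-! ### products -/

lemma expn_start {S : Finset ℕ} {x : ℕ × ℕ} (hx : x ∈ MI S) :
    Expn (max x.1 x.2 : ℕ) 1 S (fun t => mh t x) ((wF x : ℝ) : ℂ) := by
  refine ⟨Unit, {()}, fun _ => 1, fun _ => single x 1, ?_, ?_, ?_, ?_⟩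
  · intro _ _
    refine ⟨single_mem_SA hx 1, Bd.single ⟨⟨hx.1, hx.2.1⟩, ?_, ?_⟩ 1⟩
    · exact_mod_cast le_max_left _ _
    · exact_mod_cast le_max_right _ _
  · intro t
    rw [sum_singleton, ev_single, one_mul]
    push_cast; ring
  · rw [sum_singleton, lam_single]
    push_cast; ring
  · rw [sum_singleton, l1_single, norm_one]
    norm_num

theorem expn_from (hF : P_WF) {c Q C : ℝ} {J : ℕ} {I : ℕ → Finset ℕ} {b : ℕ → ℝ}
    {K : ℕ → ℕ} {f : ℕ → ℂ → ℂ} {ν : ℕ → Measure (ℂ × ℂ)} (hR : Rg c J I b)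
    (hν : ∀ i < J, LW wF 0 1 Q C (I i) (ν i)) (hf : ∀ i < J, 1 ≤ K i ∧ PB (K i) (f i))
    {N L : ℝ} {S : Finset ℕ} {F : ℝ → ℂ} {A : ℂ} (h0 : Expn N L S F A) (hS : ∀ i < J, Disjoint S (I i))
    (m : ℕ) (hm : m ≤ J) :
    Expn (N * ∏ i ∈ range m, b i ^ (2 * K i)) (L * ∏ i ∈ range m, b i ^ (3 * K i))
      (S ∪ (range m).biUnion I) (fun t => F t * ∏ i ∈ range m, f i (zz I t i))
      (A * ∏ i ∈ range m, ∫ q, q.2 * f i q.1 ∂(ν i)) := by
  classical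
  induction m with
  | zero =>
    simp only [range_zero, prod_empty, biUnion_empty, mul_one, union_empty]
    exact h0
  | succ m ih =>
    have hmJ : m < J := hm
    have h := (ih (by omega)).block hF (disjoint_union_left.mpr ⟨hS m hmJ, disj_union m hR.dj⟩) (hR.b10 m hmJ)
      (fun p hp => ⟨(hR.pr m p hp).1, (hR.pr m p hp).2.2⟩) (hf m hmJ).1 (hf m hmJ).2 (hν m hmJ)
    have e : S ∪ (range (m + 1)).biUnion I = (S ∪ (range m).biUnion I) ∪ I m := by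
      rw [range_add_one, biUnion_insert, union_comm (I m), union_assoc]
    rw [e]
    simp only [prod_range_succ, ← mul_assoc]
    exact h

theorem prod_bnd {J : ℕ} {b : ℕ → ℝ} (hb : ∀ i < J, 10 ≤ b i) (K : ℕ → ℕ) (r : ℕ) {T η : ℝ}
    (hT : 1 < T)
    (h : ∑ i ∈ range J, (K i : ℝ) * Real.log (b i) ≤ η * Real.log T) :
    ∏ i ∈ range J, b i ^ (r * K i) ≤ T ^ ((r : ℝ) * η) := by
  have h0 : ∀ i ∈ range J, (0:ℝ) < b i := fun i hi => by
    have := hb i (mem_range.mp hi); linarith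
  have e1 : ∏ i ∈ range J, b i ^ (r * K i)
      = Real.exp (r * ∑ i ∈ range J, (K i : ℝ) * Real.log (b i)) := by
    rw [mul_sum, Real.exp_sum]
    refine prod_congr rfl fun i hi => ?_
    rw [← Real.rpow_natCast, Real.rpow_def_of_pos (h0 i hi)]
    congr 1
    push_cast
    ring
  rw [e1, Real.rpow_def_of_pos (by linarith)]
  refine Real.exp_le_exp.mpr ?_
  have := mul_le_mul_of_nonneg_left h (Nat.cast_nonneg r : (0:ℝ) ≤ r)
  linarith

/-- one element of the algebra, with a frequency -/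
theorem one_tw {T ω σ : ℝ} {χ : ℂ} {κ : ℕ} (hδ : 0 < (κ : ℝ) / T)
    (hZ : ∀ h l : ℕ, 1 ≤ h → 1 ≤ l → (h : ℝ) ≤ T ^ σ → (l : ℝ) ≤ T ^ σ →
      ‖(∫ t in Set.Ioi (0 : ℝ), ((om κ (κ / T) t : ℝ) : ℂ) * (riemannZeta (cl t) * (ef ω t * mh t (h, l)))) -
      χ * ((wF (h, l) : ℝ) : ℂ)‖ ≤ T ^ (-1 : ℝ))
    {N : ℝ} (hN : N ≤ T ^ σ) {M : DA} (hM : Bd N M) :
    ‖(∫ t in Set.Ioi (0 : ℝ), ((om κ (κ / T) t : ℝ) : ℂ) * (riemannZeta (cl t) * (ef ω t * ev t M))) -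
      χ * ((lam wF M : ℝ) : ℂ)‖ ≤ T ^ (-1 : ℝ) * l1 M := by
  have e1 : ∀ t : ℝ, ((om κ (κ / T) t : ℝ) : ℂ) * (riemannZeta (cl t) * (ef ω t * ev t M)) =
      ∑ x ∈ M.coeff.support, (M.coeff x : ℂ) *
        (((om κ (κ / T) t : ℝ) : ℂ) * (riemannZeta (cl t) * (ef ω t * mh t x))) := by
    intro t
    rw [ev_apply, mul_sum, mul_sum, mul_sum]
    refine sum_congr rfl fun x _ => ?_
    ring
  have hi : ∀ x ∈ M.coeff.support, Integrable (fun t : ℝ => (M.coeff x : ℂ) *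
        (((om κ (κ / T) t : ℝ) : ℂ) * (riemannZeta (cl t) * (ef ω t * mh t x))))
        (volume.restrict (Set.Ioi 0)) := by
    intro x hx
    refine Integrable.const_mul ?_ _
    exact int_om κ hδ ((ef_cont ω).mul (mh_cont (hM x hx).1.1 (hM x hx).1.2)) (B := 1)
      fun t => by
        rw [norm_mul, ef_norm, one_mul]
        exact mh_norm_le (hM x hx).1.1 (hM x hx).1.2
  rw [integral_congr_ae (Eventually.of_forall e1), integral_finsetSum _ hi, lam_apply, Finsupp.sum,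
    Complex.ofReal_sum, mul_sum, ← sum_sub_distrib, l1, mul_sum]
  refine (norm_sum_le _ _).trans (sum_le_sum fun x hx => ?_)
  rw [integral_const_mul, Complex.ofReal_mul, mul_left_comm χ, ← mul_sub, norm_mul, Complex.norm_real,
    Real.norm_eq_abs, mul_comm (T ^ (-1 : ℝ))]
  refine mul_le_mul_of_nonneg_left ?_ (abs_nonneg _)
  have h := hM x hx
  exact hZ x.1 x.2 (Nat.pos_of_ne_zero h.1.1) (Nat.pos_of_ne_zero h.1.2) (h.2.1.trans hN)
    (h.2.2.trans hN)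

theorem TwP_of_EL (hF : P_WF) {σ ω : ℝ} {χ : ℂ} (hσ : 0 < σ) (hσ4 : σ ≤ 1 / 4) (hE : EL σ ω χ) {S : Finset ℕ}
    {h l : ℕ} (hx : (h, l) ∈ MI S) : TwP S (σ / 8) (ω + (Real.log l - Real.log h))
      (χ * ((Real.sqrt h * Real.sqrt l * wF (h, l) : ℝ) : ℂ)) := by
  have hh : 1 ≤ h := Nat.pos_of_ne_zero hx.1
  have hl : 1 ≤ l := Nat.pos_of_ne_zero hx.2.1
  have hh0 : (0 : ℝ) < h := by exact_mod_cast hh
  have hl0 : (0 : ℝ) < l := by exact_mod_cast hl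
  have hE1 : ∀ᶠ T : ℝ in atTop, ((max h l : ℕ) : ℝ) ≤ T ^ (3 * σ / 4 : ℝ) :=
    (tendsto_rpow_atTop (by positivity)).eventually_ge_atTop _
  have hE2 : ∀ᶠ T : ℝ in atTop, Real.sqrt h * Real.sqrt l ≤ T ^ (1 / 4 : ℝ) :=
    (tendsto_rpow_atTop (by norm_num)).eventually_ge_atTop _
  filter_upwards [hE, hE1, hE2, eventually_gt_atTop (Real.exp 1)] with T hZT h1T h2T hT1
  intro κ hκ c Q C J I b K f ν hR hSd hν hf hsum
  have hT0 : 1 < T := lt_trans (Real.one_lt_exp_iff.2 one_pos) hT1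
  have hTp : 0 < T := by linarith
  have hlog : 1 < Real.log T := by
    rw [Real.lt_log_iff_exp_lt (by linarith)]; exact hT1
  have hκ0 : (0 : ℝ) < κ := by
    have := hκ.1
    nlinarith
  have hδ : 0 < (κ : ℝ) / T := div_pos hκ0 (by linarith)
  have hZ' := hZT κ hκ
  obtain ⟨ι, s, a, M, h1, h2, h3, h4⟩ := expn_from hF hR hν hf (expn_start hx) hSd J le_rfl
  have hN : ((max h l : ℕ) : ℝ) * ∏ i ∈ range J, b i ^ (2 * K i) ≤ T ^ σ := by
    have h5 := prod_bnd hR.b10 K 2 hT0 hsum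
    have h50 : 0 ≤ ∏ i ∈ range J, b i ^ (2 * K i) := prod_nonneg fun i hi => by
      have := hR.b10 i (mem_range.mp hi)
      positivity
    calc ((max h l : ℕ) : ℝ) * ∏ i ∈ range J, b i ^ (2 * K i) ≤ T ^ (3 * σ / 4 : ℝ) * T ^ (((2:ℕ):ℝ) * (σ / 8)) := by
          gcongr
      _ = T ^ σ := by
          rw [← Real.rpow_add hTp]; congr 1; push_cast; ring
  have hL := prod_bnd hR.b10 K 3 hT0 hsum
  set X : ℂ := ((Real.sqrt h * Real.sqrt l : ℝ) : ℂ) with hX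
  have hsq : (Real.sqrt h * Real.sqrt l) * ((h : ℝ) ^ (-(1 / 2) : ℝ) * (l : ℝ) ^ (-(1 / 2) : ℝ)) = 1 := by
    rw [Real.sqrt_eq_rpow, Real.sqrt_eq_rpow]
    have e5 : (h:ℝ) ^ (1 / 2 : ℝ) * (h : ℝ) ^ (-(1 / 2) : ℝ) = 1 := by
      rw [← Real.rpow_add hh0]; norm_num
    have e6 : (l:ℝ) ^ (1 / 2 : ℝ) * (l : ℝ) ^ (-(1 / 2) : ℝ) = 1 := by
      rw [← Real.rpow_add hl0]; norm_num
    calc _ = ((h:ℝ) ^ (1 / 2 : ℝ) * (h : ℝ) ^ (-(1 / 2) : ℝ)) * ((l:ℝ) ^ (1 / 2 : ℝ) * (l : ℝ) ^ (-(1 / 2) : ℝ)) := by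
          ring
      _ = 1 := by rw [e5, e6, mul_one]
  have hef : ∀ t : ℝ, ef (ω + (Real.log l - Real.log h)) t = X * (ef ω t * mh t (h, l)) := by
    intro t
    rw [mh_freq hh hl, ← ef_mul, hX]
    have : ((Real.sqrt h * Real.sqrt l : ℝ) : ℂ) *
        (((h : ℝ) ^ (-(1 / 2) : ℝ) * (l : ℝ) ^ (-(1 / 2) : ℝ) : ℝ) : ℂ) = 1 := by
      rw [← Complex.ofReal_mul, hsq, Complex.ofReal_one]
    linear_combination (-(ef ω t * ef (Real.log l - Real.log h) t)) * this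
  have e1 : ∀ t : ℝ, ((om κ (κ / T) t : ℝ) : ℂ) *
        (riemannZeta (cl t) * (ef (ω + (Real.log l - Real.log h)) t * ∏ i ∈ range J, f i (zz I t i))) =
      ∑ x ∈ s, X * (a x * (((om κ (κ / T) t : ℝ) : ℂ) * (riemannZeta (cl t) * (ef ω t * ev t (M x))))) := by
    intro t
    have h2t := h2 t
    simp only at h2t
    rw [hef, ← mul_sum]
    have e7 : ∑ x ∈ s, a x * (((om κ (κ / T) t : ℝ) : ℂ) * (riemannZeta (cl t) * (ef ω t * ev t (M x)))) =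
        ((om κ (κ / T) t : ℝ) : ℂ) * (riemannZeta (cl t) * (ef ω t * ∑ x ∈ s, a x * ev t (M x))) := by
      rw [mul_sum, mul_sum, mul_sum]
      refine sum_congr rfl fun x _ => by ring
    rw [e7, ← h2t]
    ring
  have hi : ∀ x ∈ s, Integrable (fun t : ℝ => X * (a x *
        (((om κ (κ / T) t : ℝ) : ℂ) * (riemannZeta (cl t) * (ef ω t * ev t (M x))))))
        (volume.restrict (Set.Ioi 0)) := by
    intro x hx
    refine Integrable.const_mul (Integrable.const_mul ?_ _) _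
    exact int_om κ hδ ((ef_cont ω).mul (ev_cont (h1 x hx).2)) (B := l1 (M x)) fun t => by
      rw [norm_mul, ef_norm, one_mul]
      exact ev_le (h1 x hx).2 t
  have eA : χ * ((Real.sqrt h * Real.sqrt l * wF (h, l) : ℝ) : ℂ) * ∏ i ∈ range J, ∫ q, q.2 * f i q.1 ∂(ν i) =
      ∑ x ∈ s, X * (a x * (χ * ((lam wF (M x) : ℝ) : ℂ))) := by
    have e8 : ∑ x ∈ s, X * (a x * (χ * ((lam wF (M x) : ℝ) : ℂ))) =
        X * χ * ∑ x ∈ s, a x * ((lam wF (M x) : ℝ) : ℂ) := by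
      rw [mul_sum]
      exact sum_congr rfl fun x _ => by ring
    rw [e8, ← h3, hX]
    push_cast
    ring
  rw [integral_congr_ae (Eventually.of_forall e1), integral_finsetSum _ hi, eA, ← sum_sub_distrib]
  have hXn : ‖X‖ = Real.sqrt h * Real.sqrt l := by
    rw [hX, Complex.norm_real, Real.norm_of_nonneg (by positivity)]
  calc ‖∑ x ∈ s, ((∫ t in Set.Ioi (0:ℝ), X * (a x *
        (((om κ (κ / T) t : ℝ) : ℂ) * (riemannZeta (cl t) * (ef ω t * ev t (M x)))))) -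
        X * (a x * (χ * ((lam wF (M x) : ℝ) : ℂ))))‖
      ≤ ∑ x ∈ s, ‖X‖ * (‖a x‖ * (T ^ (-1 : ℝ) * l1 (M x))) := by
        refine (norm_sum_le _ _).trans (sum_le_sum fun x hx => ?_)
        rw [integral_const_mul, integral_const_mul, ← mul_sub, ← mul_sub, norm_mul, norm_mul]
        refine mul_le_mul_of_nonneg_left (mul_le_mul_of_nonneg_left ?_ (norm_nonneg _)) (norm_nonneg _)
        exact one_tw hδ hZ' hN (h1 x hx).2
    _ = ‖X‖ * (T ^ (-1 : ℝ) * ∑ x ∈ s, ‖a x‖ * l1 (M x)) := by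
        rw [mul_sum, mul_sum]
        refine sum_congr rfl fun x _ => ?_
        ring
    _ ≤ T ^ (1 / 4 : ℝ) * (T ^ (-1 : ℝ) * (1 * T ^ (((3 : ℕ) : ℝ) * (σ / 8)))) := by
        rw [hXn]
        have h40 : 0 ≤ ∑ x ∈ s, ‖a x‖ * l1 (M x) := sum_nonneg fun x _ => mul_nonneg (norm_nonneg _) (l1_nonneg _)
        gcongr
        exact h4.trans (mul_le_mul_of_nonneg_left hL zero_le_one)
    _ ≤ T ^ (-(1 / 2) : ℝ) := by
        rw [one_mul, ← Real.rpow_add hTp, ← Real.rpow_add hTp]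
        refine Real.rpow_le_rpow_of_exponent_le hT0.le ?_
        push_cast
        linarith

end

end Pool.Agent.Run7.h689.BH
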