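import Pool.Agent.Run7.h689.BH4
import Pool.Agent.TH986.LK_LB

set_option autoImplicit false

/-! The lower bound for the first moment with a weight (helper689, MP_112ba8_nt). -/

namespace Pool.Agent.Run7.h689.BH

open Finset Filter Topology MeasureTheory
open Pool.Agent.W184.NZ
open Pool.Agent.TH806
open Pool.Agent.TH806.LK
open Pool.Agent.TH986.LK_B
open Pool.Agent.TH986.LK_LB
open Pool.Agent.H306R2.SM (om cl Yf ef)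
open Pool.Agent.H262R4.TM (Rng Ck)

noncomputable section

/-- the mollifier -/
def MM (n Rs J : ℕ) (I : ℕ → Finset ℕ) (k u t : ℝ) : ℂ :=
  starRingEnd ℂ (AZ n Rs J k (zz I t)) * AZ n Rs J (k - 1) (zz I t) *
    ((‖DK n Rs J hh u (zz I t)‖ ^ 2 : ℝ) : ℂ)

/-- the functional with a weight -/
def NF (n Rs J : ℕ) (I : ℕ → Finset ℕ) (κ : ℕ) (T k u : ℝ) (g : ℝ → ℂ) : ℂ :=
  ∫ t in Set.Ioi (0:ℝ), ((om κ (κ / T) t : ℝ) : ℂ) * (riemannZeta (cl t) * (g t * MM n Rs J I k u t))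

lemma MM_cont (hPT : P_PT) {n Rs J : ℕ} {I : ℕ → Finset ℕ} (hI : ∀ i, ∀ p ∈ I i, p.Prime) (k u : ℝ) :
    Continuous (MM n Rs J I k u) ∧ ∃ B : ℝ, ∀ t, ‖MM n Rs J I k u t‖ ≤ B := by
  obtain ⟨hP1, _⟩ := hPT
  have hhc : Continuous hh := by unfold hh; fun_prop
  obtain ⟨cA, cD, _, Bk, hBk⟩ := hP1 n Rs J I k u hh hI hhc
  obtain ⟨cA', _, _, Bm, hBm⟩ := hP1 n Rs J I (k - 1) u hh hI hhc
  refine ⟨?_, Bk * Bm * Bk ^ 2, fun t => ?_⟩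
  · unfold MM
    exact ((Complex.continuous_conj.comp cA).mul cA').mul (Complex.continuous_ofReal.comp (cD.norm.pow 2))
  · unfold MM
    have h1 := (hBk t).1
    have h2 := (hBm t).1
    have h3 := (hBk t).2.1
    rw [norm_mul, norm_mul, RCLike.norm_conj, Complex.norm_real, Real.norm_of_nonneg (by positivity)]
    have hB0 : 0 ≤ Bk := (norm_nonneg _).trans h1
    have hB1 : 0 ≤ Bm := (norm_nonneg _).trans h2
    gcongr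

lemma NF_int (hPT : P_PT) {n Rs J : ℕ} {I : ℕ → Finset ℕ} (hI : ∀ i, ∀ p ∈ I i, p.Prime) {κ : ℕ} {T : ℝ}
    (hδ : 0 < (κ:ℝ) / T) (k u : ℝ) {g : ℝ → ℂ} (hg : Continuous g) {B : ℝ} (hB : ∀ t, ‖g t‖ ≤ B) :
    Integrable (fun t => ((om κ (κ / T) t : ℝ) : ℂ) * (riemannZeta (cl t) * (g t * MM n Rs J I k u t)))
      (volume.restrict (Set.Ioi 0)) := by
  obtain ⟨hc, B', hB'⟩ := MM_cont hPT (n := n) (Rs := Rs) (J := J) hI k u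
  have hB0 : 0 ≤ B := (norm_nonneg _).trans (hB 0)
  refine Pool.Agent.TH263.LK_AV1.int_om κ hδ (hg.mul hc) (B := B * B') fun t => ?_
  rw [norm_mul]
  exact mul_le_mul (hB t) (hB' t) (norm_nonneg _) hB0

/-- the inner integral -/
def XX (n Rs J : ℕ) (I : ℕ → Finset ℕ) (κ : ℕ) (T k : ℝ) (θ₁ θ₂ : ℝ) (g : ℝ → ℂ) : ℂ :=
  ∫ t in Set.Ioi (0:ℝ), ((om κ (κ / T) t : ℝ) : ℂ) *
    (riemannZeta (cl t) * (g t * ∏ i ∈ range J, BF (KK n Rs i) (k - 1) k θ₁ θ₂ (zz I t i)))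

lemma pc_cont {n Rs J : ℕ} {I : ℕ → Finset ℕ} (hI : ∀ i, ∀ p ∈ I i, p.Prime) (k θ₁ θ₂ : ℝ) :
    Continuous fun t : ℝ => ∏ i ∈ range J, BF (KK n Rs i) (k - 1) k θ₁ θ₂ (zz I t i) :=
  continuous_finsetProd _ fun i _ =>
    BF_cont' (KK n Rs i) (k - 1) k continuous_const continuous_const (zz_cont hI i)

lemma XX_int {n Rs J : ℕ} {I : ℕ → Finset ℕ} (hI : ∀ i, ∀ p ∈ I i, p.Prime) {κ : ℕ} {T : ℝ}
    (hδ : 0 < (κ:ℝ) / T) (k : ℝ) {θ₁ θ₂ : ℝ} (h1 : θ₁ ∈ Set.Icc (-1:ℝ) 1) (h2 : θ₂ ∈ Set.Icc (-1:ℝ) 1)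
    {g : ℝ → ℂ} (hg : Continuous g) (hgB : ∀ t, ‖g t‖ ≤ 1) :
    Integrable (fun t => ((om κ (κ / T) t : ℝ) : ℂ) *
      (riemannZeta (cl t) * (g t * ∏ i ∈ range J, BF (KK n Rs i) (k - 1) k θ₁ θ₂ (zz I t i))))
      (volume.restrict (Set.Ioi 0)) := by
  obtain ⟨Bp, hBp0, hBp⟩ := prod_bd n Rs J hI (k - 1) k
  have hpc := pc_cont (n := n) (Rs := Rs) (J := J) hI k θ₁ θ₂
  have hB : ∀ t, ‖g t * ∏ i ∈ range J, BF (KK n Rs i) (k - 1) k θ₁ θ₂ (zz I t i)‖ ≤ 1 * Bp := fun t => by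
    rw [norm_mul]
    exact mul_le_mul (hgB t) (hBp t θ₁ h1 θ₂ h2) (norm_nonneg _) zero_le_one
  exact Pool.Agent.TH263.LK_AV1.int_om κ hδ (hg.mul hpc) hB

/-- the inner bound -/
lemma inner_bd {T : ℝ} {κ : ℕ} {n Rs J : ℕ} {I : ℕ → Finset ℕ} {k θ₁ θ₂ e : ℝ} {ω : ℝ} {c₀ Pd : ℂ}
    (hb : ‖(∫ t in Set.Ioi (0:ℝ), ((om κ (κ / T) t : ℝ) : ℂ) *
        (riemannZeta (cl t) * ∏ i ∈ range J, BF (KK n Rs i) (k - 1) k θ₁ θ₂ (zz I t i))) - Pd‖ ≤ e)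
    (hb2 : ‖XX n Rs J I κ T k θ₁ θ₂ (ef ω) - c₀ * Pd‖ ≤ e) :
    ‖XX n Rs J I κ T k θ₁ θ₂ (ef ω) - c₀ * XX n Rs J I κ T k θ₁ θ₂ (fun _ => 1)‖ ≤ (1 + ‖c₀‖) * e := by
  have e0 : XX n Rs J I κ T k θ₁ θ₂ (fun _ => 1) = ∫ t in Set.Ioi (0:ℝ), ((om κ (κ / T) t : ℝ) : ℂ) *
        (riemannZeta (cl t) * ∏ i ∈ range J, BF (KK n Rs i) (k - 1) k θ₁ θ₂ (zz I t i)) := by
    unfold XX
    simp only [one_mul]
  rw [← e0] at hb
  have e1 : XX n Rs J I κ T k θ₁ θ₂ (ef ω) - c₀ * XX n Rs J I κ T k θ₁ θ₂ (fun _ => 1) =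
      (XX n Rs J I κ T k θ₁ θ₂ (ef ω) - c₀ * Pd) - c₀ * (XX n Rs J I κ T k θ₁ θ₂ (fun _ => 1) - Pd) := by ring
  rw [e1]
  refine (norm_sub_le _ _).trans ?_
  rw [norm_mul, add_mul, one_mul]
  exact add_le_add hb2 (mul_le_mul_of_nonneg_left hb (norm_nonneg _))

/-- Fubini -/
lemma NF_diff (hPT : P_PT) {n Rs J : ℕ} {I : ℕ → Finset ℕ} (hI : ∀ i, ∀ p ∈ I i, p.Prime) {κ : ℕ} {T : ℝ}
    (hδ : 0 < (κ:ℝ) / T) (k u ω : ℝ) (c₀ : ℂ) {e : ℝ}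
    (hin : ∀ θ₁ ∈ Set.Icc (-1:ℝ) 1, ∀ θ₂ ∈ Set.Icc (-1:ℝ) 1,
      ‖XX n Rs J I κ T k θ₁ θ₂ (ef ω) - c₀ * XX n Rs J I κ T k θ₁ θ₂ (fun _ => 1)‖ ≤ e) :
    ‖NF n Rs J I κ T k u (ef ω) - c₀ * NF n Rs J I κ T k u (fun _ => 1)‖ ≤ 4 * e := by
  have hW0 := omz_int (κ := κ) hδ
  have hWc : Integrable (fun t => ((om κ (κ / T) t : ℝ) : ℂ) * riemannZeta (cl t) * (ef ω t - c₀))
      (volume.restrict (Set.Ioi 0)) := by
    refine hW0.mul_bdd (c := 1 + ‖c₀‖) ((ef_cont ω).sub continuous_const).aestronglyMeasurable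
      (Eventually.of_forall fun t => ?_)
    refine (norm_sub_le _ _).trans ?_
    rw [ef_norm]
  obtain ⟨B, hB⟩ := FF_bd n Rs J hI (k - 1) k u
  have hsw := swap2 hWc (FF_cont n Rs J hI (k - 1) k u) hB
  have hAD : ∀ t, MM n Rs J I k u t =
      ∫ θ₁ in (-1:ℝ)..1, ∫ θ₂ in (-1:ℝ)..1, FF n Rs J I (k - 1) k u t θ₁ θ₂ := by
    intro t
    unfold MM FF
    rw [← DK_sq, mul_comm (starRingEnd ℂ (AZ n Rs J k (zz I t)))]
  have hn1 : ∀ t : ℝ, ‖(fun _ : ℝ => (1:ℂ)) t‖ ≤ 1 := fun t => by simp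
  have hn2 : ∀ t : ℝ, ‖ef ω t‖ ≤ 1 := fun t => (ef_norm ω t).le
  have hmain : NF n Rs J I κ T k u (ef ω) - c₀ * NF n Rs J I κ T k u (fun _ => 1) =
      ∫ θ₁ in (-1:ℝ)..1, ∫ θ₂ in (-1:ℝ)..1, ∫ t in Set.Ioi (0:ℝ),
        (((om κ (κ / T) t : ℝ) : ℂ) * riemannZeta (cl t) * (ef ω t - c₀)) * FF n Rs J I (k - 1) k u t θ₁ θ₂ := by
    rw [← hsw.1]
    unfold NF
    rw [← integral_const_mul, ← integral_sub (NF_int hPT hI hδ k u (ef_cont ω) hn2)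
      ((NF_int hPT hI hδ k u continuous_const hn1).const_mul c₀)]
    refine integral_congr_ae (Eventually.of_forall fun t => ?_)
    simp only
    rw [← hAD]
    ring
  rw [hmain]
  have hd := dbl_le (F := fun θ₁ θ₂ => ∫ t in Set.Ioi (0:ℝ),
        (((om κ (κ / T) t : ℝ) : ℂ) * riemannZeta (cl t) * (ef ω t - c₀)) * FF n Rs J I (k - 1) k u t θ₁ θ₂)
    (G := fun _ _ => e) continuous_const (by
    intro θ₁ h1 θ₂ h2
    have e2 : (∫ t in Set.Ioi (0:ℝ),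
        (((om κ (κ / T) t : ℝ) : ℂ) * riemannZeta (cl t) * (ef ω t - c₀)) * FF n Rs J I (k - 1) k u t θ₁ θ₂) =
        (((hh θ₁ * hh θ₂ : ℝ) : ℂ) * Complex.exp (-(((θ₁ + θ₂) * u : ℝ) : ℂ) * Complex.I)) *
          (XX n Rs J I κ T k θ₁ θ₂ (ef ω) - c₀ * XX n Rs J I κ T k θ₁ θ₂ (fun _ => 1)) := by
      unfold XX
      rw [← integral_const_mul c₀, ← integral_sub (XX_int hI hδ k h1 h2 (ef_cont ω) hn2)
        ((XX_int hI hδ k h1 h2 continuous_const hn1).const_mul c₀), ← integral_const_mul]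
      refine integral_congr_ae (Eventually.of_forall fun t => ?_)
      simp only
      unfold FF
      ring
    show ‖_‖ ≤ _
    rw [e2, norm_mul, norm_mul, norm_e, mul_one, Complex.norm_real, Real.norm_eq_abs, abs_mul,
      abs_of_nonneg (hh_bd h1).1, abs_of_nonneg (hh_bd h2).1]
    have h3 := hin θ₁ h1 θ₂ h2
    have h4 : hh θ₁ * hh θ₂ ≤ 1 := mul_le_one₀ (hh_bd h1).2 (hh_bd h2).1 (hh_bd h2).2
    calc _ ≤ 1 * e := mul_le_mul h4 h3 (norm_nonneg _) zero_le_one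
      _ = _ := one_mul _)
  refine hd.trans (le_of_eq ?_)
  rw [intervalIntegral.integral_const, intervalIntegral.integral_const, smul_eq_mul, smul_eq_mul]
  ring

theorem tw_LB (hA : P_ALG) (hL : P_LAW) (h1 : P_AV1) (hPT : P_PT) : ∀ (n : ℕ) (c : ℝ), 1 ≤ n →
    ∃ P₀ : ℕ, ∀ (S : Finset ℕ) (η ω : ℝ) (c₀ : ℂ), TwP S η ω c₀ → ∀ Rs : ℕ, 1 ≤ Rs →
      ∀ᶠ T : ℝ in atTop, ∀ κ : ℕ, Rng T κ → ∀ (y : ℝ) (J : ℕ) (I : ℕ → Finset ℕ), Cfg c 1 P₀ y J I →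
        (∀ i < J, Disjoint S (I i)) → 240 * (n * ((Rs:ℝ) + 1) * Real.log y) ≤ η * Real.log T →
        240 * (n * ((Rs:ℝ) + 1) * Real.log y) ≤ 1 / 100 * Real.log T →
        ∀ k u : ℝ, |k| + 1 ≤ n →
          ‖NF n Rs J I κ T k u (ef ω) - c₀ * NF n Rs J I κ T k u (fun _ => 1)‖ ≤
            4 * ((1 + ‖c₀‖) * T ^ (-(1 / 2) : ℝ)) := by
  intro n c hn
  obtain ⟨P₀, C, hP144, hC1, hLaw⟩ := hL (8 * n + 8) (by
    have hn0 : (1:ℝ) ≤ n := by exact_mod_cast hn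
    linarith)
  refine ⟨P₀, fun S η ω c₀ hTw Rs hRs => ?_⟩
  filter_upwards [h1, hTw, Real.tendsto_log_atTop.eventually_gt_atTop 1, eventually_gt_atTop (3:ℝ)]
    with T hT hTωT hLT hT3 κ hκ y J I hCfg hdisj hlen1 hlen2 k u hk
  have hI : ∀ i, ∀ p ∈ I i, p.Prime := fun i p hp => (hCfg.rg.pr i p hp).1
  have hIP : ∀ i, ∀ p ∈ I i, p.Prime ∧ P₀ ≤ p := fun i p hp => ⟨hI i p hp, hCfg.P i p hp⟩
  choose ν hν using fun i => (hLaw (I i) (hIP i)).2.2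
  have hT0 : 0 < T := by linarith
  have hk0 : (0:ℝ) < κ := by
    have := hκ.1
    nlinarith
  have hδ : 0 < (κ:ℝ) / T := by positivity
  have hlenx : ∑ i ∈ range J, ((3 * KK n Rs i : ℕ) : ℝ) * Real.log (bb y i) ≤
      240 * (n * ((Rs:ℝ) + 1) * Real.log y) := len_le (by linarith [hCfg.y1]) n Rs J
  have hkn : |k| ≤ n := by linarith
  have hkn1 : |k - 1| ≤ n := by
    have := abs_sub k 1
    rw [abs_one] at this
    linarith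
  refine NF_diff hPT hI hδ k u ω c₀ fun θ₁ h1 θ₂ h2 => ?_
  have hPBs : ∀ i < J, 1 ≤ 3 * KK n Rs i ∧ PB (3 * KK n Rs i) (BF (KK n Rs i) (k - 1) k θ₁ θ₂) := fun i _ => by
    have hKn : n + 1 ≤ KK n Rs i := by
      unfold KK RR
      nlinarith [Nat.zero_le i, Nat.zero_le (n * i), Nat.mul_le_mul hn hRs]
    obtain ⟨q1, _, _, _, _, _⟩ := hA.2.2.2 n (KK n Rs i) 1 (k - 1) k θ₁ θ₂ hn hKn le_rfl hkn1 hkn
      (abs_le.mpr h1) (abs_le.mpr h2)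
    refine ⟨by omega, hA.1 _ _ _ (by positivity) ?_ q1⟩
    have : ((n + 1 : ℕ) : ℝ) ≤ KK n Rs i := by exact_mod_cast hKn
    push_cast at this ⊢
    linarith
  have hb := hT κ hκ c (8 * n + 8) C J I (bb y) (fun i => 3 * KK n Rs i)
    (fun i => BF (KK n Rs i) (k - 1) k θ₁ θ₂) ν hCfg.rg (fun i _ => hν i) hPBs (hlenx.trans hlen2)
  have hb2 := hTωT κ hκ c (8 * n + 8) C J I (bb y) (fun i => 3 * KK n Rs i)
    (fun i => BF (KK n Rs i) (k - 1) k θ₁ θ₂) ν hCfg.rg hdisj (fun i _ => hν i) hPBs (hlenx.trans hlen1)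
  exact inner_bd hb hb2

end

end Pool.Agent.Run7.h689.BH
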