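import Pool.Agent.Run7.h689.BH6
import Pool.Agent.TH806.LK.Win

set_option autoImplicit false

/-! The pointwise inequality with a weight (helper689, MP_112ba8_nt). -/

namespace Pool.Agent.Run7.h689.BH

open Finset Filter Topology MeasureTheory Complex MonoidAlgebra
open Pool.Agent.W184.NZ
open Pool.Agent.TH806
open Pool.Agent.TH806.LK
open Pool.Agent.H306R2.SM (om cl Yf ef)
open Pool.Agent.H262R4.TM (Rng Ck)

noncomputable section

/-- the upper bound for the functional with the weight `F` -/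
theorem int_keyF (hPT : P_PT) {n Rs J : ℕ} {I : ℕ → Finset ℕ} (hI : ∀ i, ∀ p ∈ I i, p.Prime) (hn : 1 ≤ n)
    (hRs : 1 ≤ Rs) {κ : ℕ} {T : ℝ} (hδ : 0 < (κ:ℝ) / T) {u k lam B' c' M' : ℝ} (hk : |k| + 1 ≤ n)
    (hlam : 0 < lam) (hB' : 0 < B') (hc' : 0 < c') (hM' : 0 < M') {F : ℝ → ℝ} (hFc : Continuous F)
    (hF : ∀ t, 0 ≤ F t ∧ F t ≤ 1) :
    ‖NF n Rs J I κ T k u (fun t => (F t : ℂ))‖ ≤
      (64 * M' * Real.exp (2 * k * u + 2 * |k| * B')) *
        (∫ t in Set.Ioi (0:ℝ) ∩ SS Rs J I u B' c' M', om κ (κ / T) t * F t) +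
      (lam + 4 / M') * (∫ t in Set.Ioi (0:ℝ), wz κ T t * AD n Rs J I (k - 1) u t) +
      1 / (2 * lam) * (∑ i ∈ range J, ∫ t in Set.Ioi (0:ℝ), om κ (κ / T) t *
        ((‖zz I t i‖ / RR Rs i) ^ (2 * RR Rs i) * AD n Rs J I k u t)) +
      1 / (2 * lam * B' ^ 2) * (∫ t in Set.Ioi (0:ℝ), om κ (κ / T) t * ((xx I J t - u) ^ 2 * AD n Rs J I k u t)) +
      16 * c' * (∫ t in Set.Ioi (0:ℝ), om κ (κ / T) t * AD n Rs J I k u t) := by
  classical
  obtain ⟨hP1, hP2⟩ := hPT
  have hhc : Continuous hh := by unfold hh; fun_prop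
  obtain ⟨cA, cD, cz, Bk, hBk⟩ := hP1 n Rs J I k u hh hI hhc
  obtain ⟨cA', _, _, Bm, hBm⟩ := hP1 n Rs J I (k - 1) u hh hI hhc
  have cx := xx_cont (J := J) cz
  have cAD : Continuous (AD n Rs J I k u) := by
    unfold AD; exact (cA.norm.pow 2).mul (cD.norm.pow 2)
  have cAD' : Continuous (AD n Rs J I (k - 1) u) := by
    unfold AD; exact (cA'.norm.pow 2).mul (cD.norm.pow 2)
  have AD0 : ∀ a t, 0 ≤ AD n Rs J I a u t := fun a t => by unfold AD; positivity
  have bAD : ∀ t, AD n Rs J I k u t ≤ Bk ^ 2 * Bk ^ 2 := fun t => by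
    unfold AD
    have h1 := (hBk t).1
    have h2 := (hBk t).2.1
    gcongr
  have bAD' : ∀ t, AD n Rs J I (k - 1) u t ≤ Bm ^ 2 * Bm ^ 2 := fun t => by
    unfold AD
    have h1 := (hBm t).1
    have h2 := (hBm t).2.1
    gcongr
  have hz0 : ∀ t, ∀ i < J, ‖zz I t i‖ ≤ |Bk| := fun t i hi => ((hBk t).2.2 i hi).trans (le_abs_self _)
  have bx : ∀ t, |xx I J t| ≤ J * |Bk| := fun t => by
    unfold xx
    refine (abs_sum_le_sum_abs _ _).trans ?_
    refine (sum_le_sum (g := fun _ => |Bk|) fun i hi =>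
      (Complex.abs_re_le_norm _).trans (hz0 t i (mem_range.mp hi))).trans ?_
    simp
  -- integrability
  have iom : IntegrableOn (fun t => om κ (κ / T) t) (Set.Ioi 0) := om_int0 _ hδ
  have iF : ∀ {F : ℝ → ℝ} {C : ℝ}, Continuous F → (∀ t, |F t| ≤ C) →
      IntegrableOn (fun t => om κ (κ / T) t * F t) (Set.Ioi 0) := by
    intro F C hF hC
    refine iom.mul_bdd (c := C) hF.aestronglyMeasurable (Eventually.of_forall fun t => ?_)
    rw [Real.norm_eq_abs]; exact hC t
  have iomF : IntegrableOn (fun t => om κ (κ / T) t * F t) (Set.Ioi 0) :=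
    iF hFc (C := 1) fun t => by rw [abs_of_nonneg (hF t).1]; exact (hF t).2
  have j1 : IntegrableOn (fun t => wz κ T t * AD n Rs J I (k - 1) u t) (Set.Ioi 0) :=
    wz_int κ hδ cAD' (C := Bm ^ 2 * Bm ^ 2) fun t => by rw [abs_of_nonneg (AD0 _ _)]; exact bAD' t
  have j4 : IntegrableOn (fun t => om κ (κ / T) t * AD n Rs J I k u t) (Set.Ioi 0) :=
    iF cAD (C := Bk ^ 2 * Bk ^ 2) fun t => by rw [abs_of_nonneg (AD0 _ _)]; exact bAD t
  have j3 : IntegrableOn (fun t => om κ (κ / T) t * ((xx I J t - u) ^ 2 * AD n Rs J I k u t)) (Set.Ioi 0) := by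
    refine iF (((cx.sub continuous_const).pow 2).mul cAD) (C := (J * |Bk| + |u|) ^ 2 * (Bk ^ 2 * Bk ^ 2)) fun t => ?_
    rw [abs_of_nonneg (mul_nonneg (sq_nonneg _) (AD0 _ _)), ← sq_abs (xx I J t - u)]
    have h1 : |xx I J t - u| ≤ J * |Bk| + |u| := (abs_sub _ _).trans (by linarith [bx t])
    exact mul_le_mul (pow_le_pow_left₀ (abs_nonneg _) h1 2) (bAD t) (AD0 _ _) (by positivity)
  have j2 : ∀ i ∈ range J, IntegrableOn (fun t => om κ (κ / T) t *
      ((‖zz I t i‖ / RR Rs i) ^ (2 * RR Rs i) * AD n Rs J I k u t)) (Set.Ioi 0) := by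
    intro i hi
    refine iF ((((cz i).norm.div_const _).pow _).mul cAD)
      (C := (|Bk| / RR Rs i) ^ (2 * RR Rs i) * (Bk ^ 2 * Bk ^ 2)) fun t => ?_
    rw [abs_of_nonneg (mul_nonneg (by positivity) (AD0 _ _))]
    have h1 := hz0 t i (mem_range.mp hi)
    exact mul_le_mul (by gcongr) (bAD t) (AD0 _ _) (by positivity)
  have hSm := SS_meas (Rs := Rs) (J := J) cz u B' c' M'
  set G : ℝ := 64 * M' * Real.exp (2 * k * u + 2 * |k| * B') with hG
  have hG0 : 0 ≤ G := by positivity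
  have j0 : IntegrableOn (fun t => (SS Rs J I u B' c' M').indicator (fun t => om κ (κ / T) t * F t) t) (Set.Ioi 0) :=
    iomF.indicator hSm
  -- the pointwise bound
  have hpt : ∀ t ∈ Set.Ioi (0:ℝ), ‖((om κ (κ / T) t : ℝ) : ℂ) * (riemannZeta (cl t) *
          ((F t : ℂ) * MM n Rs J I k u t))‖ ≤
      G * (SS Rs J I u B' c' M').indicator (fun t => om κ (κ / T) t * F t) t +
      (lam + 4 / M') * (wz κ T t * AD n Rs J I (k - 1) u t) +
      1 / (2 * lam) * (∑ i ∈ range J, om κ (κ / T) t *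
        ((‖zz I t i‖ / RR Rs i) ^ (2 * RR Rs i) * AD n Rs J I k u t)) +
      1 / (2 * lam * B' ^ 2) * (om κ (κ / T) t * ((xx I J t - u) ^ 2 * AD n Rs J I k u t)) +
      16 * c' * (om κ (κ / T) t * AD n Rs J I k u t) := by
    intro t ht
    have hom : 0 ≤ om κ (κ / T) t := om_nn κ hδ (le_of_lt ht)
    obtain ⟨hF0, hF1⟩ := hF t
    have hgood := fun hg : gd Rs J I t => hP2 n Rs J (zz I t) hn hRs hg
    have habs : |k| ≤ n := by linarith
    have habs' : |k - 1| ≤ n := (abs_sub _ _).trans (by simpa using hk)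
    have h1 := pw (X := Xz t) (A := ‖AZ n Rs J k (zz I t)‖) (A' := ‖AZ n Rs J (k - 1) (zz I t)‖)
      (D := ‖DK n Rs J hh u (zz I t)‖ ^ 2) (Xz_nonneg t) (norm_nonneg _) (norm_nonneg _) (by positivity)
      (x := xx I J t) (u := u) (k := k) hlam hB' hc' hM' hG0 (bd_nonneg Rs J I t) (good := gd Rs J I t)
      (fun h => bd_one hRs h) (fun hg => by
        obtain ⟨ha, _⟩ := hgood hg
        have b1 := ha k habs
        have b2 := ha (k - 1) habs'
        exact ⟨b1.1, b1.2, b2.1, b2.2⟩) (fun hg hx _ hhi => by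
        obtain ⟨ha, hd⟩ := hgood hg
        have b1 := (ha k habs).2
        have b2 := (ha (k - 1) habs').2
        have b3 := hd u
        change ‖AZ n Rs J k (zz I t)‖ ≤ 2 * Real.exp (k * xx I J t) at b1
        change ‖AZ n Rs J (k - 1) (zz I t)‖ ≤ 2 * Real.exp ((k - 1) * xx I J t) at b2
        have b4 : ‖DK n Rs J hh u (zz I t)‖ ^ 2 ≤ 16 := by
          have := pow_le_pow_left₀ (norm_nonneg _) b3 2
          linarith
        calc Xz t * (‖AZ n Rs J k (zz I t)‖ * ‖AZ n Rs J (k - 1) (zz I t)‖) * ‖DK n Rs J hh u (zz I t)‖ ^ 2 ≤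
            (M' * Real.exp (xx I J t)) * ((2 * Real.exp (k * xx I J t)) * (2 * Real.exp ((k - 1) * xx I J t))) * 16 := by
              gcongr
          _ = 64 * M' * (Real.exp (xx I J t) * Real.exp (k * xx I J t) * Real.exp ((k - 1) * xx I J t)) := by ring
          _ = 64 * M' * Real.exp (2 * k * xx I J t) := by
              rw [← Real.exp_add, ← Real.exp_add]; congr 2; ring
          _ ≤ G := by
              rw [hG]
              refine mul_le_mul_of_nonneg_left (Real.exp_le_exp.mpr ?_) (by positivity)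
              have h5 : k * (xx I J t - u) ≤ |k| * B' := by
                refine (le_abs_self _).trans ?_
                rw [abs_mul]
                exact mul_le_mul_of_nonneg_left hx (abs_nonneg _)
              linarith)
    have h2 := mul_le_mul_of_nonneg_left h1 (mul_nonneg hom hF0)
    have e1 : ‖((om κ (κ / T) t : ℝ) : ℂ) * (riemannZeta (cl t) * ((F t : ℂ) * MM n Rs J I k u t))‖ =
        om κ (κ / T) t * F t * (Xz t * (‖AZ n Rs J k (zz I t)‖ * ‖AZ n Rs J (k - 1) (zz I t)‖) *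
          ‖DK n Rs J hh u (zz I t)‖ ^ 2) := by
      unfold MM
      rw [norm_mul, norm_mul, norm_mul, norm_mul, norm_mul, RCLike.norm_conj, Complex.norm_real, Complex.norm_real,
        Complex.norm_real, Real.norm_of_nonneg hom, Real.norm_of_nonneg hF0, Real.norm_of_nonneg (by positivity)]
      unfold Xz; ring
    rw [e1]
    refine h2.trans ?_
    have e2 : om κ (κ / T) t * F t * (if gd Rs J I t ∧ |xx I J t - u| ≤ B' ∧ c' * Real.exp (xx I J t) ≤ Xz t ∧
        Xz t ≤ M' * Real.exp (xx I J t) then G else 0) =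
        G * (SS Rs J I u B' c' M').indicator (fun t => om κ (κ / T) t * F t) t := by
      by_cases hS : gd Rs J I t ∧ |xx I J t - u| ≤ B' ∧ c' * Real.exp (xx I J t) ≤ Xz t ∧
          Xz t ≤ M' * Real.exp (xx I J t)
      · have hS' : t ∈ SS Rs J I u B' c' M' := hS
        rw [Set.indicator_of_mem hS', if_pos hS]; ring
      · have hS' : t ∉ SS Rs J I u B' c' M' := hS
        rw [Set.indicator_of_notMem hS', if_neg hS]; ring
    have e3 : wz κ T t = om κ (κ / T) t * Xz t ^ 2 := rfl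
    have e4 : ∑ i ∈ range J, om κ (κ / T) t * ((‖zz I t i‖ / RR Rs i) ^ (2 * RR Rs i) * AD n Rs J I k u t) =
        om κ (κ / T) t * (bd Rs J I t * AD n Rs J I k u t) := by
      unfold bd
      rw [sum_mul, mul_sum]
    have hbd0 := bd_nonneg Rs J I t
    have hre : ∀ R : ℝ, 0 ≤ R → om κ (κ / T) t * F t * R ≤ om κ (κ / T) t * R := fun R hR => by
      have : om κ (κ / T) t * F t ≤ om κ (κ / T) t := mul_le_of_le_one_right hom hF1
      exact mul_le_mul_of_nonneg_right this hR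
    rw [mul_add, mul_add, mul_add, mul_add, e2, e3, e4]
    have r1 := hre ((lam + 4 / M') * (Xz t ^ 2 * (‖AZ n Rs J (k - 1) (zz I t)‖ ^ 2 * ‖DK n Rs J hh u (zz I t)‖ ^ 2)))
      (by positivity)
    have r2 := hre (1 / (2 * lam) * (bd Rs J I t * (‖AZ n Rs J k (zz I t)‖ ^ 2 * ‖DK n Rs J hh u (zz I t)‖ ^ 2)))
      (by positivity)
    have r3 := hre (1 / (2 * lam * B' ^ 2) * ((xx I J t - u) ^ 2 *
      (‖AZ n Rs J k (zz I t)‖ ^ 2 * ‖DK n Rs J hh u (zz I t)‖ ^ 2))) (by positivity)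
    have r4 := hre (16 * c' * (‖AZ n Rs J k (zz I t)‖ ^ 2 * ‖DK n Rs J hh u (zz I t)‖ ^ 2)) (by positivity)
    refine (add_le_add (add_le_add (add_le_add (add_le_add le_rfl r1) r2) r3) r4).trans (le_of_eq ?_)
    unfold AD
    ring
  unfold NF
  refine (norm_integral_le_integral_norm _).trans ?_
  have i1 := j0.const_mul G
  have i2 := j1.const_mul (lam + 4 / M')
  have i3 := (integrable_finsetSum _ j2).const_mul (1 / (2 * lam))
  have i4 := j3.const_mul (1 / (2 * lam * B' ^ 2))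
  have i5 := j4.const_mul (16 * c')
  have hle := integral_mono_of_nonneg (μ := volume.restrict (Set.Ioi (0:ℝ)))
    (Eventually.of_forall fun t => norm_nonneg _) ((((i1.add i2).add i3).add i4).add i5)
    ((ae_restrict_iff' measurableSet_Ioi).mpr (Eventually.of_forall fun t ht => by
      simpa only [Pi.add_apply] using hpt t ht))
  refine hle.trans (le_of_eq ?_)
  rw [integral_add' (((i1.add i2).add i3).add i4) i5, integral_add' ((i1.add i2).add i3) i4,
    integral_add' (i1.add i2) i3, integral_add' i1 i2, integral_const_mul, integral_const_mul, integral_const_mul,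
    integral_const_mul, integral_const_mul, integral_finsetSum _ j2, setIntegral_indicator hSm]

/-- the error of an approximation of the weight -/
theorem NF_err (hPT : P_PT) {n Rs J : ℕ} {I : ℕ → Finset ℕ} (hI : ∀ i, ∀ p ∈ I i, p.Prime)
    {κ : ℕ} {T : ℝ} (hδ : 0 < (κ:ℝ) / T) {u k : ℝ} {g : ℝ → ℂ} (_hg : Continuous g) {ε : ℝ}
    (hε : ∀ t, ‖g t‖ ≤ ε) :
    ‖NF n Rs J I κ T k u g‖ ≤ ε * (1 / 2 * (∫ t in Set.Ioi (0:ℝ), wz κ T t * AD n Rs J I (k - 1) u t) +
      1 / 2 * (∫ t in Set.Ioi (0:ℝ), om κ (κ / T) t * AD n Rs J I k u t)) := by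
  obtain ⟨hP1, hP2⟩ := hPT
  have hhc : Continuous hh := by unfold hh; fun_prop
  obtain ⟨cA, cD, cz, Bk, hBk⟩ := hP1 n Rs J I k u hh hI hhc
  obtain ⟨cA', _, _, Bm, hBm⟩ := hP1 n Rs J I (k - 1) u hh hI hhc
  have hε0 : 0 ≤ ε := (norm_nonneg _).trans (hε 0)
  have cAD : Continuous (AD n Rs J I k u) := by
    unfold AD; exact (cA.norm.pow 2).mul (cD.norm.pow 2)
  have cAD' : Continuous (AD n Rs J I (k - 1) u) := by
    unfold AD; exact (cA'.norm.pow 2).mul (cD.norm.pow 2)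
  have AD0 : ∀ a t, 0 ≤ AD n Rs J I a u t := fun a t => by unfold AD; positivity
  have bAD : ∀ t, AD n Rs J I k u t ≤ Bk ^ 2 * Bk ^ 2 := fun t => by
    unfold AD
    have h1 := (hBk t).1
    have h2 := (hBk t).2.1
    gcongr
  have bAD' : ∀ t, AD n Rs J I (k - 1) u t ≤ Bm ^ 2 * Bm ^ 2 := fun t => by
    unfold AD
    have h1 := (hBm t).1
    have h2 := (hBm t).2.1
    gcongr
  have iom : IntegrableOn (fun t => om κ (κ / T) t) (Set.Ioi 0) := om_int0 _ hδ
  have j1 : IntegrableOn (fun t => wz κ T t * AD n Rs J I (k - 1) u t) (Set.Ioi 0) :=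
    wz_int κ hδ cAD' (C := Bm ^ 2 * Bm ^ 2) fun t => by rw [abs_of_nonneg (AD0 _ _)]; exact bAD' t
  have j4 : IntegrableOn (fun t => om κ (κ / T) t * AD n Rs J I k u t) (Set.Ioi 0) := by
    refine iom.mul_bdd (c := Bk ^ 2 * Bk ^ 2) cAD.aestronglyMeasurable (Eventually.of_forall fun t => ?_)
    rw [Real.norm_eq_abs, abs_of_nonneg (AD0 _ _)]; exact bAD t
  have hpt : ∀ t ∈ Set.Ioi (0:ℝ), ‖((om κ (κ / T) t : ℝ) : ℂ) * (riemannZeta (cl t) *
          (g t * MM n Rs J I k u t))‖ ≤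
      ε * (1 / 2 * (wz κ T t * AD n Rs J I (k - 1) u t)) + ε * (1 / 2 * (om κ (κ / T) t * AD n Rs J I k u t)) := by
    intro t ht
    have hom : 0 ≤ om κ (κ / T) t := om_nn κ hδ (le_of_lt ht)
    have e1 : ‖((om κ (κ / T) t : ℝ) : ℂ) * (riemannZeta (cl t) * (g t * MM n Rs J I k u t))‖ =
        om κ (κ / T) t * ‖g t‖ * (Xz t * (‖AZ n Rs J k (zz I t)‖ * ‖AZ n Rs J (k - 1) (zz I t)‖) *
          ‖DK n Rs J hh u (zz I t)‖ ^ 2) := by
      unfold MM
      rw [norm_mul, norm_mul, norm_mul, norm_mul, norm_mul, RCLike.norm_conj, Complex.norm_real,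
        Complex.norm_real, Real.norm_of_nonneg hom, Real.norm_of_nonneg (by positivity)]
      unfold Xz; ring
    rw [e1]
    have h1 := amgm (X := Xz t) (A := ‖AZ n Rs J k (zz I t)‖) (A' := ‖AZ n Rs J (k - 1) (zz I t)‖) one_pos
    have hX0 := Xz_nonneg t
    have h2 : Xz t * (‖AZ n Rs J k (zz I t)‖ * ‖AZ n Rs J (k - 1) (zz I t)‖) * ‖DK n Rs J hh u (zz I t)‖ ^ 2 ≤
        1 / 2 * (Xz t ^ 2 * AD n Rs J I (k - 1) u t) + 1 / 2 * AD n Rs J I k u t := by
      refine (mul_le_mul_of_nonneg_right h1 (by positivity)).trans (le_of_eq ?_)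
      unfold AD; ring
    have e3 : wz κ T t = om κ (κ / T) t * Xz t ^ 2 := rfl
    calc om κ (κ / T) t * ‖g t‖ * (Xz t * (‖AZ n Rs J k (zz I t)‖ * ‖AZ n Rs J (k - 1) (zz I t)‖) *
          ‖DK n Rs J hh u (zz I t)‖ ^ 2) ≤
        om κ (κ / T) t * ε * (1 / 2 * (Xz t ^ 2 * AD n Rs J I (k - 1) u t) + 1 / 2 * AD n Rs J I k u t) := by
          refine mul_le_mul ?_ h2 (by positivity) (by positivity)
          exact mul_le_mul_of_nonneg_left (hε t) hom
      _ = _ := by rw [e3]; ring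
  unfold NF
  refine (norm_integral_le_integral_norm _).trans ?_
  have i1 := (j1.const_mul (1 / 2)).const_mul ε
  have i2 := (j4.const_mul (1 / 2)).const_mul ε
  have hle := integral_mono_of_nonneg (μ := volume.restrict (Set.Ioi (0:ℝ)))
    (Eventually.of_forall fun t => norm_nonneg _) (i1.add i2)
    ((ae_restrict_iff' measurableSet_Ioi).mpr (Eventually.of_forall fun t ht => by
      simpa only [Pi.add_apply] using hpt t ht))
  refine hle.trans (le_of_eq ?_)
  rw [integral_add' i1 i2, integral_const_mul, integral_const_mul, integral_const_mul, integral_const_mul, mul_add]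

end

end Pool.Agent.Run7.h689.BH
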