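import Pool.Agent.Run7.h689.BH7

set_option autoImplicit false

/-! The local lower bound in the windows with a weight (helper689, MP_112ba8_nt). -/

namespace Pool.Agent.Run7.h689.BH

open Finset Filter Topology MeasureTheory Complex MonoidAlgebra
open Pool.Agent.W184.NZ
open Pool.Agent.TH806
open Pool.Agent.TH806.LK
open Pool.Agent.H306R2.SM (om cl Yf ef)
open Pool.Agent.H262R4.TM (Rng Ck)

noncomputable section

/-- approximable weights -/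
def APX (S : Finset ℕ) (F : ℝ → ℝ) : Prop :=
  Continuous F ∧ (∀ t, 0 ≤ F t ∧ F t ≤ 1) ∧ ∃ η lam0 : ℝ, 0 < η ∧ 0 < lam0 ∧
    ∀ ε : ℝ, 0 < ε → ∃ (ι : Type) (s : Finset ι) (ω : ι → ℝ) (a c : ι → ℂ), (∀ i ∈ s, TwP S η (ω i) (c i)) ∧
      (∀ t : ℝ, ‖(F t : ℂ) - ∑ i ∈ s, a i * ef (ω i) t‖ ≤ ε) ∧ lam0 ≤ ‖∑ i ∈ s, a i * c i‖

lemma NF_add (hPT : P_PT) {n Rs J : ℕ} {I : ℕ → Finset ℕ} (hI : ∀ i, ∀ p ∈ I i, p.Prime) {κ : ℕ} {T : ℝ}
    (hδ : 0 < (κ:ℝ) / T) (k u : ℝ) {g g' : ℝ → ℂ} (hg : Continuous g) {B : ℝ} (hB : ∀ t, ‖g t‖ ≤ B)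
    (hg' : Continuous g') {B' : ℝ} (hB' : ∀ t, ‖g' t‖ ≤ B') :
    NF n Rs J I κ T k u (fun t => g t + g' t) = NF n Rs J I κ T k u g + NF n Rs J I κ T k u g' := by
  unfold NF
  rw [← integral_add (NF_int hPT hI hδ k u hg hB) (NF_int hPT hI hδ k u hg' hB')]
  refine integral_congr_ae (Eventually.of_forall fun t => ?_)
  simp only
  ring

lemma NF_sum (hPT : P_PT) {n Rs J : ℕ} {I : ℕ → Finset ℕ} (hI : ∀ i, ∀ p ∈ I i, p.Prime) {κ : ℕ} {T : ℝ}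
    (hδ : 0 < (κ:ℝ) / T) (k u : ℝ) {ι : Type} (s : Finset ι) (a : ι → ℂ) (ω : ι → ℝ) :
    NF n Rs J I κ T k u (fun t => ∑ i ∈ s, a i * ef (ω i) t) = ∑ i ∈ s, a i * NF n Rs J I κ T k u (ef (ω i)) := by
  unfold NF
  have e1 : ∀ t : ℝ, ((om κ (κ / T) t : ℝ) : ℂ) * (riemannZeta (cl t) *
      ((∑ i ∈ s, a i * ef (ω i) t) * MM n Rs J I k u t)) =
      ∑ i ∈ s, a i * (((om κ (κ / T) t : ℝ) : ℂ) * (riemannZeta (cl t) * (ef (ω i) t * MM n Rs J I k u t))) := by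
    intro t
    rw [sum_mul, mul_sum, mul_sum]
    exact sum_congr rfl fun i _ => by ring
  rw [integral_congr_ae (Eventually.of_forall e1), integral_finsetSum]
  · exact sum_congr rfl fun i _ => integral_const_mul _ _
  · intro i _
    exact (NF_int hPT hI hδ k u (ef_cont (ω i)) (B := 1) fun t => (ef_norm _ t).le).const_mul _

lemma NF_one (n Rs J : ℕ) (I : ℕ → Finset ℕ) (κ : ℕ) (T k u : ℝ) : NF n Rs J I κ T k u (fun _ => 1) =
    ∫ t in Set.Ioi (0:ℝ), ((om κ (κ / T) t : ℝ) : ℂ) * (riemannZeta (cl t) *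
          (starRingEnd ℂ (AZ n Rs J k (zz I t)) * AZ n Rs J (k - 1) (zz I t) *
            ((‖DK n Rs J hh u (zz I t)‖ ^ 2 : ℝ) : ℂ))) := by
  unfold NF MM
  refine integral_congr_ae (Eventually.of_forall fun t => ?_)
  simp only
  rw [one_mul]

/-- the lower bound with the weight -/
lemma low_F (hPT : P_PT) {n Rs J : ℕ} {I : ℕ → Finset ℕ} (hI : ∀ i, ∀ p ∈ I i, p.Prime) {κ : ℕ} {T : ℝ}
    (hδ : 0 < (κ:ℝ) / T) (k u : ℝ) {F : ℝ → ℝ} (hFc : Continuous F) {ι : Type} {s : Finset ι} {a cω : ι → ℂ}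
    {ω : ι → ℝ} {ε lam0 m0 U e : ℝ} (hap : ∀ t : ℝ, ‖(F t : ℂ) - ∑ i ∈ s, a i * ef (ω i) t‖ ≤ ε)
    (hlow : lam0 ≤ ‖∑ i ∈ s, a i * cω i‖) (hm0 : 0 ≤ m0) (hN0 : m0 ≤ ‖NF n Rs J I κ T k u (fun _ => 1)‖)
    (hTw : ∀ i ∈ s, ‖NF n Rs J I κ T k u (ef (ω i)) - cω i * NF n Rs J I κ T k u (fun _ => 1)‖ ≤
      4 * ((1 + ‖cω i‖) * e))
    (hU : 1 / 2 * (∫ t in Set.Ioi (0:ℝ), wz κ T t * AD n Rs J I (k - 1) u t) +
      1 / 2 * (∫ t in Set.Ioi (0:ℝ), om κ (κ / T) t * AD n Rs J I k u t) ≤ U) :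
    lam0 * m0 ≤ ‖NF n Rs J I κ T k u (fun t => (F t : ℂ))‖ + ε * U +
      (∑ i ∈ s, ‖a i‖ * (4 * (1 + ‖cω i‖))) * e := by
  have hε0 : 0 ≤ ε := (norm_nonneg _).trans (hap 0)
  have hPc : Continuous fun t : ℝ => ∑ i ∈ s, a i * ef (ω i) t :=
    continuous_finsetSum _ fun i _ => continuous_const.mul (ef_cont _)
  have hPb : ∀ t : ℝ, ‖∑ i ∈ s, a i * ef (ω i) t‖ ≤ ∑ i ∈ s, ‖a i‖ := fun t => by
    refine (norm_sum_le _ _).trans (sum_le_sum fun i _ => ?_)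
    rw [norm_mul, ef_norm, mul_one]
  have hFcc : Continuous fun t => (F t : ℂ) := Complex.continuous_ofReal.comp hFc
  have hDc : Continuous fun t => (F t : ℂ) - ∑ i ∈ s, a i * ef (ω i) t := hFcc.sub hPc
  have hadd := NF_add hPT (n := n) (Rs := Rs) (J := J) hI hδ k u hPc hPb hDc hap
  have hdec : NF n Rs J I κ T k u (fun t => (F t : ℂ)) =
      NF n Rs J I κ T k u (fun t => ∑ i ∈ s, a i * ef (ω i) t) +
        NF n Rs J I κ T k u (fun t => (F t : ℂ) - ∑ i ∈ s, a i * ef (ω i) t) := by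
    rw [← hadd]
    congr 1
    funext t
    ring
  have herr := (NF_err hPT (n := n) (Rs := Rs) (J := J) hI hδ (u := u) (k := k) hDc hap).trans
    (mul_le_mul_of_nonneg_left hU hε0)
  have hsum := NF_sum hPT (n := n) (Rs := Rs) (J := J) hI hδ k u s a ω
  set NP := NF n Rs J I κ T k u (fun t => ∑ i ∈ s, a i * ef (ω i) t) with hNP
  set NE := NF n Rs J I κ T k u (fun t => (F t : ℂ) - ∑ i ∈ s, a i * ef (ω i) t) with hNE
  set N0 := NF n Rs J I κ T k u (fun _ => 1) with hN0d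
  have hPN : ‖NP - (∑ i ∈ s, a i * cω i) * N0‖ ≤ (∑ i ∈ s, ‖a i‖ * (4 * (1 + ‖cω i‖))) * e := by
    rw [hsum, sum_mul, ← sum_sub_distrib, sum_mul]
    refine (norm_sum_le _ _).trans (sum_le_sum fun i hi => ?_)
    rw [show a i * NF n Rs J I κ T k u (ef (ω i)) - a i * cω i * N0 =
      a i * (NF n Rs J I κ T k u (ef (ω i)) - cω i * N0) by ring, norm_mul, mul_assoc]
    refine mul_le_mul_of_nonneg_left ?_ (norm_nonneg _)
    exact (hTw i hi).trans (le_of_eq (by ring))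
  have hprod : lam0 * m0 ≤ ‖(∑ i ∈ s, a i * cω i) * N0‖ := by
    rw [norm_mul]
    exact mul_le_mul hlow hN0 hm0 (norm_nonneg _)
  have t1 := norm_sub_norm_le ((∑ i ∈ s, a i * cω i) * N0) NP
  rw [norm_sub_rev] at t1
  have t2 : ‖NP‖ ≤ ‖NP + NE‖ + ‖NE‖ := by
    have := norm_sub_le (NP + NE) NE
    rwa [add_sub_cancel_right] at this
  rw [hdec]
  linarith

end

end Pool.Agent.Run7.h689.BH
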