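import Pool.Agent.Run7.h689.Abs
set_option autoImplicit false

/-!
# The building block: an extended formulation of a parabola, cut off at a narrow vertex
-/

namespace Pool.Agent.Run7.h689.SH

open Set

/-- the functional `∑ 4^(-k) y_k`, `k ≥ 1` -/
noncomputable def ff (m : ℕ) : (Fin (m + 1) → ℝ) →ₗ[ℝ] ℝ :=
  ∑ k : Fin m, ((1 / 4 : ℝ) ^ (k.1 + 1)) • LinearMap.proj k.succ

theorem ff_apply (m : ℕ) (y : Fin (m + 1) → ℝ) :
    ff m y = ∑ k : Fin m, (1 / 4 : ℝ) ^ (k.1 + 1) * y k.succ := by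
  simp [ff, LinearMap.sum_apply]

/-- the objective of the block -/
noncomputable def cc (m : ℕ) : (Fin (m + 1) → ℝ) →ₗ[ℝ] ℝ := ff m + (2 : ℝ) • LinearMap.proj 0

/-- the functional which is maximal at the start -/
noncomputable def zz (m : ℕ) : (Fin (m + 1) → ℝ) →ₗ[ℝ] ℝ := ff m - (2 : ℝ) • LinearMap.proj 0

theorem cc_apply (m : ℕ) (y : Fin (m + 1) → ℝ) : cc m y = ff m y + 2 * y 0 := by simp [cc]

theorem zz_apply (m : ℕ) (y : Fin (m + 1) → ℝ) : zz m y = ff m y - 2 * y 0 := by simp [zz]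

/-- the width of the start vertex -/
noncomputable def dl (m : ℕ) : ℝ := 1 / 2 ^ (3 * m + 4)

/-- the distance of the start vertex from the origin, and also the gap at the top -/
noncomputable def ep (m : ℕ) : ℝ := 1 / 2 ^ (m + 2)

/-- the start vertex -/
noncomputable def vv (m : ℕ) : Fin (m + 1) → ℝ := fun _ => ep m

/-- the top -/
def tp (m : ℕ) : Fin (m + 1) → ℝ := Pi.single 0 1

/-- the folding constraints -/
def Fold (m : ℕ) (y : Fin (m + 1) → ℝ) : Prop :=
  (∀ k, 0 ≤ y k) ∧ y 0 ≤ 1 ∧ ∀ k : Fin m, y k.succ ≤ 2 * y k.castSucc ∧ y k.succ + 2 * y k.castSucc ≤ 2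

/-- the block -/
def blk (m : ℕ) : Set (Fin (m + 1) → ℝ) :=
  {y | Fold m y ∧ (∀ k : Fin m, zz m y + dl m * y k.succ ≤ zz m (vv m) + dl m * ep m) ∧
    zz m y - dl m * ∑ k : Fin m, y k.succ ≤ zz m (vv m) - dl m * (m * ep m)}

theorem ep_pos (m : ℕ) : 0 < ep m := by unfold ep; positivity

theorem dl_pos (m : ℕ) : 0 < dl m := by unfold dl; positivity

theorem ep_le {m : ℕ} (hm : 1 ≤ m) : ep m ≤ 1 / 8 := by
  unfold ep
  apply one_div_le_one_div_of_le (by norm_num)
  calc (8 : ℝ) = 2 ^ 3 := by norm_num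
    _ ≤ 2 ^ (m + 2) := pow_le_pow_right₀ (by norm_num) (by omega)

theorem two_pow_ge (m : ℕ) : (m : ℝ) ≤ 2 ^ m := by
  exact_mod_cast (Nat.lt_two_pow_self).le

theorem dl_le_ep (m : ℕ) : (m + 1) * dl m ≤ ep m / 2 := by
  unfold dl ep
  have h1 : ((m : ℝ) + 1) ≤ 2 ^ m := by
    have : m + 1 ≤ 2 ^ m := Nat.lt_two_pow_self
    exact_mod_cast this
  have h2 : (2 : ℝ) ^ (3 * m + 4) = 2 ^ m * 2 ^ m * (2 ^ (m + 2) * 2) * 2 := by ring
  rw [h2]
  have h3 : (1 : ℝ) ≤ 2 ^ m := one_le_pow₀ (by norm_num)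
  have h4 : (0 : ℝ) < 2 ^ m := by positivity
  have h5 : (0 : ℝ) < 2 ^ (m + 2) := by positivity
  rw [mul_one_div, div_div, div_le_div_iff₀ (by positivity) (by positivity)]
  have h6 : 2 ^ (m + 2) * 2 ≤ (2 : ℝ) ^ m * (2 ^ (m + 2) * 2) * 2 := by nlinarith
  calc ((m : ℝ) + 1) * (2 ^ (m + 2) * 2) ≤ 2 ^ m * (2 ^ m * (2 ^ (m + 2) * 2) * 2) :=
        mul_le_mul h1 h6 (by positivity) (by positivity)
    _ = _ := by ring

theorem fold_le_one {m : ℕ} {y : Fin (m + 1) → ℝ} (h : Fold m y) (k : Fin (m + 1)) : y k ≤ 1 := by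
  obtain ⟨h0, h1, h2⟩ := h
  refine Fin.cases h1 (fun j => ?_) k
  have := h2 j
  linarith

/-- the main inequality -/
theorem ff_le (m : ℕ) : ∀ y : Fin (m + 1) → ℝ, Fold m y → ff m y ≤ y 0 - y 0 ^ 2 := by
  induction m with
  | zero =>
    intro y h
    rw [ff_apply]
    simp only [Finset.univ_eq_empty, Finset.sum_empty]
    have h0 := h.1 0
    have h1 := h.2.1
    nlinarith
  | succ m ih =>
    intro y h
    have hy0 := h.1 0
    have hy1 := h.2.1
    set w : Fin (m + 1) → ℝ := fun k => y k.succ with hw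
    have hw1 : w 0 ≤ 1 := fold_le_one h _
    have hf : Fold m w := by
      refine ⟨fun k => h.1 _, hw1, fun k => ?_⟩
      have := h.2.2 k.succ
      simpa [hw] using this
    have h1 := ih w hf
    rw [ff_apply] at h1 ⊢
    rw [Fin.sum_univ_succ]
    have e : ∑ k : Fin m, (1 / 4 : ℝ) ^ (k.succ.1 + 1) * y k.succ.succ =
        1 / 4 * ∑ k : Fin m, (1 / 4 : ℝ) ^ (k.1 + 1) * w k.succ := by
      rw [Finset.mul_sum]
      apply Finset.sum_congr rfl
      intro k _
      simp only [hw, Fin.val_succ]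
      ring
    rw [e]
    have h2 := h.2.2 0
    have h3 : y (Fin.succ 0) = w 0 := rfl
    have h4 : y (Fin.castSucc 0) = y 0 := rfl
    have h5 : 0 ≤ w 0 := hf.1 0
    rw [h3, h4] at h2
    simp only [Fin.val_zero, zero_add, pow_one]
    rw [h3]
    obtain ⟨h6, h7⟩ := h2
    -- (1/4) (2 w - w^2) ≤ y - y^2
    have h8 : 2 * w 0 - w 0 ^ 2 ≤ 4 * (y 0 - y 0 ^ 2) := by
      by_cases hh : y 0 ≤ 1 / 2
      · nlinarith [mul_nonneg (by linarith : 0 ≤ 2 * y 0 - w 0) (by linarith : 0 ≤ 2 - w 0 - 2 * y 0)]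
      · push Not at hh
        nlinarith [mul_nonneg (by linarith : 0 ≤ 2 * y 0 - w 0) (by linarith : 0 ≤ 2 - w 0 - 2 * y 0)]
    nlinarith

theorem ff_nonneg {m : ℕ} {y : Fin (m + 1) → ℝ} (h : Fold m y) : 0 ≤ ff m y := by
  rw [ff_apply]
  exact Finset.sum_nonneg fun k _ => mul_nonneg (by positivity) (h.1 _)

/-- the tent map -/
noncomputable def tent (x : ℝ) : ℝ := min (2 * x) (2 - 2 * x)

/-- the lift of the point `x` of the parabola -/
noncomputable def lift (m : ℕ) (x : ℝ) : Fin (m + 1) → ℝ := fun k => tent^[k.1] x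

theorem tent_mem {x : ℝ} (h0 : 0 ≤ x) (h1 : x ≤ 1) : 0 ≤ tent x ∧ tent x ≤ 1 := by
  unfold tent
  constructor
  · exact le_min (by linarith) (by linarith)
  · by_cases h : x ≤ 1 / 2
    · exact (min_le_left _ _).trans (by linarith)
    · push Not at h
      exact (min_le_right _ _).trans (by linarith)

theorem iter_mem {x : ℝ} (h0 : 0 ≤ x) (h1 : x ≤ 1) (k : ℕ) : 0 ≤ tent^[k] x ∧ tent^[k] x ≤ 1 := by
  induction k with
  | zero => exact ⟨h0, h1⟩
  | succ k ih =>
    rw [Function.iterate_succ_apply']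
    exact tent_mem ih.1 ih.2

theorem lift_fold (m : ℕ) {x : ℝ} (h0 : 0 ≤ x) (h1 : x ≤ 1) : Fold m (lift m x) := by
  refine ⟨fun k => (iter_mem h0 h1 k).1, h1, fun k => ?_⟩
  have e1 : lift m x k.succ = tent (lift m x k.castSucc) := by
    simp only [lift, Fin.val_succ, Fin.val_castSucc, Function.iterate_succ_apply']
  rw [e1]
  constructor
  · exact min_le_left _ _
  · have : tent (lift m x k.castSucc) ≤ 2 - 2 * lift m x k.castSucc := min_le_right _ _
    linarith

theorem tent_quad {x : ℝ} : x - x ^ 2 = 1 / 4 * (tent x + (tent x - tent x ^ 2)) := by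
  unfold tent
  rcases min_cases (2 * x) (2 - 2 * x) with ⟨h, -⟩ | ⟨h, -⟩ <;> rw [h] <;> ring

theorem ff_lift (m : ℕ) : ∀ i : ℕ, i ≤ 2 ^ m → ff m (lift m (i / 2 ^ m)) =
    (i / 2 ^ m : ℝ) - (i / 2 ^ m : ℝ) ^ 2 := by
  induction m with
  | zero =>
    intro i hi
    rw [ff_apply]
    simp only [Finset.univ_eq_empty, Finset.sum_empty, pow_zero, div_one]
    interval_cases i <;> norm_num
  | succ m ih =>
    intro i hi
    obtain ⟨j, hj, hij⟩ : ∃ j : ℕ, j ≤ 2 ^ m ∧ tent (i / 2 ^ (m + 1)) = j / 2 ^ m := by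
      by_cases h : i ≤ 2 ^ m
      · refine ⟨i, h, ?_⟩
        unfold tent
        have h1 : (i : ℝ) ≤ 2 ^ m := by exact_mod_cast h
        have h2 : (i : ℝ) / 2 ^ (m + 1) ≤ 1 / 2 := by
          rw [div_le_div_iff₀ (by positivity) (by norm_num), pow_succ]
          linarith
        rw [min_eq_left (by linarith), pow_succ]
        field_simp
      · push Not at h
        refine ⟨2 ^ (m + 1) - i, ?_, ?_⟩
        · have : 2 ^ (m + 1) = 2 ^ m + 2 ^ m := by ring
          omega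
        · unfold tent
          have h1 : (2 : ℝ) ^ m ≤ i := by exact_mod_cast h.le
          have h2 : 1 / 2 ≤ (i : ℝ) / 2 ^ (m + 1) := by
            rw [div_le_div_iff₀ (by norm_num) (by positivity), pow_succ]
            linarith
          rw [min_eq_right (by linarith), Nat.cast_sub hi]
          push_cast
          rw [pow_succ]
          field_simp
    have h1 := ih j hj
    rw [ff_apply] at h1 ⊢
    rw [Fin.sum_univ_succ, tent_quad, hij, ← h1, mul_add, Finset.mul_sum]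
    congr 1
    · simp [lift, hij]
    · apply Finset.sum_congr rfl
      intro k _
      simp only [lift, Fin.val_succ]
      rw [Function.iterate_succ_apply (f := tent) (n := k.1 + 1), hij]
      ring

theorem zz_vv (m : ℕ) : -(2 * ep m) ≤ zz m (vv m) := by
  rw [zz_apply, ff_apply]
  have : 0 ≤ ∑ k : Fin m, (1 / 4 : ℝ) ^ (k.1 + 1) * vv m k.succ :=
    Finset.sum_nonneg fun k _ => mul_nonneg (by positivity) (ep_pos m).le
  have h : vv m 0 = ep m := rfl
  rw [h]
  linarith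

/-- points with `z₀` small enough are not cut off -/
theorem mem_blk_of {m : ℕ} {y : Fin (m + 1) → ℝ} (h : Fold m y) (hz : zz m y ≤ -(3 * ep m)) :
    y ∈ blk m := by
  have h1 := zz_vv m
  have h2 := dl_le_ep m
  have h3 := dl_pos m
  have h4 := ep_pos m
  have h5 : dl m ≤ ep m / 2 := by
    have : dl m ≤ (m + 1) * dl m := by
      have : (0 : ℝ) ≤ m * dl m := by positivity
      linarith
    linarith
  refine ⟨h, fun k => ?_, ?_⟩
  · have h6 : dl m * y k.succ ≤ dl m * 1 := mul_le_mul_of_nonneg_left (fold_le_one h _) h3.le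
    have h7 : 0 ≤ dl m * ep m := by positivity
    linarith
  · have h6 : 0 ≤ dl m * ∑ k : Fin m, y k.succ :=
      mul_nonneg h3.le (Finset.sum_nonneg fun k _ => h.1 _)
    have h7 : dl m * (m * ep m) ≤ ep m := by
      have h8 : (m : ℝ) * dl m ≤ ep m / 2 := by
        have : (m : ℝ) * dl m ≤ (m + 1) * dl m := by nlinarith
        linarith
      have h9 : ep m ≤ 1 := by
        unfold ep
        rw [div_le_one (by positivity)]
        exact one_le_pow₀ (by norm_num)
      nlinarith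
    linarith

theorem vv_mem {m : ℕ} (hm : 1 ≤ m) : vv m ∈ blk m := by
  have h1 := ep_le hm
  have h2 := ep_pos m
  refine ⟨⟨fun k => h2.le, ?_, fun k => ?_⟩, fun k => le_rfl, ?_⟩
  · change ep m ≤ 1
    linarith
  · change ep m ≤ 2 * ep m ∧ ep m + 2 * ep m ≤ 2
    constructor <;> linarith
  · have : ∑ k : Fin m, vv m k.succ = m * ep m := by
      simp [vv]
    rw [this]

theorem ff_tp (m : ℕ) : ff m (tp m) = 0 := by
  rw [ff_apply]
  apply Finset.sum_eq_zero
  intro k _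
  simp [tp]

theorem tp_zero (m : ℕ) : tp m 0 = 1 := by simp [tp]

theorem tp_succ (m : ℕ) (k : Fin m) : tp m k.succ = 0 := by simp [tp]

theorem tp_fold (m : ℕ) : Fold m (tp m) := by
  refine ⟨fun k => ?_, (tp_zero m).le, fun k => ?_⟩
  · refine Fin.cases ?_ (fun j => ?_) k
    · rw [tp_zero]; norm_num
    · rw [tp_succ]
  · rw [tp_succ]
    by_cases hk : k.castSucc = 0
    · rw [hk, tp_zero]; norm_num
    · have : tp m k.castSucc = 0 := by simp [tp, hk]
      rw [this]; norm_num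

theorem tp_mem {m : ℕ} (hm : 1 ≤ m) : tp m ∈ blk m := by
  apply mem_blk_of (tp_fold m)
  rw [zz_apply, ff_tp, tp_zero]
  have := ep_le hm
  linarith

theorem lift_mem {m i : ℕ} (h1 : 1 ≤ i) (h2 : i ≤ 2 ^ m) : lift m (i / 2 ^ m) ∈ blk m := by
  have h0 : (0 : ℝ) ≤ i / 2 ^ m := by positivity
  have h3 : (i : ℝ) / 2 ^ m ≤ 1 := by
    rw [div_le_one (by positivity)]
    exact_mod_cast h2
  apply mem_blk_of (lift_fold m h0 h3)
  rw [zz_apply, ff_lift m i h2]
  have h4 : lift m ((i : ℝ) / 2 ^ m) 0 = i / 2 ^ m := rfl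
  rw [h4]
  have h5 : ep m * 4 = 1 / 2 ^ m := by
    unfold ep
    rw [pow_add]
    field_simp
    norm_num
  have h6 : (1 : ℝ) / 2 ^ m ≤ i / 2 ^ m := by
    apply div_le_div_of_nonneg_right _ (by positivity)
    exact_mod_cast h1
  nlinarith [sq_nonneg ((i : ℝ) / 2 ^ m), ep_pos m]

end Pool.Agent.Run7.h689.SH
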