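import Pool.Agent.Run7.h689.Abs
set_option autoImplicit false

/-!
# The composition of linear programs: the second block is touched only after the first is solved
-/

namespace Pool.Agent.Run7.h689.SH

open Set

variable {E F : Type} [AddCommGroup E] [Module ℝ E] [AddCommGroup F] [Module ℝ F]

set_option linter.unusedSectionVars false

section geo
variable {P : Set E} {t : E} {X : Set F} {s : F → ℝ}

/-- the point of the composition over `x` and `w` -/
def emb (t : E) (s : F → ℝ) (x : F) (w : E) : F × E := (x, s x • t + (1 - s x) • w)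

theorem emb_mem {x : F} {w : E} (hx : x ∈ X) (hw : w ∈ P) : emb t s x w ∈ comp P t X s :=
  ⟨hx, w, hw, rfl⟩

theorem mem_comp_iff {p : F × E} : p ∈ comp P t X s ↔ ∃ x ∈ X, ∃ w ∈ P, p = emb t s x w := by
  constructor
  · rintro ⟨h1, w, hw, h2⟩
    exact ⟨p.1, h1, w, hw, Prod.ext rfl h2⟩
  · rintro ⟨x, hx, w, hw, rfl⟩
    exact emb_mem hx hw

theorem emb_top (x : F) : emb t s x t = (x, t) := by
  unfold emb
  congr 1
  module

theorem emb_inj {x : F} {w w' : E} (hs : s x ≠ 1) (h : emb t s x w = emb t s x w') : w = w' := by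
  have h1 := congrArg Prod.snd h
  simp only [emb] at h1
  have h2 : (1 - s x) • w = (1 - s x) • w' := add_left_cancel h1
  exact smul_right_injective E (sub_ne_zero.2 (Ne.symm hs)) h2

theorem fib_emb {x : F} (w : E) (hs : s x ≠ 1) : fib t s (emb t s x w) = w := by
  unfold fib emb
  simp only [add_sub_cancel_left]
  rw [smul_smul, inv_mul_cancel₀ (sub_ne_zero.2 (Ne.symm hs)), one_smul]

/-- `s` is affine -/
theorem s_affine {s₀ κ : ℝ} {z₀ : F →ₗ[ℝ] ℝ} (x y : F) (α β : ℝ) (h : α + β = 1) :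
    aff s₀ κ z₀ (α • x + β • y) = α * aff s₀ κ z₀ x + β * aff s₀ κ z₀ y := by
  unfold aff
  rw [map_add, map_smul, map_smul, smul_eq_mul, smul_eq_mul]
  have : s₀ = (α + β) * s₀ := by rw [h, one_mul]
  linear_combination this

end geo

section main
variable {P : Set E} {C : E →ₗ[ℝ] ℝ} {v t : E} {γ : ℝ} {r N : ℕ}
  {X : Set F} {c z₀ : F →ₗ[ℝ] ℝ} {a u : F} {s₀ κ M γ' : ℝ}

/-- points of the composition have the form `emb` -/
theorem emb_fib (b : Block X c z₀ a u s₀ κ M γ' N) {p : F × E}
    (hp : p ∈ comp P t X (aff s₀ κ z₀)) :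
    p.1 ∈ X ∧ fib t (aff s₀ κ z₀) p ∈ P ∧
      emb t (aff s₀ κ z₀) p.1 (fib t (aff s₀ κ z₀) p) = p := by
  obtain ⟨x, hx, w, hw, rfl⟩ := mem_comp_iff.1 hp
  have h1 : aff s₀ κ z₀ x ≠ 1 := by
    have := b.s1 x hx
    intro h
    linarith
  rw [fib_emb w h1]
  exact ⟨hx, hw, rfl⟩

theorem emb_extreme_right (b : Block X c z₀ a u s₀ κ M γ' N) {x : F} {w : E} (hx : x ∈ X) (hw : w ∈ P)
    (h : emb t (aff s₀ κ z₀) x w ∈ (comp P t X (aff s₀ κ z₀)).extremePoints ℝ) :
    w ∈ P.extremePoints ℝ := by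
  have h1 : aff s₀ κ z₀ x ≠ 1 := by
    have := b.s1 x hx
    intro h
    linarith
  refine ⟨hw, ?_⟩
  rintro w1 hw1 w2 hw2 ⟨α, β, hα, hβ, hαβ, rfl⟩
  apply emb_inj (t := t) (s := aff s₀ κ z₀) h1
  refine h.2 (emb_mem hx hw1) (emb_mem hx hw2) ⟨α, β, hα, hβ, hαβ, ?_⟩
  unfold emb
  have e1 : α • x + β • x = x := by rw [← add_smul, hαβ, one_smul]
  rw [Prod.smul_mk, Prod.smul_mk, Prod.mk_add_mk, e1]
  congr 1
  generalize aff s₀ κ z₀ x = q
  calc α • (q • t + (1 - q) • w1) + β • (q • t + (1 - q) • w2)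
      = (α + β) • (q • t) + (1 - q) • (α • w1 + β • w2) := by module
    _ = _ := by rw [hαβ, one_smul]

theorem emb_extreme_left {x : F} {w : E} (hx : x ∈ X) (hw : w ∈ P)
    (h : emb t (aff s₀ κ z₀) x w ∈ (comp P t X (aff s₀ κ z₀)).extremePoints ℝ) :
    x ∈ X.extremePoints ℝ := by
  refine ⟨hx, ?_⟩
  rintro x1 hx1 x2 hx2 ⟨α, β, hα, hβ, hαβ, rfl⟩
  have : emb t (aff s₀ κ z₀) x1 w = emb t (aff s₀ κ z₀) (α • x1 + β • x2) w := by
    refine h.2 (emb_mem hx1 hw) (emb_mem hx2 hw) ⟨α, β, hα, hβ, hαβ, ?_⟩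
    unfold emb
    rw [s_affine x1 x2 α β hαβ, Prod.smul_mk, Prod.smul_mk, Prod.mk_add_mk]
    congr 1
    generalize aff s₀ κ z₀ x1 = q
    generalize aff s₀ κ z₀ x2 = q'
    have e3 : (1 - (α * q + β * q')) = α * (1 - q) + β * (1 - q') := by linear_combination -hαβ
    rw [e3]
    module
  exact congrArg Prod.fst this

/-- an edge of the composition moves only one of the two parts -/
theorem edge_split (b : Block X c z₀ a u s₀ κ M γ' N) {ψ : F × E →ₗ[ℝ] ℝ} {x x' : F} {w w' : E}
    (hx : x ∈ X) (hx' : x' ∈ X) (hw : w ∈ P) (hw' : w' ∈ P)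
    (h : mx (comp P t X (aff s₀ κ z₀)) ψ =
      segment ℝ (emb t (aff s₀ κ z₀) x w) (emb t (aff s₀ κ z₀) x' w')) :
    x = x' ∨ w = w' := by
  by_contra hcon
  push Not at hcon
  obtain ⟨hxx, hww⟩ := hcon
  set s : F → ℝ := aff s₀ κ z₀ with hs
  have hs1 : ∀ y ∈ X, s y ≤ 1 / 2 := b.s1
  have p1 : 0 < 1 - s x := by have := hs1 x hx; linarith
  have p2 : 0 < 1 - s x' := by have := hs1 x' hx'; linarith
  -- the weights
  set α : ℝ := (1 - s x) / ((1 - s x) + (1 - s x')) with hα
  set β : ℝ := (1 - s x') / ((1 - s x) + (1 - s x')) with hβ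
  have hden : 0 < (1 - s x) + (1 - s x') := by linarith
  have hα0 : 0 < α := div_pos p1 hden
  have hβ0 : 0 < β := div_pos p2 hden
  have hαβ : α + β = 1 := by rw [hα, hβ, ← add_div, div_self hden.ne']
  have key : α * (1 - s x') = β * (1 - s x) := by
    rw [hα, hβ]; field_simp
  have hL := left_mem_mx h
  have hR := right_mem_mx h
  have hLR : ψ (emb t s x w) = ψ (emb t s x' w') := le_antisymm (hR.2 _ hL.1) (hL.2 _ hR.1)
  -- the same point in two ways
  have hpt : β • emb t s x w + α • emb t s x' w' = α • emb t s x' w + β • emb t s x w' := by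
    unfold emb
    rw [Prod.smul_mk, Prod.smul_mk, Prod.smul_mk, Prod.smul_mk, Prod.mk_add_mk, Prod.mk_add_mk]
    congr 1
    · exact add_comm _ _
    · have e1 : (β * (1 - s x)) • w = (α * (1 - s x')) • w := by rw [key]
      have e2 : (α * (1 - s x')) • w' = (β * (1 - s x)) • w' := by rw [key]
      calc β • (s x • t + (1 - s x) • w) + α • (s x' • t + (1 - s x') • w')
          = (β * s x + α * s x') • t + (β * (1 - s x)) • w + (α * (1 - s x')) • w' := by module
        _ = (β * s x + α * s x') • t + (α * (1 - s x')) • w + (β * (1 - s x)) • w' := by rw [e1, e2]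
        _ = _ := by module
  have hval := congrArg ψ hpt
  rw [map_add, map_add, map_smul, map_smul, map_smul, map_smul] at hval
  simp only [smul_eq_mul] at hval
  have m1 : ψ (emb t s x' w) ≤ ψ (emb t s x w) := hL.2 _ (emb_mem hx' hw)
  have m2 : ψ (emb t s x w') ≤ ψ (emb t s x w) := hL.2 _ (emb_mem hx hw')
  have m3 : ψ (emb t s x' w) = ψ (emb t s x w) := by
    rw [← hLR] at hval
    have g1 : α * ψ (emb t s x' w) ≤ α * ψ (emb t s x w) := mul_le_mul_of_nonneg_left m1 hα0.le
    have g2 : β * ψ (emb t s x w') ≤ β * ψ (emb t s x w) := mul_le_mul_of_nonneg_left m2 hβ0.le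
    have g3 : α * ψ (emb t s x' w) = α * ψ (emb t s x w) := by linarith
    exact mul_left_cancel₀ hα0.ne' g3
  have hmem : emb t s x' w ∈ mx (comp P t X s) ψ :=
    ⟨emb_mem hx' hw, fun v hv => by rw [m3]; exact hL.2 v hv⟩
  rw [h, segment_eq_image'] at hmem
  obtain ⟨θ, -, hθ⟩ := hmem
  have f1 := congrArg Prod.fst hθ
  simp only [emb, Prod.fst_add, Prod.smul_fst, Prod.fst_sub] at f1
  have hθ1 : θ = 1 := by
    have : (1 - θ) • (x' - x) = 0 := by
      have : (1 - θ) • (x' - x) = x' - (x + θ • (x' - x)) := by module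
      rw [this, f1, sub_self]
    rcases smul_eq_zero.1 this with h' | h'
    · linarith
    · exact absurd (sub_eq_zero.1 h').symm hxx
  rw [hθ1] at hθ
  simp only [one_smul, add_sub_cancel] at hθ
  exact hww (emb_inj (x := x') (s := s) (t := t) (by intro h'; linarith) hθ.symm)

/-- restriction of an edge over a fixed point of `X` -/
theorem mx_fiber (b : Block X c z₀ a u s₀ κ M γ' N) {ψ : F × E →ₗ[ℝ] ℝ} {x : F} {w w' : E}
    (hx : x ∈ X)
    (h : mx (comp P t X (aff s₀ κ z₀)) ψ =
      segment ℝ (emb t (aff s₀ κ z₀) x w) (emb t (aff s₀ κ z₀) x w')) :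
    mx P (ψ ∘ₗ LinearMap.inr ℝ F E) = segment ℝ w w' := by
  have hq : 0 < 1 - aff s₀ κ z₀ x := by have := b.s1 x hx; linarith
  have hne : aff s₀ κ z₀ x ≠ 1 := by intro h; linarith
  set ψY := ψ ∘ₗ LinearMap.inr ℝ F E with hψY
  have hval : ∀ w₁ : E, ψ (emb t (aff s₀ κ z₀) x w₁) = (ψ ∘ₗ LinearMap.inl ℝ F E) x +
      (aff s₀ κ z₀ x * ψY t + (1 - aff s₀ κ z₀ x) * ψY w₁) := by
    intro w₁
    unfold emb
    rw [split, map_add, map_smul, map_smul]
    rfl
  have hseg : ∀ w₁ : E, emb t (aff s₀ κ z₀) x w₁ ∈ segment ℝ (emb t (aff s₀ κ z₀) x w)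
      (emb t (aff s₀ κ z₀) x w') ↔ w₁ ∈ segment ℝ w w' := by
    intro w₁
    constructor
    · rintro ⟨α, β, hα, hβ, hαβ, he⟩
      refine ⟨α, β, hα, hβ, hαβ, ?_⟩
      apply emb_inj (t := t) (x := x) (s := aff s₀ κ z₀) hne
      rw [← he]
      unfold emb
      have e1 : α • x + β • x = x := by rw [← add_smul, hαβ, one_smul]
      rw [Prod.smul_mk, Prod.smul_mk, Prod.mk_add_mk, e1]
      congr 1
      generalize aff s₀ κ z₀ x = q
      symm
      calc α • (q • t + (1 - q) • w) + β • (q • t + (1 - q) • w')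
          = (α + β) • (q • t) + (1 - q) • (α • w + β • w') := by module
        _ = _ := by rw [hαβ, one_smul]
    · rintro ⟨α, β, hα, hβ, hαβ, rfl⟩
      refine ⟨α, β, hα, hβ, hαβ, ?_⟩
      unfold emb
      have e1 : α • x + β • x = x := by rw [← add_smul, hαβ, one_smul]
      rw [Prod.smul_mk, Prod.smul_mk, Prod.mk_add_mk, e1]
      congr 1
      generalize aff s₀ κ z₀ x = q
      calc α • (q • t + (1 - q) • w) + β • (q • t + (1 - q) • w')
          = (α + β) • (q • t) + (1 - q) • (α • w + β • w') := by module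
        _ = _ := by rw [hαβ, one_smul]
  have hw : emb t (aff s₀ κ z₀) x w ∈ mx (comp P t X (aff s₀ κ z₀)) ψ := left_mem_mx h
  have hwP : w ∈ P := by
    obtain ⟨x₁, hx₁, w₁, hw₁, he⟩ := mem_comp_iff.1 hw.1
    have e1 : x = x₁ := congrArg Prod.fst he
    subst e1
    rw [emb_inj (t := t) (x := x) (s := aff s₀ κ z₀) hne he]
    exact hw₁
  ext w₁
  rw [← hseg w₁, ← h]
  constructor
  · rintro ⟨h1, h2⟩
    refine ⟨emb_mem hx h1, ?_⟩
    intro p hp
    refine (hw.2 p hp).trans ?_
    rw [hval, hval]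
    have := mul_le_mul_of_nonneg_left (h2 w hwP) hq.le
    linarith
  · intro h1
    have h1P : w₁ ∈ P := by
      obtain ⟨x₁, hx₁, w₂, hw₂, he⟩ := mem_comp_iff.1 h1.1
      have e1 : x = x₁ := congrArg Prod.fst he
      subst e1
      rw [emb_inj (t := t) (x := x) (s := aff s₀ κ z₀) hne he]
      exact hw₂
    refine ⟨h1P, fun w₂ hw₂ => ?_⟩
    have := h1.2 _ (emb_mem hx hw₂)
    rw [hval, hval] at this
    have h3 : (1 - aff s₀ κ z₀ x) * ψY w₂ ≤ (1 - aff s₀ κ z₀ x) * ψY w₁ := by linarith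
    exact le_of_mul_le_mul_left h3 hq

/-- restriction of an edge over the top -/
theorem mx_base {ψ : F × E →ₗ[ℝ] ℝ} {x x' : F} (ht : t ∈ P)
    (h : mx (comp P t X (aff s₀ κ z₀)) ψ = segment ℝ (x, t) (x', t)) :
    mx X (ψ ∘ₗ LinearMap.inl ℝ F E) = segment ℝ x x' := by
  have hmem : ∀ y ∈ X, (y, t) ∈ comp P t X (aff s₀ κ z₀) := by
    intro y hy
    rw [← emb_top (t := t) (s := aff s₀ κ z₀)]
    exact emb_mem hy ht
  have hseg : ∀ y : F, ((y, t) : F × E) ∈ segment ℝ (x, t) (x', t) ↔ y ∈ segment ℝ x x' := by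
    intro y
    constructor
    · rintro ⟨α, β, hα, hβ, hαβ, he⟩
      exact ⟨α, β, hα, hβ, hαβ, congrArg Prod.fst he⟩
    · rintro ⟨α, β, hα, hβ, hαβ, rfl⟩
      refine ⟨α, β, hα, hβ, hαβ, ?_⟩
      rw [Prod.smul_mk, Prod.smul_mk, Prod.mk_add_mk, ← add_smul, hαβ, one_smul]
  have hL := left_mem_mx h
  ext y
  rw [← hseg y, ← h]
  constructor
  · rintro ⟨h1, h2⟩
    refine ⟨hmem y h1, fun p hp => (hL.2 p hp).trans ?_⟩
    rw [split, split ψ y]
    have := h2 x hL.1.1
    linarith
  · intro h1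
    refine ⟨h1.1.1, fun y' hy' => ?_⟩
    have := h1.2 _ (hmem y' hy')
    rw [split, split ψ y] at this
    linarith

/-- a functional which is maximal at a point over `a` is maximal at `a` on `X` -/
theorem thin_of_mem (b : Block X c z₀ a u s₀ κ M γ' N) (hκ : 0 < κ) (ht : t ∈ P)
    {ψ : F × E →ₗ[ℝ] ℝ} {w : E} (hw : w ∈ P)
    (h : emb t (aff s₀ κ z₀) a w ∈ mx (comp P t X (aff s₀ κ z₀)) ψ) :
    ∀ y ∈ X, (ψ ∘ₗ LinearMap.inl ℝ F E) y ≤ (ψ ∘ₗ LinearMap.inl ℝ F E) a := by
  intro y hy
  set ψX := ψ ∘ₗ LinearMap.inl ℝ F E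
  set ψY := ψ ∘ₗ LinearMap.inr ℝ F E with hψY
  have hval : ∀ (x : F) (w₁ : E), ψ (emb t (aff s₀ κ z₀) x w₁) = ψX x +
      (aff s₀ κ z₀ x * ψY t + (1 - aff s₀ κ z₀ x) * ψY w₁) := by
    intro x w₁
    unfold emb
    rw [split, map_add, map_smul, map_smul]
    rfl
  have h1 := h.2 _ (emb_mem b.hv ht)
  have h2 := h.2 _ (emb_mem hy hw)
  rw [hval, hval] at h1 h2
  have hq : 0 < 1 - aff s₀ κ z₀ a := by have := b.s1 a b.hv; linarith
  have h3 : ψY t ≤ ψY w := by
    have : (1 - aff s₀ κ z₀ a) * ψY t ≤ (1 - aff s₀ κ z₀ a) * ψY w := by linarith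
    exact le_of_mul_le_mul_left this hq
  have h4 : aff s₀ κ z₀ y ≤ aff s₀ κ z₀ a := by
    unfold aff
    have := mul_le_mul_of_nonneg_left (b.zmax y hy) hκ.le
    linarith
  have h5 : 0 ≤ (aff s₀ κ z₀ a - aff s₀ κ z₀ y) * (ψY w - ψY t) :=
    mul_nonneg (by linarith) (by linarith)
  nlinarith

/-- the composition is hard -/
theorem Hard.comp (h : Hard P C v t γ r N) (b : Block X c z₀ a u s₀ κ M γ' N) (hκ : 0 < κ)
    {η : ℝ} (hη : 0 < η) (hηM : η * M ≤ κ * γ) (hηγ : η * γ' ≤ γ / 2) (hγ : 0 ≤ γ) :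
    Hard (comp P t X (aff s₀ κ z₀)) (cobj C c η) (emb t (aff s₀ κ z₀) a v) (u, t) (η * γ') (r + 1) N := by
  have hs1 := b.s1
  have hs0 := b.s0
  have htop : ∀ x ∈ X, ∀ w ∈ P, cobj C c η (emb t (aff s₀ κ z₀) x w) =
      C t - (1 - aff s₀ κ z₀ x) * (C t - C w) + η * c x := by
    intro x _ w _
    unfold emb
    rw [cobj_apply, map_add, map_smul, map_smul, smul_eq_mul, smul_eq_mul]
    ring
  refine ⟨emb_mem b.hv h.hv, ?_, ?_, ?_, ?_, ?_, ?_, ?_⟩
  · rw [← emb_top (t := t) (s := aff s₀ κ z₀)]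
    exact emb_mem b.ht h.ht
  · intro he
    exact b.ne (congrArg Prod.fst he)
  · intro p hp
    obtain ⟨x, hx, w, hw, rfl⟩ := mem_comp_iff.1 hp
    rw [htop x hx w hw, cobj_apply]
    have h1 := b.top x hx
    have h2 := h.top w hw
    have h3 := hs1 x hx
    have h4 : 0 ≤ (1 - aff s₀ κ z₀ x) * (C t - C w) := mul_nonneg (by linarith) (by linarith)
    have h5 := mul_le_mul_of_nonneg_left h1 hη.le
    linarith
  · intro p hp hpne
    obtain ⟨x, hx, w, hw, rfl⟩ := mem_comp_iff.1 hp.1
    rw [htop x hx w hw, cobj_apply]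
    have h1 := b.top x hx
    have h3 := hs1 x hx
    have h5 := mul_le_mul_of_nonneg_left h1 hη.le
    by_cases hwt : w = t
    · subst hwt
      have hxu : x ≠ u := by
        intro he
        apply hpne
        rw [emb_top, he]
      have h6 := b.gap x (emb_extreme_left hx hw hp) hxu
      have h7 := mul_le_mul_of_nonneg_left h6 hη.le
      linarith
    · have h6 := h.gap w (emb_extreme_right b hx hw hp) hwt
      have h7 : γ / 2 ≤ (1 - aff s₀ κ z₀ x) * (C t - C w) := by
        nlinarith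
      linarith
  · refine ⟨emb_mem b.hv h.hv, ?_⟩
    rintro p1 hp1 p2 hp2 hseg
    obtain ⟨x1, hx1, w1, hw1, rfl⟩ := mem_comp_iff.1 hp1
    obtain ⟨x2, hx2, w2, hw2, rfl⟩ := mem_comp_iff.1 hp2
    obtain ⟨α, β, hα, hβ, hαβ, he⟩ := hseg
    have e1 : α • x1 + β • x2 = a := congrArg Prod.fst he
    have f1 : x1 = a := b.vext.2 hx1 hx2 ⟨α, β, hα, hβ, hαβ, e1⟩
    have f2 : x2 = a := b.vext.2 hx2 hx1 ⟨β, α, hβ, hα, by linarith, by rw [← e1]; exact add_comm _ _⟩
    subst f1
    rw [f2] at he
    have hne : aff s₀ κ z₀ x1 ≠ 1 := by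
      have := hs1 x1 hx1
      intro h'; linarith
    have e2 : α • w1 + β • w2 = v := by
      apply emb_inj (t := t) (x := x1) (s := aff s₀ κ z₀) hne
      rw [← he]
      unfold emb
      have e1 : α • x1 + β • x1 = x1 := by rw [← add_smul, hαβ, one_smul]
      rw [Prod.smul_mk, Prod.smul_mk, Prod.mk_add_mk, e1]
      congr 1
      generalize aff s₀ κ z₀ x1 = q
      symm
      calc α • (q • t + (1 - q) • w1) + β • (q • t + (1 - q) • w2)
          = (α + β) • (q • t) + (1 - q) • (α • w1 + β • w2) := by module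
        _ = _ := by rw [hαβ, one_smul]
    rw [h.vext.2 hw1 hw2 ⟨α, β, hα, hβ, hαβ, e2⟩]
  · intro p hp he
    obtain ⟨x, hx, w, hw, rfl⟩ := mem_comp_iff.1 hp
    rw [htop x hx w hw, cobj_apply] at he
    have h1 := b.top x hx
    have h2 := h.top w hw
    have h3 := hs1 x hx
    have h4 : 0 ≤ (1 - aff s₀ κ z₀ x) * (C t - C w) := mul_nonneg (by linarith) (by linarith)
    have h5 := mul_le_mul_of_nonneg_left h1 hη.le
    have h6 : (1 - aff s₀ κ z₀ x) * (C t - C w) = 0 := by linarith
    have h7 : C w = C t := by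
      rcases mul_eq_zero.1 h6 with h' | h'
      · linarith
      · linarith
    have h8 : η * c x = η * c u := by linarith
    have h9 : c x = c u := mul_left_cancel₀ hη.ne' h8
    rw [h.uniq w hw h7, b.uniq x hx h9, emb_top]
  · intro T x z hx0 hxT hpath
    set s := aff s₀ κ z₀ with hs
    set Q := SH.comp P t X s with hQ
    -- all points lie in the composition
    have hmem : ∀ i ≤ T, x i ∈ Q := by
      intro i hi
      rcases i with _ | i
      · rw [hx0]; exact emb_mem b.hv h.hv
      · obtain ⟨-, σ, hσ⟩ := hpath i (by omega)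
        exact (right_mem_mx hσ).1
    set y : ℕ → F := fun i => (x i).1 with hy
    set w : ℕ → E := fun i => fib t s (x i) with hw
    have hyX : ∀ i ≤ T, y i ∈ X := fun i hi => (emb_fib b (hmem i hi)).1
    have hwP : ∀ i ≤ T, w i ∈ P := fun i hi => (emb_fib b (hmem i hi)).2.1
    have hemb : ∀ i ≤ T, x i = emb t s (y i) (w i) := fun i hi => (emb_fib b (hmem i hi)).2.2.symm
    have hne1 : ∀ x ∈ X, s x ≠ 1 := by
      intro x hx he
      have := hs1 x hx
      linarith
    have hw0 : w 0 = v := by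
      simp only [hw, hx0]
      exact fib_emb v (hne1 a b.hv)
    have hwT : w T = t := by
      simp only [hw, hxT]
      rw [← emb_top (t := t) (s := s)]
      exact fib_emb t (hne1 u b.ht)
    have hex : ∃ i, w i = t := ⟨T, hwT⟩
    classical
    set τ := Nat.find hex with hτ
    have hτt : w τ = t := Nat.find_spec hex
    have hτT : τ ≤ T := Nat.find_min' hex hwT
    have hτ0 : 0 < τ := by
      rcases Nat.eq_zero_or_pos τ with h0 | h0
      · rw [h0, hw0] at hτt
        exact absurd hτt h.ne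
      · exact h0
    have hlt : ∀ i < τ, w i ≠ t := fun i hi => Nat.find_min hex hi
    -- before `τ` the first component is `a`
    have hA : ∀ i ≤ τ, y i = a := by
      intro i
      induction i with
      | zero =>
        intro _
        simp only [hy, hx0]
        rfl
      | succ i ih =>
        intro hi
        have hyi := ih (by omega)
        obtain ⟨hC, σ, hσ⟩ := hpath i (by omega)
        have hσ' := hσ
        rw [hemb i (by omega), hemb (i + 1) (by omega)] at hσ'
        rcases edge_split b (hyX i (by omega)) (hyX (i + 1) (by omega)) (hwP i (by omega))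
          (hwP (i + 1) (by omega)) hσ' with e | e
        · rw [← e, hyi]
        · exfalso
          -- moving the base point is not improving
          have hext : w i ∈ P.extremePoints ℝ := by
            have := left_extreme hσ
            rw [hemb i (by omega)] at this
            exact emb_extreme_right b (hyX i (by omega)) (hwP i (by omega)) this
          have hgap := h.gap _ hext (hlt i (by omega))
          rw [hemb i (by omega), hemb (i + 1) (by omega), htop _ (hyX i (by omega)) _ (hwP i (by omega)),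
            htop _ (hyX (i + 1) (by omega)) _ (hwP (i + 1) (by omega)), ← e, hyi] at hC
          have hl := b.lip (y (i + 1)) (hyX (i + 1) (by omega))
          have hz := b.zmax (y (i + 1)) (hyX (i + 1) (by omega))
          have hl' := mul_le_mul_of_nonneg_left hl hη.le
          have hsd : aff s₀ κ z₀ a - aff s₀ κ z₀ (y (i + 1)) = κ * (z₀ a - z₀ (y (i + 1))) := by
            unfold aff; ring
          have h8 : η * (M * (z₀ a - z₀ (y (i + 1)))) ≤
              (aff s₀ κ z₀ a - aff s₀ κ z₀ (y (i + 1))) * (C t - C (w i)) := by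
            rw [hsd]
            have h9 : η * M * (z₀ a - z₀ (y (i + 1))) ≤ κ * γ * (z₀ a - z₀ (y (i + 1))) :=
              mul_le_mul_of_nonneg_right hηM (by linarith)
            have h10 : κ * (z₀ a - z₀ (y (i + 1))) * γ ≤ κ * (z₀ a - z₀ (y (i + 1))) * (C t - C (w i)) :=
              mul_le_mul_of_nonneg_left (by linarith) (mul_nonneg hκ.le (by linarith))
            linarith
          nlinarith
    -- after `τ` the second component is `t`
    have hB : ∀ i, τ ≤ i → i ≤ T → w i = t := by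
      intro i hi
      induction i, hi using Nat.le_induction with
      | base => intro _; exact hτt
      | succ i hi ih =>
        intro hiT
        have hwi := ih (by omega)
        obtain ⟨hC, σ, hσ⟩ := hpath i (by omega)
        rw [hemb i (by omega), hemb (i + 1) (by omega)] at hσ
        rcases edge_split b (hyX i (by omega)) (hyX (i + 1) (by omega)) (hwP i (by omega))
          (hwP (i + 1) (by omega)) hσ with e | e
        · exfalso
          rw [hemb i (by omega), hemb (i + 1) (by omega), htop _ (hyX i (by omega)) _ (hwP i (by omega)),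
            htop _ (hyX (i + 1) (by omega)) _ (hwP (i + 1) (by omega)), ← e, hwi] at hC
          have h1 := h.top _ (hwP (i + 1) hiT)
          have h2 := hs1 (y i) (hyX i (by omega))
          have h3 : 0 ≤ (1 - aff s₀ κ z₀ (y i)) * (C t - C (w (i + 1))) :=
            mul_nonneg (by linarith) (by linarith)
          linarith
        · rw [← e, hwi]
    -- the functionals used before `τ` are thin in `X`
    have hthin : ∀ i ≤ τ, i < T → Thin X c a (z i ∘ₗ LinearMap.inl ℝ F E) := by
      intro i hi hiT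
      obtain ⟨-, σ, hσ⟩ := hpath i hiT
      have hL := left_mem_mx hσ
      rw [hemb i (by omega), hA i hi] at hL
      have := thin_of_mem b hκ h.ht (hwP i (by omega)) hL
      refine ⟨σ * η, fun y' hy' => ?_⟩
      have e := this y' hy'
      have e2 : (z i - σ • cobj C c η) ∘ₗ LinearMap.inl ℝ F E =
          z i ∘ₗ LinearMap.inl ℝ F E - (σ * η) • c := by
        ext q
        simp [cobj, mul_assoc]
      rw [e2] at e
      exact e
    -- the part before `τ`
    have hfib : Path P C τ w (fun i => z i ∘ₗ LinearMap.inr ℝ F E) := by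
      intro i hi
      obtain ⟨hC, σ, hσ⟩ := hpath i (by omega)
      rw [hemb i (by omega), hemb (i + 1) (by omega), hA i hi.le, hA (i + 1) (by omega)] at hσ hC
      refine ⟨?_, σ, ?_⟩
      · rw [htop a b.hv _ (hwP i (by omega)), htop a b.hv _ (hwP (i + 1) (by omega))] at hC
        have h2 := hs1 a b.hv
        have h3 : (1 - aff s₀ κ z₀ a) * C (w i) < (1 - aff s₀ κ z₀ a) * C (w (i + 1)) := by
          linarith
        exact lt_of_mul_lt_mul_left h3 (by linarith)
      · have := mx_fiber b b.hv hσ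
        have e2 : (z i - σ • cobj C c η) ∘ₗ LinearMap.inr ℝ F E =
            z i ∘ₗ LinearMap.inr ℝ F E - σ • C := by
          ext q
          simp [cobj]
        rw [e2] at this
        exact this
    rcases h.long τ w _ hw0 hτt hfib with hlong | hcard
    · exact Or.inl (hlong.trans hτT)
    -- the part after `τ`
    have hbase : Path X c (T - τ) (fun i => y (τ + i)) (fun i => z (τ + i) ∘ₗ LinearMap.inl ℝ F E) := by
      intro i hi
      obtain ⟨hC, σ, hσ⟩ := hpath (τ + i) (by omega)
      have e1 : τ + (i + 1) = τ + i + 1 := by ring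
      have f1 : x (τ + i) = (y (τ + i), t) := by
        rw [hemb (τ + i) (by omega), hB (τ + i) (by omega) (by omega), emb_top]
      have f2 : x (τ + i + 1) = (y (τ + i + 1), t) := by
        rw [hemb (τ + i + 1) (by omega), hB (τ + i + 1) (by omega) (by omega), emb_top]
      rw [f1, f2] at hC hσ
      simp only [e1]
      refine ⟨?_, σ * η, ?_⟩
      · rw [cobj_apply, cobj_apply] at hC
        have : η * c (y (τ + i)) < η * c (y (τ + i + 1)) := by linarith
        exact lt_of_mul_lt_mul_left this hη.le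
      · have := mx_base h.ht hσ
        have e2 : (z (τ + i) - σ • cobj C c η) ∘ₗ LinearMap.inl ℝ F E =
            z (τ + i) ∘ₗ LinearMap.inl ℝ F E - (σ * η) • c := by
          ext q
          simp [cobj, mul_assoc]
        rw [e2] at this
        exact this
    have hy0 : y (τ + 0) = a := hA τ le_rfl
    have hyT : y (τ + (T - τ)) = u := by
      rw [Nat.add_sub_cancel' hτT]
      simp only [hy, hxT]
    by_cases hall : ∀ i < T - τ, Thin X c a (z (τ + i) ∘ₗ LinearMap.inl ℝ F E)
    · left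
      have := b.long (T - τ) _ _ hy0 hyT hbase hall
      omega
    · right
      push Not at hall
      obtain ⟨i, hi, hn⟩ := hall
      have hnot : z (τ + i) ∉ z '' Iio τ := by
        rintro ⟨j, hj, he⟩
        apply hn
        rw [← he]
        exact hthin j (le_of_lt hj) (lt_of_lt_of_le hj hτT)
      have hfin : (z '' Iio τ).Finite := (finite_Iio τ).image z
      have h1 : r < (z '' Iio τ).ncard := by
        refine lt_of_lt_of_le hcard ?_
        have : (fun i => z i ∘ₗ LinearMap.inr ℝ F E) '' Iio τ =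
            (fun ζ : F × E →ₗ[ℝ] ℝ => ζ ∘ₗ LinearMap.inr ℝ F E) '' (z '' Iio τ) := by
          rw [image_image]
        rw [this]
        exact ncard_image_le hfin
      have h2 : (insert (z (τ + i)) (z '' Iio τ)).ncard = (z '' Iio τ).ncard + 1 :=
        ncard_insert_of_notMem hnot hfin
      have h3 : insert (z (τ + i)) (z '' Iio τ) ⊆ z '' Iio T := by
        intro ζ hζ
        rcases hζ with rfl | ⟨j, hj, rfl⟩
        · exact ⟨τ + i, by simp only [mem_Iio]; omega, rfl⟩
        · exact ⟨j, lt_of_lt_of_le hj hτT, rfl⟩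
      have h4 := ncard_le_ncard h3 ((finite_Iio T).image z)
      omega

end main

end Pool.Agent.Run7.h689.SH
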