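import Pool.Agent.Run7.h689.Int
set_option autoImplicit false

/-!
# The linear program in matrix form
-/

namespace Pool.Agent.Run7.h689.SH

open Set

/-- all coordinates lie between `0` and `1` -/
theorem PS_Icc (m : ℕ) : ∀ (r : ℕ) (x : Fin (r + 1) → Fin (m + 1) → ℝ), x ∈ PS r m →
    ∀ i k, 0 ≤ x i k ∧ x i k ≤ 1 := by
  intro r
  induction r with
  | zero =>
    intro x hx i k
    rw [PS_zero] at hx
    obtain ⟨y, hy, rfl⟩ := hx
    exact ⟨hy.1.1 k, fold_le_one hy.1 k⟩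
  | succ r ih =>
    intro x hx i k
    rw [PS_succ] at hx
    obtain ⟨⟨y, w'⟩, ⟨hy, w, hw, hp⟩, rfl⟩ := hx
    simp only at hy hp
    rw [eqv_apply]
    refine Fin.cases ?_ (fun i => ?_) i
    · exact ⟨hy.1.1 k, fold_le_one hy.1 k⟩
    · simp only [Fin.cons_succ]
      have h1 := blk_aff hy.1
      set s := aff (1 / 2) (1 / 4) (zz m) y
      have h2 := ih w hw i k
      have h3 : w' i k = s * tp m k + (1 - s) * w i k := by rw [hp]; rfl
      have h4 : 0 ≤ tp m k ∧ tp m k ≤ 1 := by rw [tp_eq]; exact single_abs k 0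
      rw [h3]
      constructor
      · have := mul_nonneg h1.1 h4.1
        have := mul_nonneg (by linarith [h1.2] : 0 ≤ 1 - s) h2.1
        linarith
      · have := mul_le_mul_of_nonneg_left h4.2 h1.1
        have := mul_le_mul_of_nonneg_left h2.2 (by linarith [h1.2] : 0 ≤ 1 - s)
        linarith

/-- the coefficients of the constraints -/
noncomputable def co {r : ℕ} (m : ℕ) (ρ : Fin (r + 1) × (Fin (m + 1) × Fin 3))
    (j : Fin (r + 1) × Fin (m + 1)) : ℝ :=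
  if j.1 = ρ.1 then rl m ρ.2 (Pi.single j.2 1)
  else if j.1 < ρ.1 then sl m ρ.2 * (1 / 4 * zz m (Pi.single j.2 1)) else 0

/-- the right hand sides -/
noncomputable def rh {r : ℕ} (m : ℕ) (ρ : Fin (r + 1) × (Fin (m + 1) × Fin 3)) : ℝ :=
  rb m ρ.2 - sl m ρ.2 * (ρ.1.1 / 2)

theorem lin_apply {m : ℕ} (f : (Fin (m + 1) → ℝ) →ₗ[ℝ] ℝ) (y : Fin (m + 1) → ℝ) :
    f y = ∑ k, f (Pi.single k 1) * y k := by
  conv_lhs => rw [← Finset.univ_sum_single y, map_sum]
  apply Finset.sum_congr rfl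
  intro k _
  have : (Pi.single k (y k) : Fin (m + 1) → ℝ) = y k • Pi.single k 1 := by
    rw [← Pi.single_smul, smul_eq_mul, mul_one]
  rw [this, map_smul, smul_eq_mul, mul_comm]

theorem sm_eq {r : ℕ} (m : ℕ) (i : Fin (r + 1)) (x : Fin (r + 1) → Fin (m + 1) → ℝ) :
    sm m i x = i.1 / 2 + ∑ j, if j < i then 1 / 4 * zz m (x j) else 0 := by
  unfold sm
  have h1 : ∀ j : Fin (r + 1), (if j < i then af m (x j) else 0) =
      (if j < i then (1 / 2 : ℝ) else 0) + if j < i then 1 / 4 * zz m (x j) else 0 := by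
    intro j
    unfold af aff
    split_ifs <;> simp
  simp only [h1]
  rw [Finset.sum_add_distrib]
  congr 1
  rw [← Finset.sum_filter, Finset.sum_const]
  have : (Finset.univ.filter fun j : Fin (r + 1) => j < i).card = i.1 := by
    have e : (Finset.univ.filter fun j : Fin (r + 1) => j < i) = Finset.Iio i := by
      ext j; simp
    rw [e, Fin.card_Iio]
  rw [this, nsmul_eq_mul]
  ring

theorem co_sum {r : ℕ} (m : ℕ) (ρ : Fin (r + 1) × (Fin (m + 1) × Fin 3))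
    (x : Fin (r + 1) → Fin (m + 1) → ℝ) :
    ∑ j : Fin (r + 1) × Fin (m + 1), co m ρ j * x j.1 j.2 =
      rl m ρ.2 (x ρ.1) + sl m ρ.2 * ∑ j, if j < ρ.1 then 1 / 4 * zz m (x j) else 0 := by
  rw [Fintype.sum_prod_type]
  have h1 : ∀ j : Fin (r + 1), ∑ k : Fin (m + 1), co m ρ (j, k) * x j k =
      (if j = ρ.1 then rl m ρ.2 (x j) else 0) +
      sl m ρ.2 * if j < ρ.1 then 1 / 4 * zz m (x j) else 0 := by
    intro j
    unfold co
    by_cases h : j = ρ.1
    · subst h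
      simp only [if_true, lt_irrefl, if_false, mul_zero, add_zero]
      exact (lin_apply _ _).symm
    · simp only [h, if_false, zero_add]
      by_cases h2 : j < ρ.1
      · simp only [h2, if_true]
        rw [lin_apply (zz m) (x j), Finset.mul_sum, Finset.mul_sum]
        apply Finset.sum_congr rfl
        intro k _
        ring
      · simp [h2]
  simp only [h1]
  rw [Finset.sum_add_distrib, ← Finset.mul_sum, Finset.sum_ite_eq' Finset.univ ρ.1]
  simp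

theorem PS_iff {r : ℕ} (m : ℕ) (x : Fin (r + 1) → Fin (m + 1) → ℝ) :
    x ∈ PS r m ↔ (∀ i k, 0 ≤ x i k) ∧
      ∀ ρ, ∑ j : Fin (r + 1) × Fin (m + 1), co m ρ j * x j.1 j.2 ≤ rh m ρ := by
  have h1 : ∀ ρ : Fin (r + 1) × (Fin (m + 1) × Fin 3),
      (∑ j : Fin (r + 1) × Fin (m + 1), co m ρ j * x j.1 j.2 ≤ rh m ρ) ↔
      rl m ρ.2 (x ρ.1) + sl m ρ.2 * sm m ρ.1 x ≤ rb m ρ.2 := by
    intro ρ
    rw [co_sum, sm_eq]
    unfold rh
    constructor <;> intro h <;> linarith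
  constructor
  · intro h
    refine ⟨fun i k => (PS_Icc m r x h i k).1, fun ρ => (h1 ρ).2 (h.2 ρ.1 ρ.2)⟩
  · rintro ⟨h, h2⟩
    exact ⟨fun i j => h i _, fun i ρ => (h1 (i, ρ)).1 (h2 (i, ρ))⟩

theorem dy_co {r : ℕ} (m : ℕ) (ρ : Fin (r + 1) × (Fin (m + 1) × Fin 3))
    (j : Fin (r + 1) × Fin (m + 1)) : Dy (6 * m + 8) (co m ρ j) := by
  unfold co
  split_ifs
  · exact (dy_rl m _ _).mono (by omega)
  · have h1 : Dy 2 (1 / 4 : ℝ) := by
      have := Dy.inv 2
      norm_num at this ⊢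
      exact this
    have h2 := (dy_sl m ρ.2).mul (h1.mul (dy_zz m j.2))
    exact h2.mono (by omega)
  · exact Dy.zero _

theorem dy_rh {r : ℕ} (m : ℕ) (ρ : Fin (r + 1) × (Fin (m + 1) × Fin 3)) :
    Dy (6 * m + 8) (rh m ρ) := by
  unfold rh
  have h1 : Dy 1 ((ρ.1.1 : ℝ) / 2) := by
    have := (Dy.int 0 (ρ.1.1 : ℤ)).mul (Dy.inv 1)
    simp only [Int.cast_natCast, pow_one, zero_add] at this
    rw [div_eq_mul_one_div]
    exact this
  exact ((dy_rb m ρ.2).mono (by omega)).sub (((dy_sl m ρ.2).mul h1).mono (by omega))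

theorem co_abs {r : ℕ} (m : ℕ) (ρ : Fin (r + 1) × (Fin (m + 1) × Fin 3))
    (j : Fin (r + 1) × Fin (m + 1)) : |co m ρ j| ≤ 4 := by
  unfold co
  split_ifs
  · exact (rl_abs m _ _).trans (by norm_num)
  · have h1 := rb_sl_bd m ρ.2
    have h2 := zz_abs m j.2
    rw [abs_mul, abs_mul, abs_of_nonneg h1.2.1, abs_of_nonneg (by norm_num : (0 : ℝ) ≤ 1 / 4)]
    have h3 : 0 ≤ |zz m (Pi.single j.2 1)| := abs_nonneg _
    nlinarith [h1.2.2]
  · simp

theorem rh_abs {r : ℕ} (m : ℕ) (ρ : Fin (r + 1) × (Fin (m + 1) × Fin 3)) :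
    |rh m ρ| ≤ 4 * (r + 1) := by
  unfold rh
  have h1 := rb_sl_bd m ρ.2
  have h2 : (ρ.1.1 : ℝ) ≤ r := by exact_mod_cast Nat.lt_succ_iff.1 ρ.1.2
  have h3 : (0 : ℝ) ≤ ρ.1.1 := by positivity
  have h4 := abs_le.1 h1.1
  have h5 : sl m ρ.2 * (ρ.1.1 / 2) ≤ 3 * (r / 2) := by
    apply mul_le_mul h1.2.2 (by linarith) (by positivity) (by norm_num)
  have h6 : 0 ≤ sl m ρ.2 * (ρ.1.1 / 2) := mul_nonneg h1.2.1 (by positivity)
  rw [abs_le]
  constructor <;> linarith [h4.1, h4.2]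

/-- the coefficients of the objective -/
noncomputable def ob {r : ℕ} (m : ℕ) (j : Fin (r + 1) × Fin (m + 1)) : ℝ :=
  qq m ^ (r - j.1.1) * cc m (Pi.single j.2 1)

theorem CC_eq (r m : ℕ) (x : Fin (r + 1) → Fin (m + 1) → ℝ) :
    CC r m x = ∑ j : Fin (r + 1) × Fin (m + 1), ob m j * x j.1 j.2 := by
  rw [CC_apply, Fintype.sum_prod_type]
  apply Finset.sum_congr rfl
  intro i _
  rw [lin_apply (cc m) (x i), Finset.mul_sum]
  apply Finset.sum_congr rfl
  intro k _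
  unfold ob
  ring

theorem dy_cc (m : ℕ) (k : Fin (m + 1)) : Dy (2 * m) (cc m (Pi.single k 1)) := by
  rw [cc_apply]
  refine Fin.cases ?_ (fun j => ?_) k
  · rw [ff_single_zero, Pi.single_eq_same]
    exact (Dy.zero _).add (by simpa using Dy.two (2 * m))
  · rw [ff_single_succ, Pi.single_eq_of_ne (Fin.succ_ne_zero j).symm, mul_zero, add_zero]
    exact dy_quarter j.2

theorem cc_abs (m : ℕ) (k : Fin (m + 1)) : |cc m (Pi.single k 1)| ≤ 2 := by
  rw [cc_apply]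
  refine Fin.cases ?_ (fun j => ?_) k
  · rw [ff_single_zero, Pi.single_eq_same]
    norm_num
  · rw [ff_single_succ, Pi.single_eq_of_ne (Fin.succ_ne_zero j).symm, mul_zero, add_zero,
      abs_of_nonneg (by positivity)]
    calc (1 / 4 : ℝ) ^ (j.1 + 1) ≤ 1 := pow_le_one₀ (by norm_num) (by norm_num)
      _ ≤ 2 := by norm_num

theorem dy_qq (m : ℕ) (e : ℕ) : Dy ((4 * m + 8) * e) (qq m ^ e) := by
  have h := Dy.inv ((4 * m + 8) * e)
  have : (1 : ℝ) / 2 ^ ((4 * m + 8) * e) = qq m ^ e := by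
    unfold qq
    rw [← pow_mul, one_div_pow]
  rwa [this] at h

theorem dy_ob {r : ℕ} (m : ℕ) (j : Fin (r + 1) × Fin (m + 1)) :
    Dy ((4 * m + 8) * r + 2 * m) (ob m j) := by
  unfold ob
  refine (((dy_qq m _).mul (dy_cc m j.2))).mono ?_
  have : (4 * m + 8) * (r - j.1.1) ≤ (4 * m + 8) * r := Nat.mul_le_mul_left _ (by omega)
  omega

theorem ob_abs {r : ℕ} (m : ℕ) (j : Fin (r + 1) × Fin (m + 1)) : |ob m j| ≤ 2 := by
  unfold ob
  have hq := qq_pos m
  have h1 : qq m ≤ 1 := by unfold qq; exact pow_le_one₀ (by norm_num) (by norm_num)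
  have h2 : qq m ^ (r - j.1.1) ≤ 1 := pow_le_one₀ hq.le h1
  have h3 : 0 < qq m ^ (r - j.1.1) := by positivity
  rw [abs_mul, abs_of_pos h3]
  have := cc_abs m j.2
  have := abs_nonneg (cc m (Pi.single j.2 1))
  nlinarith

theorem abs_int {a : ℕ} {x B : ℝ} {z : ℤ} {C : ℤ} (hz : (z : ℝ) = 2 ^ a * x) (hx : |x| ≤ B)
    (hC : 2 ^ a * B ≤ (C : ℝ)) : |z| ≤ C := by
  have h1 : ((|z| : ℤ) : ℝ) ≤ (C : ℝ) := by
    rw [Int.cast_abs, hz, abs_mul, abs_of_pos (by positivity : (0 : ℝ) < 2 ^ a)]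
    exact (mul_le_mul_of_nonneg_left hx (by positivity)).trans hC
  exact_mod_cast h1

end Pool.Agent.Run7.h689.SH
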