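import Pool.Agent.Run7.h689.HP6
set_option autoImplicit false
set_option linter.unusedSectionVars false

/-!
# The polygon: tiny and long edges
-/

namespace Pool.Agent.Run7.h689.GR

open Set

/-- the polygon -/
def Pg (τ u q a b : ℝ) : Prop :=
  0 ≤ a ∧ 0 ≤ b ∧ a ≤ 2 + 2 * τ + 4 * q ∧ b ≤ 4 * a + (1 + u) ∧ b ≤ 3 * a + (1 + τ + u) ∧
    b ≤ 2 * a + (2 + 2 * τ + u - 2 * q) ∧ b ≤ a + (3 + 4 * τ + u - 4 * q)

/-- the vertices -/
noncomputable def va (τ q : ℝ) : Fin 7 → ℝ :=
  ![0, τ, 1 + τ - 2 * q, 1 + 2 * τ - 2 * q, 2 + 2 * τ + 4 * q, 2 + 2 * τ + 4 * q, 0]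

noncomputable def vb (τ u q : ℝ) : Fin 7 → ℝ :=
  ![1 + u, 1 + 4 * τ + u, 4 + 4 * τ + u - 6 * q, 4 + 6 * τ + u - 6 * q, 5 + 6 * τ + u, 0, 0]

/-- the bounds for the parameters -/
def Ok (τ u q : ℝ) : Prop := 0 < τ ∧ τ ≤ 1 / 128 ∧ 0 ≤ u ∧ u ≤ 1 / 16 ∧ 0 ≤ q ∧ q ≤ 1 / 32

theorem vx_mem {τ u q : ℝ} (h : Ok τ u q) (i : Fin 7) : Pg τ u q (va τ q i) (vb τ u q i) := by
  obtain ⟨h1, h2, h3, h4, h5, h6⟩ := h
  fin_cases i <;> simp only [va, vb, Pg, Fin.isValue, Fin.zero_eta, Fin.mk_one, Fin.reduceFinMk,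
    Matrix.cons_val, Matrix.cons_val_zero, Matrix.cons_val_one] <;>
    refine ⟨?_, ?_, ?_, ?_, ?_, ?_, ?_⟩ <;> linarith

/-- functionals which expose the vertices -/
noncomputable def pe : Fin 7 → ℝ := ![-5, -7 / 2, -5 / 2, -3 / 2, 1, 1, -1]
noncomputable def qe : Fin 7 → ℝ := ![1, 1, 1, 1, 1, -1, -1]

theorem expose_v {τ u q a b : ℝ} (h : Ok τ u q) (hp : Pg τ u q a b) (i : Fin 7) :
    pe i * a + qe i * b ≤ pe i * va τ q i + qe i * vb τ u q i ∧
    (pe i * a + qe i * b = pe i * va τ q i + qe i * vb τ u q i → a = va τ q i ∧ b = vb τ u q i) := by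
  obtain ⟨h1, h2, h3, h4, h5, h6⟩ := h
  obtain ⟨g1, g2, g3, g4, g5, g6, g7⟩ := hp
  fin_cases i <;> simp only [va, vb, pe, qe, Fin.isValue, Fin.zero_eta, Fin.mk_one, Fin.reduceFinMk,
    Matrix.cons_val, Matrix.cons_val_zero, Matrix.cons_val_one] <;>
    refine ⟨by linarith, fun he => ⟨by linarith, by linarith⟩⟩

/-- the next vertex -/
def nx : Fin 7 → Fin 7 := ![1, 2, 3, 4, 5, 6, 0]

/-- functionals which expose the edges -/
noncomputable def pf : Fin 7 → ℝ := ![-4, -3, -2, -1, 1, 0, -1]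
noncomputable def qf : Fin 7 → ℝ := ![1, 1, 1, 1, 0, -1, 0]

theorem div_ok {x y : ℝ} (hx : 0 ≤ x) (hxy : x ≤ y) (hy : 0 < y) : 0 ≤ x / y ∧ x / y ≤ 1 :=
  ⟨div_nonneg hx hy.le, (div_le_one hy).2 hxy⟩

theorem expose_e {τ u q a b : ℝ} (h : Ok τ u q) (hp : Pg τ u q a b) (i : Fin 7) :
    pf i * a + qf i * b ≤ pf i * va τ q i + qf i * vb τ u q i ∧
    pf i * va τ q (nx i) + qf i * vb τ u q (nx i) = pf i * va τ q i + qf i * vb τ u q i ∧
    (pf i * a + qf i * b = pf i * va τ q i + qf i * vb τ u q i → ∃ θ : ℝ, 0 ≤ θ ∧ θ ≤ 1 ∧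
      a = va τ q i + θ * (va τ q (nx i) - va τ q i) ∧ b = vb τ u q i + θ * (vb τ u q (nx i) - vb τ u q i)) := by
  obtain ⟨h1, h2, h3, h4, h5, h6⟩ := h
  obtain ⟨g1, g2, g3, g4, g5, g6, g7⟩ := hp
  fin_cases i <;> simp only [va, vb, pf, qf, nx, Fin.isValue, Fin.zero_eta, Fin.mk_one, Fin.reduceFinMk,
    Matrix.cons_val, Matrix.cons_val_zero, Matrix.cons_val_one] <;>
    refine ⟨by linarith, by ring, fun he => ?_⟩
  · have hd : (0 : ℝ) < τ := h1
    have k := div_ok (x := a) g1 (by linarith : a ≤ τ) hd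
    refine ⟨a / τ, k.1, k.2, ?_, ?_⟩
    · field_simp; ring
    · have : b = 4 * a + (1 + u) := by linarith
      rw [this]; field_simp; ring
  · have hd : (0 : ℝ) < 1 - 2 * q := by linarith
    have k := div_ok (x := a - τ) (by linarith) (by linarith : a - τ ≤ 1 - 2 * q) hd
    refine ⟨(a - τ) / (1 - 2 * q), k.1, k.2, ?_, ?_⟩
    · field_simp; ring
    · have : b = 3 * a + (1 + τ + u) := by linarith
      rw [this]; field_simp; ring
  · have hd : (0 : ℝ) < τ := h1
    have k := div_ok (x := a - (1 + τ - 2 * q)) (by linarith) (by linarith : a - (1 + τ - 2 * q) ≤ τ) hd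
    refine ⟨(a - (1 + τ - 2 * q)) / τ, k.1, k.2, ?_, ?_⟩
    · field_simp; ring
    · have : b = 2 * a + (2 + 2 * τ + u - 2 * q) := by linarith
      rw [this]; field_simp; ring
  · have hd : (0 : ℝ) < 1 + 6 * q := by linarith
    have k := div_ok (x := a - (1 + 2 * τ - 2 * q)) (by linarith)
      (by linarith : a - (1 + 2 * τ - 2 * q) ≤ 1 + 6 * q) hd
    refine ⟨(a - (1 + 2 * τ - 2 * q)) / (1 + 6 * q), k.1, k.2, ?_, ?_⟩
    · field_simp; ring
    · have : b = a + (3 + 4 * τ + u - 4 * q) := by linarith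
      rw [this]; field_simp; ring
  · have hd : (0 : ℝ) < 5 + 6 * τ + u := by linarith
    have k := div_ok (x := 5 + 6 * τ + u - b) (by linarith) (by linarith : 5 + 6 * τ + u - b ≤ 5 + 6 * τ + u) hd
    refine ⟨(5 + 6 * τ + u - b) / (5 + 6 * τ + u), k.1, k.2, by linarith, ?_⟩
    field_simp; ring
  · have hd : (0 : ℝ) < 2 + 2 * τ + 4 * q := by linarith
    have k := div_ok (x := 2 + 2 * τ + 4 * q - a) (by linarith)
      (by linarith : 2 + 2 * τ + 4 * q - a ≤ 2 + 2 * τ + 4 * q) hd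
    refine ⟨(2 + 2 * τ + 4 * q - a) / (2 + 2 * τ + 4 * q), k.1, k.2, ?_, by linarith⟩
    field_simp; ring
  · have hd : (0 : ℝ) < 1 + u := by linarith
    have k := div_ok (x := b) g2 (by linarith : b ≤ 1 + u) hd
    refine ⟨b / (1 + u), k.1, k.2, by linarith, ?_⟩
    field_simp; ring

/-- the extreme points of the polygon are the vertices -/
theorem vertex_of {τ u q a b : ℝ} (h : Ok τ u q) (hp : Pg τ u q a b)
    (hE : ∀ x y : ℝ, Pg τ u q (a + x) (b + y) → Pg τ u q (a - x) (b - y) → x = 0 ∧ y = 0) :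
    ∃ i, a = va τ q i ∧ b = vb τ u q i := by
  obtain ⟨h1, h2, h3, h4, h5, h6⟩ := h
  obtain ⟨g1, g2, g3, g4, g5, g6, g7⟩ := hp
  rcases g2.lt_or_eq with hb | hb
  · -- some line is tight
    by_cases t0 : b = 4 * a + (1 + u)
    · by_cases c0 : a = 0
      · exact ⟨0, by simp [va, c0], by simp [vb]; linarith⟩
      · by_cases c1 : a = τ
        · exact ⟨1, by simp [va, c1], by simp [vb]; linarith⟩
        · exfalso
          have k1 : 0 < a := lt_of_le_of_ne g1 (Ne.symm c0)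
          have k2 : a < τ := lt_of_le_of_ne (by linarith) c1
          have m1 : min a (τ - a) ≤ a := min_le_left _ _
          have m2 : min a (τ - a) ≤ τ - a := min_le_right _ _
          have m3 : 0 < min a (τ - a) := lt_min k1 (by linarith)
          have := hE (min a (τ - a)) (4 * min a (τ - a)) (by
            refine ⟨?_, ?_, ?_, ?_, ?_, ?_, ?_⟩ <;> linarith) (by
            refine ⟨?_, ?_, ?_, ?_, ?_, ?_, ?_⟩ <;> linarith)
          linarith [this.1]
    by_cases t1 : b = 3 * a + (1 + τ + u)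
    · by_cases c0 : a = τ
      · exact ⟨1, by simp [va, c0], by simp [vb]; linarith⟩
      · by_cases c1 : a = 1 + τ - 2 * q
        · exact ⟨2, by simp [va, c1], by simp [vb]; linarith⟩
        · exfalso
          have k1 : τ < a := lt_of_le_of_ne (by linarith) (Ne.symm c0)
          have k2 : a < 1 + τ - 2 * q := lt_of_le_of_ne (by linarith) c1
          have m1 : min (a - τ) (1 + τ - 2 * q - a) ≤ a - τ := min_le_left _ _
          have m2 : min (a - τ) (1 + τ - 2 * q - a) ≤ 1 + τ - 2 * q - a := min_le_right _ _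
          have m3 : 0 < min (a - τ) (1 + τ - 2 * q - a) := lt_min (by linarith) (by linarith)
          have := hE (min (a - τ) (1 + τ - 2 * q - a)) (3 * min (a - τ) (1 + τ - 2 * q - a)) (by
            refine ⟨?_, ?_, ?_, ?_, ?_, ?_, ?_⟩ <;> linarith) (by
            refine ⟨?_, ?_, ?_, ?_, ?_, ?_, ?_⟩ <;> linarith)
          linarith [this.1]
    by_cases t2 : b = 2 * a + (2 + 2 * τ + u - 2 * q)
    · by_cases c0 : a = 1 + τ - 2 * q
      · exact ⟨2, by simp [va, c0], by simp [vb]; linarith⟩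
      · by_cases c1 : a = 1 + 2 * τ - 2 * q
        · exact ⟨3, by simp [va, c1], by simp [vb]; linarith⟩
        · exfalso
          have k1 : 1 + τ - 2 * q < a := lt_of_le_of_ne (by linarith) (Ne.symm c0)
          have k2 : a < 1 + 2 * τ - 2 * q := lt_of_le_of_ne (by linarith) c1
          have m1 : min (a - (1 + τ - 2 * q)) (1 + 2 * τ - 2 * q - a) ≤ a - (1 + τ - 2 * q) := min_le_left _ _
          have m2 : min (a - (1 + τ - 2 * q)) (1 + 2 * τ - 2 * q - a) ≤ 1 + 2 * τ - 2 * q - a := min_le_right _ _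
          have m3 : 0 < min (a - (1 + τ - 2 * q)) (1 + 2 * τ - 2 * q - a) := lt_min (by linarith) (by linarith)
          have := hE (min (a - (1 + τ - 2 * q)) (1 + 2 * τ - 2 * q - a))
            (2 * min (a - (1 + τ - 2 * q)) (1 + 2 * τ - 2 * q - a)) (by
            refine ⟨?_, ?_, ?_, ?_, ?_, ?_, ?_⟩ <;> linarith) (by
            refine ⟨?_, ?_, ?_, ?_, ?_, ?_, ?_⟩ <;> linarith)
          linarith [this.1]
    by_cases t3 : b = a + (3 + 4 * τ + u - 4 * q)
    · by_cases c0 : a = 1 + 2 * τ - 2 * q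
      · exact ⟨3, by simp [va, c0], by simp [vb]; linarith⟩
      · by_cases c1 : a = 2 + 2 * τ + 4 * q
        · exact ⟨4, by simp [va, c1], by simp [vb]; linarith⟩
        · exfalso
          have k1 : 1 + 2 * τ - 2 * q < a := lt_of_le_of_ne (by linarith) (Ne.symm c0)
          have k2 : a < 2 + 2 * τ + 4 * q := lt_of_le_of_ne (by linarith) c1
          have m1 : min (a - (1 + 2 * τ - 2 * q)) (2 + 2 * τ + 4 * q - a) ≤ a - (1 + 2 * τ - 2 * q) := min_le_left _ _
          have m2 : min (a - (1 + 2 * τ - 2 * q)) (2 + 2 * τ + 4 * q - a) ≤ 2 + 2 * τ + 4 * q - a := min_le_right _ _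
          have m3 : 0 < min (a - (1 + 2 * τ - 2 * q)) (2 + 2 * τ + 4 * q - a) := lt_min (by linarith) (by linarith)
          have := hE (min (a - (1 + 2 * τ - 2 * q)) (2 + 2 * τ + 4 * q - a))
            (min (a - (1 + 2 * τ - 2 * q)) (2 + 2 * τ + 4 * q - a)) (by
            refine ⟨?_, ?_, ?_, ?_, ?_, ?_, ?_⟩ <;> linarith) (by
            refine ⟨?_, ?_, ?_, ?_, ?_, ?_, ?_⟩ <;> linarith)
          linarith [this.1]
    · exfalso
      have k0 : 0 < 4 * a + (1 + u) - b := by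
        have := lt_of_le_of_ne g4 t0; linarith
      have k1 : 0 < 3 * a + (1 + τ + u) - b := by
        have := lt_of_le_of_ne g5 t1; linarith
      have k2 : 0 < 2 * a + (2 + 2 * τ + u - 2 * q) - b := by
        have := lt_of_le_of_ne g6 t2; linarith
      have k3 : 0 < a + (3 + 4 * τ + u - 4 * q) - b := by
        have := lt_of_le_of_ne g7 t3; linarith
      obtain ⟨ε, hε, e0, e1, e2, e3, e4⟩ : ∃ ε : ℝ, 0 < ε ∧ ε ≤ b ∧ ε ≤ 4 * a + (1 + u) - b ∧
          ε ≤ 3 * a + (1 + τ + u) - b ∧ ε ≤ 2 * a + (2 + 2 * τ + u - 2 * q) - b ∧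
          ε ≤ a + (3 + 4 * τ + u - 4 * q) - b := by
        refine ⟨min b (min (4 * a + (1 + u) - b) (min (3 * a + (1 + τ + u) - b)
          (min (2 * a + (2 + 2 * τ + u - 2 * q) - b) (a + (3 + 4 * τ + u - 4 * q) - b)))), ?_, ?_, ?_, ?_, ?_, ?_⟩
        · exact lt_min hb (lt_min k0 (lt_min k1 (lt_min k2 k3)))
        · exact min_le_left _ _
        · exact (min_le_right _ _).trans (min_le_left _ _)
        · exact (min_le_right _ _).trans ((min_le_right _ _).trans (min_le_left _ _))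
        · exact (min_le_right _ _).trans ((min_le_right _ _).trans ((min_le_right _ _).trans (min_le_left _ _)))
        · exact (min_le_right _ _).trans ((min_le_right _ _).trans ((min_le_right _ _).trans (min_le_right _ _)))
      have := hE 0 ε (by refine ⟨?_, ?_, ?_, ?_, ?_, ?_, ?_⟩ <;> linarith)
        (by refine ⟨?_, ?_, ?_, ?_, ?_, ?_, ?_⟩ <;> linarith)
      linarith [this.2]
  · -- b = 0
    by_cases c0 : a = 0
    · exact ⟨6, by simp [va, c0], by simp [vb, ← hb]⟩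
    · by_cases c1 : a = 2 + 2 * τ + 4 * q
      · exact ⟨5, by simp [va, c1], by simp [vb, ← hb]⟩
      · exfalso
        have k1 : 0 < a := lt_of_le_of_ne g1 (Ne.symm c0)
        have k2 : a < 2 + 2 * τ + 4 * q := lt_of_le_of_ne g3 c1
        set ε := min (a / 4) (min (2 + 2 * τ + 4 * q - a) (1 / 8)) with hε
        have m1 : ε ≤ a / 4 := min_le_left _ _
        have m2 : ε ≤ 2 + 2 * τ + 4 * q - a := (min_le_right _ _).trans (min_le_left _ _)
        have m4 : ε ≤ 1 / 8 := (min_le_right _ _).trans (min_le_right _ _)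
        have m3 : 0 < ε := lt_min (by linarith) (lt_min (by linarith) (by norm_num))
        have := hE ε 0 (by refine ⟨?_, ?_, ?_, ?_, ?_, ?_, ?_⟩ <;> linarith)
          (by refine ⟨?_, ?_, ?_, ?_, ?_, ?_, ?_⟩ <;> linarith)
        linarith [this.1]

/-- from the vertices `0, …, 4` an edge leads upwards only to the next vertex -/
theorem adj {τ u q : ℝ} (h : Ok τ u q) {i j : Fin 7} (hi : i.1 ≤ 4) (hlt : vb τ u q i < vb τ u q j)
    (hF : ∀ x y : ℝ, Pg τ u q ((va τ q i + va τ q j) / 2 + x) ((vb τ u q i + vb τ u q j) / 2 + y) →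
      Pg τ u q ((va τ q i + va τ q j) / 2 - x) ((vb τ u q i + vb τ u q j) / 2 - y) →
      ∃ l : ℝ, x = l * (va τ q j - va τ q i) ∧ y = l * (vb τ u q j - vb τ u q i)) :
    i.1 < 4 ∧ j = nx i := by
  obtain ⟨h1, h2, h3, h4, h5, h6⟩ := h
  have key : (∀ s : ℝ, |s| ≤ τ / 8 → Pg τ u q ((va τ q i + va τ q j) / 2 + s) ((vb τ u q i + vb τ u q j) / 2 + 0)) →
      vb τ u q i < vb τ u q j → False := by
    intro hs hlt
    obtain ⟨l, hl1, hl2⟩ := hF (τ / 8) 0 (by simpa using hs (τ / 8) (by rw [abs_of_pos (by linarith)]))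
      (by
        have := hs (-(τ / 8)) (by rw [abs_neg, abs_of_pos (by linarith)])
        simpa [sub_eq_add_neg] using this)
    have : l = 0 := by
      rcases mul_eq_zero.1 hl2.symm with h | h
      · exact h
      · linarith
    rw [this] at hl1
    linarith
  fin_cases i <;> fin_cases j <;>
    simp only [va, vb, nx, Fin.isValue, Fin.zero_eta, Fin.mk_one, Fin.reduceFinMk,
    Matrix.cons_val, Matrix.cons_val_zero, Matrix.cons_val_one] at hi hlt key ⊢ <;>
    first
      | (exfalso; linarith)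
      | (exfalso; omega)
      | (refine ⟨?_, ?_⟩ <;> first | decide | rfl)
      | (exfalso
         refine key (fun s hs => ?_) (by linarith)
         have s1 := (abs_le.1 hs).1
         have s2 := (abs_le.1 hs).2
         refine ⟨?_, ?_, ?_, ?_, ?_, ?_, ?_⟩ <;> linarith)

end Pool.Agent.Run7.h689.GR
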