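import Pool.Agent.Run7.h689.GR1
set_option autoImplicit false
set_option linter.unusedSectionVars false

/-!
# A polygon bundle over a linear program
-/

namespace Pool.Agent.Run7.h689.GR

open Set Pool.Agent.Run7.h689.HP

section gen
variable {I J : Type} [Fintype I] [Fintype J]

/-- the slacks of the constraints `A x ≤ b`, `x ≥ 0` -/
def slack (P : LP I J) (x : J → ℝ) : I ⊕ J → ℝ
  | .inl i => P.b i - ∑ j, (P.A i j : ℝ) * x j
  | .inr j => x j

theorem feas_iff (P : LP I J) (x : J → ℝ) : x ∈ P.feasible ↔ ∀ κ, 0 ≤ slack P x κ := by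
  constructor
  · rintro ⟨h1, h2⟩ (i | j)
    · have := h2 i
      show 0 ≤ P.b i - ∑ j, (P.A i j : ℝ) * x j
      linarith
    · exact h1 j
  · intro h
    refine ⟨fun j => h (.inr j), fun i => ?_⟩
    have : 0 ≤ P.b i - ∑ j, (P.A i j : ℝ) * x j := h (.inl i)
    linarith

theorem slack_affine (P : LP I J) (x y : J → ℝ) (s t : ℝ) (h : s + t = 1) (κ : I ⊕ J) :
    slack P (s • x + t • y) κ = s * slack P x κ + t * slack P y κ := by
  rcases κ with i | j
  · simp only [slack, Pi.add_apply, Pi.smul_apply, smul_eq_mul, mul_add, Finset.sum_add_distrib]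
    have e1 : ∀ (z : J → ℝ) (r : ℝ), ∑ j, (P.A i j : ℝ) * (r * z j) = r * ∑ j, (P.A i j : ℝ) * z j := by
      intro z r
      rw [Finset.mul_sum]
      exact Finset.sum_congr rfl fun j _ => by ring
    rw [e1, e1]
    have : (P.b i : ℝ) = s * P.b i + t * P.b i := by rw [← add_mul, h, one_mul]
    linarith
  · simp [slack]

theorem feas_convex (P : LP I J) {x y : J → ℝ} (hx : x ∈ P.feasible) (hy : y ∈ P.feasible) {s t : ℝ}
    (hs : 0 ≤ s) (ht : 0 ≤ t) (h : s + t = 1) : s • x + t • y ∈ P.feasible := by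
  rw [feas_iff] at hx hy ⊢
  intro κ
  rw [slack_affine P x y s t h]
  exact add_nonneg (mul_nonneg hs (hx κ)) (mul_nonneg ht (hy κ))

/-- the ends of an edge are extreme points -/
theorem edge_ext {P : LP I J} {x y : J → ℝ} (h : P.Edge x y) : x ∈ P.feasible.extremePoints ℝ := by
  obtain ⟨hne, d, hd⟩ := h
  have hx : x ∈ segment ℝ x y := left_mem_segment ℝ x y
  have hx2 := hx
  rw [← hd] at hx2
  refine ⟨hx2.1, ?_⟩
  rintro a ha b hb ⟨α, β, hα, hβ, hαβ, hxe⟩
  have lin : ∀ (u v : J → ℝ) (s t : ℝ), ∑ j, d j * (s • u + t • v) j = s * ∑ j, d j * u j + t * ∑ j, d j * v j := by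
    intro u v s t
    rw [Finset.mul_sum, Finset.mul_sum, ← Finset.sum_add_distrib]
    apply Finset.sum_congr rfl
    intro j _
    simp only [Pi.add_apply, Pi.smul_apply, smul_eq_mul]
    ring
  have h1 := hx2.2 a ha
  have h2 := hx2.2 b hb
  have e : ∑ j, d j * x j = α * ∑ j, d j * a j + β * ∑ j, d j * b j := by rw [← hxe, lin]
  have e1 : ∑ j, d j * a j = ∑ j, d j * x j := by
    have k1 : β * ∑ j, d j * b j ≤ β * ∑ j, d j * x j := mul_le_mul_of_nonneg_left h2 hβ.le
    have k2 : α * ∑ j, d j * x j ≤ α * ∑ j, d j * a j := by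
      have : ∑ j, d j * x j = α * ∑ j, d j * x j + β * ∑ j, d j * x j := by rw [← add_mul, hαβ, one_mul]
      linarith
    exact le_antisymm h1 (le_of_mul_le_mul_left k2 hα)
  have e2 : ∑ j, d j * b j = ∑ j, d j * x j := by
    have k2 : β * ∑ j, d j * x j ≤ β * ∑ j, d j * b j := by
      have : ∑ j, d j * x j = α * ∑ j, d j * x j + β * ∑ j, d j * x j := by rw [← add_mul, hαβ, one_mul]
      rw [e1] at e
      linarith
    exact le_antisymm h2 (le_of_mul_le_mul_left k2 hβ)
  have ha' : a ∈ segment ℝ x y := by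
    rw [← hd]
    exact ⟨ha, fun w hw => by rw [e1]; exact hx2.2 w hw⟩
  have hb' : b ∈ segment ℝ x y := by
    rw [← hd]
    exact ⟨hb, fun w hw => by rw [e2]; exact hx2.2 w hw⟩
  rw [segment_eq_image'] at ha' hb'
  obtain ⟨p, hp, hpa⟩ := ha'
  obtain ⟨q, hq, hqb⟩ := hb'
  simp only at hpa hqb
  have e3 : (α * p + β * q) • (y - x) = 0 := by
    have h3 : α • a + β • b = x + (α * p + β * q) • (y - x) := by
      rw [← hpa, ← hqb]
      have e4 : (α + β) • x = x := by rw [hαβ, one_smul]
      calc α • (x + p • (y - x)) + β • (x + q • (y - x)) = (α + β) • x + (α * p + β * q) • (y - x) := by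
            module
        _ = _ := by rw [e4]
    rw [hxe] at h3
    simpa using h3
  rcases smul_eq_zero.1 e3 with e4 | e4
  · have k1 := mul_nonneg hα.le hp.1
    have k2 := mul_nonneg hβ.le hq.1
    have : α * p = 0 := by linarith
    have : p = 0 := (mul_eq_zero.1 this).resolve_left hα.ne'
    rw [← hpa, this]; simp
  · exact absurd (sub_eq_zero.1 e4).symm hne

theorem edge_symm {P : LP I J} {x y : J → ℝ} (h : P.Edge x y) : P.Edge y x := by
  obtain ⟨hne, d, hd⟩ := h
  exact ⟨hne.symm, d, by rw [hd, segment_symm]⟩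

/-- an extreme point of the feasible region is exposed -/
theorem ext_exposed {P : LP I J} {x : J → ℝ} (hx : x ∈ P.feasible.extremePoints ℝ) :
    ∃ d : J → ℝ, ∀ w ∈ P.feasible, ∑ j, d j * w j ≤ ∑ j, d j * x j ∧
      (∑ j, d j * w j = ∑ j, d j * x j → w = x) := by
  classical
  set T : Finset (I ⊕ J) := Finset.univ.filter fun κ => slack P x κ = 0 with hT
  set nv : I ⊕ J → J → ℝ := fun κ j => Sum.elim (fun i => (P.A i j : ℝ)) (fun j' => if j' = j then -1 else 0) κ with hnv
  set b0 : I ⊕ J → ℝ := Sum.elim (fun i => (P.b i : ℝ)) (fun _ => 0) with hb0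
  have hs : ∀ (w : J → ℝ) κ, slack P w κ = b0 κ - ∑ j, nv κ j * w j := by
    intro w κ
    rcases κ with i | j
    · rfl
    · simp [slack, hnv, hb0]
  refine ⟨fun j => ∑ κ ∈ T, nv κ j, fun w hw => ?_⟩
  have e : ∀ w : J → ℝ, ∑ j, (∑ κ ∈ T, nv κ j) * w j = ∑ κ ∈ T, b0 κ - ∑ κ ∈ T, slack P w κ := by
    intro w
    have : ∑ j, (∑ κ ∈ T, nv κ j) * w j = ∑ κ ∈ T, ∑ j, nv κ j * w j := by
      rw [Finset.sum_comm]
      apply Finset.sum_congr rfl
      intro j _
      rw [Finset.sum_mul]
    rw [this, ← Finset.sum_sub_distrib]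
    apply Finset.sum_congr rfl
    intro κ _
    rw [hs]; ring
  have hx0 : ∑ κ ∈ T, slack P x κ = 0 := Finset.sum_eq_zero fun κ hκ => by
    rw [hT, Finset.mem_filter] at hκ
    exact hκ.2
  have hw' := (feas_iff P w).1 hw
  have hxf := (feas_iff P x).1 hx.1
  have hw0 : 0 ≤ ∑ κ ∈ T, slack P w κ := Finset.sum_nonneg fun κ _ => hw' κ
  refine ⟨by rw [e, e, hx0]; linarith, fun he => ?_⟩
  rw [e, e, hx0] at he
  have hw1 : ∑ κ ∈ T, slack P w κ = 0 := by linarith
  rw [Finset.sum_eq_zero_iff_of_nonneg fun κ _ => hw' κ] at hw1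
  by_contra hne
  -- move beyond x
  obtain ⟨ε, hε, hε1⟩ : ∃ ε : ℝ, 0 < ε ∧ ∀ κ, 0 ≤ (1 + ε) * slack P x κ - ε * slack P w κ := by
    have hfin : ∃ ε : ℝ, 0 < ε ∧ ∀ κ ∈ Finset.univ \ T, ε * slack P w κ ≤ slack P x κ := by
      induction (Finset.univ \ T : Finset (I ⊕ J)) using Finset.induction_on with
      | empty => exact ⟨1, one_pos, by simp⟩
      | insert κ F hκ ih =>
        obtain ⟨ε, hε, h⟩ := ih
        by_cases hκT : slack P x κ = 0
        · by_cases hκw : slack P w κ = 0
          · refine ⟨ε, hε, ?_⟩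
            intro κ' hκ'
            rcases Finset.mem_insert.1 hκ' with h1 | h1
            · rw [h1, hκw, hκT]; simp
            · exact h κ' h1
          · exact absurd (hw1 κ (by rw [hT, Finset.mem_filter]; exact ⟨Finset.mem_univ _, hκT⟩)) hκw
        · have hpos : 0 < slack P x κ := lt_of_le_of_ne (hxf κ) (Ne.symm hκT)
          refine ⟨min ε (slack P x κ / (slack P w κ + 1)), lt_min hε (div_pos hpos (by linarith [hw' κ])), ?_⟩
          intro κ' hκ'
          rcases Finset.mem_insert.1 hκ' with h1 | h1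
          · rw [h1]
            have h2 : 0 < slack P w κ + 1 := by linarith [hw' κ]
            calc min ε (slack P x κ / (slack P w κ + 1)) * slack P w κ
                ≤ (slack P x κ / (slack P w κ + 1)) * slack P w κ :=
                  mul_le_mul_of_nonneg_right (min_le_right _ _) (hw' κ)
              _ ≤ (slack P x κ / (slack P w κ + 1)) * (slack P w κ + 1) :=
                  mul_le_mul_of_nonneg_left (by linarith) (div_nonneg hpos.le h2.le)
              _ = slack P x κ := div_mul_cancel₀ _ h2.ne'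
          · exact (mul_le_mul_of_nonneg_right (min_le_left _ _) (hw' κ')).trans (h κ' h1)
    obtain ⟨ε, hε, h⟩ := hfin
    refine ⟨ε, hε, fun κ => ?_⟩
    by_cases hκ : κ ∈ T
    · rw [hw1 κ hκ, mul_zero, sub_zero]
      exact mul_nonneg (by linarith) (hxf κ)
    · have := h κ (by simp [hκ])
      have := hxf κ
      nlinarith [mul_nonneg hε.le (hxf κ)]
  set v : J → ℝ := (1 + ε) • x + (-ε) • w with hv
  have hvf : v ∈ P.feasible := by
    rw [feas_iff]
    intro κ
    rw [hv, slack_affine P x w _ _ (by ring)]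
    have := hε1 κ
    linarith
  have hcomb : (1 / (1 + ε)) • v + (ε / (1 + ε)) • w = x := by
    rw [hv, smul_add, smul_smul, smul_smul, add_assoc, ← add_smul]
    have e1 : 1 / (1 + ε) * (1 + ε) = 1 := by field_simp
    have e2 : 1 / (1 + ε) * -ε + ε / (1 + ε) = 0 := by field_simp; ring
    rw [e1, e2, one_smul, zero_smul, add_zero]
  have h1 : v = x := hx.2 hvf hw ⟨1 / (1 + ε), ε / (1 + ε), by positivity, by positivity, by field_simp, hcomb⟩
  apply hne
  have h2 : ε • (x - w) = 0 := by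
    have : v - x = ε • (x - w) := by rw [hv]; module
    rw [← this, h1, sub_self]
  rcases smul_eq_zero.1 h2 with h3 | h3
  · exact absurd h3 hε.ne'
  · exact (sub_eq_zero.1 h3).symm

end gen

section
variable {I J : Type} [Fintype I] [Fintype J]

/-- the new linear program: a polygon over every point -/
def ext (P : LP I J) (q : J → ℤ) (lam th : ℤ) : LP (I ⊕ Fin 5) (J ⊕ Fin 2) where
  A
  | .inl i, .inl j => P.A i j
  | .inl _, .inr _ => 0
  | .inr k, .inl j => (![-4, 0, 0, 2, 4] : Fin 5 → ℤ) k * q j - (![0, 1, 1, 1, 1] : Fin 5 → ℤ) k * (lam * P.c j)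
  | .inr k, .inr l => if l = 0 then (![1, -4, -3, -2, -1] : Fin 5 → ℤ) k
      else (![0, 1, 1, 1, 1] : Fin 5 → ℤ) k * (128 * lam)
  b
  | .inl i => P.b i
  | .inr k => (![2, 1, 1, 2, 3] : Fin 5 → ℤ) k * (128 * lam) + (![2, 0, 1, 2, 4] : Fin 5 → ℤ) k * th
  c
  | .inl _ => 0
  | .inr l => if l = 0 then 0 else 1

/-- the point with polygon coordinates `a`, `b` over `x` -/
noncomputable def pk (La : ℝ) (x : J → ℝ) (a b : ℝ) : J ⊕ Fin 2 → ℝ := Sum.elim x ![La * a, b]

/-- the parameters of the polygon over `x` -/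
noncomputable def uu (P : LP I J) (x : J → ℝ) : ℝ := P.value x / 128
noncomputable def qv (q : J → ℤ) (La : ℝ) (x : J → ℝ) : ℝ := (∑ j, (q j : ℝ) * x j) / La

/-- the slacks of the polygon constraints -/
noncomputable def ps (La τ u q a b : ℝ) : Fin 5 → ℝ :=
  ![La * (2 + 2 * τ + 4 * q - a), La * (4 * a + (1 + u) - b), La * (3 * a + (1 + τ + u) - b),
    La * (2 * a + (2 + 2 * τ + u - 2 * q) - b), La * (a + (3 + 4 * τ + u - 4 * q) - b)]

variable {P : LP I J} {q : J → ℤ} {lam th : ℤ}

theorem slack_inner (La : ℝ) (x : J → ℝ) (a b : ℝ) (i : I) :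
    slack (ext P q lam th) (pk La x a b) (.inl (.inl i)) = slack P x (.inl i) := by
  simp only [slack, ext, pk]
  rw [Fintype.sum_sum_type]
  simp

theorem slack_inner' (La : ℝ) (x : J → ℝ) (a b : ℝ) (j : J) :
    slack (ext P q lam th) (pk La x a b) (.inr (.inl j)) = slack P x (.inr j) := rfl

theorem slack_a (La : ℝ) (x : J → ℝ) (a b : ℝ) :
    slack (ext P q lam th) (pk La x a b) (.inr (.inr 0)) = La * a := rfl

theorem slack_b (La : ℝ) (x : J → ℝ) (a b : ℝ) :
    slack (ext P q lam th) (pk La x a b) (.inr (.inr 1)) = b := rfl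

theorem slack_row {La : ℝ} (hLa : La = 128 * lam) (h0 : La ≠ 0) (x : J → ℝ) (a b : ℝ) (k : Fin 5) :
    slack (ext P q lam th) (pk La x a b) (.inl (.inr k)) =
      ps La (th / La) (uu P x) (qv q La x) a b k := by
  have e1 : (∑ j, (q j : ℝ) * x j) = La * qv q La x := by
    unfold qv; field_simp
  have e2 : (∑ j, (P.c j : ℝ) * x j) = 128 * uu P x := by
    have : P.value x = ∑ j, (P.c j : ℝ) * x j := rfl
    rw [← this]; unfold uu; ring
  have e3 : (th : ℝ) = La * (th / La) := by field_simp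
  have e4 : ∀ s t : ℤ, ∑ j, ((s * q j - t * (lam * P.c j) : ℤ) : ℝ) * x j =
      s * (La * qv q La x) - t * (lam * (128 * uu P x)) := by
    intro s t
    rw [← e1, ← e2, Finset.mul_sum, Finset.mul_sum, Finset.mul_sum, ← Finset.sum_sub_distrib]
    apply Finset.sum_congr rfl
    intro j _
    push_cast
    ring
  have e5 : (lam : ℝ) * 128 = La := by rw [hLa]; ring
  simp only [slack]
  rw [Fintype.sum_sum_type, Fin.sum_univ_two]
  simp only [ext, pk, Sum.elim_inl, Sum.elim_inr]
  rw [e4]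
  set U := uu P x
  set Q := qv q La x
  have e6 : (lam : ℝ) = La / 128 := by rw [hLa]; ring
  fin_cases k <;> simp only [ps, Fin.isValue, Fin.zero_eta, Fin.mk_one, Fin.reduceFinMk,
    Matrix.cons_val, Matrix.cons_val_zero, Matrix.cons_val_one, if_true, Int.cast_add, Int.cast_mul,
    Int.cast_ofNat, Int.cast_one, Int.cast_zero, Int.cast_neg, one_ne_zero, if_false, e6] <;>
    (conv_lhs => rw [e3]) <;> ring

theorem pk_eq {La : ℝ} (h0 : La ≠ 0) (w : J ⊕ Fin 2 → ℝ) :
    w = pk La (fun j => w (.inl j)) (w (.inr 0) / La) (w (.inr 1)) := by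
  funext c
  rcases c with j | l
  · rfl
  · fin_cases l
    · simp only [pk, Sum.elim_inr, Fin.zero_eta, Fin.isValue, Matrix.cons_val_zero]
      field_simp
    · rfl

theorem mem_ext {La : ℝ} (hLa : La = 128 * lam) (h0 : 0 < La) (x : J → ℝ) (a b : ℝ) :
    pk La x a b ∈ (ext P q lam th).feasible ↔
      x ∈ P.feasible ∧ Pg (th / La) (uu P x) (qv q La x) a b := by
  have hr := fun k => slack_row (P := P) (q := q) (th := th) hLa h0.ne' x a b k
  rw [feas_iff, feas_iff]
  constructor
  · intro h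
    refine ⟨?_, ?_⟩
    · rintro (i | j)
      · have := h (.inl (.inl i))
        rwa [slack_inner] at this
      · exact h (.inr (.inl j))
    · have g0 : 0 ≤ La * a := h (.inr (.inr 0))
      have g1 : 0 ≤ b := h (.inr (.inr 1))
      have k0 := h (.inl (.inr 0))
      have k1 := h (.inl (.inr 1))
      have k2 := h (.inl (.inr 2))
      have k3 := h (.inl (.inr 3))
      have k4 := h (.inl (.inr 4))
      rw [hr] at k0 k1 k2 k3 k4
      simp only [ps, Fin.isValue, Matrix.cons_val, Matrix.cons_val_zero, Matrix.cons_val_one] at k0 k1 k2 k3 k4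
      have f : ∀ t : ℝ, 0 ≤ La * t → 0 ≤ t := fun t ht => (mul_nonneg_iff_of_pos_left h0).1 ht
      have k0 := f _ k0
      have k1 := f _ k1
      have k2 := f _ k2
      have k3 := f _ k3
      have k4 := f _ k4
      exact ⟨f _ g0, g1, by linarith, by linarith, by linarith, by linarith, by linarith⟩
  · rintro ⟨hx, g1, g2, g3, g4, g5, g6, g7⟩
    rintro ((i | k) | (j | l))
    · rw [slack_inner]; exact hx _
    · rw [hr]
      fin_cases k <;> simp only [ps, Fin.isValue, Fin.zero_eta, Fin.mk_one, Fin.reduceFinMk,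
        Matrix.cons_val, Matrix.cons_val_zero, Matrix.cons_val_one] <;>
        exact mul_nonneg h0.le (by linarith)
    · exact hx (.inr j)
    · fin_cases l
      · exact mul_nonneg h0.le g1
      · exact g2

end

end Pool.Agent.Run7.h689.GR
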