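import Pool.Agent.Run7.h689.GR2
set_option autoImplicit false
set_option linter.unusedSectionVars false

/-!
# The vertices and the edges of the polygon bundle
-/

namespace Pool.Agent.Run7.h689.GR

open Set Pool.Agent.Run7.h689.HP

theorem va_affine (τ q q' s t : ℝ) (h : s + t = 1) (i : Fin 7) :
    va τ (s * q + t * q') i = s * va τ q i + t * va τ q' i := by
  have ht : t = 1 - s := by linarith
  subst ht
  fin_cases i <;> simp only [va, Fin.isValue, Fin.zero_eta, Fin.mk_one, Fin.reduceFinMk,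
    Matrix.cons_val, Matrix.cons_val_zero, Matrix.cons_val_one] <;> ring

theorem vb_affine (τ u u' q q' s t : ℝ) (h : s + t = 1) (i : Fin 7) :
    vb τ (s * u + t * u') (s * q + t * q') i = s * vb τ u q i + t * vb τ u' q' i := by
  have ht : t = 1 - s := by linarith
  subst ht
  fin_cases i <;> simp only [vb, Fin.isValue, Fin.zero_eta, Fin.mk_one, Fin.reduceFinMk,
    Matrix.cons_val, Matrix.cons_val_zero, Matrix.cons_val_one] <;> ring

section
variable {I J : Type} [Fintype I] [Fintype J]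

theorem value_affine (P : LP I J) (x y : J → ℝ) (s t : ℝ) :
    P.value (s • x + t • y) = s * P.value x + t * P.value y := by
  unfold LP.value
  rw [Finset.mul_sum, Finset.mul_sum, ← Finset.sum_add_distrib]
  apply Finset.sum_congr rfl
  intro j _
  simp only [Pi.add_apply, Pi.smul_apply, smul_eq_mul]
  ring

theorem uu_affine (P : LP I J) (x y : J → ℝ) (s t : ℝ) :
    uu P (s • x + t • y) = s * uu P x + t * uu P y := by
  unfold uu
  rw [value_affine]; ring

theorem qv_affine (q : J → ℤ) (La : ℝ) (x y : J → ℝ) (s t : ℝ) :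
    qv q La (s • x + t • y) = s * qv q La x + t * qv q La y := by
  unfold qv
  have : ∑ j, (q j : ℝ) * (s • x + t • y) j = s * ∑ j, (q j : ℝ) * x j + t * ∑ j, (q j : ℝ) * y j := by
    rw [Finset.mul_sum, Finset.mul_sum, ← Finset.sum_add_distrib]
    apply Finset.sum_congr rfl
    intro j _
    simp only [Pi.add_apply, Pi.smul_apply, smul_eq_mul]
    ring
  rw [this]; ring

/-- the `i`-th vertex of the polygon over `x` -/
noncomputable def lift (P : LP I J) (q : J → ℤ) (La : ℝ) (th : ℤ) (i : Fin 7) (x : J → ℝ) : J ⊕ Fin 2 → ℝ :=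
  pk La x (va (th / La) (qv q La x) i) (vb (th / La) (uu P x) (qv q La x) i)

/-- the assumptions on the data -/
structure Good (P : LP I J) (q : J → ℤ) (lam th : ℤ) (La : ℝ) : Prop where
  hLa : La = 128 * lam
  pos : 0 < La
  ok : ∀ x ∈ P.feasible, Ok (th / La) (uu P x) (qv q La x)

variable {P : LP I J} {q : J → ℤ} {lam th : ℤ} {La : ℝ}

theorem lift_mem (G : Good P q lam th La) (i : Fin 7) {x : J → ℝ} (hx : x ∈ P.feasible) :
    lift P q La th i x ∈ (ext P q lam th).feasible :=
  (mem_ext G.hLa G.pos _ _ _).2 ⟨hx, vx_mem (G.ok x hx) i⟩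

theorem lift_affine (i : Fin 7) (x y : J → ℝ) (s t : ℝ) (h : s + t = 1) :
    lift P q La th i (s • x + t • y) = s • lift P q La th i x + t • lift P q La th i y := by
  unfold lift
  rw [uu_affine, qv_affine, va_affine _ _ _ _ _ h, vb_affine _ _ _ _ _ _ _ h]
  funext c
  rcases c with j | l
  · rfl
  · fin_cases l
    · simp only [pk, Sum.elim_inr, Pi.add_apply, Pi.smul_apply, Fin.zero_eta, Fin.isValue,
        Matrix.cons_val_zero, smul_eq_mul]
      ring
    · simp only [pk, Sum.elim_inr, Pi.add_apply, Pi.smul_apply, Fin.mk_one, Fin.isValue,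
        Matrix.cons_val_one, Matrix.cons_val_zero, smul_eq_mul]

theorem lift_fst (i : Fin 7) (x : J → ℝ) : (fun j => lift P q La th i x (.inl j)) = x := rfl

theorem lift_inj {i : Fin 7} {x y : J → ℝ} (h : lift P q La th i x = lift P q La th i y) : x = y := by
  rw [← lift_fst (P := P) (q := q) (La := La) (th := th) i x, h]
  rfl

/-- functionals on the bundle -/
theorem fun_ext (d : J → ℝ) (p r : ℝ) (La : ℝ) (h0 : La ≠ 0) (x : J → ℝ) (a b : ℝ) :
    ∑ c, (Sum.elim d ![p / La, r] : J ⊕ Fin 2 → ℝ) c * pk La x a b c =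
      ∑ j, d j * x j + (p * a + r * b) := by
  rw [Fintype.sum_sum_type, Fin.sum_univ_two]
  simp only [pk, Sum.elim_inl, Sum.elim_inr, Fin.isValue, Matrix.cons_val_zero, Matrix.cons_val_one]
  field_simp

/-- `p * va + r * vb` as an affine function -/
theorem vval (P : LP I J) (q : J → ℤ) (La : ℝ) (th : ℤ) (i : Fin 7) (p r : ℝ) :
    ∃ (m : J → ℝ) (m0 : ℝ), ∀ x : J → ℝ,
      p * va (th / La) (qv q La x) i + r * vb (th / La) (uu P x) (qv q La x) i = m0 + ∑ j, m j * x j := by
  obtain ⟨A0, A1, hA⟩ : ∃ A0 A1 : ℝ, ∀ q, va (th / La) q i = A0 + A1 * q := by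
    refine ⟨va (th / La) 0 i, va (th / La) 1 i - va (th / La) 0 i, fun q => ?_⟩
    have := va_affine (th / La) 1 0 q (1 - q) (by ring) i
    rw [show q * 1 + (1 - q) * 0 = q by ring] at this
    rw [this]; ring
  obtain ⟨B0, B1, B2, hB⟩ : ∃ B0 B1 B2 : ℝ, ∀ u q, vb (th / La) u q i = B0 + B1 * u + B2 * q := by
    refine ⟨vb (th / La) 0 0 i, vb (th / La) 1 0 i - vb (th / La) 0 0 i,
      vb (th / La) 0 1 i - vb (th / La) 0 0 i, fun u q => ?_⟩
    fin_cases i <;> simp only [vb, Fin.isValue, Fin.zero_eta, Fin.mk_one, Fin.reduceFinMk,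
      Matrix.cons_val, Matrix.cons_val_zero, Matrix.cons_val_one] <;> ring
  refine ⟨fun j => (p * A1 + r * B2) * (q j / La) + r * B1 * (P.c j / 128), p * A0 + r * B0, fun x => ?_⟩
  rw [hA, hB]
  have e1 : ∑ j, ((p * A1 + r * B2) * (q j / La) + r * B1 * (P.c j / 128)) * x j =
      (p * A1 + r * B2) * qv q La x + r * B1 * uu P x := by
    unfold qv uu LP.value
    rw [Finset.sum_div, Finset.sum_div, Finset.mul_sum, Finset.mul_sum, ← Finset.sum_add_distrib]
    apply Finset.sum_congr rfl
    intro j _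
    ring
  rw [e1]; ring

theorem pk_inj {x x' : J → ℝ} {a b a' b' : ℝ} (h0 : La ≠ 0) (h : pk La x a b = pk La x' a' b') :
    x = x' ∧ a = a' ∧ b = b' := by
  refine ⟨?_, ?_, ?_⟩
  · funext j
    exact congrFun h (.inl j)
  · have := congrFun h (.inr 0)
    have h2 : La * a = La * a' := this
    exact mul_left_cancel₀ h0 h2
  · exact congrFun h (.inr 1)

theorem pk_add (x v : J → ℝ) (a b a' b' : ℝ) (s : ℝ) :
    pk La x a b + s • (pk La v a' b' - pk La x a b) = pk La (x + s • (v - x)) (a + s * (a' - a)) (b + s * (b' - b)) := by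
  funext c
  rcases c with j | l
  · rfl
  · fin_cases l
    · simp only [pk, Sum.elim_inr, Pi.add_apply, Pi.smul_apply, Pi.sub_apply, Fin.zero_eta, Fin.isValue,
        Matrix.cons_val_zero, smul_eq_mul]
      ring
    · simp only [pk, Sum.elim_inr, Pi.add_apply, Pi.smul_apply, Pi.sub_apply, Fin.mk_one, Fin.isValue,
        Matrix.cons_val_one, Matrix.cons_val_zero, smul_eq_mul]

/-- horizontal edges -/
theorem edge_lift (G : Good P q lam th La) (i : Fin 7) {x y : J → ℝ} (h : P.Edge x y) :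
    (ext P q lam th).Edge (lift P q La th i x) (lift P q La th i y) := by
  have hxy := edge_mem h
  obtain ⟨hne, d, hd⟩ := h
  obtain ⟨m, m0, hm⟩ := vval P q La th i (pe i) (qe i)
  refine ⟨fun he => hne (lift_inj he), Sum.elim (fun j => d j - m j) ![pe i / La, qe i], ?_⟩
  have hval : ∀ (z : J → ℝ) (a b : ℝ), ∑ c, (Sum.elim (fun j => d j - m j) ![pe i / La, qe i] : J ⊕ Fin 2 → ℝ) c * pk La z a b c =
      ∑ j, d j * z j + m0 + (pe i * a + qe i * b -
        (pe i * va (th / La) (qv q La z) i + qe i * vb (th / La) (uu P z) (qv q La z) i)) := by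
    intro z a b
    rw [fun_ext _ _ _ _ G.pos.ne', hm]
    simp only [sub_mul, Finset.sum_sub_distrib]
    ring
  have hx : x ∈ segment ℝ x y := left_mem_segment ℝ x y
  rw [← hd] at hx
  ext w
  simp only [mem_ofPred_eq]
  constructor
  · rintro ⟨hw, hmax⟩
    rw [pk_eq G.pos.ne' w] at hw hmax ⊢
    set z : J → ℝ := fun j => w (.inl j)
    set a := w (.inr 0) / La
    set b := w (.inr 1)
    obtain ⟨hz, hp⟩ := (mem_ext G.hLa G.pos _ _ _).1 hw
    have h1 := hmax _ (lift_mem G i hx.1)
    unfold lift at h1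
    rw [hval, hval] at h1
    have h2 := hx.2 z hz
    have h3 := expose_v (G.ok z hz) hp i
    have h4 : ∑ j, d j * z j = ∑ j, d j * x j := by linarith [h3.1]
    have h5 := h3.2 (by linarith [h3.1])
    have h6 : z ∈ segment ℝ x y := by
      rw [← hd]
      exact ⟨hz, fun v hv => by rw [h4]; exact hx.2 v hv⟩
    rw [h5.1, h5.2]
    obtain ⟨s, t, hs, ht, hst, hz2⟩ := h6
    refine ⟨s, t, hs, ht, hst, ?_⟩
    rw [← lift_affine i x y s t hst, hz2]
    rfl
  · rintro ⟨s, t, hs, ht, hst, rfl⟩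
    rw [← lift_affine i x y s t hst]
    have h6 : s • x + t • y ∈ segment ℝ x y := ⟨s, t, hs, ht, hst, rfl⟩
    rw [← hd] at h6
    refine ⟨lift_mem G i h6.1, fun w hw => ?_⟩
    rw [pk_eq G.pos.ne' w] at hw ⊢
    obtain ⟨hz, hp⟩ := (mem_ext G.hLa G.pos _ _ _).1 hw
    unfold lift
    rw [hval, hval]
    have h3 := (expose_v (G.ok _ hz) hp i).1
    have h2 := h6.2 _ hz
    linarith

/-- vertical edges -/
theorem edge_vert (G : Good P q lam th La) (i : Fin 7) {x : J → ℝ} (h : x ∈ P.feasible.extremePoints ℝ)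
    (hne : lift P q La th i x ≠ lift P q La th (nx i) x) :
    (ext P q lam th).Edge (lift P q La th i x) (lift P q La th (nx i) x) := by
  obtain ⟨d, hd⟩ := ext_exposed h
  obtain ⟨m, m0, hm⟩ := vval P q La th i (pf i) (qf i)
  refine ⟨hne, Sum.elim (fun j => d j - m j) ![pf i / La, qf i], ?_⟩
  have hval : ∀ (z : J → ℝ) (a b : ℝ), ∑ c, (Sum.elim (fun j => d j - m j) ![pf i / La, qf i] : J ⊕ Fin 2 → ℝ) c * pk La z a b c =
      ∑ j, d j * z j + m0 + (pf i * a + qf i * b -
        (pf i * va (th / La) (qv q La z) i + qf i * vb (th / La) (uu P z) (qv q La z) i)) := by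
    intro z a b
    rw [fun_ext _ _ _ _ G.pos.ne', hm]
    simp only [sub_mul, Finset.sum_sub_distrib]
    ring
  rw [segment_eq_image']
  ext w
  simp only [mem_ofPred_eq, mem_image]
  constructor
  · rintro ⟨hw, hmax⟩
    rw [pk_eq G.pos.ne' w] at hw hmax ⊢
    set z : J → ℝ := fun j => w (.inl j)
    set a := w (.inr 0) / La
    set b := w (.inr 1)
    obtain ⟨hz, hp⟩ := (mem_ext G.hLa G.pos _ _ _).1 hw
    have h1 := hmax _ (lift_mem G i h.1)
    unfold lift at h1
    rw [hval, hval] at h1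
    have h2 := hd z hz
    have h3 := expose_e (G.ok z hz) hp i
    have h4 : ∑ j, d j * z j = ∑ j, d j * x j := by linarith [h3.1, h2.1]
    have hzx : z = x := h2.2 h4
    obtain ⟨θ, hθ0, hθ1, ha, hb⟩ := h3.2.2 (by linarith [h3.1, h2.1])
    refine ⟨θ, ⟨hθ0, hθ1⟩, ?_⟩
    unfold lift
    rw [pk_add, sub_self, smul_zero, add_zero, ← hzx, ← ha, ← hb]
  · rintro ⟨θ, ⟨hθ0, hθ1⟩, rfl⟩
    have e : lift P q La th i x + θ • (lift P q La th (nx i) x - lift P q La th i x) =
        pk La x (va (th / La) (qv q La x) i + θ * (va (th / La) (qv q La x) (nx i) - va (th / La) (qv q La x) i))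
        (vb (th / La) (uu P x) (qv q La x) i + θ * (vb (th / La) (uu P x) (qv q La x) (nx i) - vb (th / La) (uu P x) (qv q La x) i)) := by
      unfold lift
      rw [pk_add, sub_self, smul_zero, add_zero]
    refine ⟨?_, fun w hw => ?_⟩
    · have h1 := lift_mem G i h.1
      have h2 := lift_mem G (nx i) h.1
      have h3 := feas_convex _ h1 h2 (by linarith : 0 ≤ 1 - θ) hθ0 (by ring)
      convert h3 using 1
      module
    · rw [e]
      rw [pk_eq G.pos.ne' w] at hw ⊢
      obtain ⟨hz, hp⟩ := (mem_ext G.hLa G.pos _ _ _).1 hw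
      rw [hval, hval]
      have h3 := (expose_e (G.ok _ hz) hp i).1
      have h4 := (expose_e (G.ok x h.1) (vx_mem (G.ok x h.1) i) i).2.1
      have h2 := (hd _ hz).1
      have h5 : pf i * (va (th / La) (qv q La x) i + θ * (va (th / La) (qv q La x) (nx i) - va (th / La) (qv q La x) i)) +
        qf i * (vb (th / La) (uu P x) (qv q La x) i + θ * (vb (th / La) (uu P x) (qv q La x) (nx i) - vb (th / La) (uu P x) (qv q La x) i)) =
        pf i * va (th / La) (qv q La x) i + qf i * vb (th / La) (uu P x) (qv q La x) i := by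
        have : pf i * (va (th / La) (qv q La x) (nx i) - va (th / La) (qv q La x) i) +
          qf i * (vb (th / La) (uu P x) (qv q La x) (nx i) - vb (th / La) (uu P x) (qv q La x) i) = 0 := by linarith
        linear_combination θ * this
      linarith

/-- the extreme points of the bundle -/
theorem ext_cases (G : Good P q lam th La) {w : J ⊕ Fin 2 → ℝ} (h : w ∈ (ext P q lam th).feasible.extremePoints ℝ) :
    ∃ i x, x ∈ P.feasible.extremePoints ℝ ∧ w = lift P q La th i x := by
  have hw := h.1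
  set z : J → ℝ := fun j => w (.inl j) with hz
  set a := w (.inr 0) / La with ha
  set b := w (.inr 1) with hb
  have hwe : w = pk La z a b := pk_eq G.pos.ne' w
  rw [hwe] at hw
  obtain ⟨hzP, hp⟩ := (mem_ext G.hLa G.pos _ _ _).1 hw
  obtain ⟨i, hi1, hi2⟩ := vertex_of (G.ok z hzP) hp (by
    intro s t h1 h2
    have m1 := (mem_ext (q := q) (th := th) G.hLa G.pos z (a + s) (b + t)).2 ⟨hzP, h1⟩
    have m2 := (mem_ext (q := q) (th := th) G.hLa G.pos z (a - s) (b - t)).2 ⟨hzP, h2⟩
    have h3 := h.2 m1 m2 ⟨1 / 2, 1 / 2, by norm_num, by norm_num, by norm_num, by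
      rw [hwe]
      funext c
      rcases c with j | l
      · simp only [pk, Pi.add_apply, Pi.smul_apply, Sum.elim_inl, smul_eq_mul]; ring
      · fin_cases l
        · simp only [pk, Sum.elim_inr, Pi.add_apply, Pi.smul_apply, Fin.zero_eta, Fin.isValue,
            Matrix.cons_val_zero, smul_eq_mul]
          ring
        · simp only [pk, Sum.elim_inr, Pi.add_apply, Pi.smul_apply, Fin.mk_one, Fin.isValue,
            Matrix.cons_val_one, Matrix.cons_val_zero, smul_eq_mul]
          ring⟩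
    rw [hwe] at h3
    obtain ⟨-, h4, h5⟩ := pk_inj G.pos.ne' h3
    constructor <;> linarith)
  refine ⟨i, z, ⟨hzP, ?_⟩, ?_⟩
  · rintro x hx y hy ⟨s, t, hs, ht, hst, he⟩
    have h3 := h.2 (lift_mem (th := th) G i hx) (lift_mem G i hy) ⟨s, t, hs, ht, hst, by
      rw [← lift_affine i x y s t hst, he, hwe, hi1, hi2]; rfl⟩
    rw [← lift_fst (P := P) (q := q) (La := La) (th := th) i x, h3]
  · rw [hwe, hi1, hi2]; rfl

/-- the edges of the bundle are horizontal or vertical -/
theorem edge_cases (G : Good P q lam th La) {w w' : J ⊕ Fin 2 → ℝ} (h : (ext P q lam th).Edge w w') :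
    (∃ i x y, P.Edge x y ∧ w = lift P q La th i x ∧ w' = lift P q La th i y) ∨
    ∃ i j x, x ∈ P.feasible.extremePoints ℝ ∧ w = lift P q La th i x ∧ w' = lift P q La th j x := by
  obtain ⟨i, x, hx, hw⟩ := ext_cases G (edge_ext h)
  obtain ⟨j, y, hy, hw'⟩ := ext_cases G (edge_ext (edge_symm h))
  by_cases hxy : x = y
  · right
    exact ⟨i, j, x, hx, hw, by rw [hxy]; exact hw'⟩
  left
  -- the midpoint
  set z : J → ℝ := (1 / 2 : ℝ) • x + (1 / 2 : ℝ) • y with hz
  have hzP : z ∈ P.feasible := feas_convex P hx.1 hy.1 (by norm_num) (by norm_num) (by norm_num)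
  have hwf := lift_mem (th := th) G i hx.1
  have hwf' := lift_mem (th := th) G j hy.1
  set a := (1 / 2 : ℝ) * va (th / La) (qv q La x) i + (1 / 2 : ℝ) * va (th / La) (qv q La y) j with ha
  set b := (1 / 2 : ℝ) * vb (th / La) (uu P x) (qv q La x) i + (1 / 2 : ℝ) * vb (th / La) (uu P y) (qv q La y) j with hb
  have hmid : (1 / 2 : ℝ) • w + (1 / 2 : ℝ) • w' = pk La z a b := by
    rw [hw, hw']
    funext c
    rcases c with j | l
    · rfl
    · fin_cases l
      · simp only [lift, pk, Sum.elim_inr, Pi.add_apply, Pi.smul_apply, Fin.zero_eta, Fin.isValue,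
          Matrix.cons_val_zero, smul_eq_mul, ha]
        ring
      · simp only [lift, pk, Sum.elim_inr, Pi.add_apply, Pi.smul_apply, Fin.mk_one, Fin.isValue,
          Matrix.cons_val_one, Matrix.cons_val_zero, smul_eq_mul, hb]
  have hmidP : pk La z a b ∈ (ext P q lam th).feasible := by
    rw [← hmid, hw, hw']
    exact feas_convex _ hwf hwf' (by norm_num) (by norm_num) (by norm_num)
  obtain ⟨-, hp⟩ := (mem_ext G.hLa G.pos _ _ _).1 hmidP
  obtain ⟨k, hk1, hk2⟩ := vertex_of (G.ok z hzP) hp (by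
    intro s t h1 h2
    have m1 := (mem_ext (q := q) (th := th) G.hLa G.pos z (a + s) (b + t)).2 ⟨hzP, h1⟩
    have m2 := (mem_ext (q := q) (th := th) G.hLa G.pos z (a - s) (b - t)).2 ⟨hzP, h2⟩
    have hsum : pk La z (a + s) (b + t) + pk La z (a - s) (b - t) = w + w' := by
      have e : w + w' = (2 : ℝ) • pk La z a b := by rw [← hmid]; module
      rw [e]
      funext c
      rcases c with j | l
      · simp only [pk, Pi.add_apply, Pi.smul_apply, Sum.elim_inl, smul_eq_mul]; ring
      · fin_cases l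
        · simp only [pk, Sum.elim_inr, Pi.add_apply, Pi.smul_apply, Fin.zero_eta, Fin.isValue,
            Matrix.cons_val_zero, smul_eq_mul]
          ring
        · simp only [pk, Sum.elim_inr, Pi.add_apply, Pi.smul_apply, Fin.mk_one, Fin.isValue,
            Matrix.cons_val_one, Matrix.cons_val_zero, smul_eq_mul]
          ring
    have h3 := edge_mid h m1 m2 hsum
    rw [segment_eq_image'] at h3
    obtain ⟨θ, -, hθ⟩ := h3
    simp only at hθ
    rw [hw, hw'] at hθ
    unfold lift at hθ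
    rw [pk_add] at hθ
    obtain ⟨e1, e2, e3⟩ := pk_inj G.pos.ne' hθ
    have hθ2 : θ = 1 / 2 := by
      have : (θ - 1 / 2) • (y - x) = 0 := by
        have e4 : x + θ • (y - x) - z = 0 := by rw [e1, sub_self]
        rw [hz] at e4
        rw [← e4]; module
      rcases smul_eq_zero.1 this with h | h
      · linarith
      · exact absurd (sub_eq_zero.1 h).symm hxy
    rw [hθ2] at e2 e3
    constructor <;> linarith)
  have hz2 : uu P z = (1 / 2 : ℝ) * uu P x + (1 / 2 : ℝ) * uu P y := uu_affine P x y _ _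
  have hz3 : qv q La z = (1 / 2 : ℝ) * qv q La x + (1 / 2 : ℝ) * qv q La y := qv_affine q La x y _ _
  rw [hz3, va_affine _ _ _ _ _ (by norm_num)] at hk1
  rw [hz2, hz3, vb_affine _ _ _ _ _ _ _ (by norm_num)] at hk2
  have f1 := expose_v (G.ok x hx.1) (vx_mem (G.ok x hx.1) i) k
  have f2 := expose_v (G.ok y hy.1) (vx_mem (G.ok y hy.1) j) k
  have f3 : pe k * a + qe k * b = (1 / 2) * (pe k * va (th / La) (qv q La x) k + qe k * vb (th / La) (uu P x) (qv q La x) k) +
      (1 / 2) * (pe k * va (th / La) (qv q La y) k + qe k * vb (th / La) (uu P y) (qv q La y) k) := by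
    rw [hk1, hk2]; ring
  have f4 : pe k * a + qe k * b = (1 / 2) * (pe k * va (th / La) (qv q La x) i + qe k * vb (th / La) (uu P x) (qv q La x) i) +
      (1 / 2) * (pe k * va (th / La) (qv q La y) j + qe k * vb (th / La) (uu P y) (qv q La y) j) := by
    rw [ha, hb]; ring
  have g1 := f1.2 (by linarith [f1.1, f2.1])
  have g2 := f2.2 (by linarith [f1.1, f2.1])
  have hw2 : w = lift P q La th k x := by rw [hw]; unfold lift; rw [g1.1, g1.2]
  have hw2' : w' = lift P q La th k y := by rw [hw']; unfold lift; rw [g2.1, g2.2]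
  refine ⟨k, x, y, ⟨hxy, ?_⟩, hw2, hw2'⟩
  obtain ⟨-, D, hD⟩ := h
  -- the functional
  obtain ⟨m, m0, hm⟩ := vval P q La th k (D (.inr 0) * La) (D (.inr 1))
  have hval : ∀ v : J → ℝ, ∑ c, D c * lift P q La th k v c = ∑ j, (D (.inl j) + m j) * v j + m0 := by
    intro v
    have e1 : ∑ c, D c * lift P q La th k v c = ∑ j, D (.inl j) * v j +
        (D (.inr 0) * La * va (th / La) (qv q La v) k + D (.inr 1) * vb (th / La) (uu P v) (qv q La v) k) := by
      rw [Fintype.sum_sum_type, Fin.sum_univ_two]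
      simp only [lift, pk, Sum.elim_inl, Sum.elim_inr, Fin.isValue, Matrix.cons_val_zero, Matrix.cons_val_one]
      ring
    rw [e1, hm]
    simp only [add_mul, Finset.sum_add_distrib]
    ring
  have hwD : w ∈ segment ℝ w w' := left_mem_segment ℝ w w'
  rw [← hD] at hwD
  refine ⟨fun j => D (.inl j) + m j, ?_⟩
  ext v
  simp only [mem_ofPred_eq]
  have hseg : v ∈ segment ℝ x y ↔ lift P q La th k v ∈ segment ℝ w w' := by
    rw [hw2, hw2']
    constructor
    · rintro ⟨s, t, hs, ht, hst, rfl⟩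
      exact ⟨s, t, hs, ht, hst, (lift_affine k x y s t hst).symm⟩
    · rintro ⟨s, t, hs, ht, hst, he⟩
      refine ⟨s, t, hs, ht, hst, ?_⟩
      rw [← lift_affine k x y s t hst] at he
      exact lift_inj he
  rw [hseg, ← hD]
  constructor
  · rintro ⟨hv, hmax⟩
    refine ⟨lift_mem G k hv, fun u hu => ?_⟩
    have h1 := hwD.2 u hu
    have h2 := hmax x hx.1
    rw [hw2, hval] at h1
    rw [hval]
    linarith
  · rintro ⟨hv, hmax⟩
    have hvP : v ∈ P.feasible := ((mem_ext G.hLa G.pos _ _ _).1 hv).1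
    refine ⟨hvP, fun u hu => ?_⟩
    have h1 := hmax _ (lift_mem G k hu)
    rw [hval, hval] at h1
    linarith

end

end Pool.Agent.Run7.h689.GR
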