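import Pool.Agent.Run7.h689.GR3
set_option autoImplicit false
set_option linter.unusedSectionVars false

/-!
# Dominated pivots
-/

namespace Pool.Agent.Run7.h689.GR

open Set Pool.Agent.Run7.h689.HP

section defs
variable {I J : Type} [Fintype I] [Fintype J]

/-- the pivot from `x` to `y` leaves the constraint `κ`, i.e. the slack of `κ` enters the basis -/
def Leaves (P : LP I J) (x y : J → ℝ) (κ : I ⊕ J) : Prop := slack P x κ = 0 ∧ 0 < slack P y κ

/-- the pivot from `x` to `y` is dominated: there is another pivot whose increase and whose reduced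
cost are larger by a factor of more than `1 / α`, and whose entering variable has a smaller name -/
def Dominated (P : LP I J) (ν : I ⊕ J → ℕ) (α : ℝ) (x y : J → ℝ) : Prop :=
  ∃ y', P.Pivot x y' ∧ P.value y - P.value x < α * (P.value y' - P.value x) ∧
    ∀ κ κ', Leaves P x y κ → Leaves P x y' κ' →
      (P.value y - P.value x) / slack P y κ < α * ((P.value y' - P.value x) / slack P y' κ') ∧ ν κ' < ν κ

/-- paths without dominated pivots -/
inductive UPath (P : LP I J) (ν : I ⊕ J → ℕ) (α : ℝ) : ℕ → (J → ℝ) → (J → ℝ) → Prop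
  | nil (x : J → ℝ) : UPath P ν α 0 x x
  | cons {n : ℕ} {x y z : J → ℝ} (h : P.Pivot x y) (hd : ¬ Dominated P ν α x y)
      (hp : UPath P ν α n y z) : UPath P ν α (n + 1) x z

/-- the reset functional -/
noncomputable def rr (P : LP I J) (q : J → ℤ) (La : ℝ) (x : J → ℝ) : ℝ := uu P x - 6 * qv q La x

/-- a linear program on which the paths without dominated pivots are long -/
structure Lev (P : LP I J) (q : J → ℤ) (La : ℝ) (ν : I ⊕ J → ℕ) (N : ℕ) (α G S : ℝ) (T : ℕ)
    (s t : J → ℝ) : Prop where
  hs : s ∈ P.feasible.extremePoints ℝ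
  ht : t ∈ P.feasible.extremePoints ℝ
  top : ∀ x ∈ P.feasible, P.value x ≤ P.value t ∧ (P.value x = P.value t → x = t)
  bot : ∀ x ∈ P.feasible, rr P q La x ≤ rr P q La s ∧ (rr P q La x = rr P q La s → x = s)
  gt : ∀ x ∈ P.feasible.extremePoints ℝ, x ≠ t → ∃ y, P.Edge x y ∧ uu P x + G ≤ uu P y
  gs : ∀ x ∈ P.feasible.extremePoints ℝ, x ≠ s → ∃ y, P.Edge x y ∧ rr P q La x + G ≤ rr P q La y
  rg : ∀ x ∈ P.feasible, 0 ≤ uu P x ∧ uu P x ≤ 1 / 16 ∧ 0 ≤ qv q La x ∧ qv q La x ≤ 1 / 32
  sl : ∀ x ∈ P.feasible, ∀ κ, slack P x κ ≤ S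
  nm : ∀ κ, ν κ < N
  inj : Function.Injective ν
  nondeg : P.Nondegenerate
  hard : ∀ n, UPath P ν α n s t → T ≤ n

end defs

/-! ### the slacks at the vertices of the polygon -/

theorem stay_row {La τ u q u' q' : ℝ} (hLa : 0 < La) (h : Ok τ u q) (i : Fin 7) (k : Fin 5)
    (h0 : ps La τ u q (va τ q i) (vb τ u q i) k = 0) :
    ps La τ u' q' (va τ q' i) (vb τ u' q' i) k = 0 := by
  obtain ⟨h1, h2, h3, h4, h5, h6⟩ := h
  revert h0
  fin_cases i <;> fin_cases k <;> simp only [ps, va, vb, Fin.isValue, Fin.zero_eta, Fin.mk_one,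
    Fin.reduceFinMk, Matrix.cons_val, Matrix.cons_val_zero, Matrix.cons_val_one] <;>
    intro h0 <;>
    first
      | ring1
      | (exfalso
         rcases mul_eq_zero.1 h0 with h | h <;> linarith)

theorem stay_a {La τ u q q' : ℝ} (hLa : 0 < La) (h : Ok τ u q) (i : Fin 7) (h0 : La * va τ q i = 0) :
    La * va τ q' i = 0 := by
  obtain ⟨h1, h2, h3, h4, h5, h6⟩ := h
  revert h0
  fin_cases i <;> simp only [va, Fin.isValue, Fin.zero_eta, Fin.mk_one,
    Fin.reduceFinMk, Matrix.cons_val, Matrix.cons_val_zero, Matrix.cons_val_one] <;>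
    intro h0 <;>
    first
      | ring1
      | (exfalso
         rcases mul_eq_zero.1 h0 with h | h <;> linarith)

theorem stay_b {τ u q u' q' : ℝ} (h : Ok τ u q) (i : Fin 7) (h0 : vb τ u q i = 0) :
    vb τ u' q' i = 0 := by
  obtain ⟨h1, h2, h3, h4, h5, h6⟩ := h
  revert h0
  fin_cases i <;> simp only [vb, Fin.isValue, Fin.zero_eta, Fin.mk_one,
    Fin.reduceFinMk, Matrix.cons_val, Matrix.cons_val_zero, Matrix.cons_val_one] <;>
    intro h0 <;>
    first
      | trivial
      | ring1
      | (exfalso; linarith)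

theorem leave_row01 {La τ u q : ℝ} (hLa : 0 < La) (h : Ok τ u q) (k : Fin 5)
    (h0 : ps La τ u q (va τ q 0) (vb τ u q 0) k = 0) : ps La τ u q (va τ q 1) (vb τ u q 1) k = 0 := by
  obtain ⟨h1, h2, h3, h4, h5, h6⟩ := h
  revert h0
  fin_cases k <;> simp only [ps, va, vb, Fin.isValue, Fin.zero_eta, Fin.mk_one,
    Fin.reduceFinMk, Matrix.cons_val, Matrix.cons_val_zero, Matrix.cons_val_one] <;>
    intro h0 <;>
    first
      | ring1
      | (exfalso
         rcases mul_eq_zero.1 h0 with h | h <;> linarith)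

theorem leave_row23 {La τ u q : ℝ} (hLa : 0 < La) (h : Ok τ u q) (k : Fin 5)
    (h0 : ps La τ u q (va τ q 2) (vb τ u q 2) k = 0) (hk : 0 < ps La τ u q (va τ q 3) (vb τ u q 3) k) :
    ps La τ u q (va τ q 3) (vb τ u q 3) k = La * τ := by
  obtain ⟨h1, h2, h3, h4, h5, h6⟩ := h
  revert h0 hk
  fin_cases k <;> simp only [ps, va, vb, Fin.isValue, Fin.zero_eta, Fin.mk_one,
    Fin.reduceFinMk, Matrix.cons_val, Matrix.cons_val_zero, Matrix.cons_val_one] <;>
    intro h0 hk <;>
    first
      | ring1
      | (exfalso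
         rcases mul_eq_zero.1 h0 with h | h <;> linarith)

/-- different vertices of the polygon are different -/
theorem vert_inj {τ u q : ℝ} (h : Ok τ u q) {i j : Fin 7} (h1 : va τ q i = va τ q j)
    (h2 : vb τ u q i = vb τ u q j) : i = j := by
  obtain ⟨k1, k2, k3, k4, k5, k6⟩ := h
  revert h1 h2
  fin_cases i <;> fin_cases j <;> simp only [va, vb, Fin.isValue, Fin.zero_eta, Fin.mk_one,
    Fin.reduceFinMk, Matrix.cons_val, Matrix.cons_val_zero, Matrix.cons_val_one] <;>
    intro h1 h2 <;>
    first
      | trivial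
      | rfl
      | (exfalso; linarith)

section
variable {I J : Type} [Fintype I] [Fintype J]
variable {P : LP I J} {q : J → ℤ} {lam th : ℤ} {La : ℝ}

theorem value_pk (x : J → ℝ) (a b : ℝ) : (ext P q lam th).value (pk La x a b) = b := by
  unfold LP.value
  rw [Fintype.sum_sum_type, Fin.sum_univ_two]
  simp [ext, pk]

theorem value_lift (i : Fin 7) (x : J → ℝ) : (ext P q lam th).value (lift P q La th i x) =
    vb (th / La) (uu P x) (qv q La x) i := value_pk _ _ _

/-- the constraint of the bundle which belongs to a constraint of the base -/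
def em {I J : Type} : I ⊕ J → (I ⊕ Fin 5) ⊕ (J ⊕ Fin 2)
  | .inl i => .inl (.inl i)
  | .inr j => .inr (.inl j)

theorem slack_em (x : J → ℝ) (a b : ℝ) (κ : I ⊕ J) :
    slack (ext P q lam th) (pk La x a b) (em κ) = slack P x κ := by
  rcases κ with i | j
  · exact slack_inner La x a b i
  · exact slack_inner' La x a b j

/-- the names of the constraints -/
def nm' {I J : Type} (ν : I ⊕ J → ℕ) (N : ℕ) : (I ⊕ Fin 5) ⊕ (J ⊕ Fin 2) → ℕ
  | .inl (.inl i) => ν (.inl i)
  | .inr (.inl j) => ν (.inr j)
  | .inr (.inr l) => N + l.1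
  | .inl (.inr k) => N + 2 + k.1

theorem nm'_em {ν : I ⊕ J → ℕ} {N : ℕ} (κ : I ⊕ J) : nm' ν N (em κ) = ν κ := by
  rcases κ with i | j <;> rfl

/-- horizontal steps leave constraints of the base -/
theorem leaves_lift (G : Good P q lam th La) (i : Fin 7) {x y : J → ℝ} (hx : x ∈ P.feasible)
    {K : (I ⊕ Fin 5) ⊕ (J ⊕ Fin 2)}
    (h : Leaves (ext P q lam th) (lift P q La th i x) (lift P q La th i y) K) :
    ∃ κ, K = em κ ∧ Leaves P x y κ := by
  obtain ⟨h1, h2⟩ := h
  unfold lift at h1 h2
  rcases K with (i' | k) | (j | l)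
  · refine ⟨.inl i', rfl, ?_, ?_⟩
    · rwa [slack_inner] at h1
    · rwa [slack_inner] at h2
  · exfalso
    rw [slack_row G.hLa G.pos.ne'] at h1 h2
    have := stay_row (u' := uu P y) (q' := qv q La y) G.pos (G.ok x hx) i k h1
    rw [this] at h2
    exact lt_irrefl _ h2
  · exact ⟨.inr j, rfl, h1, h2⟩
  · exfalso
    fin_cases l
    · have h3 := stay_a (q' := qv q La y) G.pos (G.ok x hx) i h1
      have h4 : 0 < La * va (th / La) (qv q La y) i := h2
      rw [h3] at h4
      exact lt_irrefl _ h4
    · have h3 := stay_b (u' := uu P y) (q' := qv q La y) (G.ok x hx) i h1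
      have h4 : 0 < vb (th / La) (uu P y) (qv q La y) i := h2
      rw [h3] at h4
      exact lt_irrefl _ h4

/-- the pivots from the vertices on the long side -/
theorem pivot_cases (G : Good P q lam th La) {i : Fin 7} (hi : i.1 ≤ 4) {x : J → ℝ} {w' : J ⊕ Fin 2 → ℝ}
    (h : (ext P q lam th).Pivot (lift P q La th i x) w') :
    (∃ y, P.Edge x y ∧ w' = lift P q La th i y) ∨ (i.1 < 4 ∧ w' = lift P q La th (nx i) x) := by
  obtain ⟨hE, hv⟩ := h
  rcases edge_cases G hE with ⟨k, x', y, h1, h2, h3⟩ | ⟨k, j, x', h1, h2, h3⟩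
  · left
    have hx' := (edge_mem h1).1
    obtain ⟨e1, e2, e3⟩ := pk_inj G.pos.ne' h2
    subst e1
    have := vert_inj (G.ok x hx') e2 e3
    subst this
    exact ⟨y, h1, h3⟩
  · right
    obtain ⟨e1, e2, e3⟩ := pk_inj G.pos.ne' h2
    subst e1
    have := vert_inj (G.ok x h1.1) e2 e3
    subst this
    rw [h3, value_lift, value_lift] at hv
    have := adj (G.ok x h1.1) hi hv (by
      intro s t m1 m2
      have n1 := (mem_ext (q := q) (th := th) G.hLa G.pos x _ _).2 ⟨h1.1, m1⟩
      have n2 := (mem_ext (q := q) (th := th) G.hLa G.pos x _ _).2 ⟨h1.1, m2⟩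
      have h4 := edge_mid hE n1 n2 (by
        rw [h3]
        funext c
        rcases c with j | l
        · simp only [pk, lift, Pi.add_apply, Sum.elim_inl]
        · fin_cases l
          · simp only [pk, lift, Sum.elim_inr, Pi.add_apply, Fin.zero_eta, Fin.isValue,
              Matrix.cons_val_zero]
            ring
          · simp only [pk, lift, Sum.elim_inr, Pi.add_apply, Fin.mk_one, Fin.isValue,
              Matrix.cons_val_one, Matrix.cons_val_zero]
            ring)
      rw [segment_eq_image'] at h4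
      obtain ⟨θ, -, hθ⟩ := h4
      simp only at hθ
      rw [h3] at hθ
      unfold lift at hθ
      rw [pk_add] at hθ
      obtain ⟨-, f2, f3⟩ := pk_inj G.pos.ne' hθ
      refine ⟨θ - 1 / 2, ?_, ?_⟩
      · linarith
      · linarith)
    exact ⟨this.1, by rw [h3, this.2]⟩

/-- `i = 0` or `i = 4`: the values of the lifts differ by the values of the base -/
theorem value_04 (i : Fin 7) (hi : i = 0 ∨ i = 4) (x y : J → ℝ) :
    (ext P q lam th).value (lift P q La th i y) - (ext P q lam th).value (lift P q La th i x) =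
      (P.value y - P.value x) / 128 := by
  rw [value_lift, value_lift]
  unfold uu
  rcases hi with rfl | rfl <;> simp only [vb, Fin.isValue, Matrix.cons_val, Matrix.cons_val_zero] <;> ring

/-- dominated pivots stay dominated -/
theorem dom_lift (G : Good P q lam th La) {ν : I ⊕ J → ℕ} {N : ℕ} {α : ℝ} {i : Fin 7} (hi : i = 0 ∨ i = 4)
    {x y : J → ℝ} (hx : x ∈ P.feasible) (h : Dominated P ν α x y) :
    Dominated (ext P q lam th) (nm' ν N) α (lift P q La th i x) (lift P q La th i y) := by
  obtain ⟨y', h1, h2, h3⟩ := h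
  refine ⟨lift P q La th i y', ⟨edge_lift G i h1.1, ?_⟩, ?_, ?_⟩
  · have := value_04 (P := P) (q := q) (lam := lam) (th := th) (La := La) i hi x y'
    have := h1.2
    linarith
  · rw [value_04 i hi, value_04 i hi]
    linarith
  · intro K K' hK hK'
    obtain ⟨κ, rfl, hκ⟩ := leaves_lift G i hx hK
    obtain ⟨κ', rfl, hκ'⟩ := leaves_lift G i hx hK'
    have h4 := h3 κ κ' hκ hκ'
    rw [nm'_em, nm'_em]
    refine ⟨?_, h4.2⟩
    unfold lift
    rw [slack_em, slack_em]
    have e1 := value_04 (P := P) (q := q) (lam := lam) (th := th) (La := La) i hi x y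
    have e2 := value_04 (P := P) (q := q) (lam := lam) (th := th) (La := La) i hi x y'
    unfold lift at e1 e2
    rw [e1, e2]
    have e3 : (P.value y - P.value x) / 128 / slack P y κ = ((P.value y - P.value x) / slack P y κ) / 128 := by
      rw [div_div, div_div, mul_comm]
    have e4 : (P.value y' - P.value x) / 128 / slack P y' κ' = ((P.value y' - P.value x) / slack P y' κ') / 128 := by
      rw [div_div, div_div, mul_comm]
    rw [e3, e4]
    have := h4.1
    linarith

/-- the tiny steps are dominated if the base is not finished -/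
theorem dom_tiny (G : Good P q lam th La) {ν : I ⊕ J → ℕ} {N : ℕ} {α g S : ℝ} (hα : 0 < α) (hg : 0 < g)
    (hν : ∀ κ, ν κ < N) (hsl : ∀ x ∈ P.feasible, ∀ κ, slack P x κ ≤ S) (hS : 0 < S)
    (hτ : 4 * (th / La) < α * g) (hb : 4 * S < α * g * La) {i : Fin 7} (hi : i = 0 ∨ i = 2) {x y : J → ℝ}
    (hE : P.Edge x y)
    (hgain : vb (th / La) (uu P x) (qv q La x) i + g ≤ vb (th / La) (uu P y) (qv q La y) i) :
    Dominated (ext P q lam th) (nm' ν N) α (lift P q La th i x) (lift P q La th (nx i) x) := by
  have hxy := edge_mem hE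
  have hok := G.ok x hxy.1
  have hτ0 : 0 < th / La := hok.1
  have hstage : (ext P q lam th).value (lift P q La th (nx i) x) - (ext P q lam th).value (lift P q La th i x) ≤
      4 * (th / La) := by
    rw [value_lift, value_lift]
    rcases hi with rfl | rfl <;> simp only [vb, nx, Fin.isValue, Matrix.cons_val, Matrix.cons_val_zero,
      Matrix.cons_val_one] <;> linarith
  have hinner : g ≤ (ext P q lam th).value (lift P q La th i y) - (ext P q lam th).value (lift P q La th i x) := by
    rw [value_lift, value_lift]; linarith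
  refine ⟨lift P q La th i y, ⟨edge_lift G i hE, by linarith⟩, ?_, ?_⟩
  · have := mul_le_mul_of_nonneg_left hinner hα.le
    linarith
  · intro K K' hK hK'
    obtain ⟨κ', rfl, hκ'⟩ := leaves_lift G i hxy.1 hK'
    have hsl' : slack (ext P q lam th) (lift P q La th i y) (em κ') = slack P y κ' := slack_em _ _ _ _
    -- the constraint that is left
    have hK2 : slack (ext P q lam th) (lift P q La th (nx i) x) K = La * (th / La) ∧ N ≤ nm' ν N K := by
      obtain ⟨k1, k2⟩ := hK
      rcases K with (i' | k) | (j | l)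
      · exfalso
        unfold lift at k1 k2
        rw [slack_inner] at k1 k2
        rw [k1] at k2
        exact lt_irrefl _ k2
      · refine ⟨?_, by simp only [nm']; omega⟩
        unfold lift at k1 k2 ⊢
        rw [slack_row G.hLa G.pos.ne'] at k1 k2 ⊢
        rcases hi with rfl | rfl
        · exfalso
          have := leave_row01 G.pos hok k k1
          have e : nx 0 = 1 := rfl
          rw [e, this] at k2
          exact lt_irrefl _ k2
        · exact leave_row23 G.pos hok k k1 k2
      · exfalso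
        have k3 : 0 < x j := k2
        have k4 : x j = 0 := k1
        linarith
      · fin_cases l
        · refine ⟨?_, by simp only [nm']; omega⟩
          have k3 : La * va (th / La) (qv q La x) i = 0 := k1
          rcases hi with rfl | rfl
          · rfl
          · exfalso
            simp only [va, Fin.isValue, Matrix.cons_val] at k3
            obtain ⟨a1, a2, a3, a4, a5, a6⟩ := hok
            have := G.pos
            rcases mul_eq_zero.1 k3 with h | h <;> linarith
        · exfalso
          have k3 : vb (th / La) (uu P x) (qv q La x) i = 0 := k1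
          obtain ⟨a1, a2, a3, a4, a5, a6⟩ := hok
          rcases hi with rfl | rfl <;> simp only [vb, Fin.isValue, Matrix.cons_val, Matrix.cons_val_zero] at k3 <;>
            linarith
    rw [hK2.1, hsl', nm'_em]
    refine ⟨?_, lt_of_lt_of_le (hν κ') hK2.2⟩
    have hs0 : 0 < slack P y κ' := hκ'.2
    have hsS : slack P y κ' ≤ S := hsl y hxy.2 κ'
    have hLaτ : 0 < La * (th / La) := mul_pos G.pos hτ0
    -- 4 τ / (La τ) < α g / S
    set A := (ext P q lam th).value (lift P q La th (nx i) x) - (ext P q lam th).value (lift P q La th i x)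
    set B := (ext P q lam th).value (lift P q La th i y) - (ext P q lam th).value (lift P q La th i x)
    have hB : 0 < B := by linarith
    have e5 : α * (B / slack P y κ') = α * B / slack P y κ' := by rw [mul_div_assoc]
    rw [e5, div_lt_div_iff₀ hLaτ hs0]
    calc A * slack P y κ' ≤ (4 * (th / La)) * slack P y κ' := mul_le_mul_of_nonneg_right hstage hs0.le
      _ ≤ (4 * (th / La)) * S := mul_le_mul_of_nonneg_left hsS (by linarith)
      _ = 4 * S * (th / La) := by ring
      _ < α * g * La * (th / La) := mul_lt_mul_of_pos_right hb hτ0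
      _ = α * g * (La * (th / La)) := by ring
      _ ≤ α * B * (La * (th / La)) :=
        mul_le_mul_of_nonneg_right (mul_le_mul_of_nonneg_left hinner hα.le) hLaτ.le

end

end Pool.Agent.Run7.h689.GR
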