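import Pool.Agent.Run7.h689.GR4
set_option autoImplicit false
set_option linter.unusedSectionVars false
set_option linter.unusedVariables false

/-!
# One more polygon doubles the length of the paths
-/

namespace Pool.Agent.Run7.h689.GR

open Set Pool.Agent.Run7.h689.HP

/-- at most two constraints of the polygon are tight -/
theorem pg_tight {La τ u q a b : ℝ} (hLa : 0 < La) (h : Ok τ u q) (hp : Pg τ u q a b)
    [DecidablePred fun k : Fin 5 => ps La τ u q a b k = 0] [Decidable (La * a = 0)] [Decidable (b = 0)] :
    (∑ k : Fin 5, if ps La τ u q a b k = 0 then 1 else 0) +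
    ((if La * a = 0 then 1 else 0) + (if b = 0 then 1 else 0)) ≤ 2 := by
  classical
  obtain ⟨h1, h2, h3, h4, h5, h6⟩ := h
  obtain ⟨g1, g2, g3, g4, g5, g6, g7⟩ := hp
  have f : ∀ t : ℝ, La * t = 0 ↔ t = 0 := fun t => by
    constructor
    · intro ht; exact (mul_eq_zero.1 ht).resolve_left hLa.ne'
    · intro ht; rw [ht, mul_zero]
  rw [Fin.sum_univ_five]
  simp only [ps, Fin.isValue, Matrix.cons_val, Matrix.cons_val_zero, Matrix.cons_val_one, f]
  split_ifs <;> first | omega | (exfalso; linarith)

section
variable {I J : Type} [Fintype I] [Fintype J]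
variable {P : LP I J} {q : J → ℤ} {lam th : ℤ} {La : ℝ}

/-- the new functional -/
def qn (q : J → ℤ) (mu : ℤ) : J ⊕ Fin 2 → ℤ := Sum.elim (fun j => mu * q j) ![mu, 0]

theorem qv_pk {mu : ℤ} (hmu : 0 < mu) (h0 : 0 < La) (x : J → ℝ) (a b : ℝ) :
    qv (qn q mu) (128 * La * mu) (pk La x a b) = (a + qv q La x) / 128 := by
  have hm : (0 : ℝ) < mu := by exact_mod_cast hmu
  unfold qv
  rw [Fintype.sum_sum_type, Fin.sum_univ_two]
  simp only [qn, pk, Sum.elim_inl, Sum.elim_inr, Fin.isValue, Matrix.cons_val_zero, Matrix.cons_val_one,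
    Int.cast_mul, Int.cast_zero, zero_mul, add_zero]
  have : ∑ j, (mu : ℝ) * (q j : ℝ) * x j = mu * ∑ j, (q j : ℝ) * x j := by
    rw [Finset.mul_sum]; exact Finset.sum_congr rfl fun j _ => by ring
  rw [this]
  field_simp
  ring

theorem uu_pk (x : J → ℝ) (a b : ℝ) : uu (ext P q lam th) (pk La x a b) = b / 128 := by
  unfold uu; rw [value_pk]

theorem rr_pk {mu : ℤ} (hmu : 0 < mu) (h0 : 0 < La) (x : J → ℝ) (a b : ℝ) :
    rr (ext P q lam th) (qn q mu) (128 * La * mu) (pk La x a b) = (b - 6 * a - 6 * qv q La x) / 128 := by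
  unfold rr
  rw [uu_pk, qv_pk hmu h0]
  ring

theorem count_ext (h0 : 0 < La) (hLa : La = 128 * lam) (hok : ∀ x ∈ P.feasible, Ok (th / La) (uu P x) (qv q La x))
    (hnd : P.Nondegenerate) : (ext P q lam th).Nondegenerate := by
  classical
  intro w hw
  rw [pk_eq h0.ne' w] at hw ⊢
  set z : J → ℝ := fun j => w (.inl j)
  set a := w (.inr 0) / La
  set b := w (.inr 1)
  obtain ⟨hz, hp⟩ := (mem_ext hLa h0 _ _ _).1 hw
  have h1 := hnd z hz
  have h2 := pg_tight (La := La) h0 (hok z hz) hp
  rw [Finset.card_filter, Finset.card_filter] at h1 ⊢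
  rw [Fintype.sum_sum_type, Fintype.sum_sum_type, Fintype.card_sum, Fintype.card_fin, Fin.sum_univ_two]
  have e1 : ∀ i : I, (∑ j, ((ext P q lam th).A (.inl i) j : ℝ) * pk La z a b j = (ext P q lam th).b (.inl i)) ↔
      (∑ j, (P.A i j : ℝ) * z j = P.b i) := by
    intro i
    have e2 := slack_inner (P := P) (q := q) (lam := lam) (th := th) La z a b i
    simp only [slack] at e2
    constructor <;> intro h <;> linarith
  have e2 : ∀ k : Fin 5, (∑ j, ((ext P q lam th).A (.inr k) j : ℝ) * pk La z a b j = (ext P q lam th).b (.inr k)) ↔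
      (ps La (th / La) (uu P z) (qv q La z) a b k = 0) := by
    intro k
    have e3 := slack_row (P := P) (q := q) (th := th) hLa h0.ne' z a b k
    rw [← e3]
    simp only [slack]
    constructor <;> intro h <;> linarith
  have e3 : ∀ j : J, (pk La z a b (.inl j) = 0) ↔ (z j = 0) := fun j => Iff.rfl
  have e4 : (pk La z a b (.inr 0) = 0) ↔ (La * a = 0) := Iff.rfl
  have e5 : (pk La z a b (.inr 1) = 0) ↔ (b = 0) := Iff.rfl
  simp only [e1, e2, e3, e4, e5]
  omega

theorem Lev.ext {ν : I ⊕ J → ℕ} {N : ℕ} {α G S : ℝ} {T : ℕ} {s t : J → ℝ}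
    (h : Lev P q La ν N α G S T s t) (hLa : La = 128 * lam) (h1 : 1 ≤ La) (hτ0 : 0 < th / La)
    (hτ1 : th / La ≤ 1 / 128) (hα : 0 < α) (hG : 0 < G) (hτ2 : 4 * (th / La) < α * G) (hτ3 : th / La ≤ G)
    (hS0 : 0 < S) (hb : 4 * S < α * G * La) (hS : S ≤ 16 * La) {mu : ℤ} (hmu : 0 < mu) :
    Lev (GR.ext P q lam th) (qn q mu) (128 * La * mu) (nm' ν N) (N + 7) α (th / La / 128) (16 * La)
      (2 * T + 4) (lift P q La th 0 s) (lift P q La th 4 t) := by
  classical
  have h0 : 0 < La := by linarith
  have hok : ∀ x ∈ P.feasible, Ok (th / La) (uu P x) (qv q La x) := fun x hx => by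
    have := h.rg x hx
    exact ⟨hτ0, hτ1, this.1, this.2.1, this.2.2.1, this.2.2.2⟩
  have Gd : Good P q lam th La := ⟨hLa, h0, hok⟩
  have huu : ∀ x y : J → ℝ, P.value x < P.value y ↔ uu P x < uu P y := by
    intro x y; unfold uu; constructor <;> intro h <;> linarith
  -- extreme points
  have hext : ∀ i x, x ∈ P.feasible.extremePoints ℝ →
      lift P q La th i x ∈ (GR.ext P q lam th).feasible.extremePoints ℝ := by
    intro i x hx
    have hxf := hx.1
    refine ⟨lift_mem Gd i hxf, ?_⟩
    rintro w hw w' hw' ⟨r, r', hr, hr', hrr, he⟩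
    rw [pk_eq h0.ne' w] at hw he ⊢
    rw [pk_eq h0.ne' w'] at hw' he
    set z : J → ℝ := fun j => w (.inl j)
    set a := w (.inr 0) / La
    set b := w (.inr 1)
    set z' : J → ℝ := fun j => w' (.inl j)
    set a' := w' (.inr 0) / La
    set b' := w' (.inr 1)
    obtain ⟨hz, hp⟩ := (mem_ext hLa h0 _ _ _).1 hw
    obtain ⟨hz', hp'⟩ := (mem_ext hLa h0 _ _ _).1 hw'
    have he2 : pk La (r • z + r' • z') (r * a + r' * a') (r * b + r' * b') = lift P q La th i x := by
      rw [← he]
      funext c
      rcases c with j | l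
      · rfl
      · fin_cases l
        · simp only [pk, Sum.elim_inr, Pi.add_apply, Pi.smul_apply, Fin.zero_eta, Fin.isValue,
            Matrix.cons_val_zero, smul_eq_mul]
          ring
        · simp only [pk, Sum.elim_inr, Pi.add_apply, Pi.smul_apply, Fin.mk_one, Fin.isValue,
            Matrix.cons_val_one, Matrix.cons_val_zero, smul_eq_mul]
    obtain ⟨f1, f2, f3⟩ := pk_inj h0.ne' he2
    have g1 : z = x := hx.2 hz hz' ⟨r, r', hr, hr', hrr, f1⟩
    have g2 : z' = x := hx.2 hz' hz ⟨r', r, hr', hr, by linarith, by rw [add_comm]; exact f1⟩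
    rw [g1] at hp ⊢
    rw [g2] at hp'
    have k1 := expose_v (hok x hxf) hp i
    have k2 := expose_v (hok x hxf) hp' i
    have k3 : pe i * va (th / La) (qv q La x) i + qe i * vb (th / La) (uu P x) (qv q La x) i =
        r * (pe i * a + qe i * b) + r' * (pe i * a' + qe i * b') := by
      rw [← f2, ← f3]; ring
    have k4 : r * (pe i * a + qe i * b) = r * (pe i * va (th / La) (qv q La x) i + qe i * vb (th / La) (uu P x) (qv q La x) i) := by
      have m1 := mul_le_mul_of_nonneg_left k1.1 hr.le
      have m2 := mul_le_mul_of_nonneg_left k2.1 hr'.le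
      have m3 : pe i * va (th / La) (qv q La x) i + qe i * vb (th / La) (uu P x) (qv q La x) i =
        r * (pe i * va (th / La) (qv q La x) i + qe i * vb (th / La) (uu P x) (qv q La x) i) +
        r' * (pe i * va (th / La) (qv q La x) i + qe i * vb (th / La) (uu P x) (qv q La x) i) := by
        rw [← add_mul, hrr, one_mul]
      linarith
    have k5 := k1.2 (mul_left_cancel₀ hr.ne' k4)
    unfold lift
    rw [k5.1, k5.2]
  have hvert : ∀ i x, x ∈ P.feasible.extremePoints ℝ → i ≠ nx i →
      (GR.ext P q lam th).Edge (lift P q La th i x) (lift P q La th (nx i) x) := by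
    intro i x hx hi
    refine edge_vert Gd i hx fun he => hi ?_
    obtain ⟨-, e2, e3⟩ := pk_inj h0.ne' he
    exact vert_inj (hok x hx.1) e2 e3
  have huul : ∀ i x, uu (GR.ext P q lam th) (lift P q La th i x) = vb (th / La) (uu P x) (qv q La x) i / 128 :=
    fun i x => uu_pk _ _ _
  have hrrl : ∀ i x, rr (GR.ext P q lam th) (qn q mu) (128 * La * mu) (lift P q La th i x) =
      (vb (th / La) (uu P x) (qv q La x) i - 6 * va (th / La) (qv q La x) i - 6 * qv q La x) / 128 :=
    fun i x => rr_pk hmu h0 _ _ _
  refine ⟨hext 0 s h.hs, hext 4 t h.ht, ?_, ?_, ?_, ?_, ?_, ?_, ?_, ?_, ?_, ?_⟩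
  · -- top
    intro w hw
    rw [pk_eq h0.ne' w] at hw ⊢
    set z : J → ℝ := fun j => w (.inl j)
    set a := w (.inr 0) / La
    set b := w (.inr 1)
    obtain ⟨hz, hp⟩ := (mem_ext hLa h0 _ _ _).1 hw
    have h2 := h.top z hz
    have h3 : uu P z ≤ uu P t := by unfold uu; linarith [h2.1]
    obtain ⟨g1, g2, g3, g4, g5, g6, g7⟩ := hp
    rw [value_pk, value_lift]
    simp only [vb, Fin.isValue, Matrix.cons_val]
    refine ⟨by linarith, fun he => ?_⟩
    have h4 : uu P z = uu P t := by linarith
    have h5 : z = t := h2.2 (by unfold uu at h4; linarith)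
    unfold lift
    rw [← h5]
    simp only [va, vb, Fin.isValue, Matrix.cons_val]
    have e1 : a = 2 + 2 * (↑th / La) + 4 * qv q La z := by linarith
    have e2 : b = 5 + 6 * (↑th / La) + uu P z := by linarith
    rw [e1, e2]
  · -- bot
    intro w hw
    rw [pk_eq h0.ne' w] at hw ⊢
    set z : J → ℝ := fun j => w (.inl j)
    set a := w (.inr 0) / La
    set b := w (.inr 1)
    obtain ⟨hz, hp⟩ := (mem_ext hLa h0 _ _ _).1 hw
    have h2 := h.bot z hz
    unfold rr at h2
    obtain ⟨g1, g2, g3, g4, g5, g6, g7⟩ := hp
    rw [hrrl, rr_pk hmu h0]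
    simp only [va, vb, Fin.isValue, Matrix.cons_val_zero]
    refine ⟨by linarith [h2.1], fun he => ?_⟩
    have h5 : z = s := h2.2 (by linarith [h2.1])
    unfold lift
    rw [← h5]
    simp only [va, vb, Fin.isValue, Matrix.cons_val_zero]
    have e1 : a = 0 := by linarith [h2.1]
    have e2 : b = 1 + uu P z := by linarith [h2.1]
    rw [e1, e2]
  · -- gt
    intro w hw hne
    obtain ⟨i, x, hx, rfl⟩ := ext_cases Gd hw
    have ho := hok x hx.1
    obtain ⟨a1, a2, a3, a4, a5, a6⟩ := ho
    have inner : ∀ g : ℝ, (∀ y, uu P x + G ≤ uu P y → vb (th / La) (uu P x) (qv q La x) i + G ≤ vb (th / La) (uu P y) (qv q La y) i) →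
        x ≠ t → ∃ y, (GR.ext P q lam th).Edge (lift P q La th i x) y ∧
        uu (GR.ext P q lam th) (lift P q La th i x) + th / La / 128 ≤ uu (GR.ext P q lam th) y := by
      intro _ hk hxt
      obtain ⟨y, hy1, hy2⟩ := h.gt x hx hxt
      refine ⟨lift P q La th i y, edge_lift Gd i hy1, ?_⟩
      rw [huul, huul]
      have := hk y hy2
      linarith
    have inner2 : (∀ y, rr P q La x + G ≤ rr P q La y → vb (th / La) (uu P x) (qv q La x) i + G ≤ vb (th / La) (uu P y) (qv q La y) i) →
        x ≠ s → ∃ y, (GR.ext P q lam th).Edge (lift P q La th i x) y ∧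
        uu (GR.ext P q lam th) (lift P q La th i x) + th / La / 128 ≤ uu (GR.ext P q lam th) y := by
      intro hk hxs
      obtain ⟨y, hy1, hy2⟩ := h.gs x hx hxs
      refine ⟨lift P q La th i y, edge_lift Gd i hy1, ?_⟩
      rw [huul, huul]
      have := hk y hy2
      linarith
    have vert : ∀ j, (GR.ext P q lam th).Edge (lift P q La th i x) (lift P q La th j x) →
        vb (th / La) (uu P x) (qv q La x) i + th / La ≤ vb (th / La) (uu P x) (qv q La x) j →
        ∃ y, (GR.ext P q lam th).Edge (lift P q La th i x) y ∧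
        uu (GR.ext P q lam th) (lift P q La th i x) + th / La / 128 ≤ uu (GR.ext P q lam th) y := by
      intro j hE hv
      refine ⟨lift P q La th j x, hE, ?_⟩
      rw [huul, huul]
      linarith
    fin_cases i
    · by_cases hxt : x = t
      · refine vert 1 (hvert 0 x hx (by decide)) ?_
        simp only [vb, Fin.isValue, Fin.zero_eta, Matrix.cons_val_zero, Matrix.cons_val_one]; linarith
      · refine inner 0 (fun y hy => ?_) hxt
        simp only [vb, Fin.isValue, Fin.zero_eta, Matrix.cons_val_zero]; linarith
    · by_cases hxt : x = t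
      · refine vert 2 (hvert 1 x hx (by decide)) ?_
        simp only [vb, Fin.isValue, Fin.mk_one, Matrix.cons_val, Matrix.cons_val_one, Matrix.cons_val_zero]; linarith
      · refine inner 0 (fun y hy => ?_) hxt
        simp only [vb, Fin.isValue, Fin.mk_one, Matrix.cons_val_one, Matrix.cons_val_zero]; linarith
    · by_cases hxs : x = s
      · refine vert 3 (hvert 2 x hx (by decide)) ?_
        simp only [vb, Fin.isValue, Fin.reduceFinMk, Matrix.cons_val]; linarith
      · refine inner2 (fun y hy => ?_) hxs
        unfold rr at hy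
        simp only [vb, Fin.isValue, Fin.reduceFinMk, Matrix.cons_val]; linarith
    · by_cases hxs : x = s
      · refine vert 4 (hvert 3 x hx (by decide)) ?_
        simp only [vb, Fin.isValue, Fin.reduceFinMk, Matrix.cons_val]; linarith
      · refine inner2 (fun y hy => ?_) hxs
        unfold rr at hy
        simp only [vb, Fin.isValue, Fin.reduceFinMk, Matrix.cons_val]; linarith
    · by_cases hxt : x = t
      · exact absurd (by rw [hxt]; rfl) hne
      · refine inner 0 (fun y hy => ?_) hxt
        simp only [vb, Fin.isValue, Fin.reduceFinMk, Matrix.cons_val]; linarith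
    · refine vert 4 (edge_symm (hvert 4 x hx (by decide))) ?_
      simp only [vb, Fin.isValue, Fin.reduceFinMk, Matrix.cons_val]; linarith
    · refine vert 0 (hvert 6 x hx (by decide)) ?_
      simp only [vb, Fin.isValue, Fin.reduceFinMk, Matrix.cons_val, Matrix.cons_val_zero]; linarith
  · -- gs
    intro w hw hne
    obtain ⟨i, x, hx, rfl⟩ := ext_cases Gd hw
    have ho := hok x hx.1
    obtain ⟨a1, a2, a3, a4, a5, a6⟩ := ho
    have vert : ∀ j, (GR.ext P q lam th).Edge (lift P q La th i x) (lift P q La th j x) →
        vb (th / La) (uu P x) (qv q La x) i - 6 * va (th / La) (qv q La x) i + th / La ≤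
          vb (th / La) (uu P x) (qv q La x) j - 6 * va (th / La) (qv q La x) j →
        ∃ y, (GR.ext P q lam th).Edge (lift P q La th i x) y ∧
        rr (GR.ext P q lam th) (qn q mu) (128 * La * mu) (lift P q La th i x) + th / La / 128 ≤
          rr (GR.ext P q lam th) (qn q mu) (128 * La * mu) y := by
      intro j hE hv
      refine ⟨lift P q La th j x, hE, ?_⟩
      rw [hrrl, hrrl]
      linarith
    fin_cases i
    · by_cases hxs : x = s
      · exact absurd (by rw [hxs]; rfl) hne
      · obtain ⟨y, hy1, hy2⟩ := h.gs x hx hxs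
        refine ⟨lift P q La th 0 y, edge_lift Gd 0 hy1, ?_⟩
        unfold rr at hy2
        have := hrrl 0 x
        simp only [Fin.isValue, Fin.zero_eta]
        rw [hrrl, hrrl]
        simp only [va, vb, Fin.isValue, Matrix.cons_val_zero]
        linarith
    · refine vert 0 (edge_symm (hvert 0 x hx (by decide))) ?_
      simp only [va, vb, Fin.isValue, Fin.mk_one, Matrix.cons_val_one, Matrix.cons_val_zero]; linarith
    · refine vert 1 (edge_symm (hvert 1 x hx (by decide))) ?_
      simp only [va, vb, Fin.isValue, Fin.reduceFinMk, Matrix.cons_val, Matrix.cons_val_one, Matrix.cons_val_zero]; linarith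
    · refine vert 2 (edge_symm (hvert 2 x hx (by decide))) ?_
      simp only [va, vb, Fin.isValue, Fin.reduceFinMk, Matrix.cons_val]; linarith
    · refine vert 3 (edge_symm (hvert 3 x hx (by decide))) ?_
      simp only [va, vb, Fin.isValue, Fin.reduceFinMk, Matrix.cons_val]; linarith
    · refine vert 6 (hvert 5 x hx (by decide)) ?_
      simp only [va, vb, Fin.isValue, Fin.reduceFinMk, Matrix.cons_val]; linarith
    · refine vert 0 (hvert 6 x hx (by decide)) ?_
      simp only [va, vb, Fin.isValue, Fin.reduceFinMk, Matrix.cons_val, Matrix.cons_val_zero]; linarith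
  · -- ranges
    intro w hw
    rw [pk_eq h0.ne' w] at hw ⊢
    obtain ⟨hz, hp⟩ := (mem_ext hLa h0 _ _ _).1 hw
    obtain ⟨a1, a2, a3, a4, a5, a6⟩ := hok _ hz
    obtain ⟨g1, g2, g3, g4, g5, g6, g7⟩ := hp
    rw [uu_pk, qv_pk hmu h0]
    refine ⟨by linarith, by linarith, by linarith, by linarith⟩
  · -- slacks
    intro w hw
    rw [pk_eq h0.ne' w] at hw ⊢
    obtain ⟨hz, hp⟩ := (mem_ext hLa h0 _ _ _).1 hw
    obtain ⟨a1, a2, a3, a4, a5, a6⟩ := hok _ hz
    obtain ⟨g1, g2, g3, g4, g5, g6, g7⟩ := hp
    rintro ((i | k) | (j | l))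
    · rw [slack_inner]; exact (h.sl _ hz _).trans hS
    · rw [slack_row hLa h0.ne']
      rw [mul_comm 16 La]
      fin_cases k <;> simp only [ps, Fin.isValue, Fin.zero_eta, Fin.mk_one, Fin.reduceFinMk,
        Matrix.cons_val, Matrix.cons_val_zero, Matrix.cons_val_one] <;>
        exact mul_le_mul_of_nonneg_left (by linarith) h0.le
    · exact (h.sl _ hz (.inr j)).trans hS
    · fin_cases l
      · rw [mul_comm 16 La]
        exact mul_le_mul_of_nonneg_left (by linarith) h0.le
      · show w (.inr 1) ≤ 16 * La
        linarith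
  · -- names
    rintro ((i | k) | (j | l)) <;> simp only [nm']
    · have := h.nm (.inl i); omega
    · omega
    · have := h.nm (.inr j); omega
    · omega
  · rintro ((i | k) | (j | l)) ((i' | k') | (j' | l')) he <;> simp only [nm'] at he
    · rw [Sum.inl_injective (h.inj he)]
    · have := h.nm (.inl i); omega
    · exact absurd (h.inj he) (by simp)
    · have := h.nm (.inl i); omega
    · have := h.nm (.inl i'); omega
    · have : k = k' := Fin.ext (by omega)
      rw [this]
    · have := h.nm (.inr j'); omega
    · have := l'.2; omega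
    · exact absurd (h.inj he) (by simp)
    · have := h.nm (.inr j); omega
    · rw [Sum.inr_injective (h.inj he)]
    · have := h.nm (.inr j); omega
    · have := h.nm (.inl i'); omega
    · have := l.2; omega
    · have := h.nm (.inr j'); omega
    · have : l = l' := Fin.ext (by omega)
      rw [this]
  · exact count_ext h0 hLa hok h.nondeg
  · -- hardness
    set P' := GR.ext P q lam th with hP'
    set W := lift P q La th with hW
    have hdom : ∀ {i : Fin 7}, (i = 0 ∨ i = 2) → ∀ {x y : J → ℝ}, P.Edge x y →
        vb (th / La) (uu P x) (qv q La x) i + G ≤ vb (th / La) (uu P y) (qv q La y) i →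
        Dominated P' (nm' ν N) α (W i x) (W (nx i) x) := by
      intro i hi x y hE hg
      exact dom_tiny Gd hα hG h.nm h.sl hS0 hτ2 hb hi hE hg
    -- stage 4
    have st4 : ∀ n x, x ∈ P.feasible.extremePoints ℝ → UPath P' (nm' ν N) α n (W 4 x) (W 4 t) →
        UPath P ν α n x t := by
      intro n
      induction n with
      | zero =>
        intro x hx hp
        generalize hw : W 4 x = w at hp
        generalize hw2 : W 4 t = w2 at hp
        cases hp
        rw [← hw] at hw2
        have := lift_inj hw2
        rw [this]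
        exact UPath.nil _
      | succ n ih =>
        intro x hx hp
        generalize hw : W 4 x = w at hp
        cases hp with
        | cons hpv hd hp =>
          subst hw
          rcases pivot_cases Gd (by norm_num) hpv with ⟨y, hy, rfl⟩ | ⟨h4, -⟩
          · have hval := hpv.2
            have e := value_04 (P := P) (q := q) (lam := lam) (th := th) (La := La) 4 (Or.inr rfl) x y
            have hlt : P.value x < P.value y := by
              have : 0 < (P.value y - P.value x) / 128 := by rw [← e]; linarith
              linarith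
            refine UPath.cons ⟨hy, hlt⟩ (fun hD => hd (dom_lift Gd (Or.inr rfl) hx.1 hD)) ?_
            exact ih y (edge_ext (edge_symm hy)) hp
          · exact absurd h4 (by norm_num)
    have st3 : ∀ n, UPath P' (nm' ν N) α n (W 3 s) (W 4 t) → ∃ n', n = n' + 1 ∧
        UPath P' (nm' ν N) α n' (W 4 s) (W 4 t) := by
      intro n hp
      generalize hw : W 3 s = w at hp
      generalize hw2 : W 4 t = w2 at hp
      cases hp with
      | nil =>
        exfalso
        rw [← hw] at hw2
        obtain ⟨e1, e2, e3⟩ := pk_inj h0.ne' hw2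
        rw [e1] at e2 e3
        have := vert_inj (hok s h.hs.1) e2 e3
        exact absurd this (by decide)
      | cons hpv hd hp =>
        subst hw
        rcases pivot_cases Gd (by norm_num) hpv with ⟨y, hy, rfl⟩ | ⟨-, rfl⟩
        · exfalso
          have hval := hpv.2
          rw [value_lift, value_lift] at hval
          have := (h.bot y (edge_mem hy).2).1
          unfold rr at this
          simp only [vb, Fin.isValue, Matrix.cons_val] at hval
          linarith
        · exact ⟨_, rfl, hw2 ▸ hp⟩
    have st2 : ∀ n x, x ∈ P.feasible.extremePoints ℝ → UPath P' (nm' ν N) α n (W 2 x) (W 4 t) →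
        ∃ n', n' + 1 ≤ n ∧ UPath P' (nm' ν N) α n' (W 3 s) (W 4 t) := by
      intro n
      induction n with
      | zero =>
        intro x hx hp
        exfalso
        generalize hw : W 2 x = w at hp
        generalize hw2 : W 4 t = w2 at hp
        cases hp
        rw [← hw] at hw2
        obtain ⟨e1, e2, e3⟩ := pk_inj h0.ne' hw2
        rw [e1] at e2 e3
        have := vert_inj (hok x hx.1) e2 e3
        exact absurd this (by decide)
      | succ n ih =>
        intro x hx hp
        generalize hw : W 2 x = w at hp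
        cases hp with
        | cons hpv hd hp =>
          subst hw
          rcases pivot_cases Gd (by norm_num) hpv with ⟨y, hy, rfl⟩ | ⟨-, rfl⟩
          · obtain ⟨n', h1, h2⟩ := ih y (edge_ext (edge_symm hy)) hp
            exact ⟨n', by omega, h2⟩
          · by_cases hxs : x = s
            · refine ⟨n, le_rfl, ?_⟩
              rw [hxs] at hp
              exact hp
            · exfalso
              obtain ⟨y, hy1, hy2⟩ := h.gs x hx hxs
              refine hd (hdom (Or.inr rfl) hy1 ?_)
              unfold rr at hy2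
              simp only [vb, Fin.isValue, Matrix.cons_val]
              linarith
    have st1 : ∀ n, UPath P' (nm' ν N) α n (W 1 t) (W 4 t) → ∃ n', n = n' + 1 ∧
        UPath P' (nm' ν N) α n' (W 2 t) (W 4 t) := by
      intro n hp
      generalize hw : W 1 t = w at hp
      generalize hw2 : W 4 t = w2 at hp
      cases hp with
      | nil =>
        exfalso
        rw [← hw] at hw2
        obtain ⟨e1, e2, e3⟩ := pk_inj h0.ne' hw2
        have := vert_inj (hok t h.ht.1) e2 e3
        exact absurd this (by decide)
      | cons hpv hd hp =>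
        subst hw
        rcases pivot_cases Gd (by norm_num) hpv with ⟨y, hy, rfl⟩ | ⟨-, rfl⟩
        · exfalso
          have hval := hpv.2
          rw [value_lift, value_lift] at hval
          have := (h.top y (edge_mem hy).2).1
          simp only [vb, uu, Fin.isValue, Matrix.cons_val_one, Matrix.cons_val_zero] at hval
          linarith
        · exact ⟨_, rfl, hw2 ▸ hp⟩
    have st0 : ∀ n x, x ∈ P.feasible.extremePoints ℝ → UPath P' (nm' ν N) α n (W 0 x) (W 4 t) →
        ∃ n1 n2, n = n1 + 1 + n2 ∧ UPath P ν α n1 x t ∧ UPath P' (nm' ν N) α n2 (W 1 t) (W 4 t) := by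
      intro n
      induction n with
      | zero =>
        intro x hx hp
        exfalso
        generalize hw : W 0 x = w at hp
        generalize hw2 : W 4 t = w2 at hp
        cases hp
        rw [← hw] at hw2
        obtain ⟨e1, e2, e3⟩ := pk_inj h0.ne' hw2
        rw [e1] at e2 e3
        have := vert_inj (hok x hx.1) e2 e3
        exact absurd this (by decide)
      | succ n ih =>
        intro x hx hp
        generalize hw : W 0 x = w at hp
        cases hp with
        | cons hpv hd hp =>
          subst hw
          rcases pivot_cases Gd (by norm_num) hpv with ⟨y, hy, rfl⟩ | ⟨-, rfl⟩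
          · have hval := hpv.2
            have e := value_04 (P := P) (q := q) (lam := lam) (th := th) (La := La) 0 (Or.inl rfl) x y
            have hlt : P.value x < P.value y := by
              have : 0 < (P.value y - P.value x) / 128 := by rw [← e]; linarith
              linarith
            obtain ⟨n1, n2, hn, h1, h2⟩ := ih y (edge_ext (edge_symm hy)) hp
            refine ⟨n1 + 1, n2, by omega, ?_, h2⟩
            exact UPath.cons ⟨hy, hlt⟩ (fun hD => hd (dom_lift Gd (Or.inl rfl) hx.1 hD)) h1
          · by_cases hxt : x = t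
            · refine ⟨0, n, by omega, ?_, ?_⟩
              · rw [hxt]; exact UPath.nil _
              · rw [hxt] at hp
                exact hp
            · exfalso
              obtain ⟨y, hy1, hy2⟩ := h.gt x hx hxt
              refine hd (hdom (Or.inl rfl) hy1 ?_)
              simp only [vb, Fin.isValue, Matrix.cons_val_zero]
              linarith
    intro n hp
    obtain ⟨n1, n2, hn, p1, p2⟩ := st0 n s h.hs hp
    obtain ⟨n3, hn3, p3⟩ := st1 n2 p2
    obtain ⟨n4, hn4, p4⟩ := st2 n3 t h.ht p3
    obtain ⟨n5, hn5, p5⟩ := st3 n4 p4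
    have p6 := st4 n5 s h.hs p5
    have q1 := h.hard n1 p1
    have q2 := h.hard n5 p6
    omega

end

end Pool.Agent.Run7.h689.GR
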