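import Pool.Agent.Run7.h689.GR5
set_option autoImplicit false
set_option linter.unusedSectionVars false
set_option linter.unusedVariables false

/-!
# The linear programs
-/

namespace Pool.Agent.Run7.h689.GR

open Set Pool.Agent.Run7.h689.HP

/-- the state after `m` polygons -/
def Stage (a m : ℕ) : Prop :=
  ∃ (I J : Type) (_ : Fintype I) (_ : Fintype J) (P : LP I J) (q : J → ℤ) (ν : I ⊕ J → ℕ) (N : ℕ)
    (s t : J → ℝ), Fintype.card I = 5 * m ∧ Fintype.card J = 2 * m ∧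
    Lev P q ((2 : ℝ) ^ ((a + 11) * (m + 1) ^ 2)) ν N ((1 / 2 : ℝ) ^ a) ((1 / 2 : ℝ) ^ (4 + (a + 10) * m))
      (16 * (2 : ℝ) ^ ((a + 11) * m ^ 2)) (4 * (2 ^ m - 1)) s t ∧
    (∀ j, 0 ≤ q j ∧ 128 * q j ≤ 2 ^ ((a + 11) * (m + 1) ^ 2)) ∧
    (∀ j, 0 ≤ P.c j ∧ P.c j ≤ 1) ∧
    (∀ i j, |P.A i j| ≤ 2 ^ ((a + 11) * m ^ 2 + 2)) ∧
    (∀ i, |P.b i| ≤ 2 ^ ((a + 11) * m ^ 2 + 2)) ∧
    (P.feasible.extremePoints ℝ).Finite

theorem stage_zero (a : ℕ) : Stage a 0 := by
  classical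
  refine ⟨Empty, Empty, inferInstance, inferInstance, ⟨fun i => i.elim, fun i => i.elim, fun j => j.elim⟩,
    fun j => j.elim, fun κ => 0, 0, fun j => j.elim, fun j => j.elim, by simp, by simp, ?_,
    fun j => j.elim, fun j => j.elim, fun i => i.elim, fun i => i.elim, Set.toFinite _⟩
  refine ⟨⟨⟨fun j => j.elim, fun i => i.elim⟩, fun _ _ _ _ _ => Subsingleton.elim _ _⟩,
    ⟨⟨fun j => j.elim, fun i => i.elim⟩, fun _ _ _ _ _ => Subsingleton.elim _ _⟩, ?_, ?_, ?_, ?_, ?_, ?_, ?_,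
    ?_, ?_, ?_⟩
  · exact fun x _ => ⟨le_of_eq (by simp [LP.value]), fun _ => Subsingleton.elim _ _⟩
  · intro x _
    rw [Subsingleton.elim x (fun j => j.elim)]
    exact ⟨le_rfl, fun _ => rfl⟩
  · exact fun x _ h => absurd (Subsingleton.elim _ _) h
  · exact fun x _ h => absurd (Subsingleton.elim _ _) h
  · intro x _
    simp [uu, qv, LP.value]
  · rintro x _ (i | j)
    · exact i.elim
    · exact j.elim
  · rintro (i | j)
    · exact i.elim
    · exact j.elim
  · rintro (i | j)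
    · exact i.elim
    · exact j.elim
  · intro x _
    simp
  · intro n _
    simp

section bounds
variable {I J : Type} [Fintype I] [Fintype J] {P : LP I J} {q : J → ℤ} {lam th mu : ℤ}

theorem qn_bound (hmu : 0 < mu) (hlam : 1 ≤ lam) (hq : ∀ j, 0 ≤ q j ∧ q j ≤ lam) (j : J ⊕ Fin 2) :
    0 ≤ qn q mu j ∧ qn q mu j ≤ lam * mu := by
  rcases j with j | l
  · obtain ⟨q1, q2⟩ := hq j
    simp only [qn, Sum.elim_inl]
    refine ⟨mul_nonneg hmu.le q1, ?_⟩
    rw [mul_comm lam mu]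
    exact mul_le_mul_of_nonneg_left q2 hmu.le
  · simp only [qn, Sum.elim_inr]
    fin_cases l
    · simp only [Fin.zero_eta, Fin.isValue, Matrix.cons_val_zero]
      refine ⟨hmu.le, ?_⟩
      have := mul_le_mul_of_nonneg_right hlam hmu.le
      linarith
    · simp only [Fin.mk_one, Fin.isValue, Matrix.cons_val_one, Matrix.cons_val_zero]
      exact ⟨le_rfl, mul_nonneg (by linarith) hmu.le⟩

theorem ext_c (j : J ⊕ Fin 2) : 0 ≤ (ext P q lam th).c j ∧ (ext P q lam th).c j ≤ 1 := by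
  rcases j with j | l
  · simp [ext]
  · fin_cases l <;> simp [ext]

theorem ext_A (hlam : 1 ≤ lam) (hq : ∀ j, 0 ≤ q j ∧ q j ≤ lam) (hc : ∀ j, 0 ≤ P.c j ∧ P.c j ≤ 1)
    (k : Fin 5) (j : J ⊕ Fin 2) : |(ext P q lam th).A (.inr k) j| ≤ 128 * lam := by
  rcases j with j | l
  · obtain ⟨q1, q2⟩ := hq j
    obtain ⟨c1, c2⟩ := hc j
    have c3 : 0 ≤ lam * P.c j := mul_nonneg (by linarith) c1
    have c4 : lam * P.c j ≤ lam := by
      have := mul_le_mul_of_nonneg_left c2 (by linarith : (0:ℤ) ≤ lam)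
      linarith
    rw [abs_le]
    fin_cases k <;> simp only [ext, Fin.isValue, Fin.zero_eta, Fin.mk_one, Fin.reduceFinMk,
      Matrix.cons_val, Matrix.cons_val_zero, Matrix.cons_val_one] <;>
      constructor <;> linarith
  · rw [abs_le]
    fin_cases l <;> fin_cases k <;> simp only [ext, Fin.isValue, Fin.zero_eta, Fin.mk_one, Fin.reduceFinMk,
      Matrix.cons_val, Matrix.cons_val_zero, Matrix.cons_val_one, if_true, one_ne_zero, if_false] <;>
      constructor <;> linarith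

theorem ext_b (hlam : 1 ≤ lam) (hth : 0 ≤ th) (hth2 : th ≤ lam) (k : Fin 5) :
    |(ext P q lam th).b (.inr k)| ≤ 512 * lam := by
  rw [abs_le]
  fin_cases k <;> simp only [ext, Fin.isValue, Fin.zero_eta, Fin.mk_one, Fin.reduceFinMk,
    Matrix.cons_val, Matrix.cons_val_zero, Matrix.cons_val_one] <;>
    constructor <;> linarith

end bounds

theorem stage_succ (a m : ℕ) (h : Stage a m) : Stage a (m + 1) := by
  classical
  obtain ⟨I, J, _, _, P, q, ν, N, s, t, hI, hJ, hL, hq, hc, hA, hb, hF⟩ := h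
  -- the exponents
  set e0 := (a + 11) * m ^ 2 with he0
  set e1 := (a + 11) * (m + 1) ^ 2 with he1
  set e2 := (a + 11) * (m + 1 + 1) ^ 2 with he2
  set g := 4 + (a + 10) * m with hg
  have k1 : e0 + (a + 11) ≤ e1 := by rw [he0, he1]; nlinarith
  have k2 : 7 ≤ e1 := by omega
  have k3 : a + 3 + g ≤ e1 := by rw [he1, hg]; nlinarith
  have k4 : e1 + 7 ≤ e2 := by rw [he1, he2]; nlinarith
  have k5 : e0 + a + g + 7 ≤ e1 := by rw [he0, he1, hg]; nlinarith
  obtain ⟨f1, hf1⟩ := Nat.exists_eq_add_of_le k2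
  obtain ⟨f2, hf2⟩ := Nat.exists_eq_add_of_le k3
  obtain ⟨f3, hf3⟩ := Nat.exists_eq_add_of_le k4
  obtain ⟨f4, hf4⟩ := Nat.exists_eq_add_of_le k5
  have p2 : ∀ n : ℕ, (0 : ℝ) < 2 ^ n := fun n => by positivity
  have hLa : (2 : ℝ) ^ e1 = 128 * ((2 ^ f1 : ℤ) : ℝ) := by
    rw [hf1, pow_add]; push_cast; norm_num
  have hτ : (((2 : ℤ) ^ f2 : ℤ) : ℝ) / 2 ^ e1 = (1 / 2 : ℝ) ^ (a + 3 + g) := by
    rw [hf2, pow_add 2 (a + 3 + g) f2]; push_cast
    rw [one_div, inv_pow]
    have := (p2 (a + 3 + g)).ne'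
    have := (p2 f2).ne'
    field_simp
  have hτ' : (1 / 2 : ℝ) ^ (a + 3 + g) = (1 / 2 : ℝ) ^ a * (1 / 2 : ℝ) ^ g / 8 := by
    rw [pow_add, pow_add]; ring
  have hα0 : (0 : ℝ) < (1 / 2 : ℝ) ^ a := by positivity
  have hα1 : (1 / 2 : ℝ) ^ a ≤ 1 := pow_le_one₀ (by norm_num) (by norm_num)
  have hG0 : (0 : ℝ) < (1 / 2 : ℝ) ^ g := by positivity
  have hG1 : (1 / 2 : ℝ) ^ g ≤ 1 / 16 := by
    rw [hg, pow_add]
    have : (1 / 2 : ℝ) ^ ((a + 10) * m) ≤ 1 := pow_le_one₀ (by norm_num) (by norm_num)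
    have : (0 : ℝ) < (1 / 2 : ℝ) ^ ((a + 10) * m) := by positivity
    norm_num at *
    linarith
  have hαG : (1 / 2 : ℝ) ^ a * (1 / 2 : ℝ) ^ g ≤ (1 / 2 : ℝ) ^ g := by
    have := mul_le_mul_of_nonneg_right hα1 hG0.le
    linarith
  have hαG0 : 0 < (1 / 2 : ℝ) ^ a * (1 / 2 : ℝ) ^ g := mul_pos hα0 hG0
  have hLev := Lev.ext (lam := 2 ^ f1) (th := 2 ^ f2) (mu := 2 ^ f3) hL hLa (one_le_pow₀ (by norm_num))
    (by rw [hτ]; positivity) (by rw [hτ, hτ']; linarith) hα0 hG0 (by rw [hτ, hτ']; linarith)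
    (by rw [hτ, hτ']; linarith) (by positivity) (by
      have e : (1 / 2 : ℝ) ^ a * (1 / 2 : ℝ) ^ g * 2 ^ e1 = 2 ^ (e0 + 7 + f4) := by
        rw [hf4]
        have : (2 : ℝ) ^ (e0 + a + g + 7 + f4) = 2 ^ a * 2 ^ g * 2 ^ (e0 + 7 + f4) := by
          rw [← pow_add, ← pow_add]; congr 1; omega
        rw [this, one_div, inv_pow, inv_pow]
        have := (p2 a).ne'
        have := (p2 g).ne'
        field_simp
      rw [e]
      have : (2 : ℝ) ^ (e0 + 7 + f4) = 128 * 2 ^ e0 * 2 ^ f4 := by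
        rw [pow_add, pow_add]; ring
      rw [this]
      have h1 : (1 : ℝ) ≤ 2 ^ f4 := one_le_pow₀ (by norm_num)
      have h2 := p2 e0
      nlinarith [mul_le_mul_of_nonneg_left h1 h2.le])
    (by
      have : (2 : ℝ) ^ e0 ≤ 2 ^ e1 := pow_le_pow_right₀ (by norm_num) (by omega)
      linarith) (by positivity)
  have hok : ∀ x ∈ P.feasible, Ok (((2 : ℤ) ^ f2 : ℤ) / 2 ^ e1) (uu P x) (qv q ((2 : ℝ) ^ e1) x) := fun x hx => by
    have := hL.rg x hx
    refine ⟨by rw [hτ]; positivity, by rw [hτ, hτ']; linarith, this.1, this.2.1, this.2.2.1, this.2.2.2⟩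
  have Gd : Good P q (2 ^ f1) (2 ^ f2) ((2 : ℝ) ^ e1) := ⟨hLa, by positivity, hok⟩
  have e3 : (2 : ℤ) ^ e1 = 128 * 2 ^ f1 := by rw [hf1, pow_add]; norm_num
  have e5 : (2 : ℤ) ^ (e1 + 2) = 512 * 2 ^ f1 := by rw [pow_add, e3]; ring
  refine ⟨I ⊕ Fin 5, J ⊕ Fin 2, inferInstance, inferInstance, ext P q (2 ^ f1) (2 ^ f2), qn q (2 ^ f3),
    nm' ν N, N + 7, lift P q ((2 : ℝ) ^ e1) (2 ^ f2) 0 s, lift P q ((2 : ℝ) ^ e1) (2 ^ f2) 4 t,
    by rw [Fintype.card_sum, hI, Fintype.card_fin]; ring,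
    by rw [Fintype.card_sum, hJ, Fintype.card_fin]; ring, ?_, ?_, ?_, ?_, ?_, ?_⟩
  · have a1 : (2 : ℝ) ^ e2 = 128 * 2 ^ e1 * ((2 ^ f3 : ℤ) : ℝ) := by
      rw [hf3, pow_add, pow_add]; push_cast; ring
    have a2 : (1 / 2 : ℝ) ^ (4 + (a + 10) * (m + 1)) = ((2 ^ f2 : ℤ) : ℝ) / 2 ^ e1 / 128 := by
      rw [hτ]
      have : 4 + (a + 10) * (m + 1) = (a + 3 + g) + 7 := by rw [hg]; ring
      rw [this, pow_add]; norm_num; ring
    have a3 : 4 * (2 ^ (m + 1) - 1) = 2 * (4 * (2 ^ m - 1)) + 4 := by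
      have : 1 ≤ 2 ^ m := Nat.one_le_two_pow
      rw [pow_succ]; omega
    rw [a1, a2, a3]
    exact hLev
  · -- q
    intro j
    have h := qn_bound (q := q) (lam := 2 ^ f1) (mu := 2 ^ f3) (by positivity) (one_le_pow₀ (by norm_num)) (fun j => ⟨(hq j).1, by
      have := (hq j).2
      rw [e3] at this
      linarith⟩) j
    refine ⟨h.1, ?_⟩
    have e4 : (2 : ℤ) ^ e2 = 128 * 2 ^ f1 * 128 * 2 ^ f3 := by rw [hf3, pow_add, pow_add, e3]; norm_num
    rw [e4]
    have h5 : (0 : ℤ) < 2 ^ f1 * 2 ^ f3 := by positivity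
    linarith [h.2]
  · exact ext_c
  · -- A
    rintro (i | k) j
    · rcases j with j | l
      · refine (hA i j).trans (pow_le_pow_right₀ (by norm_num) ?_)
        omega
      · simp [ext]
    · refine (ext_A (one_le_pow₀ (by norm_num)) (fun j => ⟨(hq j).1, by
        have := (hq j).2
        rw [e3] at this
        linarith⟩) hc k j).trans ?_
      rw [e5]
      have : (0 : ℤ) < 2 ^ f1 := by positivity
      linarith
  · -- b
    rintro (i | k)
    · refine (hb i).trans (pow_le_pow_right₀ (by norm_num) ?_)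
      omega
    · rw [e5]
      refine ext_b (one_le_pow₀ (by norm_num)) (by positivity) (pow_le_pow_right₀ (by norm_num) ?_) k
      have : 7 ≤ a + 3 + g := by rw [hg]; omega
      omega
  · -- finitely many vertices
    refine (Set.Finite.subset (Set.finite_iUnion fun i : Fin 7 => hF.image (lift P q ((2 : ℝ) ^ e1) (2 ^ f2) i)) ?_)
    intro w hw
    obtain ⟨i, x, hx, rfl⟩ := ext_cases Gd hw
    exact Set.mem_iUnion.2 ⟨i, x, hx, rfl⟩

theorem stage (a m : ℕ) : Stage a m := by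
  induction m with
  | zero => exact stage_zero a
  | succ m ih => exact stage_succ a m ih

section
variable {I J : Type} [Fintype I] [Fintype J]

/-- leaving a vertex for another feasible point one leaves a tight constraint -/
theorem exists_leaves {P : LP I J} {x y : J → ℝ} (hx : x ∈ P.feasible.extremePoints ℝ) (hy : y ∈ P.feasible)
    (hne : y ≠ x) : ∃ κ, Leaves P x y κ := by
  classical
  by_contra hno
  have hxf := (feas_iff P x).1 hx.1
  have hyf := (feas_iff P y).1 hy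
  have h0 : ∀ κ, slack P x κ = 0 → slack P y κ = 0 := by
    intro κ hκ
    by_contra h1
    exact hno ⟨κ, hκ, lt_of_le_of_ne (hyf κ) (Ne.symm h1)⟩
  obtain ⟨ε, hε, hε1⟩ : ∃ ε : ℝ, 0 < ε ∧ ∀ κ, ε * slack P y κ ≤ slack P x κ := by
    have hfin : ∃ ε : ℝ, 0 < ε ∧ ∀ κ ∈ (Finset.univ : Finset (I ⊕ J)), ε * slack P y κ ≤ slack P x κ := by
      induction (Finset.univ : Finset (I ⊕ J)) using Finset.induction_on with
      | empty => exact ⟨1, one_pos, by simp⟩
      | insert κ F hκ ih =>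
        obtain ⟨ε, hε, h⟩ := ih
        by_cases hκT : slack P x κ = 0
        · refine ⟨ε, hε, ?_⟩
          intro κ' hκ'
          rcases Finset.mem_insert.1 hκ' with h1 | h1
          · rw [h1, h0 κ hκT, hκT]; simp
          · exact h κ' h1
        · have hpos : 0 < slack P x κ := lt_of_le_of_ne (hxf κ) (Ne.symm hκT)
          refine ⟨min ε (slack P x κ / (slack P y κ + 1)), lt_min hε (div_pos hpos (by linarith [hyf κ])), ?_⟩
          intro κ' hκ'
          rcases Finset.mem_insert.1 hκ' with h1 | h1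
          · rw [h1]
            have h2 : 0 < slack P y κ + 1 := by linarith [hyf κ]
            calc min ε (slack P x κ / (slack P y κ + 1)) * slack P y κ
                ≤ (slack P x κ / (slack P y κ + 1)) * slack P y κ :=
                  mul_le_mul_of_nonneg_right (min_le_right _ _) (hyf κ)
              _ ≤ (slack P x κ / (slack P y κ + 1)) * (slack P y κ + 1) :=
                  mul_le_mul_of_nonneg_left (by linarith) (div_nonneg hpos.le h2.le)
              _ = slack P x κ := div_mul_cancel₀ _ h2.ne'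
          · exact (mul_le_mul_of_nonneg_right (min_le_left _ _) (hyf κ')).trans (h κ' h1)
    obtain ⟨ε, hε, h⟩ := hfin
    exact ⟨ε, hε, fun κ => h κ (Finset.mem_univ _)⟩
  set v : J → ℝ := (1 + ε) • x + (-ε) • y with hv
  have hvf : v ∈ P.feasible := by
    rw [feas_iff]
    intro κ
    rw [hv, slack_affine P x y _ _ (by ring)]
    have := hε1 κ
    have := mul_nonneg hε.le (hxf κ)
    linarith
  have hcomb : (1 / (1 + ε)) • v + (ε / (1 + ε)) • y = x := by
    rw [hv, smul_add, smul_smul, smul_smul, add_assoc, ← add_smul]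
    have e1 : 1 / (1 + ε) * (1 + ε) = 1 := by field_simp
    have e2 : 1 / (1 + ε) * -ε + ε / (1 + ε) = 0 := by field_simp; ring
    rw [e1, e2, one_smul, zero_smul, add_zero]
  have h1 : v = x := hx.2 hvf hy ⟨1 / (1 + ε), ε / (1 + ε), by positivity, by positivity, by field_simp, hcomb⟩
  apply hne
  have h2 : ε • (x - y) = 0 := by
    have : v - x = ε • (x - y) := by rw [hv]; module
    rw [← this, h1, sub_self]
  rcases smul_eq_zero.1 h2 with h3 | h3
  · exact absurd h3 hε.ne'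
  · exact (sub_eq_zero.1 h3).symm

theorem pivot_leaves {P : LP I J} {x y : J → ℝ} (h : P.Pivot x y) : ∃ κ, Leaves P x y κ :=
  exists_leaves (edge_ext h.1) (edge_mem h.1).2 h.1.1.symm

/-- sequences of pivots -/
theorem upath_of {P : LP I J} {ν : I ⊕ J → ℕ} {α : ℝ} : ∀ (T : ℕ) (x : ℕ → J → ℝ),
    (∀ k < T, P.Pivot (x k) (x (k + 1)) ∧ ¬ Dominated P ν α (x k) (x (k + 1))) → UPath P ν α T (x 0) (x T)
  | 0, x, _ => UPath.nil _
  | T + 1, x, h => by
    have h0 := h 0 (Nat.succ_pos _)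
    refine UPath.cons h0.1 h0.2 ?_
    exact upath_of T (fun k => x (k + 1)) fun k hk => h (k + 1) (Nat.succ_lt_succ hk)

end

end Pool.Agent.Run7.h689.GR
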