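import Mathlib
set_option autoImplicit false

/-!
# A family of linear programs: polygons with a long and a short side, and switches
-/

namespace Pool.Agent.Run7.h689.HP

open Set

/-- a linear program: maximise `c x` subject to `A x ≤ b`, `x ≥ 0` -/
structure LP (I J : Type) where
  A : I → J → ℤ
  b : I → ℤ
  c : J → ℤ

variable {I J : Type} [Fintype J]

/-- the feasible region -/
def LP.feasible (P : LP I J) : Set (J → ℝ) :=
  {x | (∀ j, 0 ≤ x j) ∧ ∀ i, ∑ j, (P.A i j : ℝ) * x j ≤ P.b i}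

/-- the value of a point -/
def LP.value (P : LP I J) (x : J → ℝ) : ℝ := ∑ j, (P.c j : ℝ) * x j

/-- `x` and `y` are the ends of an edge of the feasible region: the segment between them is the set
of the maximisers of some linear function -/
def LP.Edge (P : LP I J) (x y : J → ℝ) : Prop :=
  x ≠ y ∧ ∃ d : J → ℝ,
    {u | u ∈ P.feasible ∧ ∀ w ∈ P.feasible, ∑ j, d j * w j ≤ ∑ j, d j * u j} = segment ℝ x y

/-- a pivot -/
def LP.Pivot (P : LP I J) (x y : J → ℝ) : Prop := P.Edge x y ∧ P.value x < P.value y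

/-- a simplex path with `T` pivots from `v` to an optimal point -/
def LP.Path (P : LP I J) (v : J → ℝ) (T : ℕ) (x : ℕ → J → ℝ) : Prop :=
  x 0 = v ∧ (∀ s < T, P.Pivot (x s) (x (s + 1))) ∧ ∀ y ∈ P.feasible, P.value y ≤ P.value (x T)

theorem edge_mid {P : LP I J} {x y : J → ℝ} (h : P.Edge x y) {α β : J → ℝ} (hα : α ∈ P.feasible)
    (hβ : β ∈ P.feasible) (hs : α + β = x + y) : α ∈ segment ℝ x y := by
  obtain ⟨-, d, hd⟩ := h
  have hx : x ∈ segment ℝ x y := left_mem_segment ℝ x y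
  have hy : y ∈ segment ℝ x y := right_mem_segment ℝ x y
  rw [← hd] at hx hy ⊢
  have e : ∑ j, d j * α j + ∑ j, d j * β j = ∑ j, d j * x j + ∑ j, d j * y j := by
    rw [← Finset.sum_add_distrib, ← Finset.sum_add_distrib]
    apply Finset.sum_congr rfl
    intro j _
    have := congrFun hs j
    simp only [Pi.add_apply] at this
    rw [← mul_add, ← mul_add, this]
  have h1 := hx.2 β hβ
  have h2 := hy.2 x hx.1
  have h3 := hx.2 y hy.1
  refine ⟨hα, fun w hw => ?_⟩
  have h4 := hx.2 w hw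
  linarith

theorem edge_mem {P : LP I J} {x y : J → ℝ} (h : P.Edge x y) : x ∈ P.feasible ∧ y ∈ P.feasible := by
  obtain ⟨-, d, hd⟩ := h
  have hx : x ∈ segment ℝ x y := left_mem_segment ℝ x y
  have hy : y ∈ segment ℝ x y := right_mem_segment ℝ x y
  rw [← hd] at hx hy
  exact ⟨hx.1, hy.1⟩

theorem edge_dir {P : LP I J} {x y : J → ℝ} (h : P.Edge x y) {v : J → ℝ} (hv : v ≠ 0)
    (h1 : (1 / 2 : ℝ) • (x + y) + v ∈ P.feasible) (h2 : (1 / 2 : ℝ) • (x + y) - v ∈ P.feasible) :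
    ∃ μ : ℝ, y = x + μ • v := by
  have h3 := edge_mid h h1 h2 (by module)
  rw [segment_eq_image'] at h3
  obtain ⟨l, -, hl⟩ := h3
  simp only at hl
  have e : v = (l - 1 / 2) • (y - x) := by
    have : v = (x + l • (y - x)) - (1 / 2 : ℝ) • (x + y) := by rw [hl]; module
    rw [this]
    module
  have hl0 : l - 1 / 2 ≠ 0 := by
    intro h0
    rw [h0, zero_smul] at e
    exact hv e
  refine ⟨(l - 1 / 2)⁻¹, ?_⟩
  rw [e, smul_smul, inv_mul_cancel₀ hl0]
  module

section
variable {E G : Type} [Fintype E] [Fintype G] [DecidableEq E] [DecidableEq G]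

/-- the data: `E` is the set of switches, `G` is the set of polygons -/
structure Data (E G : Type) where
  L : ℕ
  U : E → G → ℤ
  u : E → ℤ
  g : G → ℤ
  M : ℤ

/-- the linear program -/
def Data.lp (D : Data E G) : LP (E ⊕ (G ⊕ (G × Fin D.L))) (E ⊕ (G ⊕ G)) where
  A
  | .inl e, .inl e' => if e' = e then 1 else 0
  | .inl e, .inr (.inl j) => -D.U e j
  | .inl _, .inr (.inr _) => 0
  | .inr (.inl _), .inl _ => 0
  | .inr (.inl j), .inr (.inl j') => if j' = j then 1 else 0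
  | .inr (.inl _), .inr (.inr _) => 0
  | .inr (.inr _), .inl _ => 0
  | .inr (.inr (j, i)), .inr (.inl j') => if j' = j then -((D.L : ℤ) - (i.1 : ℤ)) else 0
  | .inr (.inr (j, _)), .inr (.inr j') => if j' = j then 1 else 0
  b
  | .inl e => D.u e
  | .inr (.inl _) => D.L
  | .inr (.inr (_, i)) => (i.1 : ℤ) * (i.1 + 1) / 2 + 1
  c
  | .inl _ => 2
  | .inr (.inl j) => D.g j
  | .inr (.inr _) => D.M

/-- the upper bound of a switch -/
def Data.ub (D : Data E G) (e : E) (a : G → ℝ) : ℝ := D.u e + ∑ j, (D.U e j : ℝ) * a j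

/-- the polygon -/
def Poly (L : ℕ) (a b : ℝ) : Prop :=
  0 ≤ a ∧ 0 ≤ b ∧ a ≤ L ∧ ∀ i : Fin L, b ≤ ((L : ℝ) - i.1) * a + ((i.1 : ℝ) * (i.1 + 1) / 2 + 1)

theorem cast_half (i : ℕ) : ((((i : ℤ) * (i + 1) / 2 + 1 : ℤ)) : ℝ) = (i : ℝ) * (i + 1) / 2 + 1 := by
  have h : (2 : ℤ) ∣ (i : ℤ) * (i + 1) := (Int.even_mul_succ_self (i : ℤ)).two_dvd
  push_cast
  rw [Int.cast_div h (by norm_num)]
  push_cast
  ring

theorem mem_iff (D : Data E G) (w : E ⊕ (G ⊕ G) → ℝ) : w ∈ D.lp.feasible ↔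
    (∀ e, 0 ≤ w (.inl e) ∧ w (.inl e) ≤ D.ub e (fun j => w (.inr (.inl j)))) ∧
    ∀ j, Poly D.L (w (.inr (.inl j))) (w (.inr (.inr j))) := by
  unfold LP.feasible
  simp only [mem_ofPred_eq]
  have h1 : ∀ e : E, ∑ j, (D.lp.A (.inl e) j : ℝ) * w j =
      w (.inl e) - ∑ j, (D.U e j : ℝ) * w (.inr (.inl j)) := by
    intro e
    rw [Fintype.sum_sum_type, Fintype.sum_sum_type]
    simp only [Data.lp]
    simp [sub_eq_add_neg]
  have h2 : ∀ j : G, ∑ c, (D.lp.A (.inr (.inl j)) c : ℝ) * w c = w (.inr (.inl j)) := by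
    intro j
    rw [Fintype.sum_sum_type, Fintype.sum_sum_type]
    simp only [Data.lp]
    simp
  have h3 : ∀ (j : G) (i : Fin D.L), ∑ c, (D.lp.A (.inr (.inr (j, i))) c : ℝ) * w c =
      w (.inr (.inr j)) - ((D.L : ℝ) - i.1) * w (.inr (.inl j)) := by
    intro j i
    rw [Fintype.sum_sum_type, Fintype.sum_sum_type]
    simp only [Data.lp]
    simp only [Int.cast_zero, zero_mul, Finset.sum_const_zero, zero_add, Int.cast_ite, ite_mul,
      Finset.sum_ite_eq', Finset.mem_univ, if_true]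
    push_cast
    ring
  have b1 : ∀ e : E, (D.lp.b (.inl e) : ℝ) = D.u e := fun e => rfl
  have b2 : ∀ j : G, (D.lp.b (.inr (.inl j)) : ℝ) = D.L := fun j => by simp [Data.lp]
  have b3 : ∀ (j : G) (i : Fin D.L), (D.lp.b (.inr (.inr (j, i))) : ℝ) = (i.1 : ℝ) * (i.1 + 1) / 2 + 1 :=
    fun j i => cast_half i.1
  constructor
  · rintro ⟨hp, hq⟩
    refine ⟨fun e => ⟨hp _, ?_⟩, fun j => ⟨hp _, hp _, ?_, fun i => ?_⟩⟩
    · have := hq (.inl e)
      rw [h1, b1] at this
      unfold Data.ub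
      linarith
    · have := hq (.inr (.inl j))
      rwa [h2, b2] at this
    · have := hq (.inr (.inr (j, i)))
      rw [h3, b3] at this
      linarith
  · rintro ⟨hp, hq⟩
    refine ⟨?_, ?_⟩
    · rintro (e | j | j)
      · exact (hp e).1
      · exact (hq j).1
      · exact (hq j).2.1
    · rintro (e | j | ⟨j, i⟩)
      · rw [h1, b1]
        have := (hp e).2
        unfold Data.ub at this
        linarith
      · rw [h2, b2]
        exact (hq j).2.2.1
      · rw [h3, b3]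
        have := (hq j).2.2.2 i
        linarith

theorem value_eq (D : Data E G) (w : E ⊕ (G ⊕ G) → ℝ) : D.lp.value w =
    2 * ∑ e, w (.inl e) + (∑ j, (D.g j : ℝ) * w (.inr (.inl j)) + D.M * ∑ j, w (.inr (.inr j))) := by
  unfold LP.value
  rw [Fintype.sum_sum_type, Fintype.sum_sum_type]
  simp only [Data.lp]
  rw [Finset.mul_sum, Finset.mul_sum]
  norm_num

end

end Pool.Agent.Run7.h689.HP
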