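import Pool.Agent.Run7.h689.HP1
set_option autoImplicit false
set_option linter.unusedSectionVars false

/-!
# Every short path switches the right switches in the right order
-/

namespace Pool.Agent.Run7.h689.HP

open Set

section
variable {E G : Type} [Fintype E] [Fintype G] [DecidableEq E] [DecidableEq G]

/-- the switches have positive length everywhere -/
def Data.Pos (D : Data E G) : Prop := ∀ e, ∀ a : G → ℝ, (∀ j, 0 ≤ a j ∧ a j ≤ D.L) → 0 < D.ub e a

/-- the first coordinates of the polygons -/
def pa (w : E ⊕ (G ⊕ G) → ℝ) : G → ℝ := fun j => w (.inr (.inl j))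

/-- the second coordinates of the polygons -/
def pb (w : E ⊕ (G ⊕ G) → ℝ) : G → ℝ := fun j => w (.inr (.inr j))

/-- the switches which are on -/
def on (D : Data E G) (w : E ⊕ (G ⊕ G) → ℝ) : Set E := {e | w (.inl e) = D.ub e (pa w)}

theorem ub_affine (D : Data E G) (e : E) (a a' : G → ℝ) (s t : ℝ) (h : s + t = 1) :
    D.ub e (s • a + t • a') = s * D.ub e a + t * D.ub e a' := by
  unfold Data.ub
  simp only [Pi.add_apply, Pi.smul_apply, smul_eq_mul, mul_add, Finset.sum_add_distrib, Finset.mul_sum]
  have e1 : ∀ j, (D.U e j : ℝ) * (s * a j) = s * ((D.U e j : ℝ) * a j) := fun j => by ring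
  have e2 : ∀ j, (D.U e j : ℝ) * (t * a' j) = t * ((D.U e j : ℝ) * a' j) := fun j => by ring
  simp only [e1, e2]
  have : (D.u e : ℝ) = s * D.u e + t * D.u e := by rw [← add_mul, h, one_mul]
  linarith

theorem poly_convex {L : ℕ} {a b a' b' s t : ℝ} (h : Poly L a b) (h' : Poly L a' b')
    (hs : 0 ≤ s) (ht : 0 ≤ t) (hst : s + t = 1) : Poly L (s * a + t * a') (s * b + t * b') := by
  obtain ⟨h1, h2, h3, h4⟩ := h
  obtain ⟨g1, g2, g3, g4⟩ := h'
  refine ⟨by positivity, by positivity, ?_, fun i => ?_⟩
  · have e1 := mul_le_mul_of_nonneg_left h3 hs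
    have e2 := mul_le_mul_of_nonneg_left g3 ht
    calc s * a + t * a' ≤ s * L + t * L := add_le_add e1 e2
      _ = L := by rw [← add_mul, hst, one_mul]
  · have e1 := mul_le_mul_of_nonneg_left (h4 i) hs
    have e2 := mul_le_mul_of_nonneg_left (g4 i) ht
    calc s * b + t * b' ≤ s * (((L : ℝ) - i.1) * a + ((i.1 : ℝ) * (i.1 + 1) / 2 + 1)) +
          t * (((L : ℝ) - i.1) * a' + ((i.1 : ℝ) * (i.1 + 1) / 2 + 1)) := add_le_add e1 e2
      _ = ((L : ℝ) - i.1) * (s * a + t * a') + (s + t) * ((i.1 : ℝ) * (i.1 + 1) / 2 + 1) := by ring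
      _ = _ := by rw [hst, one_mul]

/-- the point with given polygon coordinates whose switches in `S` are on -/
noncomputable def Gam (D : Data E G) (S : Set E) (a b : G → ℝ) : E ⊕ (G ⊕ G) → ℝ := by
  classical
  exact Sum.elim (fun e => if e ∈ S then D.ub e a else 0) (Sum.elim a b)

theorem Gam_inl (D : Data E G) (S : Set E) (a b : G → ℝ) (e : E) [Decidable (e ∈ S)] :
    Gam D S a b (.inl e) = if e ∈ S then D.ub e a else 0 := by
  unfold Gam
  simp only [Sum.elim_inl]
  split_ifs <;> rfl

theorem Gam_a (D : Data E G) (S : Set E) (a b : G → ℝ) (j : G) : Gam D S a b (.inr (.inl j)) = a j := rfl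

theorem Gam_b (D : Data E G) (S : Set E) (a b : G → ℝ) (j : G) : Gam D S a b (.inr (.inr j)) = b j := rfl

theorem Gam_mem {D : Data E G} (hD : D.Pos) (S : Set E) {a b : G → ℝ} (h : ∀ j, Poly D.L (a j) (b j)) :
    Gam D S a b ∈ D.lp.feasible := by
  classical
  rw [mem_iff]
  refine ⟨fun e => ?_, h⟩
  have h1 : 0 < D.ub e a := hD e a fun j => ⟨(h j).1, (h j).2.2.1⟩
  rw [Gam_inl]
  simp only [Gam_a]
  split_ifs
  · exact ⟨h1.le, le_rfl⟩
  · exact ⟨le_rfl, h1.le⟩

theorem Gam_value (D : Data E G) (S : Finset E) (a b : G → ℝ) : D.lp.value (Gam D (S : Set E) a b) =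
    2 * ∑ e ∈ S, (D.u e : ℝ) + ∑ j, (2 * ∑ e ∈ S, (D.U e j : ℝ) + D.g j) * a j + D.M * ∑ j, b j := by
  classical
  rw [value_eq]
  simp only [Gam_inl, Gam_a, Gam_b, Finset.mem_coe]
  rw [Finset.sum_ite_mem, Finset.univ_inter]
  unfold Data.ub
  rw [Finset.sum_add_distrib, Finset.sum_comm]
  have : ∀ j, (2 * ∑ e ∈ S, (D.U e j : ℝ) + D.g j) * a j =
      2 * ∑ e ∈ S, (D.U e j : ℝ) * a j + D.g j * a j := by
    intro j
    rw [add_mul, mul_assoc, Finset.sum_mul]
  simp only [this]
  rw [Finset.sum_add_distrib, ← Finset.mul_sum]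
  ring

/-- the two possible kinds of steps -/
theorem step_cases {D : Data E G} (hD : D.Pos) {w w' : E ⊕ (G ⊕ G) → ℝ} (h : D.lp.Pivot w w') :
    (∃ (e : E) (μ : ℝ), 0 < μ ∧ w' = w + μ • Pi.single (.inl e) 1) ∨
    ∃ (S : Set E) (j : G), w = Gam D S (pa w) (pb w) ∧ w' = Gam D S (pa w') (pb w') ∧
      (∀ i, i ≠ j → pa w' i = pa w i ∧ pb w' i = pb w i) ∧
      (pa w j ≠ pa w' j ∨ pb w j ≠ pb w' j) ∧
      ∀ α β α' β', Poly D.L α β → Poly D.L α' β' → α + α' = pa w j + pa w' j → β + β' = pb w j + pb w' j →
        ∃ l : ℝ, α = pa w j + l * (pa w' j - pa w j) ∧ β = pb w j + l * (pb w' j - pb w j) := by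
  classical
  obtain ⟨hE, hval⟩ := h
  obtain ⟨hw, hw'⟩ := edge_mem hE
  have hne := hE.1
  rw [mem_iff] at hw hw'
  set z : E ⊕ (G ⊕ G) → ℝ := (1 / 2 : ℝ) • (w + w') with hz
  have hzc : ∀ c, z c = (w c + w' c) / 2 := by
    intro c
    simp only [hz, Pi.smul_apply, Pi.add_apply, smul_eq_mul]
    ring
  have hza : pa z = (1 / 2 : ℝ) • pa w + (1 / 2 : ℝ) • pa w' := by
    funext j
    simp only [pa, Pi.add_apply, Pi.smul_apply, smul_eq_mul, hzc]
    ring
  have hubz : ∀ e, D.ub e (pa z) = (D.ub e (pa w) + D.ub e (pa w')) / 2 := by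
    intro e
    rw [hza, ub_affine D e _ _ _ _ (by norm_num)]
    ring
  have hzP : ∀ j, Poly D.L (z (.inr (.inl j))) (z (.inr (.inr j))) := by
    intro j
    have := poly_convex (hw.2 j) (hw'.2 j) (by norm_num : (0 : ℝ) ≤ 1 / 2) (by norm_num : (0 : ℝ) ≤ 1 / 2) (by norm_num)
    rw [hzc, hzc]
    convert this using 1 <;> ring
  by_cases hA : ∃ e, 0 < z (.inl e) ∧ z (.inl e) < D.ub e (pa z)
  · left
    obtain ⟨e, h1, h2⟩ := hA
    set ε := min (z (.inl e)) (D.ub e (pa z) - z (.inl e)) with hε
    have hε0 : 0 < ε := lt_min h1 (by linarith)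
    have hε1 : ε ≤ z (.inl e) := min_le_left _ _
    have hε2 : ε ≤ D.ub e (pa z) - z (.inl e) := min_le_right _ _
    set v : E ⊕ (G ⊕ G) → ℝ := ε • Pi.single (.inl e) 1 with hv
    have hvl : ∀ e' : E, v (.inl e') = if e' = e then ε else 0 := by
      intro e'
      simp only [hv, Pi.smul_apply, Pi.single_apply, Sum.inl.injEq, smul_eq_mul]
      split_ifs <;> simp
    have hvr : ∀ c : G ⊕ G, v (.inr c) = 0 := by
      intro c
      simp only [hv, Pi.smul_apply, Pi.single_apply, smul_eq_mul]
      simp
    have hv0 : v ≠ 0 := by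
      intro h0
      have := congrFun h0 (.inl e)
      rw [hvl, if_pos rfl] at this
      exact hε0.ne' this
    have hmem : ∀ s : ℝ, |s| ≤ 1 → z + s • v ∈ D.lp.feasible := by
      intro s hs
      rw [abs_le] at hs
      rw [mem_iff]
      have ha : (fun j => (z + s • v) (.inr (.inl j))) = pa z := by
        funext j
        simp only [Pi.add_apply, Pi.smul_apply, hvr, smul_eq_mul, mul_zero, add_zero, pa]
      refine ⟨fun e' => ?_, fun j => ?_⟩
      · rw [ha]
        simp only [Pi.add_apply, Pi.smul_apply, hvl, smul_eq_mul]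
        by_cases he : e' = e
        · subst he
          rw [if_pos rfl]
          constructor <;> nlinarith [hs.1, hs.2]
        · rw [if_neg he, mul_zero, add_zero, hzc, hubz]
          have g1 := hw.1 e'
          have g2 := hw'.1 e'
          have e1 : (fun j => w (.inr (.inl j))) = pa w := rfl
          have e2 : (fun j => w' (.inr (.inl j))) = pa w' := rfl
          rw [e1] at g1
          rw [e2] at g2
          constructor
          · linarith [g1.1, g2.1]
          · linarith [g1.2, g2.2]
      · simp only [Pi.add_apply, Pi.smul_apply, hvr, smul_eq_mul, mul_zero, add_zero]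
        exact hzP j
    obtain ⟨μ, hμ⟩ := edge_dir hE hv0 (by
      have := hmem 1 (by norm_num)
      rwa [one_smul] at this) (by
      have := hmem (-1) (by norm_num)
      rwa [neg_one_smul, ← sub_eq_add_neg] at this)
    refine ⟨e, μ * ε, ?_, by rw [hμ, hv, smul_smul]⟩
    have e1 : D.lp.value w' = D.lp.value w + 2 * (μ * ε) := by
      rw [value_eq, value_eq, hμ]
      simp only [Pi.add_apply, Pi.smul_apply, hvl, hvr, smul_eq_mul, mul_zero, add_zero, mul_ite,
        Finset.sum_add_distrib, Finset.sum_ite_eq', Finset.mem_univ, if_true]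
      ring
    rw [e1] at hval
    linarith
  · right
    push Not at hA
    have hwa : ∀ e, 0 ≤ w (.inl e) ∧ w (.inl e) ≤ D.ub e (pa w) := hw.1
    have hwa' : ∀ e, 0 ≤ w' (.inl e) ∧ w' (.inl e) ≤ D.ub e (pa w') := hw'.1
    set S : Set E := {e | 0 < z (.inl e)} with hS
    have hon : ∀ e ∈ S, w (.inl e) = D.ub e (pa w) ∧ w' (.inl e) = D.ub e (pa w') := by
      intro e he
      have h1 := hA e he
      rw [hzc, hubz] at h1
      have := hwa e
      have := hwa' e
      constructor <;> linarith [(hwa e).2, (hwa' e).2]
    have hoff : ∀ e ∉ S, w (.inl e) = 0 ∧ w' (.inl e) = 0 := by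
      intro e he
      have h1 : z (.inl e) ≤ 0 := not_lt.1 he
      rw [hzc] at h1
      constructor <;> linarith [(hwa e).1, (hwa' e).1]
    have hwG : w = Gam D S (pa w) (pb w) := by
      funext c
      rcases c with e | j | j
      · rw [Gam_inl]
        split_ifs with he
        · exact (hon e he).1
        · exact (hoff e he).1
      · rfl
      · rfl
    have hwG' : w' = Gam D S (pa w') (pb w') := by
      funext c
      rcases c with e | j | j
      · rw [Gam_inl]
        split_ifs with he
        · exact (hon e he).2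
        · exact (hoff e he).2
      · rfl
      · rfl
    have hPw : ∀ j, Poly D.L (pa w j) (pb w j) := hw.2
    have hPw' : ∀ j, Poly D.L (pa w' j) (pb w' j) := hw'.2
    have hPz : ∀ j, Poly D.L (pa z j) (pb z j) := hzP
    have hpaz : ∀ j, pa z j = (pa w j + pa w' j) / 2 := fun j => hzc _
    have hpbz : ∀ j, pb z j = (pb w j + pb w' j) / 2 := fun j => hzc _
    -- moving one polygon
    have hmove : ∀ (j : G) (α β α' β' : ℝ), Poly D.L α β → Poly D.L α' β' →
        α + α' = pa w j + pa w' j → β + β' = pb w j + pb w' j →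
        Gam D S (Function.update (pa z) j α) (Function.update (pb z) j β) ∈ segment ℝ w w' := by
      intro j α β α' β' h1 h2 h3 h4
      apply edge_mid hE (β := Gam D S (Function.update (pa z) j α') (Function.update (pb z) j β'))
      · apply Gam_mem hD
        intro i
        by_cases hi : i = j
        · subst hi; simpa using h1
        · simpa [Function.update_of_ne hi] using hPz i
      · apply Gam_mem hD
        intro i
        by_cases hi : i = j
        · subst hi; simpa using h2
        · simpa [Function.update_of_ne hi] using hPz i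
      · have ea : ∀ i, (Function.update (pa z) j α) i + (Function.update (pa z) j α') i = pa w i + pa w' i := by
          intro i
          by_cases hi : i = j
          · subst hi; simpa using h3
          · rw [Function.update_of_ne hi, Function.update_of_ne hi, hpaz]; ring
        have eb : ∀ i, (Function.update (pb z) j β) i + (Function.update (pb z) j β') i = pb w i + pb w' i := by
          intro i
          by_cases hi : i = j
          · subst hi; simpa using h4
          · rw [Function.update_of_ne hi, Function.update_of_ne hi, hpbz]; ring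
        conv_rhs => rw [hwG, hwG']
        funext c
        rcases c with e | i | i
        · simp only [Pi.add_apply, Gam_inl]
          split_ifs
          · unfold Data.ub
            have : ∑ i, (D.U e i : ℝ) * Function.update (pa z) j α i + ∑ i, (D.U e i : ℝ) * Function.update (pa z) j α' i =
                ∑ i, (D.U e i : ℝ) * pa w i + ∑ i, (D.U e i : ℝ) * pa w' i := by
              rw [← Finset.sum_add_distrib, ← Finset.sum_add_distrib]
              apply Finset.sum_congr rfl
              intro i _
              rw [← mul_add, ← mul_add, ea]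
            linarith
          · rfl
        · exact ea i
        · exact eb i
    -- some polygon changes
    have hex : ∃ j, pa w j ≠ pa w' j ∨ pb w j ≠ pb w' j := by
      by_contra hcon
      push Not at hcon
      apply hne
      have e1 : pa w = pa w' := funext fun j => (hcon j).1
      have e2 : pb w = pb w' := funext fun j => (hcon j).2
      rw [hwG, hwG', e1, e2]
    obtain ⟨j, hj⟩ := hex
    refine ⟨S, j, hwG, hwG', ?_, hj, ?_⟩
    · have h1 := hmove j _ _ _ _ (hPw j) (hPw' j) rfl rfl
      rw [segment_eq_image'] at h1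
      obtain ⟨l, -, hl⟩ := h1
      simp only at hl
      have ha := congrFun hl (.inr (.inl j))
      have hb := congrFun hl (.inr (.inr j))
      rw [Gam_a, Function.update_self] at ha
      rw [Gam_b, Function.update_self] at hb
      simp only [Pi.add_apply, Pi.smul_apply, Pi.sub_apply, smul_eq_mul] at ha hb
      have ha' : l * (pa w' j - pa w j) = 0 := by
        have : pa w j + l * (pa w' j - pa w j) = pa w j := ha
        linarith
      have hb' : l * (pb w' j - pb w j) = 0 := by
        have : pb w j + l * (pb w' j - pb w j) = pb w j := hb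
        linarith
      have hl0 : l = 0 := by
        rcases hj with h | h
        · rcases mul_eq_zero.1 ha' with h2 | h2
          · exact h2
          · exact absurd (by linarith) h
        · rcases mul_eq_zero.1 hb' with h2 | h2
          · exact h2
          · exact absurd (by linarith) h
      rw [hl0, zero_smul, add_zero] at hl
      intro i hi
      have ha := congrFun hl (.inr (.inl i))
      have hb := congrFun hl (.inr (.inr i))
      rw [Gam_a, Function.update_of_ne hi, hpaz] at ha
      rw [Gam_b, Function.update_of_ne hi, hpbz] at hb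
      have ha2 : pa w i = (pa w i + pa w' i) / 2 := ha
      have hb2 : pb w i = (pb w i + pb w' i) / 2 := hb
      constructor <;> linarith
    · intro α β α' β' h1 h2 h3 h4
      have h5 := hmove j α β α' β' h1 h2 h3 h4
      rw [segment_eq_image'] at h5
      obtain ⟨l, -, hl⟩ := h5
      simp only at hl
      refine ⟨l, ?_, ?_⟩
      · have ha := congrFun hl (.inr (.inl j))
        rw [Gam_a, Function.update_self] at ha
        exact ha.symm
      · have hb := congrFun hl (.inr (.inr j))
        rw [Gam_b, Function.update_self] at hb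
        exact hb.symm

end

end Pool.Agent.Run7.h689.HP
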