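import Pool.Agent.Run7.h689.HP2
set_option autoImplicit false
set_option linter.unusedSectionVars false

/-!
# The lower bound for the length of the paths
-/

namespace Pool.Agent.Run7.h689.HP

open Set

theorem poly_line {L : ℕ} {a b : ℝ} (h : Poly L a b) (i : Fin L)
    (he : b = ((L : ℝ) - i.1) * a + ((i.1 : ℝ) * (i.1 + 1) / 2 + 1)) : (i.1 : ℝ) ≤ a ∧ a ≤ i.1 + 1 := by
  obtain ⟨h1, h2, h3, h4⟩ := h
  constructor
  · rcases Nat.eq_zero_or_pos i.1 with h0 | h0
    · rw [h0]; simpa using h1
    · have h5 := h4 ⟨i.1 - 1, by omega⟩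
      have h6 : ((i.1 - 1 : ℕ) : ℝ) = (i.1 : ℝ) - 1 := by
        rw [Nat.cast_sub (by omega)]; simp
      simp only [h6] at h5
      rw [he] at h5
      nlinarith
  · by_cases h0 : i.1 + 1 < L
    · have h5 := h4 ⟨i.1 + 1, h0⟩
      simp only [Nat.cast_add, Nat.cast_one] at h5
      rw [he] at h5
      nlinarith
    · have h6 : L = i.1 + 1 := by have := i.2; omega
      have : (L : ℝ) = i.1 + 1 := by exact_mod_cast h6
      rw [← this]; exact h3

/-- the edges of the long side are short -/
theorem poly_step {L : ℕ} {a b a' b' : ℝ} (h : Poly L a b) (h' : Poly L a' b')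
    (hF : ∀ α β α' β', Poly L α β → Poly L α' β' → α + α' = a + a' → β + β' = b + b' →
        ∃ l : ℝ, α = a + l * (a' - a) ∧ β = b + l * (b' - b)) :
    (b = 0 ∧ b' = 0) ∨ a' ≤ a + 1 := by
  by_contra hcon
  push Not at hcon
  obtain ⟨h1, h2⟩ := hcon
  have hb : 0 < (b + b') / 2 := by
    rcases h.2.1.lt_or_eq with g | g
    · linarith [h'.2.1]
    · have : b' ≠ 0 := h1 g.symm
      have : 0 < b' := lt_of_le_of_ne h'.2.1 this.symm
      linarith [h.2.1]
  set A := (a + a') / 2 with hA
  set B := (b + b') / 2 with hB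
  set f : Fin L → ℝ := fun i => ((L : ℝ) - i.1) * A + ((i.1 : ℝ) * (i.1 + 1) / 2 + 1) - B with hf
  have hf0 : ∀ i, 0 < f i := by
    intro i
    have g1 := h.2.2.2 i
    have g2 := h'.2.2.2 i
    by_contra hn
    push Not at hn
    simp only [hf, hA, hB] at hn
    have e1 : b = ((L : ℝ) - i.1) * a + ((i.1 : ℝ) * (i.1 + 1) / 2 + 1) := by nlinarith
    have e2 : b' = ((L : ℝ) - i.1) * a' + ((i.1 : ℝ) * (i.1 + 1) / 2 + 1) := by nlinarith
    have g3 := poly_line h i e1
    have g4 := poly_line h' i e2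
    linarith [g3.1, g4.2]
  obtain ⟨ε, hε, hε1⟩ : ∃ ε : ℝ, 0 < ε ∧ ∀ i, ε ≤ f i := by
    rcases isEmpty_or_nonempty (Fin L) with he | he
    · exact ⟨1, one_pos, fun i => (he.false i).elim⟩
    · obtain ⟨i, hi⟩ := Finite.exists_min f
      exact ⟨f i, hf0 i, hi⟩
  have hP : ∀ s : ℝ, |s| ≤ min ε B → Poly L A (B + s) := by
    intro s hs
    have hs1 := (abs_le.1 hs).1
    have hs2 := (abs_le.1 hs).2
    have m1 : min ε B ≤ ε := min_le_left _ _
    have m2 : min ε B ≤ B := min_le_right _ _
    refine ⟨by linarith [h.1, h'.1], by linarith, by linarith [h.2.2.1, h'.2.2.1], fun i => ?_⟩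
    have := hε1 i
    simp only [hf] at this
    linarith
  set δ := min ε B with hδ
  have hδ0 : 0 < δ := lt_min hε hb
  obtain ⟨l, hl1, hl2⟩ := hF A (B + δ) A (B + -δ) (hP δ (by rw [abs_of_pos hδ0]))
    (hP (-δ) (by rw [abs_neg, abs_of_pos hδ0])) (by rw [hA]; ring) (by rw [hB]; ring)
  have hl : l = 1 / 2 := by
    have h3 : (l - 1 / 2) * (a' - a) = 0 := by rw [hA] at hl1; linarith
    rcases mul_eq_zero.1 h3 with h4 | h4
    · linarith
    · linarith
  rw [hl, hB] at hl2
  linarith

section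
variable {E G : Type} [Fintype E] [Fintype G] [DecidableEq E] [DecidableEq G]

theorem on_Gam {D : Data E G} (hD : D.Pos) (S : Set E) {a b : G → ℝ}
    (h : ∀ j, 0 ≤ a j ∧ a j ≤ D.L) : on D (Gam D S a b) = S := by
  classical
  ext e
  unfold on
  have h1 : pa (Gam D S a b) = a := rfl
  have h2 := hD e a h
  show Gam D S a b (.inl e) = D.ub e (pa (Gam D S a b)) ↔ e ∈ S
  rw [h1, Gam_inl]
  split_ifs with he
  · simp [he]
  · simp only [he, iff_false]
    exact h2.ne

/-- the coefficient of the first coordinate of a polygon -/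
noncomputable def coef (D : Data E G) (S : Set E) (j : G) : ℤ := by
  classical
  exact 2 * ∑ e ∈ S.toFinset, D.U e j + D.g j

/-- a pivot in which the first coordinate of the polygon `j` gets larger on the short side -/
def Event (D : Data E G) (w w' : E ⊕ (G ⊕ G) → ℝ) (j : G) : Prop :=
  0 < coef D (on D w) j ∧ pb w j = 0 ∧ pb w' j = 0

theorem pa_mem {D : Data E G} {w : E ⊕ (G ⊕ G) → ℝ} (h : w ∈ D.lp.feasible) (j : G) :
    Poly D.L (pa w j) (pb w j) := ((mem_iff D w).1 h).2 j

theorem pivot_on {D : Data E G} (hD : D.Pos) {w w' : E ⊕ (G ⊕ G) → ℝ} (h : D.lp.Pivot w w') :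
    on D w ⊆ on D w' := by
  classical
  obtain ⟨hw, hw'⟩ := edge_mem h.1
  rcases step_cases hD h with ⟨e, μ, hμ, he⟩ | ⟨S, j, h1, h2, -⟩
  · intro e' he'
    have hpa : pa w' = pa w := by
      funext j
      rw [he]
      simp [pa]
    have he2 : w (.inl e') = D.ub e' (pa w) := he'
    show w' (.inl e') = D.ub e' (pa w')
    have h3 := ((mem_iff D w').1 hw').1 e'
    have h4 : w' (.inl e') ≤ D.ub e' (pa w') := h3.2
    rw [hpa] at h4 ⊢
    apply le_antisymm h4
    rw [← he2, he]
    simp only [Pi.add_apply, Pi.smul_apply, smul_eq_mul, Pi.single_apply]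
    split_ifs
    · linarith
    · simp
  · have h3 : on D w = S := by
      rw [h1]
      apply on_Gam hD
      intro j
      exact ⟨(pa_mem hw j).1, (pa_mem hw j).2.2.1⟩
    have h4 : on D w' = S := by
      rw [h2]
      apply on_Gam hD
      intro j
      exact ⟨(pa_mem hw' j).1, (pa_mem hw' j).2.2.1⟩
    rw [h3, h4]

theorem pivot_pa {D : Data E G} (hD : D.Pos) {w w' : E ⊕ (G ⊕ G) → ℝ} (h : D.lp.Pivot w w') (j : G) :
    Event D w w' j ∨ pa w' j ≤ pa w j + 1 := by
  classical
  obtain ⟨hw, hw'⟩ := edge_mem h.1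
  rcases step_cases hD h with ⟨e, μ, hμ, he⟩ | ⟨S, i, h1, h2, h3, h4, h5⟩
  · right
    have hpa : pa w' j = pa w j := by
      rw [he]
      simp [pa]
    rw [hpa]; linarith
  · by_cases hij : j = i
    · subst hij
      rcases poly_step (pa_mem hw j) (pa_mem hw' j) h5 with ⟨g1, g2⟩ | g
      · by_cases hle : pa w' j ≤ pa w j
        · right; linarith
        · left
          push Not at hle
          refine ⟨?_, g1, g2⟩
          have hon : on D w = S := by
            conv_lhs => rw [h1]
            apply on_Gam hD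
            intro j
            exact ⟨(pa_mem hw j).1, (pa_mem hw j).2.2.1⟩
          rw [hon]
          have hv := h.2
          have hS : ((S.toFinset : Finset E) : Set E) = S := Set.coe_toFinset S
          rw [h1, h2, ← hS, Gam_value, Gam_value] at hv
          set F := S.toFinset with hF
          have ea : ∑ i, (2 * ∑ e ∈ F, (D.U e i : ℝ) + D.g i) * pa w' i =
              ∑ i, (2 * ∑ e ∈ F, (D.U e i : ℝ) + D.g i) * pa w i +
              (2 * ∑ e ∈ F, (D.U e j : ℝ) + D.g j) * (pa w' j - pa w j) := by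
            rw [← Finset.sum_erase_add _ _ (Finset.mem_univ j)]
            rw [← Finset.sum_erase_add _ (fun i => (2 * ∑ e ∈ F, (D.U e i : ℝ) + D.g i) * pa w i) (Finset.mem_univ j)]
            have : ∑ i ∈ Finset.univ.erase j, (2 * ∑ e ∈ F, (D.U e i : ℝ) + D.g i) * pa w' i =
                ∑ i ∈ Finset.univ.erase j, (2 * ∑ e ∈ F, (D.U e i : ℝ) + D.g i) * pa w i := by
              apply Finset.sum_congr rfl
              intro i hi
              rw [(h3 i (Finset.ne_of_mem_erase hi)).1]
            rw [this]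
            ring
          have eb : ∑ i, pb w' i = ∑ i, pb w i := by
            apply Finset.sum_congr rfl
            intro i _
            by_cases hi : i = j
            · rw [hi, g1, g2]
            · exact (h3 i hi).2
          rw [ea, eb] at hv
          have hv2 : 0 < (2 * ∑ e ∈ F, (D.U e j : ℝ) + D.g j) * (pa w' j - pa w j) := by linarith
          have hv3 : 0 < 2 * ∑ e ∈ F, (D.U e j : ℝ) + D.g j :=
            (mul_pos_iff_of_pos_right (by linarith)).1 hv2
          unfold coef
          have : ((2 * ∑ e ∈ F, D.U e j + D.g j : ℤ) : ℝ) = 2 * ∑ e ∈ F, (D.U e j : ℝ) + D.g j := by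
            push_cast; ring
          rw [← this] at hv3
          have hv4 : 0 < 2 * ∑ e ∈ F, D.U e j + D.g j := by exact_mod_cast hv3
          convert hv4
      · right; exact g
    · right
      rw [(h3 j hij).1]; linarith

/-- the height of the polygons -/
noncomputable def topv (L : ℕ) : ℝ := (L : ℝ) * (L + 1) / 2 + 1

theorem poly_top {L : ℕ} (hL : 1 ≤ L) {a b : ℝ} (h : Poly L a b) :
    topv L - b ≥ L - a := by
  have h1 := h.2.2.2 ⟨L - 1, by omega⟩
  have h2 : ((L - 1 : ℕ) : ℝ) = (L : ℝ) - 1 := by rw [Nat.cast_sub hL]; simp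
  simp only [h2] at h1
  unfold topv
  nlinarith

theorem poly_top_mem {L : ℕ} : Poly L L (topv L) := by
  refine ⟨by positivity, by unfold topv; positivity, le_rfl, fun i => ?_⟩
  unfold topv
  have h : (i.1 : ℝ) + 1 ≤ L := by exact_mod_cast i.2
  have h0 : (0 : ℝ) ≤ i.1 := by positivity
  nlinarith [mul_nonneg (by linarith : (0 : ℝ) ≤ (L : ℝ) - i.1) (by linarith : (0 : ℝ) ≤ (L : ℝ) - i.1 - 1)]

/-- the optimal point -/
noncomputable def opt (D : Data E G) : E ⊕ (G ⊕ G) → ℝ := Gam D univ (fun _ => (D.L : ℝ)) (fun _ => topv D.L)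

theorem opt_mem {D : Data E G} (hD : D.Pos) : opt D ∈ D.lp.feasible :=
  Gam_mem hD _ fun _ => poly_top_mem

/-- the optimal point is optimal and unique -/
theorem opt_top {D : Data E G} (hL : 1 ≤ D.L) (hM : ∀ j, -D.M < coef D univ j) (hM0 : 0 < D.M)
    {w : E ⊕ (G ⊕ G) → ℝ} (hw : w ∈ D.lp.feasible) :
    D.lp.value w ≤ D.lp.value (opt D) ∧ (D.lp.value w = D.lp.value (opt D) → w = opt D) := by
  classical
  have hw1 := (mem_iff D w).1 hw
  have hwa : ∀ e, 0 ≤ w (.inl e) ∧ w (.inl e) ≤ D.ub e (pa w) := hw1.1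
  -- all switches on
  have h1 : D.lp.value w = D.lp.value (Gam D (Finset.univ : Finset E) (pa w) (pb w)) -
      2 * ∑ e, (D.ub e (pa w) - w (.inl e)) := by
    rw [value_eq, value_eq]
    have : ∀ e : E, Gam D ((Finset.univ : Finset E) : Set E) (pa w) (pb w) (.inl e) = D.ub e (pa w) := by
      intro e
      rw [Gam_inl]
      simp
    simp only [this, Gam_a, Gam_b, Finset.sum_sub_distrib]
    have e1 : ∀ j, w (.inr (.inl j)) = pa w j := fun _ => rfl
    have e2 : ∀ j, w (.inr (.inr j)) = pb w j := fun _ => rfl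
    simp only [e1, e2]
    ring
  have hcoef : ∀ j, (2 * ∑ e ∈ (Finset.univ : Finset E), (D.U e j : ℝ) + D.g j) = ((coef D univ j : ℤ) : ℝ) := by
    intro j
    unfold coef
    push_cast
    congr 2
    apply Finset.sum_congr _ fun _ _ => rfl
    ext e; simp
  have h2 : D.lp.value (opt D) - D.lp.value (Gam D (Finset.univ : Finset E) (pa w) (pb w)) =
      ∑ j, (((coef D univ j : ℤ) : ℝ) * (D.L - pa w j) + D.M * (topv D.L - pb w j)) := by
    have e1 : opt D = Gam D ((Finset.univ : Finset E) : Set E) (fun _ => (D.L : ℝ)) (fun _ => topv D.L) := by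
      unfold opt; rw [Finset.coe_univ]
    rw [e1, Gam_value, Gam_value]
    simp only [hcoef]
    have e2 : ∀ (s A B A' B' : ℝ), s + A + B - (s + A' + B') = (A + B) - (A' + B') := fun s A B A' B' => by ring
    rw [e2, Finset.mul_sum, Finset.mul_sum, ← Finset.sum_add_distrib, ← Finset.sum_add_distrib,
      ← Finset.sum_sub_distrib]
    apply Finset.sum_congr rfl
    intro j _
    ring
  have hterm : ∀ j, 0 ≤ ((coef D univ j : ℤ) : ℝ) * (D.L - pa w j) + D.M * (topv D.L - pb w j) ∧
      (((coef D univ j : ℤ) : ℝ) * (D.L - pa w j) + D.M * (topv D.L - pb w j) = 0 →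
        pa w j = D.L ∧ pb w j = topv D.L) := by
    intro j
    have g1 := poly_top hL (pa_mem hw j)
    have g2 := (pa_mem hw j).2.2.1
    have g3 : (0 : ℝ) < ((coef D univ j : ℤ) : ℝ) + D.M := by
      have := hM j
      have h5 : 0 < coef D univ j + D.M := by linarith
      exact_mod_cast h5
    have g4 : (0 : ℝ) < D.M := by exact_mod_cast hM0
    have g5 : (D.M : ℝ) * (topv D.L - pb w j) ≥ D.M * (D.L - pa w j) := mul_le_mul_of_nonneg_left g1 g4.le
    have g6 : 0 ≤ (((coef D univ j : ℤ) : ℝ) + D.M) * (D.L - pa w j) := mul_nonneg g3.le (by linarith)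
    constructor
    · nlinarith
    · intro h0
      have g7 : (((coef D univ j : ℤ) : ℝ) + D.M) * (D.L - pa w j) = 0 := by nlinarith
      have g8 : D.L - pa w j = 0 := by
        rcases mul_eq_zero.1 g7 with h | h
        · exact absurd h g3.ne'
        · exact h
      rw [g8, mul_zero, zero_add] at h0
      have g9 : topv D.L - pb w j = 0 := by
        rcases mul_eq_zero.1 h0 with h | h
        · exact absurd h g4.ne'
        · exact h
      constructor <;> linarith
  have hs1 : 0 ≤ ∑ e, (D.ub e (pa w) - w (.inl e)) := Finset.sum_nonneg fun e _ => by linarith [(hwa e).2]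
  have hs2 : 0 ≤ ∑ j, (((coef D univ j : ℤ) : ℝ) * (D.L - pa w j) + D.M * (topv D.L - pb w j)) :=
    Finset.sum_nonneg fun j _ => (hterm j).1
  refine ⟨by linarith, fun he => ?_⟩
  have e1 : ∑ e, (D.ub e (pa w) - w (.inl e)) = 0 := by linarith
  have e2 : ∑ j, (((coef D univ j : ℤ) : ℝ) * (D.L - pa w j) + D.M * (topv D.L - pb w j)) = 0 := by linarith
  rw [Finset.sum_eq_zero_iff_of_nonneg (fun e _ => by linarith [(hwa e).2])] at e1
  rw [Finset.sum_eq_zero_iff_of_nonneg (fun j _ => (hterm j).1)] at e2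
  have e3 : ∀ j, pa w j = D.L ∧ pb w j = topv D.L := fun j => (hterm j).2 (e2 j (Finset.mem_univ j))
  have e4 : pa w = fun _ => (D.L : ℝ) := funext fun j => (e3 j).1
  funext c
  rcases c with e | j | j
  · have := e1 e (Finset.mem_univ e)
    unfold opt
    rw [Gam_inl, if_pos (mem_univ e), ← e4]
    linarith
  · exact (e3 j).1
  · exact (e3 j).2

/-- on a short path all the first coordinates get larger on the short side -/
theorem events {D : Data E G} (hD : D.Pos) (hL : 1 ≤ D.L) (hM : ∀ j, -D.M < coef D univ j)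
    (hM0 : 0 < D.M) {T : ℕ} {x : ℕ → E ⊕ (G ⊕ G) → ℝ} {v : E ⊕ (G ⊕ G) → ℝ} (hv : ∀ j, pa v j = 0)
    (hvm : v ∈ D.lp.feasible)
    (h : D.lp.Path v T x) (hT : T < D.L) (j : G) : ∃ s, s < T ∧ 0 < coef D (on D (x s)) j := by
  obtain ⟨h0, hs, hopt⟩ := h
  by_contra hcon
  push Not at hcon
  have hle : ∀ s ≤ T, pa (x s) j ≤ s := by
    intro s
    induction s with
    | zero =>
      intro _
      rw [h0, hv]
      simp
    | succ s ih =>
      intro hsT
      rcases pivot_pa hD (hs s (by omega)) j with hE | hE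
      · exact absurd hE.1 (not_lt.2 (hcon s (by omega)))
      · have := ih (by omega)
        push_cast
        linarith
  have hmem : x T ∈ D.lp.feasible := by
    rcases Nat.eq_zero_or_pos T with h | h
    · rw [h, h0]; exact hvm
    · have := (edge_mem (hs (T - 1) (by omega)).1).2
      rwa [Nat.sub_add_cancel h] at this
  have hxT : x T = opt D := by
    have h1 := opt_top hL hM hM0 hmem
    exact h1.2 (le_antisymm h1.1 (hopt _ (opt_mem hD)))
  have h1 := hle T le_rfl
  rw [hxT] at h1
  have h2 : pa (opt D) j = D.L := rfl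
  rw [h2] at h1
  have : D.L ≤ T := by exact_mod_cast h1
  omega

theorem path_on {D : Data E G} (hD : D.Pos) {T : ℕ} {x : ℕ → E ⊕ (G ⊕ G) → ℝ} {v : E ⊕ (G ⊕ G) → ℝ}
    (h : D.lp.Path v T x) {s s' : ℕ} (hss : s ≤ s') (hs' : s' ≤ T) : on D (x s) ⊆ on D (x s') := by
  induction s', hss using Nat.le_induction with
  | base => exact le_rfl
  | succ k hk ih => exact (ih (by omega)).trans (pivot_on hD (h.2.1 k (by omega)))

end

end Pool.Agent.Run7.h689.HP
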