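import Pool.Agent.Run7.h689.HP3
set_option autoImplicit false
set_option linter.unusedSectionVars false

/-!
# The pivots
-/

namespace Pool.Agent.Run7.h689.HP

open Set

section
variable {E G : Type} [Fintype E] [Fintype G] [DecidableEq E] [DecidableEq G]

/-- the linear functions which expose the faces -/
noncomputable def dd (D : Data E G) (S1 S0 : Finset E) (p q : G → ℝ) : E ⊕ (G ⊕ G) → ℝ :=
  Sum.elim (fun e => (if e ∈ S1 then 1 else 0) - (if e ∈ S0 then 1 else 0))
    (Sum.elim (fun j => p j - ∑ e ∈ S1, (D.U e j : ℝ)) q)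

theorem dd_sum (D : Data E G) (S1 S0 : Finset E) (p q : G → ℝ) (w : E ⊕ (G ⊕ G) → ℝ) :
    ∑ c, dd D S1 S0 p q c * w c = ∑ e ∈ S1, (w (.inl e) - D.ub e (pa w)) + ∑ e ∈ S1, (D.u e : ℝ) -
      ∑ e ∈ S0, w (.inl e) + ∑ j, (p j * pa w j + q j * pb w j) := by
  rw [Fintype.sum_sum_type, Fintype.sum_sum_type]
  simp only [dd, Sum.elim_inl, Sum.elim_inr]
  have e1 : ∑ e, ((if e ∈ S1 then (1 : ℝ) else 0) - (if e ∈ S0 then 1 else 0)) * w (.inl e) =
      ∑ e ∈ S1, w (.inl e) - ∑ e ∈ S0, w (.inl e) := by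
    simp only [sub_mul, ite_mul, one_mul, zero_mul, Finset.sum_sub_distrib, Finset.sum_ite_mem,
      Finset.univ_inter]
  have e2 : ∑ j, (p j - ∑ e ∈ S1, (D.U e j : ℝ)) * w (.inr (.inl j)) =
      ∑ j, p j * pa w j - ∑ e ∈ S1, ∑ j, (D.U e j : ℝ) * pa w j := by
    rw [Finset.sum_comm, ← Finset.sum_sub_distrib]
    apply Finset.sum_congr rfl
    intro j _
    rw [sub_mul, Finset.sum_mul]
    rfl
  have e3 : ∑ j, q j * w (.inr (.inr j)) = ∑ j, q j * pb w j := rfl
  have e4 : ∑ e ∈ S1, (w (.inl e) - D.ub e (pa w)) = ∑ e ∈ S1, w (.inl e) - ∑ e ∈ S1, (D.u e : ℝ) -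
      ∑ e ∈ S1, ∑ j, (D.U e j : ℝ) * pa w j := by
    rw [← Finset.sum_sub_distrib, ← Finset.sum_sub_distrib]
    apply Finset.sum_congr rfl
    intro e _
    unfold Data.ub
    ring
  rw [e1, e2, e3, e4, Finset.sum_add_distrib]
  ring

theorem expose {D : Data E G} (S1 S0 : Finset E) (p q mx : G → ℝ)
    (hY : ∀ j a b, Poly D.L a b → p j * a + q j * b ≤ mx j) {w0 : E ⊕ (G ⊕ G) → ℝ}
    (hw0 : w0 ∈ D.lp.feasible) (h1 : ∀ e ∈ S1, w0 (.inl e) = D.ub e (pa w0))
    (h0 : ∀ e ∈ S0, w0 (.inl e) = 0) (hm : ∀ j, p j * pa w0 j + q j * pb w0 j = mx j) :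
    {u | u ∈ D.lp.feasible ∧ ∀ w ∈ D.lp.feasible,
      ∑ c, dd D S1 S0 p q c * w c ≤ ∑ c, dd D S1 S0 p q c * u c} =
    {u | u ∈ D.lp.feasible ∧ (∀ e ∈ S1, u (.inl e) = D.ub e (pa u)) ∧
      (∀ e ∈ S0, u (.inl e) = 0) ∧ ∀ j, p j * pa u j + q j * pb u j = mx j} := by
  have hval0 : ∑ c, dd D S1 S0 p q c * w0 c = ∑ e ∈ S1, (D.u e : ℝ) + ∑ j, mx j := by
    rw [dd_sum]
    have e1 : ∑ e ∈ S1, (w0 (.inl e) - D.ub e (pa w0)) = 0 :=
      Finset.sum_eq_zero fun e he => by rw [h1 e he]; ring
    have e2 : ∑ e ∈ S0, w0 (.inl e) = 0 := Finset.sum_eq_zero fun e he => h0 e he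
    rw [e1, e2, Finset.sum_congr rfl fun j _ => hm j]
    ring
  have hle : ∀ u ∈ D.lp.feasible, (∑ e ∈ S1, (u (.inl e) - D.ub e (pa u)) ≤ 0) ∧
      0 ≤ ∑ e ∈ S0, u (.inl e) ∧ ∑ j, (p j * pa u j + q j * pb u j) ≤ ∑ j, mx j := by
    intro u hu
    have hu1 := (mem_iff D u).1 hu
    refine ⟨Finset.sum_nonpos fun e _ => ?_, Finset.sum_nonneg fun e _ => (hu1.1 e).1,
      Finset.sum_le_sum fun j _ => hY j _ _ (pa_mem hu j)⟩
    have : u (.inl e) ≤ D.ub e (pa u) := (hu1.1 e).2
    linarith
  ext u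
  simp only [mem_ofPred_eq]
  constructor
  · rintro ⟨hu, hmax⟩
    refine ⟨hu, ?_⟩
    have h3 := hmax w0 hw0
    rw [hval0, dd_sum] at h3
    obtain ⟨g1, g2, g3⟩ := hle u hu
    have hu1 := (mem_iff D u).1 hu
    have k1 : ∑ e ∈ S1, (u (.inl e) - D.ub e (pa u)) = 0 := by linarith
    have k2 : ∑ e ∈ S0, u (.inl e) = 0 := by linarith
    have k3 : ∑ j, (p j * pa u j + q j * pb u j) = ∑ j, mx j := by linarith
    refine ⟨fun e he => ?_, fun e he => ?_, fun j => ?_⟩
    · have := (Finset.sum_eq_zero_iff_of_nonpos (fun e _ => by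
        have : u (.inl e) ≤ D.ub e (pa u) := (hu1.1 e).2
        linarith)).1 k1 e he
      linarith
    · exact (Finset.sum_eq_zero_iff_of_nonneg (fun e _ => (hu1.1 e).1)).1 k2 e he
    · exact (Finset.sum_eq_sum_iff_of_le (fun j _ => hY j _ _ (pa_mem hu j))).1 k3 j (Finset.mem_univ j)
  · rintro ⟨hu, k1, k2, k3⟩
    refine ⟨hu, fun w hw => ?_⟩
    obtain ⟨g1, g2, g3⟩ := hle w hw
    rw [dd_sum, dd_sum]
    have e1 : ∑ e ∈ S1, (u (.inl e) - D.ub e (pa u)) = 0 :=
      Finset.sum_eq_zero fun e he => by rw [k1 e he]; ring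
    have e2 : ∑ e ∈ S0, u (.inl e) = 0 := Finset.sum_eq_zero fun e he => k2 e he
    rw [e1, e2, Finset.sum_congr rfl fun j _ => k3 j]
    linarith

/-- the vertex at which the switches in `S` are on, the first coordinates in `A` and the second
coordinates in `B` are maximal -/
noncomputable def vx (D : Data E G) (S : Finset E) (A B : Finset G) : E ⊕ (G ⊕ G) → ℝ :=
  Gam D (S : Set E) (fun j => if j ∈ A then (D.L : ℝ) else 0) (fun j => if j ∈ B then topv D.L else 0)

theorem topv_pos (L : ℕ) : 0 < topv L := by unfold topv; positivity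

theorem poly_zero {L : ℕ} : Poly L 0 0 := by
  refine ⟨le_rfl, le_rfl, by positivity, fun i => ?_⟩
  rw [mul_zero, zero_add]; positivity

theorem poly_q {L : ℕ} : Poly L L 0 := by
  refine ⟨by positivity, le_rfl, le_rfl, fun i => ?_⟩
  have h : (i.1 : ℝ) + 1 ≤ L := by exact_mod_cast i.2
  have : 0 ≤ ((L : ℝ) - i.1) * L := mul_nonneg (by linarith) (by positivity)
  positivity

theorem vx_poly {D : Data E G} {A B : Finset G} (hAB : B ⊆ A) (j : G) :
    Poly D.L (if j ∈ A then (D.L : ℝ) else 0) (if j ∈ B then topv D.L else 0) := by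
  by_cases hA : j ∈ A
  · by_cases hB : j ∈ B
    · rw [if_pos hA, if_pos hB]; exact poly_top_mem
    · rw [if_pos hA, if_neg hB]; exact poly_q
  · have hB : j ∉ B := fun h => hA (hAB h)
    rw [if_neg hA, if_neg hB]; exact poly_zero

theorem vx_mem {D : Data E G} (hD : D.Pos) (S : Finset E) {A B : Finset G} (hAB : B ⊆ A) :
    vx D S A B ∈ D.lp.feasible := Gam_mem hD _ fun j => vx_poly hAB j

/-- the linear function which exposes a vertex of a polygon -/
noncomputable def vp (A B : Finset G) (j : G) : ℝ := if j ∈ B then 0 else if j ∈ A then 1 else -1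
noncomputable def vq (B : Finset G) (j : G) : ℝ := if j ∈ B then 1 else -1
noncomputable def vm (L : ℕ) (A B : Finset G) (j : G) : ℝ :=
  if j ∈ B then topv L else if j ∈ A then (L : ℝ) else 0

theorem v_le {L : ℕ} (hL : 1 ≤ L) {A B : Finset G} (j : G) {a b : ℝ} (h : Poly L a b) :
    vp A B j * a + vq B j * b ≤ vm L A B j := by
  unfold vp vq vm
  have h1 := poly_top hL h
  obtain ⟨g1, g2, g3, -⟩ := h
  split_ifs <;> linarith

theorem v_eq {L : ℕ} (hL : 1 ≤ L) {A B : Finset G} (hAB : B ⊆ A) (j : G) {a b : ℝ} (h : Poly L a b) :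
    vp A B j * a + vq B j * b = vm L A B j ↔
      a = (if j ∈ A then (L : ℝ) else 0) ∧ b = (if j ∈ B then topv L else 0) := by
  unfold vp vq vm
  have h1 := poly_top hL h
  obtain ⟨g1, g2, g3, -⟩ := h
  by_cases hB : j ∈ B
  · have hA := hAB hB
    simp only [hB, hA, if_true]
    constructor
    · intro h2
      constructor <;> linarith
    · rintro ⟨h2, h3⟩
      linarith
  · by_cases hA : j ∈ A
    · simp only [hB, hA, if_true, if_false]
      constructor
      · intro h2
        constructor <;> linarith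
      · rintro ⟨h2, h3⟩
        linarith
    · simp only [hB, hA, if_false]
      constructor
      · intro h2
        constructor <;> linarith
      · rintro ⟨h2, h3⟩
        linarith

theorem pa_vx (D : Data E G) (S : Finset E) (A B : Finset G) :
    pa (vx D S A B) = fun j => if j ∈ A then (D.L : ℝ) else 0 := rfl

theorem pb_vx (D : Data E G) (S : Finset E) (A B : Finset G) :
    pb (vx D S A B) = fun j => if j ∈ B then topv D.L else 0 := rfl

theorem vx_inl (D : Data E G) (S : Finset E) (A B : Finset G) (e : E) :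
    vx D S A B (.inl e) = if e ∈ S then D.ub e (pa (vx D S A B)) else 0 := by
  rw [pa_vx]
  unfold vx
  rw [Gam_inl]
  simp

/-- switching a switch -/
theorem pivot_switch {D : Data E G} (hD : D.Pos) (hL : 1 ≤ D.L) {S : Finset E} {A B : Finset G}
    (hAB : B ⊆ A) {e : E} (he : e ∉ S) : D.lp.Pivot (vx D S A B) (vx D (insert e S) A B) := by
  have hm1 := vx_mem hD S hAB
  have hm2 := vx_mem hD (insert e S) hAB
  have hub : 0 < D.ub e (pa (vx D S A B)) := hD _ _ fun j =>
    ⟨(pa_mem hm1 j).1, (pa_mem hm1 j).2.2.1⟩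
  have hpa : pa (vx D (insert e S) A B) = pa (vx D S A B) := rfl
  have hx1 : vx D S A B (.inl e) = 0 := by rw [vx_inl, if_neg he]
  have hx2 : vx D (insert e S) A B (.inl e) = D.ub e (pa (vx D S A B)) := by
    rw [vx_inl, if_pos (Finset.mem_insert_self _ _), hpa]
  have hx3 : ∀ e', e' ≠ e → vx D (insert e S) A B (.inl e') = vx D S A B (.inl e') := by
    intro e' hne
    rw [vx_inl, vx_inl, hpa]
    simp [Finset.mem_insert, hne]
  refine ⟨⟨?_, dd D S (Finset.univ \ insert e S) (vp A B) (vq B), ?_⟩, ?_⟩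
  · intro h
    have := congrFun h (.inl e)
    rw [hx1, hx2] at this
    exact hub.ne this
  · rw [expose S _ _ _ (vm D.L A B) (fun j a b h => v_le hL j h) hm1 (fun e' he' => by
      rw [vx_inl, if_pos he']) (fun e' he' => by
      rw [Finset.mem_sdiff, Finset.mem_insert, not_or] at he'
      rw [vx_inl, if_neg he'.2.2]) (fun j => (v_eq hL hAB j (pa_mem hm1 j)).2 ⟨rfl, rfl⟩)]
    rw [segment_eq_image']
    ext u
    simp only [mem_ofPred_eq, mem_image]
    constructor
    · rintro ⟨hu, k1, k2, k3⟩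
      have hua : pa u = pa (vx D S A B) := funext fun j => ((v_eq hL hAB j (pa_mem hu j)).1 (k3 j)).1
      have hub' : pb u = pb (vx D S A B) := funext fun j => ((v_eq hL hAB j (pa_mem hu j)).1 (k3 j)).2
      have hu1 := ((mem_iff D u).1 hu).1 e
      have hu2 : u (.inl e) ≤ D.ub e (pa u) := hu1.2
      rw [hua] at hu2
      refine ⟨u (.inl e) / D.ub e (pa (vx D S A B)), ⟨div_nonneg hu1.1 hub.le, (div_le_one hub).2 hu2⟩, ?_⟩
      funext c
      simp only [Pi.add_apply, Pi.smul_apply, Pi.sub_apply, smul_eq_mul]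
      rcases c with e' | j | j
      · by_cases hee : e' = e
        · subst hee
          rw [hx1, hx2, zero_add, sub_zero, div_mul_cancel₀ _ hub.ne']
        · rw [hx3 e' hee, sub_self, mul_zero, add_zero, vx_inl]
          by_cases hS : e' ∈ S
          · rw [if_pos hS, ← hua, k1 e' hS]
          · rw [if_neg hS, k2 e' (by simp [hee, hS])]
      · have e1 : vx D (insert e S) A B (.inr (.inl j)) = vx D S A B (.inr (.inl j)) := rfl
        rw [e1, sub_self, mul_zero, add_zero]
        exact (congrFun hua j).symm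
      · have e1 : vx D (insert e S) A B (.inr (.inr j)) = vx D S A B (.inr (.inr j)) := rfl
        rw [e1, sub_self, mul_zero, add_zero]
        exact (congrFun hub' j).symm
    · rintro ⟨θ, ⟨hθ0, hθ1⟩, rfl⟩
      set u := vx D S A B + θ • (vx D (insert e S) A B - vx D S A B) with hu
      have hua : pa u = pa (vx D S A B) := by
        funext j
        have e1 : vx D (insert e S) A B (.inr (.inl j)) = vx D S A B (.inr (.inl j)) := rfl
        simp only [hu, pa, Pi.add_apply, Pi.smul_apply, Pi.sub_apply, smul_eq_mul, e1, sub_self, mul_zero, add_zero]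
      have hub' : pb u = pb (vx D S A B) := by
        funext j
        have e1 : vx D (insert e S) A B (.inr (.inr j)) = vx D S A B (.inr (.inr j)) := rfl
        simp only [hu, pb, Pi.add_apply, Pi.smul_apply, Pi.sub_apply, smul_eq_mul, e1, sub_self, mul_zero, add_zero]
      have hue : u (.inl e) = θ * D.ub e (pa (vx D S A B)) := by
        simp only [hu, Pi.add_apply, Pi.smul_apply, Pi.sub_apply, smul_eq_mul, hx1, hx2]
        ring
      have hue' : ∀ e', e' ≠ e → u (.inl e') = vx D S A B (.inl e') := by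
        intro e' hne
        simp only [hu, Pi.add_apply, Pi.smul_apply, Pi.sub_apply, smul_eq_mul, hx3 e' hne]
        ring
      refine ⟨?_, ?_, ?_, ?_⟩
      · rw [mem_iff]
        have ha : (fun j => u (.inr (.inl j))) = pa (vx D S A B) := hua
        rw [ha]
        refine ⟨fun e' => ?_, fun j => ?_⟩
        · by_cases hee : e' = e
          · subst hee
            rw [hue]
            exact ⟨mul_nonneg hθ0 hub.le, by nlinarith⟩
          · rw [hue' e' hee]
            exact ((mem_iff D _).1 hm1).1 e'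
        · have := pa_mem hm1 j
          rw [← hua, ← hub'] at this
          exact this
      · intro e' he'
        have hne : e' ≠ e := fun h => he (h ▸ he')
        rw [hua, hue' e' hne, vx_inl, if_pos he']
      · intro e' he'
        rw [Finset.mem_sdiff, Finset.mem_insert, not_or] at he'
        rw [hue' e' he'.2.1, vx_inl, if_neg he'.2.2]
      · intro j
        rw [hua, hub']
        exact (v_eq hL hAB j (pa_mem hm1 j)).2 ⟨rfl, rfl⟩
  · rw [value_eq, value_eq]
    have e1 : ∑ e', vx D (insert e S) A B (.inl e') = ∑ e', vx D S A B (.inl e') + D.ub e (pa (vx D S A B)) := by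
      rw [← Finset.sum_erase_add _ _ (Finset.mem_univ e), ← Finset.sum_erase_add _ (fun e' => vx D S A B (.inl e')) (Finset.mem_univ e),
        hx1, hx2, add_zero]
      congr 1
      apply Finset.sum_congr rfl
      intro e' he'
      exact hx3 e' (Finset.ne_of_mem_erase he')
    have e2 : ∀ c, vx D (insert e S) A B (.inr c) = vx D S A B (.inr c) := fun _ => rfl
    rw [e1]
    simp only [e2]
    linarith

end

end Pool.Agent.Run7.h689.HP
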