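import Pool.Agent.Run7.h689.HP4
set_option autoImplicit false
set_option linter.unusedSectionVars false

/-!
# The pivots in the polygons, and the paths
-/

namespace Pool.Agent.Run7.h689.HP

open Set

section
variable {E G : Type} [Fintype E] [Fintype G] [DecidableEq E] [DecidableEq G]

theorem coef_coe (D : Data E G) (S : Finset E) (j : G) : coef D (S : Set E) j = 2 * ∑ e ∈ S, D.U e j + D.g j := by
  classical
  unfold coef
  congr 2
  apply Finset.sum_congr _ fun _ _ => rfl
  ext e; simp

/-- a pivot in which only one polygon changes -/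
theorem pivot_poly {D : Data E G} (hD : D.Pos) (hL : 1 ≤ D.L) {S : Finset E} {A B A' B' : Finset G}
    (hAB : B ⊆ A) (hAB' : B' ⊆ A') (j : G) (hA : ∀ i, i ≠ j → (i ∈ A ↔ i ∈ A')) (hB : ∀ i, i ≠ j → (i ∈ B ↔ i ∈ B'))
    {p q m : ℝ} (hY : ∀ a b, Poly D.L a b → p * a + q * b ≤ m)
    (hseg : ∀ a b, Poly D.L a b → p * a + q * b = m → ∃ θ : ℝ, 0 ≤ θ ∧ θ ≤ 1 ∧
      a = pa (vx D S A B) j + θ * (pa (vx D S A' B') j - pa (vx D S A B) j) ∧
      b = pb (vx D S A B) j + θ * (pb (vx D S A' B') j - pb (vx D S A B) j))
    (h0 : p * pa (vx D S A B) j + q * pb (vx D S A B) j = m)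
    (h1 : p * pa (vx D S A' B') j + q * pb (vx D S A' B') j = m)
    (hval : D.lp.value (vx D S A B) < D.lp.value (vx D S A' B')) :
    D.lp.Pivot (vx D S A B) (vx D S A' B') := by
  have hm1 := vx_mem hD S hAB
  have hm2 := vx_mem hD S hAB'
  set w := vx D S A B with hw
  set w' := vx D S A' B' with hw'
  have hx1 : ∀ e, w (.inl e) = if e ∈ S then D.ub e (pa w) else 0 := fun e => vx_inl D S A B e
  have hx2 : ∀ e, w' (.inl e) = if e ∈ S then D.ub e (pa w') else 0 := fun e => vx_inl D S A' B' e
  have ha : ∀ i, i ≠ j → pa w' i = pa w i := by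
    intro i hi
    rw [hw, hw', pa_vx, pa_vx]
    simp only [hA i hi]
  have hb : ∀ i, i ≠ j → pb w' i = pb w i := by
    intro i hi
    rw [hw, hw', pb_vx, pb_vx]
    simp only [hB i hi]
  refine ⟨⟨?_, dd D S (Finset.univ \ S) (Function.update (vp A B) j p) (Function.update (vq B) j q), ?_⟩, hval⟩
  · intro h
    rw [h] at hval
    exact lt_irrefl _ hval
  · rw [expose S _ _ _ (Function.update (vm D.L A B) j m) (w0 := w) (fun i a b h => by
      by_cases hi : i = j
      · subst hi
        simpa using hY a b h
      · simpa [Function.update_of_ne hi] using v_le hL i h) hm1 (fun e' he' => by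
      rw [hx1, if_pos he']) (fun e' he' => by
      rw [Finset.mem_sdiff] at he'
      rw [hx1, if_neg he'.2]) (fun i => by
      by_cases hi : i = j
      · subst hi
        simpa using h0
      · simpa [Function.update_of_ne hi] using (v_eq hL hAB i (pa_mem hm1 i)).2 ⟨rfl, rfl⟩)]
    rw [segment_eq_image']
    ext u
    simp only [mem_ofPred_eq, mem_image]
    constructor
    · rintro ⟨hu, k1, k2, k3⟩
      have hoth : ∀ i, i ≠ j → pa u i = pa w i ∧ pb u i = pb w i := by
        intro i hi
        have := k3 i
        rw [Function.update_of_ne hi, Function.update_of_ne hi, Function.update_of_ne hi] at this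
        exact (v_eq hL hAB i (pa_mem hu i)).1 this
      have hj := k3 j
      rw [Function.update_self, Function.update_self, Function.update_self] at hj
      obtain ⟨θ, hθ0, hθ1, e1, e2⟩ := hseg _ _ (pa_mem hu j) hj
      have hua : pa u = (1 - θ) • pa w + θ • pa w' := by
        funext i
        simp only [Pi.add_apply, Pi.smul_apply, smul_eq_mul]
        by_cases hi : i = j
        · subst hi; rw [e1]; ring
        · rw [(hoth i hi).1, ha i hi]; ring
      have hub : pb u = (1 - θ) • pb w + θ • pb w' := by
        funext i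
        simp only [Pi.add_apply, Pi.smul_apply, smul_eq_mul]
        by_cases hi : i = j
        · subst hi; rw [e2]; ring
        · rw [(hoth i hi).2, hb i hi]; ring
      refine ⟨θ, ⟨hθ0, hθ1⟩, ?_⟩
      funext c
      simp only [Pi.add_apply, Pi.smul_apply, Pi.sub_apply, smul_eq_mul]
      rcases c with e | i | i
      · rw [hx1, hx2]
        by_cases hS : e ∈ S
        · rw [if_pos hS, if_pos hS, k1 e hS, hua, ub_affine D e _ _ _ _ (by ring)]
          ring
        · rw [if_neg hS, if_neg hS, k2 e (by simp [hS])]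
          ring
      · have := congrFun hua i
        simp only [Pi.add_apply, Pi.smul_apply, smul_eq_mul] at this
        have e3 : u (.inr (.inl i)) = (1 - θ) * w (.inr (.inl i)) + θ * w' (.inr (.inl i)) := this
        rw [e3]; ring
      · have := congrFun hub i
        simp only [Pi.add_apply, Pi.smul_apply, smul_eq_mul] at this
        have e3 : u (.inr (.inr i)) = (1 - θ) * w (.inr (.inr i)) + θ * w' (.inr (.inr i)) := this
        rw [e3]; ring
    · rintro ⟨θ, ⟨hθ0, hθ1⟩, rfl⟩
      set u := w + θ • (w' - w) with hu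
      have hc : ∀ c, u c = (1 - θ) * w c + θ * w' c := by
        intro c
        simp only [hu, Pi.add_apply, Pi.smul_apply, Pi.sub_apply, smul_eq_mul]
        ring
      have hua : pa u = (1 - θ) • pa w + θ • pa w' := funext fun i => hc _
      have hub : pb u = (1 - θ) • pb w + θ • pb w' := funext fun i => hc _
      have hpol : ∀ i, Poly D.L (pa u i) (pb u i) := by
        intro i
        rw [hua, hub]
        exact poly_convex (pa_mem hm1 i) (pa_mem hm2 i) (by linarith) hθ0 (by ring)
      have hon : ∀ e ∈ S, u (.inl e) = D.ub e (pa u) := by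
        intro e he
        rw [hc, hua, ub_affine D e _ _ _ _ (by ring), hx1, hx2, if_pos he, if_pos he]
      have hoff : ∀ e ∉ S, u (.inl e) = 0 := by
        intro e he
        rw [hc, hx1, hx2, if_neg he, if_neg he]
        ring
      refine ⟨?_, hon, fun e he => hoff e (by simpa using he), fun i => ?_⟩
      · rw [mem_iff]
        have ea : (fun j => u (.inr (.inl j))) = pa u := rfl
        rw [ea]
        refine ⟨fun e => ?_, fun i => hpol i⟩
        have hpos := hD e (pa u) fun i => ⟨(hpol i).1, (hpol i).2.2.1⟩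
        by_cases he : e ∈ S
        · rw [hon e he]
          exact ⟨hpos.le, le_rfl⟩
        · rw [hoff e he]
          exact ⟨le_rfl, hpos.le⟩
      · by_cases hi : i = j
        · subst hi
          rw [Function.update_self, Function.update_self, Function.update_self, hua, hub]
          simp only [Pi.add_apply, Pi.smul_apply, smul_eq_mul]
          have : p * ((1 - θ) * pa w i + θ * pa w' i) + q * ((1 - θ) * pb w i + θ * pb w' i) =
              (1 - θ) * (p * pa w i + q * pb w i) + θ * (p * pa w' i + q * pb w' i) := by ring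
          rw [this, h0, h1]
          ring
        · rw [Function.update_of_ne hi, Function.update_of_ne hi, Function.update_of_ne hi]
          have e1 : pa u i = pa w i := by
            rw [hua]
            simp only [Pi.add_apply, Pi.smul_apply, smul_eq_mul, ha i hi]
            ring
          have e2 : pb u i = pb w i := by
            rw [hub]
            simp only [Pi.add_apply, Pi.smul_apply, smul_eq_mul, hb i hi]
            ring
          rw [e1, e2]
          exact (v_eq hL hAB i (pa_mem hm1 i)).2 ⟨rfl, rfl⟩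

/-- the short side of a polygon -/
theorem pivot_a {D : Data E G} (hD : D.Pos) (hL : 1 ≤ D.L) {S : Finset E} {A B : Finset G}
    (hAB : B ⊆ A) {j : G} (hj : j ∉ A) (hc : 0 < coef D (S : Set E) j) :
    D.lp.Pivot (vx D S A B) (vx D S (insert j A) B) := by
  have hjB : j ∉ B := fun h => hj (hAB h)
  have hL0 : (0 : ℝ) < D.L := by exact_mod_cast hL
  have ea : pa (vx D S A B) j = 0 := by rw [pa_vx]; simp [hj]
  have ea' : pa (vx D S (insert j A) B) j = D.L := by rw [pa_vx]; simp
  have eb : pb (vx D S A B) j = 0 := by rw [pb_vx]; simp [hjB]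
  have eb' : pb (vx D S (insert j A) B) j = 0 := by rw [pb_vx]; simp [hjB]
  refine pivot_poly hD hL hAB (hAB.trans (Finset.subset_insert _ _)) j (fun i hi => ?_) (fun i _ => Iff.rfl)
    (p := 0) (q := -1) (m := 0) ?_ ?_ ?_ ?_ ?_
  · simp [Finset.mem_insert, hi]
  · intro a b h
    linarith [h.2.1]
  · intro a b h he
    have hb : b = 0 := by linarith
    refine ⟨a / D.L, div_nonneg h.1 hL0.le, (div_le_one hL0).2 h.2.2.1, ?_, ?_⟩
    · rw [ea, ea', zero_add, sub_zero, div_mul_cancel₀ _ hL0.ne']
    · rw [eb, eb', hb]; ring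
  · rw [ea, eb]; ring
  · rw [ea', eb']; ring
  · have h1 : D.lp.value (vx D S (insert j A) B) = D.lp.value (vx D S A B) + ((coef D (S : Set E) j : ℤ) : ℝ) * D.L := by
      unfold vx
      rw [Gam_value, Gam_value, coef_coe]
      push_cast
      have e1 : ∑ i, (2 * ∑ e ∈ S, (D.U e i : ℝ) + D.g i) * (if i ∈ insert j A then (D.L : ℝ) else 0) =
          ∑ i, (2 * ∑ e ∈ S, (D.U e i : ℝ) + D.g i) * (if i ∈ A then (D.L : ℝ) else 0) +
          (2 * ∑ e ∈ S, (D.U e j : ℝ) + D.g j) * D.L := by
        rw [← Finset.sum_erase_add _ _ (Finset.mem_univ j)]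
        rw [← Finset.sum_erase_add _ (fun i => (2 * ∑ e ∈ S, (D.U e i : ℝ) + D.g i) * (if i ∈ A then (D.L : ℝ) else 0)) (Finset.mem_univ j)]
        have : ∑ i ∈ Finset.univ.erase j, (2 * ∑ e ∈ S, (D.U e i : ℝ) + D.g i) * (if i ∈ insert j A then (D.L : ℝ) else 0) =
            ∑ i ∈ Finset.univ.erase j, (2 * ∑ e ∈ S, (D.U e i : ℝ) + D.g i) * (if i ∈ A then (D.L : ℝ) else 0) := by
          apply Finset.sum_congr rfl
          intro i hi
          simp [Finset.mem_insert, Finset.ne_of_mem_erase hi]
        rw [this]
        simp [hj]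
      rw [e1]
      ring
    rw [h1]
    have : (0 : ℝ) < ((coef D (S : Set E) j : ℤ) : ℝ) := by exact_mod_cast hc
    nlinarith

/-- the vertical side of a polygon -/
theorem pivot_b {D : Data E G} (hD : D.Pos) (hL : 1 ≤ D.L) (hM : 0 < D.M) {S : Finset E} {A B : Finset G}
    (hAB : B ⊆ A) {j : G} (hjA : j ∈ A) (hjB : j ∉ B) :
    D.lp.Pivot (vx D S A B) (vx D S A (insert j B)) := by
  have ht := topv_pos D.L
  have ea : pa (vx D S A B) j = D.L := by rw [pa_vx]; simp [hjA]
  have ea' : pa (vx D S A (insert j B)) j = D.L := by rw [pa_vx]; simp [hjA]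
  have eb : pb (vx D S A B) j = 0 := by rw [pb_vx]; simp [hjB]
  have eb' : pb (vx D S A (insert j B)) j = topv D.L := by rw [pb_vx]; simp
  refine pivot_poly hD hL hAB (Finset.insert_subset hjA hAB) j (fun i _ => Iff.rfl) (fun i hi => ?_)
    (p := 1) (q := 0) (m := D.L) ?_ ?_ ?_ ?_ ?_
  · simp [Finset.mem_insert, hi]
  · intro a b h
    linarith [h.2.2.1]
  · intro a b h he
    have ha : a = D.L := by linarith
    have h2 := poly_top hL h
    have hb : b ≤ topv D.L := by linarith
    refine ⟨b / topv D.L, div_nonneg h.2.1 ht.le, (div_le_one ht).2 hb, ?_, ?_⟩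
    · rw [ea, ea', ha]; ring
    · rw [eb, eb', zero_add, sub_zero, div_mul_cancel₀ _ ht.ne']
  · rw [ea, eb]; ring
  · rw [ea', eb']; ring
  · have h1 : D.lp.value (vx D S A (insert j B)) = D.lp.value (vx D S A B) + D.M * topv D.L := by
      unfold vx
      rw [Gam_value, Gam_value]
      have e1 : ∑ i, (if i ∈ insert j B then topv D.L else 0) =
          ∑ i, (if i ∈ B then topv D.L else 0) + topv D.L := by
        rw [← Finset.sum_erase_add _ _ (Finset.mem_univ j)]
        rw [← Finset.sum_erase_add _ (fun i => (if i ∈ B then topv D.L else 0)) (Finset.mem_univ j)]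
        have : ∑ i ∈ Finset.univ.erase j, (if i ∈ insert j B then topv D.L else 0) =
            ∑ i ∈ Finset.univ.erase j, (if i ∈ B then topv D.L else 0) := by
          apply Finset.sum_congr rfl
          intro i hi
          simp [Finset.mem_insert, Finset.ne_of_mem_erase hi]
        rw [this]
        simp [hjB]
      rw [e1]
      ring
    rw [h1]
    have : (0 : ℝ) < D.M := by exact_mod_cast hM
    nlinarith

end

/-- reachability with a given number of pivots -/
def Reach {I J : Type} [Fintype J] (P : LP I J) (T : ℕ) (w w' : J → ℝ) : Prop :=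
  ∃ x : ℕ → J → ℝ, x 0 = w ∧ x T = w' ∧ ∀ s < T, P.Pivot (x s) (x (s + 1))

theorem Reach.refl {I J : Type} [Fintype J] (P : LP I J) (w : J → ℝ) : Reach P 0 w w :=
  ⟨fun _ => w, rfl, rfl, fun s hs => by omega⟩

theorem Reach.trans {I J : Type} [Fintype J] {P : LP I J} {T T' : ℕ} {w w' w'' : J → ℝ}
    (h : Reach P T w w') (h' : Reach P T' w' w'') : Reach P (T + T') w w'' := by
  obtain ⟨x, x0, x1, x2⟩ := h
  obtain ⟨y, y0, y1, y2⟩ := h'
  refine ⟨fun s => if s ≤ T then x s else y (s - T), ?_, ?_, ?_⟩
  · simp [x0]
  · by_cases hT : T' = 0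
    · subst hT
      simp only [add_zero, le_refl, if_true]
      rw [x1, ← y0, y1]
    · have : ¬ T + T' ≤ T := by omega
      simp only [this, if_false, Nat.add_sub_cancel_left, y1]
  · intro s hs
    by_cases h1 : s + 1 ≤ T
    · have h2 : s ≤ T := by omega
      simp only [h1, h2, if_true]
      exact x2 s (by omega)
    · by_cases h2 : s ≤ T
      · have h3 : s = T := by omega
        subst h3
        simp only [le_refl, if_true, h1, if_false, Nat.add_sub_cancel_left]
        rw [x1, ← y0]
        exact y2 0 (by omega)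
      · simp only [h1, h2, if_false]
        have h3 := y2 (s - T) (by omega)
        rw [show s - T + 1 = s + 1 - T by omega] at h3
        exact h3

theorem Reach.single {I J : Type} [Fintype J] {P : LP I J} {w w' : J → ℝ} (h : P.Pivot w w') :
    Reach P 1 w w' := by
  refine ⟨fun s => if s = 0 then w else w', by simp, by simp, ?_⟩
  intro s hs
  have : s = 0 := by omega
  subst this
  simpa using h

theorem Reach.finset {I J : Type} [Fintype J] {P : LP I J} {κ : Type} [DecidableEq κ] (F : Finset κ)
    (f : Finset κ → J → ℝ) (h : ∀ F' ⊆ F, ∀ e ∈ F, e ∉ F' → P.Pivot (f F') (f (insert e F'))) :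
    Reach P F.card (f ∅) (f F) := by
  induction F using Finset.induction_on with
  | empty => exact Reach.refl P _
  | insert e F he ih =>
    rw [Finset.card_insert_of_notMem he]
    refine (ih fun F' hF' e' he' hn => h F' (hF'.trans (Finset.subset_insert _ _)) e'
      (Finset.mem_insert_of_mem he') hn).trans (Reach.single ?_)
    exact h F (Finset.subset_insert _ _) e (Finset.mem_insert_self _ _) he

end Pool.Agent.Run7.h689.HP
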