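import Pool.Agent.Run7.h689.HP5
set_option autoImplicit false
set_option linter.unusedSectionVars false

/-!
# Nondegeneracy
-/

namespace Pool.Agent.Run7.h689.HP

open Set

open Classical in
/-- nondegenerate: at no feasible point more of the constraints `A x ≤ b`, `x ≥ 0` hold with equality
than there are variables -/
def LP.Nondegenerate {I J : Type} [Fintype I] [Fintype J] (P : LP I J) : Prop :=
  ∀ x ∈ P.feasible, (Finset.univ.filter fun i => ∑ j, (P.A i j : ℝ) * x j = P.b i).card +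
    (Finset.univ.filter fun j => x j = 0).card ≤ Fintype.card J

open Classical in
theorem poly_tight {L : ℕ} (hL : 1 ≤ L) {a b : ℝ} (h : Poly L a b) :
    (if a = L then 1 else 0) +
    (Finset.univ.filter fun i : Fin L => b = ((L : ℝ) - i.1) * a + ((i.1 : ℝ) * (i.1 + 1) / 2 + 1)).card +
    ((if a = 0 then 1 else 0) + (if b = 0 then 1 else 0)) ≤ 2 := by
  set F := Finset.univ.filter fun i : Fin L => b = ((L : ℝ) - i.1) * a + ((i.1 : ℝ) * (i.1 + 1) / 2 + 1) with hF
  have hL0 : (1 : ℝ) ≤ L := by exact_mod_cast hL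
  have hmem : ∀ i ∈ F, (i.1 : ℝ) ≤ a ∧ a ≤ i.1 + 1 ∧ b ≠ 0 := by
    intro i hi
    rw [hF, Finset.mem_filter] at hi
    have h1 := poly_line h i hi.2
    refine ⟨h1.1, h1.2, ?_⟩
    have h2 : (i.1 : ℝ) + 1 ≤ L := by exact_mod_cast i.2
    have h3 : 0 ≤ ((L : ℝ) - i.1) * a := mul_nonneg (by linarith) h.1
    have h4 : (0 : ℝ) ≤ (i.1 : ℝ) * (i.1 + 1) / 2 := by positivity
    rw [hi.2]
    linarith
  have hlt : ∀ i ∈ F, ∀ i' ∈ F, i < i' → i'.1 = i.1 + 1 ∧ a = i'.1 := by
    intro i hi i' hi' hii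
    have h1 := hmem i hi
    have h2 := hmem i' hi'
    have h3 : (i'.1 : ℝ) ≤ i.1 + 1 := h2.1.trans h1.2.1
    have h4 : i'.1 ≤ i.1 + 1 := by exact_mod_cast h3
    have h5 : i.1 < i'.1 := hii
    have h6 : i'.1 = i.1 + 1 := by omega
    refine ⟨h6, le_antisymm ?_ h2.1⟩
    rw [h6]
    push_cast
    exact h1.2.1
  have hc2 : F.card ≤ 2 := by
    by_contra hcon
    push Not at hcon
    obtain ⟨i, j, l, hi, hj, hl, h1, h2, h3⟩ := Finset.two_lt_card_iff.1 hcon
    have key : ∀ i ∈ F, ∀ j ∈ F, ∀ l ∈ F, i < j → j < l → False := by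
      intro i hi j hj l hl hij hjl
      have a1 := (hlt i hi l hl (hij.trans hjl)).1
      have a2 : i.1 < j.1 := hij
      have a3 : j.1 < l.1 := hjl
      omega
    rcases lt_or_gt_of_ne h1 with a1 | a1 <;> rcases lt_or_gt_of_ne h2 with a2 | a2 <;>
      rcases lt_or_gt_of_ne h3 with a3 | a3
    · exact key i hi j hj l hl a1 a3
    · exact key i hi l hl j hj a2 a3
    · exact absurd (a1.trans a3) (not_lt.2 a2.le)
    · exact key l hl i hi j hj a2 a1
    · exact key j hj i hi l hl a1 a2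
    · exact absurd (a3.trans a1) (not_lt.2 a2.le)
    · exact key j hj l hl i hi a3 a2
    · exact key l hl j hj i hi a3 a1
  by_cases h2 : F.card = 2
  · obtain ⟨i, j, hij, hFe⟩ := Finset.card_eq_two.1 h2
    have hi : i ∈ F := by rw [hFe]; simp
    have hj : j ∈ F := by rw [hFe]; simp
    have key : ∀ i ∈ F, ∀ j ∈ F, i < j → a ≠ L ∧ a ≠ 0 := by
      intro i hi j hj hij
      have h1 := hlt i hi j hj hij
      have h3 : j.1 < L := j.2
      have h4 : (j.1 : ℝ) < L := by exact_mod_cast h3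
      have h5 : (0 : ℝ) < j.1 := by
        have : 0 < j.1 := by omega
        exact_mod_cast this
      rw [h1.2]
      exact ⟨h4.ne, h5.ne'⟩
    have hk : a ≠ L ∧ a ≠ 0 := by
      rcases lt_or_gt_of_ne hij with g | g
      · exact key i hi j hj g
      · exact key j hj i hi g
    rw [if_neg hk.1, if_neg hk.2, if_neg (hmem i hi).2.2, h2]
  · by_cases h1 : F.card = 1
    · obtain ⟨i, hFe⟩ := Finset.card_eq_one.1 h1
      have hi : i ∈ F := by rw [hFe]; simp
      rw [if_neg (hmem i hi).2.2, h1]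
      by_cases g : a = L
      · have : a ≠ 0 := by rw [g]; linarith
        rw [if_pos g, if_neg this]
      · rw [if_neg g]
        split_ifs <;> omega
    · have h0 : F.card = 0 := by omega
      rw [h0]
      by_cases g : a = L
      · have : a ≠ 0 := by rw [g]; linarith
        rw [if_pos g, if_neg this]
        split_ifs <;> omega
      · rw [if_neg g]
        split_ifs <;> omega

section
variable {E G : Type} [Fintype E] [Fintype G] [DecidableEq E] [DecidableEq G]

theorem nondeg {D : Data E G} (hD : D.Pos) (hL : 1 ≤ D.L) : D.lp.Nondegenerate := by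
  classical
  intro w hw
  have hw1 := (mem_iff D w).1 hw
  have h1 : ∀ e : E, ∑ j, (D.lp.A (.inl e) j : ℝ) * w j =
      w (.inl e) - ∑ j, (D.U e j : ℝ) * w (.inr (.inl j)) := by
    intro e
    rw [Fintype.sum_sum_type, Fintype.sum_sum_type]
    simp only [Data.lp]
    simp [sub_eq_add_neg]
  have h2 : ∀ j : G, ∑ c, (D.lp.A (.inr (.inl j)) c : ℝ) * w c = w (.inr (.inl j)) := by
    intro j
    rw [Fintype.sum_sum_type, Fintype.sum_sum_type]
    simp only [Data.lp]
    simp
  have h3 : ∀ (j : G) (i : Fin D.L), ∑ c, (D.lp.A (.inr (.inr (j, i))) c : ℝ) * w c =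
      w (.inr (.inr j)) - ((D.L : ℝ) - i.1) * w (.inr (.inl j)) := by
    intro j i
    rw [Fintype.sum_sum_type, Fintype.sum_sum_type]
    simp only [Data.lp]
    simp only [Int.cast_zero, zero_mul, Finset.sum_const_zero, zero_add, Int.cast_ite, ite_mul,
      Finset.sum_ite_eq', Finset.mem_univ, if_true]
    push_cast
    ring
  have b1 : ∀ e : E, (D.lp.b (.inl e) : ℝ) = D.u e := fun e => rfl
  have b2 : ∀ j : G, (D.lp.b (.inr (.inl j)) : ℝ) = D.L := fun j => by simp [Data.lp]
  have b3 : ∀ (j : G) (i : Fin D.L), (D.lp.b (.inr (.inr (j, i))) : ℝ) = (i.1 : ℝ) * (i.1 + 1) / 2 + 1 :=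
    fun j i => cast_half i.1
  rw [Finset.card_filter, Finset.card_filter]
  rw [Fintype.sum_sum_type, Fintype.sum_sum_type, Fintype.sum_sum_type, Fintype.sum_sum_type,
    Fintype.sum_prod_type]
  simp only [h1, h2, h3, b1, b2, b3]
  have hE : ∑ e, (if w (.inl e) - ∑ j, (D.U e j : ℝ) * w (.inr (.inl j)) = D.u e then 1 else 0) +
      ∑ e, (if w (.inl e) = 0 then 1 else 0) ≤ Fintype.card E := by
    rw [← Finset.sum_add_distrib, ← Finset.card_univ, Finset.card_eq_sum_ones]
    apply Finset.sum_le_sum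
    intro e _
    have hpos := hD e (pa w) fun i => ⟨(pa_mem hw i).1, (pa_mem hw i).2.2.1⟩
    by_cases g : w (.inl e) = 0
    · have : ¬ (w (.inl e) - ∑ j, (D.U e j : ℝ) * w (.inr (.inl j)) = D.u e) := by
        intro h
        have h4 : D.ub e (pa w) = w (.inl e) := by
          unfold Data.ub
          have : ∑ j, (D.U e j : ℝ) * pa w j = ∑ j, (D.U e j : ℝ) * w (.inr (.inl j)) := rfl
          rw [this]; linarith
        rw [h4, g] at hpos
        exact lt_irrefl _ hpos
      rw [if_neg this, if_pos g]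
    · rw [if_neg g]
      split_ifs <;> omega
  have hG : ∑ j : G, (if w (.inr (.inl j)) = D.L then 1 else 0) +
      ∑ j : G, ∑ i : Fin D.L, (if w (.inr (.inr j)) - ((D.L : ℝ) - i.1) * w (.inr (.inl j)) =
        (i.1 : ℝ) * (i.1 + 1) / 2 + 1 then 1 else 0) +
      (∑ j : G, (if w (.inr (.inl j)) = 0 then 1 else 0) + ∑ j : G, (if w (.inr (.inr j)) = 0 then 1 else 0)) ≤
      2 * Fintype.card G := by
    rw [← Finset.sum_add_distrib, ← Finset.sum_add_distrib, ← Finset.sum_add_distrib,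
      ← Finset.card_univ, Finset.card_eq_sum_ones, Finset.mul_sum]
    apply Finset.sum_le_sum
    intro j _
    have h4 := poly_tight hL (hw1.2 j)
    rw [Finset.card_filter] at h4
    have h5 : ∀ i : Fin D.L, (w (.inr (.inr j)) - ((D.L : ℝ) - i.1) * w (.inr (.inl j)) =
        (i.1 : ℝ) * (i.1 + 1) / 2 + 1) ↔ (w (.inr (.inr j)) = ((D.L : ℝ) - i.1) * w (.inr (.inl j)) +
        ((i.1 : ℝ) * (i.1 + 1) / 2 + 1)) := by
      intro i
      constructor <;> intro h <;> linarith
    simp only [h5]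
    simpa using h4
  have hcard : Fintype.card (E ⊕ (G ⊕ G)) = Fintype.card E + 2 * Fintype.card G := by
    rw [Fintype.card_sum, Fintype.card_sum]; ring
  rw [hcard]
  omega

/-- the origin is a vertex -/
theorem zero_ext {I J : Type} [Fintype J] {P : LP I J} (h : (0 : J → ℝ) ∈ P.feasible) :
    (0 : J → ℝ) ∈ P.feasible.extremePoints ℝ := by
  refine ⟨h, ?_⟩
  rintro a ha b hb ⟨α, β, hα, hβ, -, he⟩
  funext j
  have h1 := congrFun he j
  simp only [Pi.add_apply, Pi.smul_apply, smul_eq_mul, Pi.zero_apply] at h1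
  have h2 := ha.1 j
  have h3 := hb.1 j
  have h4 : α * a j = 0 := by
    have := mul_nonneg hα.le h2
    have := mul_nonneg hβ.le h3
    linarith
  rcases mul_eq_zero.1 h4 with h5 | h5
  · exact absurd h5 hα.ne'
  · exact h5

theorem zero_eq (D : Data E G) : vx D ∅ ∅ ∅ = 0 := by
  funext c
  rcases c with e | j | j
  · rw [vx_inl]; simp
  · simp [vx, Gam_a]
  · simp [vx, Gam_b]

theorem opt_eq (D : Data E G) : vx D Finset.univ Finset.univ Finset.univ = opt D := by
  unfold vx opt
  simp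

theorem bounded {D : Data E G} (hL : 1 ≤ D.L) : ∃ R : ℝ, ∀ w ∈ D.lp.feasible, ∀ c, w c ≤ R := by
  set R : ℝ := D.L + topv D.L + ∑ e, (|(D.u e : ℝ)| + ∑ j, |(D.U e j : ℝ)| * D.L) with hR
  have h0 : 0 ≤ ∑ e, (|(D.u e : ℝ)| + ∑ j, |(D.U e j : ℝ)| * D.L) := by positivity
  have ht := topv_pos D.L
  refine ⟨R, fun w hw c => ?_⟩
  have hw1 := (mem_iff D w).1 hw
  rcases c with e | j | j
  · have h1 := (hw1.1 e).2
    have h2 : D.ub e (fun j => w (.inr (.inl j))) ≤ |(D.u e : ℝ)| + ∑ j, |(D.U e j : ℝ)| * D.L := by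
      unfold Data.ub
      apply add_le_add (le_abs_self _)
      apply Finset.sum_le_sum
      intro j _
      have g1 := (hw1.2 j).1
      have g2 := (hw1.2 j).2.2.1
      calc (D.U e j : ℝ) * w (.inr (.inl j)) ≤ |(D.U e j : ℝ)| * w (.inr (.inl j)) :=
            mul_le_mul_of_nonneg_right (le_abs_self _) g1
        _ ≤ _ := mul_le_mul_of_nonneg_left g2 (abs_nonneg _)
    have h3 : |(D.u e : ℝ)| + ∑ j, |(D.U e j : ℝ)| * D.L ≤ ∑ e, (|(D.u e : ℝ)| + ∑ j, |(D.U e j : ℝ)| * D.L) :=
      Finset.single_le_sum (f := fun e => |(D.u e : ℝ)| + ∑ j, |(D.U e j : ℝ)| * D.L)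
        (fun e _ => by positivity) (Finset.mem_univ e)
    have h4 : (0 : ℝ) ≤ D.L := by positivity
    linarith
  · have := (hw1.2 j).2.2.1
    linarith
  · have h1 : w (.inr (.inr j)) ≤ topv D.L := by
      have := poly_top hL (hw1.2 j)
      have := (hw1.2 j).2.2.1
      linarith
    have h4 : (0 : ℝ) ≤ D.L := by positivity
    linarith

end

end Pool.Agent.Run7.h689.HP
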