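import Pool.Agent.Run7.h689.HP6
set_option autoImplicit false
set_option linter.unusedSectionVars false

/-!
# Hitting sets
-/

namespace Pool.Agent.Run7.h689.HP

open Set

/-- the data which belong to the sets `C j` and the number `k` -/
def hs (n m k L : ℕ) (C : Fin m → Finset (Fin n)) : Data (Fin n ⊕ Fin m) (Option (Fin m)) where
  L := L
  U
  | .inl v, some j => if v ∈ C j then 1 else 0
  | .inl _, none => -1
  | .inr j, some j' => if j' = j then -((n : ℤ) + 1) else 0
  | .inr _, none => n + 1
  u
  | .inl _ => L + 1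
  | .inr _ => ((n : ℤ) + 1) * L + 1
  g
  | some _ => -1
  | none => 2 * k + 1 - 2 * (n + 1) * m
  M := 2 * n + 4

variable {n m k L : ℕ} {C : Fin m → Finset (Fin n)}

theorem hs_pos : (hs n m k L C).Pos := by
  rintro (v | j) a ha
  · unfold Data.ub
    rw [Fintype.sum_option]
    have h1 : (0 : ℝ) ≤ ∑ j, (((hs n m k L C).U (.inl v) (some j) : ℤ) : ℝ) * a (some j) := by
      apply Finset.sum_nonneg
      intro j _
      apply mul_nonneg _ (ha _).1
      simp only [hs]
      split_ifs <;> simp
    have h2 : a none ≤ L := (ha none).2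
    have h3 : (((hs n m k L C).U (.inl v) none : ℤ) : ℝ) = -1 := by simp [hs]
    have h4 : (((hs n m k L C).u (.inl v) : ℤ) : ℝ) = L + 1 := by simp [hs]
    rw [h3, h4]
    linarith
  · unfold Data.ub
    rw [Fintype.sum_option]
    have h1 : ∑ j', (((hs n m k L C).U (.inr j) (some j') : ℤ) : ℝ) * a (some j') = -((n : ℝ) + 1) * a (some j) := by
      simp only [hs]
      rw [Finset.sum_eq_single j]
      · simp
      · intro j' _ hne
        simp [hne]
      · simp
    have h2 : (((hs n m k L C).U (.inr j) none : ℤ) : ℝ) = n + 1 := by simp [hs]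
    have h3 : (((hs n m k L C).u (.inr j) : ℤ) : ℝ) = (n + 1) * L + 1 := by simp [hs]
    have h4 : a (some j) ≤ L := (ha (some j)).2
    have h5 : 0 ≤ a none := (ha none).1
    rw [h1, h2, h3]
    have h6 : (0 : ℝ) ≤ n := by positivity
    nlinarith [mul_nonneg h6 h5, mul_nonneg h6 (by linarith : 0 ≤ (L : ℝ) - a (some j))]

theorem coef_some (F : Finset (Fin n ⊕ Fin m)) (j : Fin m) : coef (hs n m k L C) (F : Set _) (some j) =
    2 * ((((F.toLeft ∩ C j).card : ℕ) : ℤ) - (if j ∈ F.toRight then (n : ℤ) + 1 else 0)) - 1 := by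
  rw [coef_coe]
  have e1 : (hs n m k L C).g (some j) = -1 := rfl
  rw [e1]
  have e2 : ∑ e ∈ F, (hs n m k L C).U e (some j) =
      ∑ v ∈ F.toLeft, (hs n m k L C).U (.inl v) (some j) + ∑ i ∈ F.toRight, (hs n m k L C).U (.inr i) (some j) := by
    conv_lhs => rw [← Finset.toLeft_disjSum_toRight (u := F)]
    rw [Finset.sum_disjSum]
  have e3 : ∑ v ∈ F.toLeft, (hs n m k L C).U (.inl v) (some j) = ((F.toLeft ∩ C j).card : ℤ) := by
    simp only [hs]
    rw [Finset.sum_ite_mem]
    simp
  have e4 : ∑ i ∈ F.toRight, (hs n m k L C).U (.inr i) (some j) = -(if j ∈ F.toRight then (n : ℤ) + 1 else 0) := by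
    simp only [hs]
    rw [Finset.sum_ite_eq]
    split_ifs <;> simp
  rw [e2, e3, e4]
  ring

theorem coef_none (F : Finset (Fin n ⊕ Fin m)) : coef (hs n m k L C) (F : Set _) none =
    2 * ((k : ℤ) - F.toLeft.card - (n + 1) * (m - F.toRight.card)) + 1 := by
  rw [coef_coe]
  have e1 : (hs n m k L C).g none = 2 * k + 1 - 2 * (n + 1) * m := rfl
  rw [e1]
  have e2 : ∑ e ∈ F, (hs n m k L C).U e none =
      ∑ v ∈ F.toLeft, (hs n m k L C).U (.inl v) none + ∑ i ∈ F.toRight, (hs n m k L C).U (.inr i) none := by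
    conv_lhs => rw [← Finset.toLeft_disjSum_toRight (u := F)]
    rw [Finset.sum_disjSum]
  have e3 : ∑ v ∈ F.toLeft, (hs n m k L C).U (.inl v) none = -(F.toLeft.card : ℤ) := by
    simp [hs]
  have e4 : ∑ i ∈ F.toRight, (hs n m k L C).U (.inr i) none = (F.toRight.card : ℤ) * (n + 1) := by
    simp [hs]
  rw [e2, e3, e4]
  ring

theorem coef_univ_lt (j : Option (Fin m)) : -(hs n m k L C).M < coef (hs n m k L C) Set.univ j := by
  have hM : (hs n m k L C).M = 2 * n + 4 := rfl
  have hu : (Set.univ : Set (Fin n ⊕ Fin m)) = ((Finset.univ : Finset (Fin n ⊕ Fin m)) : Set _) := by simp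
  have hl : (Finset.univ : Finset (Fin n ⊕ Fin m)).toLeft = Finset.univ := by ext; simp
  have hr : (Finset.univ : Finset (Fin n ⊕ Fin m)).toRight = Finset.univ := by ext; simp
  rw [hM, hu]
  rcases j with _ | j
  · rw [coef_none, hl, hr]
    simp only [Finset.card_univ, Fintype.card_fin]
    have : (0 : ℤ) ≤ k := by positivity
    have : (0 : ℤ) ≤ n := by positivity
    ring_nf
    linarith
  · rw [coef_some, hl, hr]
    simp only [Finset.mem_univ, if_true]
    have : (0 : ℤ) ≤ ((Finset.univ ∩ C j).card : ℤ) := by positivity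
    linarith

/-- the set of the switches which are on, as a finite set -/
theorem exists_finset (S : Set (Fin n ⊕ Fin m)) : ∃ F : Finset (Fin n ⊕ Fin m), (F : Set _) = S := by
  classical
  exact ⟨S.toFinset, Set.coe_toFinset S⟩

theorem lower (hk : k < n) (hL : 1 ≤ L) {T : ℕ} (hT : T < L) {x : ℕ → (Fin n ⊕ Fin m) ⊕ (Option (Fin m) ⊕ Option (Fin m)) → ℝ}
    (h : (hs n m k L C).lp.Path 0 T x) : ∃ S : Finset (Fin n), S.card ≤ k ∧ ∀ j, ∃ v ∈ S, v ∈ C j := by
  set D := hs n m k L C with hD
  have hpos : D.Pos := hs_pos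
  have h0 : (0 : (Fin n ⊕ Fin m) ⊕ (Option (Fin m) ⊕ Option (Fin m)) → ℝ) ∈ D.lp.feasible := by
    rw [← zero_eq D]
    exact vx_mem hpos _ (Finset.empty_subset _)
  have hM0 : 0 < D.M := by
    have : D.M = 2 * n + 4 := rfl
    rw [this]; positivity
  have hev := events (D := D) hpos hL coef_univ_lt hM0 (v := 0) (fun j => rfl) h0 h hT
  obtain ⟨s₁, hs₁, hc₁⟩ := hev none
  obtain ⟨F₁, hF₁⟩ := exists_finset (on D (x s₁))
  rw [← hF₁, coef_none] at hc₁
  have hr : F₁.toRight.card ≤ m := by
    have := Finset.card_le_univ F₁.toRight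
    simpa using this
  have hr2 : F₁.toRight.card = m := by
    by_contra hne
    have h1 : F₁.toRight.card + 1 ≤ m := by omega
    have h2 : ((F₁.toRight.card : ℤ)) + 1 ≤ m := by exact_mod_cast h1
    have h3 : (k : ℤ) < n := by exact_mod_cast hk
    have h4 : (0 : ℤ) ≤ F₁.toLeft.card := by positivity
    have h5 : (0 : ℤ) ≤ n := by positivity
    nlinarith
  have hr3 : F₁.toRight = Finset.univ := by
    rw [← Finset.card_eq_iff_eq_univ]
    simpa using hr2
  refine ⟨F₁.toLeft, ?_, fun j => ?_⟩
  · rw [hr2] at hc₁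
    have : ((F₁.toLeft.card : ℤ)) ≤ k := by linarith
    exact_mod_cast this
  · obtain ⟨s₂, hs₂, hc₂⟩ := hev (some j)
    obtain ⟨F₂, hF₂⟩ := exists_finset (on D (x s₂))
    rw [← hF₂, coef_some] at hc₂
    have hle : ((F₂.toLeft ∩ C j).card : ℤ) ≤ n := by
      have := Finset.card_le_univ (F₂.toLeft ∩ C j)
      rw [Fintype.card_fin] at this
      exact_mod_cast this
    have hj : j ∉ F₂.toRight := by
      intro hj
      rw [if_pos hj] at hc₂
      linarith
    rw [if_neg hj] at hc₂
    have hne : 0 < (F₂.toLeft ∩ C j).card := by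
      have : (0 : ℤ) < (F₂.toLeft ∩ C j).card := by linarith
      exact_mod_cast this
    have hlt : s₂ < s₁ := by
      by_contra hcon
      push Not at hcon
      have hsub := path_on hpos h hcon (by omega)
      rw [← hF₁, ← hF₂] at hsub
      have h1 : Sum.inr j ∈ F₁ := by
        rw [← Finset.mem_toRight, hr3]
        exact Finset.mem_univ _
      have h2 : Sum.inr j ∈ F₂ := by
        have := hsub (Finset.mem_coe.2 h1)
        exact Finset.mem_coe.1 this
      exact hj (Finset.mem_toRight.2 h2)
    have hsub := path_on hpos h hlt.le (by omega)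
    rw [← hF₁, ← hF₂] at hsub
    obtain ⟨v, hv⟩ := Finset.card_pos.1 hne
    rw [Finset.mem_inter, Finset.mem_toLeft] at hv
    refine ⟨v, ?_, hv.2⟩
    rw [Finset.mem_toLeft]
    exact Finset.mem_coe.1 (hsub (Finset.mem_coe.2 hv.1))

theorem upper (hL : 1 ≤ L) {S : Finset (Fin n)} (hS : S.card ≤ k) (hC : ∀ j, ∃ v ∈ S, v ∈ C j) :
    ∃ x, (hs n m k L C).lp.Path 0 (n + 3 * m + 2) x := by
  set D := hs n m k L C with hD
  have hpos : D.Pos := hs_pos
  have hM0 : 0 < D.M := by
    have : D.M = 2 * n + 4 := rfl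
    rw [this]; positivity
  let il : Fin n ↪ Fin n ⊕ Fin m := ⟨Sum.inl, Sum.inl_injective⟩
  let ir : Fin m ↪ Fin n ⊕ Fin m := ⟨Sum.inr, Sum.inr_injective⟩
  let so : Fin m ↪ Option (Fin m) := ⟨some, Option.some_injective _⟩
  -- phase 1
  have p1 := Reach.finset (P := D.lp) S (fun F => vx D (F.map il) ∅ ∅) (by
    intro F hF e he heF
    rw [Finset.map_insert]
    exact pivot_switch hpos hL (Finset.empty_subset _) (by simpa [il] using heF))
  -- phase 2
  have p2 := Reach.finset (P := D.lp) (Finset.univ : Finset (Fin m)) (fun F => vx D (S.map il) (F.map so) ∅) (by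
    intro F hF j _ hjF
    rw [Finset.map_insert]
    refine pivot_a hpos hL (Finset.empty_subset _) (by simpa [so] using hjF) ?_
    have : (so j) = some j := rfl
    rw [this, coef_some]
    have h1 : (S.map il).toLeft = S := by ext; simp [il]
    have h2 : (S.map il).toRight = ∅ := by ext; simp [il]
    rw [h1, h2]
    obtain ⟨v, hv, hvC⟩ := hC j
    have h3 : 0 < (S ∩ C j).card := Finset.card_pos.2 ⟨v, Finset.mem_inter.2 ⟨hv, hvC⟩⟩
    have h4 : (1 : ℤ) ≤ ((S ∩ C j).card : ℤ) := by exact_mod_cast h3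
    simp only [Finset.notMem_empty, if_false]
    linarith)
  -- phase 3
  have p3 := Reach.finset (P := D.lp) (Finset.univ : Finset (Fin m))
      (fun F => vx D (S.map il ∪ F.map ir) (Finset.univ.map so) ∅) (by
    intro F hF j _ hjF
    rw [Finset.map_insert, Finset.union_insert]
    exact pivot_switch hpos hL (Finset.empty_subset _) (by simpa [il, ir] using hjF))
  -- phase 4
  have p4 : D.lp.Pivot (vx D (S.map il ∪ Finset.univ.map ir) (Finset.univ.map so) ∅)
      (vx D (S.map il ∪ Finset.univ.map ir) (insert none (Finset.univ.map so)) ∅) := by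
    refine pivot_a hpos hL (Finset.empty_subset _) (by simp [so]) ?_
    rw [coef_none]
    have h1 : (S.map il ∪ Finset.univ.map ir).toLeft = S := by ext; simp [il, ir]
    have h2 : (S.map il ∪ Finset.univ.map ir).toRight = Finset.univ := by ext; simp [il, ir]
    rw [h1, h2]
    have h3 : ((S.card : ℤ)) ≤ k := by exact_mod_cast hS
    simp only [Finset.card_univ, Fintype.card_fin]
    ring_nf
    linarith
  -- phase 5
  have p5 := Reach.finset (P := D.lp) (Finset.univ \ S)
      (fun F => vx D (F.map il ∪ (S.map il ∪ Finset.univ.map ir)) (insert none (Finset.univ.map so)) ∅) (by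
    intro F hF v hv hvF
    rw [Finset.map_insert, Finset.insert_union]
    refine pivot_switch hpos hL (Finset.empty_subset _) ?_
    have := (Finset.mem_sdiff.1 hv).2
    simp [il, ir, hvF, this])
  -- phase 6
  have p6 := Reach.finset (P := D.lp) (Finset.univ : Finset (Option (Fin m)))
      (fun F => vx D ((Finset.univ \ S).map il ∪ (S.map il ∪ Finset.univ.map ir)) (insert none (Finset.univ.map so)) F) (by
    intro F hF j hj hjF
    refine pivot_b hpos hL hM0 ?_ ?_ hjF
    · intro i _
      rcases i with _ | i <;> simp [so]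
    · rcases j with _ | j <;> simp [so])
  simp only [Finset.map_empty, Finset.union_empty, Finset.empty_union] at p1 p2 p3 p5
  have hall := ((((p1.trans p2).trans p3).trans (Reach.single p4)).trans p5).trans p6
  have hfin : vx D ((Finset.univ \ S).map il ∪ (S.map il ∪ Finset.univ.map ir)) (insert none (Finset.univ.map so))
      Finset.univ = opt D := by
    rw [← opt_eq]
    have e1 : (Finset.univ \ S).map il ∪ (S.map il ∪ Finset.univ.map ir) = Finset.univ := by
      ext c
      rcases c with v | j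
      · by_cases hv : v ∈ S <;> simp [il, ir, hv]
      · simp [il, ir]
    have e2 : insert none ((Finset.univ : Finset (Fin m)).map so) = Finset.univ := by
      ext c
      rcases c with _ | j <;> simp [so]
    rw [e1, e2]
  rw [hfin, zero_eq] at hall
  have hcount : S.card + (Finset.univ : Finset (Fin m)).card + (Finset.univ : Finset (Fin m)).card + 1 +
      (Finset.univ \ S).card + (Finset.univ : Finset (Option (Fin m))).card = n + 3 * m + 2 := by
    have h1 : (Finset.univ \ S).card + S.card = n := by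
      rw [Finset.card_sdiff_add_card_eq_card (Finset.subset_univ S)]
      simp
    simp only [Finset.card_univ, Fintype.card_fin, Fintype.card_option] at h1 ⊢
    omega
  rw [hcount] at hall
  obtain ⟨x, x0, x1, x2⟩ := hall
  refine ⟨x, x0, x2, fun y hy => ?_⟩
  rw [x1]
  exact (opt_top hL coef_univ_lt hM0 hy).1

end Pool.Agent.Run7.h689.HP
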