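import Pool.Agent.Run7.h689.Asm
set_option autoImplicit false

/-!
# The integral data of the linear program
-/

namespace Pool.Agent.Run7.h689.SH

open Set

/-- dyadic rationals with denominator `2 ^ a` -/
def Dy (a : ℕ) (x : ℝ) : Prop := ∃ z : ℤ, (z : ℝ) = 2 ^ a * x

theorem Dy.mono {a b : ℕ} {x : ℝ} (h : Dy a x) (hab : a ≤ b) : Dy b x := by
  obtain ⟨z, hz⟩ := h
  refine ⟨2 ^ (b - a) * z, ?_⟩
  push_cast
  rw [hz, ← mul_assoc, ← pow_add, Nat.sub_add_cancel hab]

theorem Dy.add {a : ℕ} {x y : ℝ} (h : Dy a x) (g : Dy a y) : Dy a (x + y) := by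
  obtain ⟨z, hz⟩ := h
  obtain ⟨w, hw⟩ := g
  exact ⟨z + w, by push_cast; rw [hz, hw]; ring⟩

theorem Dy.neg {a : ℕ} {x : ℝ} (h : Dy a x) : Dy a (-x) := by
  obtain ⟨z, hz⟩ := h
  exact ⟨-z, by push_cast; rw [hz]; ring⟩

theorem Dy.sub {a : ℕ} {x y : ℝ} (h : Dy a x) (g : Dy a y) : Dy a (x - y) := by
  rw [sub_eq_add_neg]; exact h.add g.neg

theorem Dy.mul {a b : ℕ} {x y : ℝ} (h : Dy a x) (g : Dy b y) : Dy (a + b) (x * y) := by
  obtain ⟨z, hz⟩ := h
  obtain ⟨w, hw⟩ := g
  exact ⟨z * w, by push_cast; rw [hz, hw, pow_add]; ring⟩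

theorem Dy.int (a : ℕ) (z : ℤ) : Dy a (z : ℝ) := by
  refine ⟨2 ^ a * z, by push_cast; ring⟩

theorem Dy.zero (a : ℕ) : Dy a 0 := by simpa using Dy.int a 0

theorem Dy.one (a : ℕ) : Dy a 1 := by simpa using Dy.int a 1

theorem Dy.two (a : ℕ) : Dy a 2 := by simpa using Dy.int a 2

theorem Dy.sum {a : ℕ} {ι : Type} (s : Finset ι) {f : ι → ℝ} (h : ∀ i ∈ s, Dy a (f i)) :
    Dy a (∑ i ∈ s, f i) := by
  classical
  induction s using Finset.induction_on with
  | empty => simpa using Dy.zero a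
  | insert i s hi ih =>
    rw [Finset.sum_insert hi]
    exact (h i (Finset.mem_insert_self _ _)).add (ih fun j hj => h j (Finset.mem_insert_of_mem hj))

theorem Dy.inv (a : ℕ) : Dy a (1 / 2 ^ a) := ⟨1, by push_cast; field_simp⟩

theorem dy_ep (m : ℕ) : Dy (m + 2) (ep m) := Dy.inv _

theorem dy_dl (m : ℕ) : Dy (3 * m + 4) (dl m) := Dy.inv _

theorem dy_quarter {m k : ℕ} (hk : k ≤ m) : Dy (2 * m) ((1 / 4 : ℝ) ^ k) := by
  have : Dy (2 * k) ((1 / 4 : ℝ) ^ k) := by
    have h := Dy.inv (2 * k)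
    have e : (1 : ℝ) / 2 ^ (2 * k) = (1 / 4) ^ k := by
      rw [one_div_pow, pow_mul]; norm_num
    rwa [e] at h
  exact this.mono (by omega)

/-- the coefficients of `zz` -/
theorem dy_zz (m : ℕ) (k : Fin (m + 1)) : Dy (2 * m) (zz m (Pi.single k 1)) := by
  rw [zz_apply]
  refine Fin.cases ?_ (fun j => ?_) k
  · rw [ff_single_zero, Pi.single_eq_same]
    exact (Dy.zero _).sub (by simpa using Dy.two (2 * m))
  · rw [ff_single_succ, Pi.single_eq_of_ne (Fin.succ_ne_zero j).symm, mul_zero, sub_zero]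
    exact dy_quarter j.2

theorem dy_zz_vv (m : ℕ) : Dy (3 * m + 2) (zz m (vv m)) := by
  rw [functional_apply]
  have h1 : vv m 0 = ep m := rfl
  have h2 : ∀ k : Fin m, vv m k.succ = ep m := fun _ => rfl
  simp only [h1, h2]
  have h3 : ∀ k, Dy (3 * m + 2) (ep m * zz m (Pi.single k 1)) := fun k =>
    ((dy_ep m).mul (dy_zz m k)).mono (by omega)
  exact (h3 0).add (Dy.sum _ fun k _ => h3 k.succ)

theorem dy_single {m : ℕ} (a : ℕ) (i k : Fin (m + 1)) : Dy a ((Pi.single k 1 : Fin (m + 1) → ℝ) i) := by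
  rw [Pi.single_apply]
  split_ifs
  · exact Dy.one a
  · exact Dy.zero a

theorem dy_rl (m : ℕ) (ρ : Fin (m + 1) × Fin 3) (k : Fin (m + 1)) :
    Dy (3 * m + 4) (rl m ρ (Pi.single k 1)) := by
  obtain ⟨i, a⟩ := ρ
  have hz := (dy_zz m k).mono (show 2 * m ≤ 3 * m + 4 by omega)
  have hs : ∀ j : Fin (m + 1), Dy (3 * m + 4) (2 * (Pi.single k 1 : Fin (m + 1) → ℝ) j) := fun j => by
    have := (Dy.two 0).mul (dy_single (3 * m + 4) j k)
    rwa [zero_add] at this
  have hd : ∀ j : Fin (m + 1), Dy (3 * m + 4) (dl m * (Pi.single k 1 : Fin (m + 1) → ℝ) j) := fun j => by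
    have := (dy_dl m).mul (dy_single 0 j k)
    rwa [add_zero] at this
  refine Fin.cases ?_ (fun j => ?_) i
  · fin_cases a
    · simp only [rl, Fin.cases_zero, LinearMap.neg_apply, LinearMap.proj_apply]
      exact (dy_single _ _ _).neg
    · simp only [rl, Fin.cases_zero, LinearMap.proj_apply]
      exact dy_single _ _ _
    · simp only [rl, Fin.cases_zero, LinearMap.sub_apply, LinearMap.smul_apply,
          LinearMap.sum_apply, LinearMap.proj_apply, smul_eq_mul, Finset.mul_sum]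
      exact hz.sub (Dy.sum _ fun j _ => hd _)
  · fin_cases a
    · simp only [rl, Fin.cases_succ, LinearMap.sub_apply, LinearMap.smul_apply,
          LinearMap.proj_apply, smul_eq_mul]
      exact (dy_single _ _ _).sub (hs _)
    · simp only [rl, Fin.cases_succ, LinearMap.add_apply, LinearMap.smul_apply,
          LinearMap.proj_apply, smul_eq_mul]
      exact (dy_single _ _ _).add (hs _)
    · simp only [rl, Fin.cases_succ, LinearMap.add_apply, LinearMap.smul_apply,
          LinearMap.proj_apply, smul_eq_mul]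
      exact hz.add (hd _)

theorem dy_rb (m : ℕ) (ρ : Fin (m + 1) × Fin 3) : Dy (4 * m + 6) (rb m ρ) := by
  obtain ⟨i, a⟩ := ρ
  have hz := (dy_zz_vv m).mono (show 3 * m + 2 ≤ 4 * m + 6 by omega)
  have hde : Dy (4 * m + 6) (dl m * ep m) := ((dy_dl m).mul (dy_ep m)).mono (by omega)
  have hde' : Dy (4 * m + 6) (dl m * (m * ep m)) := by
    have h1 : Dy (m + 2) ((m : ℝ) * ep m) := by
      have := (Dy.int 0 (m : ℤ)).mul (dy_ep m)
      simpa using this
    exact ((dy_dl m).mul h1).mono (by omega)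
  refine Fin.cases ?_ (fun j => ?_) i
  · fin_cases a
    · exact Dy.zero _
    · exact Dy.one _
    · exact hz.sub hde'
  · fin_cases a
    · exact Dy.zero _
    · exact Dy.two _
    · exact hz.add hde

theorem tp_eq (m : ℕ) : tp m = Pi.single 0 1 := rfl

theorem dy_sl (m : ℕ) (ρ : Fin (m + 1) × Fin 3) : Dy (4 * m + 6) (sl m ρ) := by
  unfold sl
  rw [tp_eq]
  exact (dy_rb m ρ).sub ((dy_rl m ρ 0).mono (by omega))

/-! ### bounds -/

theorem zz_abs (m : ℕ) (k : Fin (m + 1)) : |zz m (Pi.single k 1)| ≤ 2 := by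
  rw [zz_apply]
  refine Fin.cases ?_ (fun j => ?_) k
  · rw [ff_single_zero, Pi.single_eq_same]
    norm_num
  · rw [ff_single_succ, Pi.single_eq_of_ne (Fin.succ_ne_zero j).symm, mul_zero, sub_zero, abs_of_nonneg (by positivity)]
    calc (1 / 4 : ℝ) ^ (j.1 + 1) ≤ 1 := pow_le_one₀ (by norm_num) (by norm_num)
      _ ≤ 2 := by norm_num

theorem single_abs {m : ℕ} (i k : Fin (m + 1)) : 0 ≤ (Pi.single k 1 : Fin (m + 1) → ℝ) i ∧
    (Pi.single k 1 : Fin (m + 1) → ℝ) i ≤ 1 := by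
  rw [Pi.single_apply]
  split_ifs <;> norm_num

theorem dl_le (m : ℕ) : dl m ≤ 1 / 16 := by
  unfold dl
  apply one_div_le_one_div_of_le (by norm_num)
  calc (16 : ℝ) = 2 ^ 4 := by norm_num
    _ ≤ 2 ^ (3 * m + 4) := pow_le_pow_right₀ (by norm_num) (by omega)

theorem ep_le' (m : ℕ) : ep m ≤ 1 / 4 := by
  unfold ep
  apply one_div_le_one_div_of_le (by norm_num)
  calc (4 : ℝ) = 2 ^ 2 := by norm_num
    _ ≤ 2 ^ (m + 2) := pow_le_pow_right₀ (by norm_num) (by omega)

theorem rl_abs (m : ℕ) (ρ : Fin (m + 1) × Fin 3) (k : Fin (m + 1)) : |rl m ρ (Pi.single k 1)| ≤ 3 := by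
  obtain ⟨i, a⟩ := ρ
  have hz := zz_abs m k
  have hd := dl_le m
  have hd0 := dl_pos m
  refine Fin.cases ?_ (fun j => ?_) i
  · fin_cases a
    · simp only [rl, Fin.cases_zero, LinearMap.neg_apply, LinearMap.proj_apply]
      have := single_abs (0 : Fin (m + 1)) k
      rw [abs_neg, abs_of_nonneg this.1]
      linarith
    · simp only [rl, Fin.cases_zero, LinearMap.proj_apply]
      have := single_abs (0 : Fin (m + 1)) k
      rw [abs_of_nonneg this.1]
      linarith
    · simp only [rl, Fin.cases_zero, LinearMap.sub_apply, LinearMap.smul_apply,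
          LinearMap.sum_apply, LinearMap.proj_apply, smul_eq_mul]
      have h1 : ∑ j : Fin m, (Pi.single k 1 : Fin (m + 1) → ℝ) j.succ ≤ 1 := by
        have h2 : ∑ j : Fin (m + 1), (Pi.single k 1 : Fin (m + 1) → ℝ) j = 1 := by simp
        rw [Fin.sum_univ_succ] at h2
        have := single_abs (0 : Fin (m + 1)) k
        linarith
      have h3 : 0 ≤ ∑ j : Fin m, (Pi.single k 1 : Fin (m + 1) → ℝ) j.succ :=
        Finset.sum_nonneg fun j _ => (single_abs _ _).1
      rw [abs_le] at hz ⊢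
      constructor <;> nlinarith [hz.1, hz.2]
  · have g1 := single_abs j.succ k
    have g2 := single_abs j.castSucc k
    fin_cases a
    · simp only [rl, Fin.cases_succ, LinearMap.sub_apply, LinearMap.smul_apply,
          LinearMap.proj_apply, smul_eq_mul]
      rw [abs_le]
      constructor <;> linarith [g1.1, g1.2, g2.1, g2.2]
    · simp only [rl, Fin.cases_succ, LinearMap.add_apply, LinearMap.smul_apply,
          LinearMap.proj_apply, smul_eq_mul]
      rw [abs_le]
      constructor <;> linarith [g1.1, g1.2, g2.1, g2.2]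
    · simp only [rl, Fin.cases_succ, LinearMap.add_apply, LinearMap.smul_apply,
          LinearMap.proj_apply, smul_eq_mul]
      rw [abs_le] at hz ⊢
      constructor <;> nlinarith [hz.1, hz.2, g1.1, g1.2]

theorem zz_vv_bd (m : ℕ) : -(1 / 2) ≤ zz m (vv m) ∧ zz m (vv m) ≤ 0 := by
  have h1 := zz_vv m
  have h2 := ep_le' m
  have h3 := ep_pos m
  refine ⟨by linarith, ?_⟩
  rw [zz_apply, ff_apply]
  have h4 : vv m 0 = ep m := rfl
  have h5 : ∑ k : Fin m, (1 / 4 : ℝ) ^ (k.1 + 1) * vv m k.succ = (∑ k : Fin m, (1 / 4 : ℝ) ^ (k.1 + 1)) * ep m := by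
    rw [Finset.sum_mul]; rfl
  rw [h4, h5]
  have := geom_le m
  nlinarith

theorem rb_sl_bd (m : ℕ) (ρ : Fin (m + 1) × Fin 3) : |rb m ρ| ≤ 2 ∧ 0 ≤ sl m ρ ∧ sl m ρ ≤ 3 := by
  obtain ⟨i, a⟩ := ρ
  have hz := zz_vv_bd m
  have he := ep_le' m
  have he0 := ep_pos m
  have hd := dl_le m
  have hd0 := dl_pos m
  have hmd : dl m * (m * ep m) ≤ 1 / 2 := by
    have h2 := dl_le_ep m
    have h3 : (m : ℝ) * dl m ≤ 1 / 8 := by nlinarith
    nlinarith
  have hmd0 : 0 ≤ dl m * (m * ep m) := by positivity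
  have hde : dl m * ep m ≤ 1 := by nlinarith
  have hde0 : 0 ≤ dl m * ep m := by positivity
  have hzt : zz m (Pi.single 0 1) = -2 := by
    rw [zz_apply, ff_single_zero, Pi.single_eq_same]; norm_num
  unfold sl
  rw [tp_eq]
  refine Fin.cases ?_ (fun j => ?_) i
  · fin_cases a
    · simp [rl, rb]
    · simp [rl, rb]
    · have hs : ∑ j : Fin m, (Pi.single 0 1 : Fin (m + 1) → ℝ) j.succ = 0 := by
        apply Finset.sum_eq_zero
        intro j _
        rw [Pi.single_eq_of_ne (Fin.succ_ne_zero j)]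
      simp only [rl, rb, Fin.cases_zero, LinearMap.sub_apply, LinearMap.smul_apply,
          LinearMap.sum_apply, LinearMap.proj_apply, smul_eq_mul]
      rw [hzt, hs, abs_le]
      refine ⟨⟨?_, ?_⟩, ?_, ?_⟩ <;> linarith [hz.1, hz.2]
  · have g1 : (Pi.single 0 1 : Fin (m + 1) → ℝ) j.succ = 0 := Pi.single_eq_of_ne (Fin.succ_ne_zero j) _
    have g2 := single_abs j.castSucc 0
    have g3 : (Pi.single 0 1 : Fin (m + 1) → ℝ) j.castSucc = 0 ∨ (Pi.single 0 1 : Fin (m + 1) → ℝ) j.castSucc = 1 := by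
      rw [Pi.single_apply]
      split_ifs
      · right; rfl
      · left; rfl
    fin_cases a
    · simp only [rl, rb, Fin.cases_succ, LinearMap.sub_apply, LinearMap.smul_apply,
          LinearMap.proj_apply, smul_eq_mul]
      rw [g1]
      rcases g3 with h | h <;> rw [h] <;> norm_num
    · simp only [rl, rb, Fin.cases_succ, LinearMap.add_apply, LinearMap.smul_apply,
          LinearMap.proj_apply, smul_eq_mul]
      rw [g1]
      rcases g3 with h | h <;> rw [h] <;> norm_num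
    · simp only [rl, rb, Fin.cases_succ, LinearMap.add_apply, LinearMap.smul_apply,
          LinearMap.proj_apply, smul_eq_mul]
      rw [g1, hzt, abs_le]
      refine ⟨⟨?_, ?_⟩, ?_, ?_⟩ <;> linarith [hz.1, hz.2]

end Pool.Agent.Run7.h689.SH
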