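import Pool.Agent.Run7.h689.Blk
set_option autoImplicit false

/-!
# The building block: the start vertex is narrow, and no shadow path can jump over a vertex
-/

namespace Pool.Agent.Run7.h689.SH

open Set

theorem functional_apply {m : ℕ} (ψ : (Fin (m + 1) → ℝ) →ₗ[ℝ] ℝ) (y : Fin (m + 1) → ℝ) :
    ψ y = y 0 * ψ (Pi.single 0 1) + ∑ k : Fin m, y k.succ * ψ (Pi.single k.succ 1) := by
  rw [LinearMap.pi_apply_eq_sum_univ ψ y, Fin.sum_univ_succ]
  simp only [smul_eq_mul]
  congr 1
  · congr 2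
    ext j; simp [Pi.single_apply, eq_comm]
  · apply Finset.sum_congr rfl
    intro k _
    congr 2
    ext j; simp [Pi.single_apply, eq_comm]

/-- test points near the start vertex -/
theorem near_mem {m : ℕ} (hm : 1 ≤ m) (y : Fin (m + 1) → ℝ)
    (hy : ∀ k, 3 / 4 * ep m ≤ y k ∧ y k ≤ 5 / 4 * ep m)
    (h1 : ∀ k : Fin m, zz m y + dl m * y k.succ ≤ zz m (vv m) + dl m * ep m)
    (h2 : zz m y - dl m * ∑ k : Fin m, y k.succ ≤ zz m (vv m) - dl m * (m * ep m)) : y ∈ blk m := by
  have he := ep_le hm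
  have hp := ep_pos m
  refine ⟨⟨fun k => by have := (hy k).1; linarith, by have := (hy 0).2; linarith, fun k => ?_⟩, h1, h2⟩
  have g1 := hy k.succ
  have g2 := hy k.castSucc
  constructor <;> linarith [g1.1, g1.2, g2.1, g2.2]

theorem ff_single_zero (m : ℕ) : ff m (Pi.single 0 1) = 0 := ff_tp m

theorem ff_single_succ {m : ℕ} (j : Fin m) : ff m (Pi.single j.succ 1) = (1 / 4 : ℝ) ^ (j.1 + 1) := by
  rw [ff_apply]
  rw [Finset.sum_eq_single j]
  · simp
  · intro k _ hk
    rw [Pi.single_eq_of_ne (by simpa using hk)]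
    simp
  · simp

/-- the normal cone of the start vertex is narrow -/
theorem narrow {m : ℕ} (hm : 1 ≤ m) (ψ : (Fin (m + 1) → ℝ) →ₗ[ℝ] ℝ) (h : ∀ y ∈ blk m, ψ y ≤ ψ (vv m)) :
    ∀ j : Fin m, |ψ (Pi.single j.succ 1) - (-ψ (Pi.single 0 1) / 2) * (1 / 4 : ℝ) ^ (j.1 + 1)| ≤
      dl m * (-ψ (Pi.single 0 1) / 2) := by
  intro j
  have he := ep_le hm
  have hp := ep_pos m
  have hd := dl_pos m
  have hde : dl m ≤ ep m / 2 := by
    have h2 := dl_le_ep m
    have : (0 : ℝ) ≤ m * dl m := by positivity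
    linarith
  set q : ℝ := (1 / 4 : ℝ) ^ (j.1 + 1) with hq
  have hq0 : 0 < q := by positivity
  have hq1 : q ≤ 1 := pow_le_one₀ (by norm_num) (by norm_num)
  -- the two directions, for a sign `σ`
  have key : ∀ σ : ℝ, (σ = 1 ∨ σ = -1) →
      σ * ψ (Pi.single j.succ 1) + (dl m + σ * q) / 2 * ψ (Pi.single 0 1) ≤ 0 := by
    intro σ hσ
    have hσ1 : |σ| = 1 := by rcases hσ with h | h <;> rw [h] <;> norm_num
    have hσ2 : -1 ≤ σ ∧ σ ≤ 1 := abs_le.1 hσ1.le
    set d : Fin (m + 1) → ℝ := σ • Pi.single j.succ 1 + ((dl m + σ * q) / 2) • Pi.single 0 1 with hd'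
    have hd0 : d 0 = (dl m + σ * q) / 2 := by simp [hd']
    have hdj : ∀ k : Fin m, d k.succ = if k = j then σ else 0 := by
      intro k
      by_cases hk : k = j
      · subst hk; simp [hd']
      · simp only [hd', Pi.add_apply, Pi.smul_apply, smul_eq_mul]
        rw [Pi.single_eq_of_ne (by simpa using hk), Pi.single_eq_of_ne (Fin.succ_ne_zero k)]
        simp [hk]
    have hzd : zz m d = -dl m := by
      rw [zz_apply, hd0, hd', map_add, map_smul, map_smul, ff_single_zero, ff_single_succ]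
      simp only [smul_eq_mul]
      ring
    have hy : vv m + (ep m / 4) • d ∈ blk m := by
      have hσq : -1 ≤ σ * q ∧ σ * q ≤ 1 := by
        rcases hσ with h | h <;> rw [h] <;> constructor <;> linarith
      apply near_mem hm
      · intro k
        refine Fin.cases ?_ (fun k => ?_) k
        · simp only [Pi.add_apply, Pi.smul_apply, smul_eq_mul, hd0]
          have : vv m 0 = ep m := rfl
          rw [this]
          have h1 : -1 ≤ (dl m + σ * q) / 2 := by linarith [hσq.1]
          have h2 : (dl m + σ * q) / 2 ≤ 1 := by linarith [hσq.2]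
          constructor <;> nlinarith
        · simp only [Pi.add_apply, Pi.smul_apply, smul_eq_mul, hdj]
          have : vv m k.succ = ep m := rfl
          rw [this]
          split_ifs
          · constructor <;> nlinarith [hσ2.1, hσ2.2]
          · constructor <;> linarith
      · intro k
        rw [map_add, map_smul, hzd]
        simp only [Pi.add_apply, Pi.smul_apply, smul_eq_mul, hdj]
        have : vv m k.succ = ep m := rfl
        rw [this]
        have hh : (if k = j then σ else 0) ≤ 1 := by split_ifs <;> linarith [hσ2.2]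
        have h3 : dl m * (ep m / 4 * (if k = j then σ else 0)) ≤ dl m * (ep m / 4 * 1) := by gcongr
        linarith
      · rw [map_add, map_smul, hzd]
        have : ∑ k : Fin m, (vv m + (ep m / 4) • d) k.succ = m * ep m + ep m / 4 * σ := by
          simp only [Pi.add_apply, Pi.smul_apply, smul_eq_mul, hdj, Finset.sum_add_distrib,
            ← Finset.mul_sum, Finset.sum_ite_eq', Finset.mem_univ, if_true]
          simp [vv]
        rw [this]
        simp only [smul_eq_mul]
        nlinarith [mul_nonneg hd.le (mul_nonneg hp.le (by linarith [hσ2.1] : 0 ≤ 1 + σ))]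
    have h1 := h _ hy
    rw [map_add, map_smul] at h1
    have h2 : ψ d ≤ 0 := by
      simp only [smul_eq_mul] at h1
      by_contra hc
      push Not at hc
      have : 0 < ep m / 4 * ψ d := by positivity
      linarith
    rw [hd', map_add, map_smul, map_smul] at h2
    simpa only [smul_eq_mul] using h2
  have k1 := key 1 (Or.inl rfl)
  have k2 := key (-1) (Or.inr rfl)
  rw [abs_le]
  constructor <;> nlinarith

/-- the same in terms of values -/
theorem narrow_val {m : ℕ} (hm : 1 ≤ m) (ψ : (Fin (m + 1) → ℝ) →ₗ[ℝ] ℝ)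
    (h : ∀ y ∈ blk m, ψ y ≤ ψ (vv m)) :
    ∃ τ : ℝ, 0 ≤ τ ∧ (∀ y, Fold m y → |ψ y - τ * zz m y| ≤ m * dl m * τ) ∧ (τ = 0 → ψ = 0) := by
  have hn := narrow hm ψ h
  set τ : ℝ := -ψ (Pi.single 0 1) / 2 with hτ
  have hd := dl_pos m
  have hτ0 : 0 ≤ τ := by
    have := (abs_nonneg _).trans (hn ⟨0, hm⟩)
    by_contra hc
    push Not at hc
    nlinarith
  have hψ0 : ψ (Pi.single 0 1) = -2 * τ := by rw [hτ]; ring
  refine ⟨τ, hτ0, fun y hy => ?_, fun h0 => ?_⟩
  · have e : ψ y - τ * zz m y = ∑ k : Fin m, y k.succ * (ψ (Pi.single k.succ 1) - τ * (1 / 4 : ℝ) ^ (k.1 + 1)) := by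
      rw [functional_apply ψ y, zz_apply, ff_apply, hψ0]
      simp only [mul_sub, Finset.sum_sub_distrib, Finset.mul_sum]
      have : ∀ k : Fin m, y k.succ * (τ * (1 / 4 : ℝ) ^ (k.1 + 1)) = τ * ((1 / 4 : ℝ) ^ (k.1 + 1) * y k.succ) :=
        fun k => by ring
      simp only [this]
      ring
    rw [e]
    refine (Finset.abs_sum_le_sum_abs _ _).trans ?_
    calc ∑ k : Fin m, |y k.succ * (ψ (Pi.single k.succ 1) - τ * (1 / 4 : ℝ) ^ (k.1 + 1))|
        ≤ ∑ _k : Fin m, dl m * τ := by
          apply Finset.sum_le_sum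
          intro k _
          rw [abs_mul, abs_of_nonneg (hy.1 _)]
          calc y k.succ * |ψ (Pi.single k.succ 1) - τ * (1 / 4 : ℝ) ^ (k.1 + 1)|
              ≤ 1 * (dl m * τ) := mul_le_mul (fold_le_one hy _) (hn k) (abs_nonneg _) (by norm_num)
            _ = dl m * τ := one_mul _
      _ = m * dl m * τ := by simp; ring
  · apply LinearMap.ext
    intro y
    rw [functional_apply ψ y, hψ0, h0]
    have : ∀ k : Fin m, ψ (Pi.single k.succ 1) = 0 := by
      intro k
      have := hn k
      rw [h0, mul_zero, zero_mul, sub_zero] at this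
      exact abs_eq_zero.1 (le_antisymm this (abs_nonneg _))
    simp [this]

/-- no shadow path jumps over a vertex -/
theorem jump {m : ℕ} (hm : 1 ≤ m) (ν : (Fin (m + 1) → ℝ) →ₗ[ℝ] ℝ) (hν : ∀ y ∈ blk m, ν y ≤ ν (vv m))
    (μ : ℝ) (hμ : 0 ≤ μ) {a b Y : Fin (m + 1) → ℝ} (hY : Y ∈ blk m) (hYf : ff m Y = Y 0 - Y 0 ^ 2)
    (hab : mx (blk m) (ν + μ • cc m) = segment ℝ a b) (ha : a 0 ≤ Y 0) (hb : Y 0 ≤ b 0) :
    (Y 0 - a 0) * (b 0 - Y 0) ≤ 2 * (m * dl m) := by
  have hd := dl_pos m
  have hmd : 0 ≤ (m : ℝ) * dl m := by positivity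
  by_cases hab0 : a 0 = b 0
  · have : Y 0 = a 0 := le_antisymm (by rw [hab0]; exact hb) ha
    rw [this, sub_self, zero_mul]
    linarith
  have hlt : a 0 < b 0 := lt_of_le_of_ne (ha.trans hb) hab0
  set α : ℝ := (b 0 - Y 0) / (b 0 - a 0) with hα
  set β : ℝ := (Y 0 - a 0) / (b 0 - a 0) with hβ
  have hα0 : 0 ≤ α := div_nonneg (by linarith) (by linarith)
  have hβ0 : 0 ≤ β := div_nonneg (by linarith) (by linarith)
  have hne : b 0 - a 0 ≠ 0 := by intro h; linarith
  have hαβ : α + β = 1 := by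
    rw [hα, hβ, ← add_div, div_eq_one_iff_eq hne]
    ring
  have hmix : α * a 0 + β * b 0 = Y 0 := by
    rw [hα, hβ]
    field_simp
    ring
  have hL := left_mem_mx hab
  have hR := right_mem_mx hab
  have hfa := ff_le m a hL.1.1
  have hfb := ff_le m b hR.1.1
  -- the gain of concavity
  have hconc : α * (a 0 - a 0 ^ 2) + β * (b 0 - b 0 ^ 2) = Y 0 - Y 0 ^ 2 - (Y 0 - a 0) * (b 0 - Y 0) := by
    have hβ' : β = 1 - α := by linarith
    rw [← hmix, hβ']
    ring
  have hff : α * ff m a + β * ff m b ≤ Y 0 - Y 0 ^ 2 - (Y 0 - a 0) * (b 0 - Y 0) := by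
    rw [← hconc]
    exact add_le_add (mul_le_mul_of_nonneg_left hfa hα0) (mul_le_mul_of_nonneg_left hfb hβ0)
  obtain ⟨τ, hτ0, hval, hzero⟩ := narrow_val hm ν hν
  rcases (add_nonneg hτ0 hμ).eq_or_lt with hs | hs
  · -- the functional is zero
    have hτ : τ = 0 := by linarith
    have hμ0 : μ = 0 := by linarith
    have h0 : ν + μ • cc m = 0 := by rw [hzero hτ, hμ0, zero_smul, add_zero]
    have hYm : Y ∈ mx (blk m) (ν + μ • cc m) := by
      rw [h0]
      exact ⟨hY, fun v _ => le_rfl⟩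
    rw [hab] at hYm
    obtain ⟨α', β', hα', hβ', hαβ', he⟩ := hYm
    have e0 : α' * a 0 + β' * b 0 = Y 0 := by
      have := congrFun he 0
      simpa using this
    have e1 : α' = α := by
      have hb' : β' = 1 - α' := by linarith
      have hb'' : β = 1 - α := by linarith
      rw [hb'] at e0
      rw [hb''] at hmix
      have : (α' - α) * (a 0 - b 0) = 0 := by linarith
      rcases mul_eq_zero.1 this with h | h
      · linarith
      · linarith
    have e2 : β' = β := by linarith
    have e3 : ff m Y = α * ff m a + β * ff m b := by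
      rw [← he, map_add, map_smul, map_smul, e1, e2]
      rfl
    rw [hYf] at e3
    linarith
  · -- the general case
    have gY := hL.2 Y hY
    have gY' := hR.2 Y hY
    have hG : (ν + μ • cc m) Y ≤ α * (ν + μ • cc m) a + β * (ν + μ • cc m) b := by
      have h1 := mul_le_mul_of_nonneg_left gY hα0
      have h2 := mul_le_mul_of_nonneg_left gY' hβ0
      have h3 : (ν + μ • cc m) Y = α * (ν + μ • cc m) Y + β * (ν + μ • cc m) Y := by
        rw [← add_mul, hαβ, one_mul]
      rw [h3]
      exact add_le_add h1 h2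
    have hexp : ∀ y, (ν + μ • cc m) y = (τ + μ) * ff m y + 2 * (μ - τ) * y 0 + (ν y - τ * zz m y) := by
      intro y
      rw [LinearMap.add_apply, LinearMap.smul_apply, cc_apply, zz_apply, smul_eq_mul]
      ring
    rw [hexp Y, hexp a, hexp b, hYf] at hG
    have ra := abs_le.1 (hval a hL.1.1)
    have rb := abs_le.1 (hval b hR.1.1)
    have rY := abs_le.1 (hval Y hY.1)
    have r1 : α * (ν a - τ * zz m a) + β * (ν b - τ * zz m b) ≤ m * dl m * τ := by
      have h1 := mul_le_mul_of_nonneg_left ra.2 hα0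
      have h2 := mul_le_mul_of_nonneg_left rb.2 hβ0
      have h3 : (m : ℝ) * dl m * τ = α * (m * dl m * τ) + β * (m * dl m * τ) := by
        rw [← add_mul, hαβ, one_mul]
      rw [h3]
      exact add_le_add h1 h2
    have h5 : (τ + μ) * (Y 0 - Y 0 ^ 2) ≤ (τ + μ) * (α * ff m a + β * ff m b) + 2 * (m * dl m * τ) := by
      have h6 : 2 * (μ - τ) * Y 0 = α * (2 * (μ - τ) * a 0) + β * (2 * (μ - τ) * b 0) := by
        rw [← hmix]; ring
      nlinarith [rY.1, r1, hG]
    have h7 := mul_le_mul_of_nonneg_left hff hs.le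
    have h8 : (τ + μ) * ((Y 0 - a 0) * (b 0 - Y 0)) ≤ (τ + μ) * (2 * (m * dl m)) := by
      have : m * dl m * τ ≤ m * dl m * (τ + μ) := mul_le_mul_of_nonneg_left (by linarith) hmd
      nlinarith
    exact le_of_mul_le_mul_left h8 hs

end Pool.Agent.Run7.h689.SH
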