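import Pool.Agent.N610.MS.BON
import Pool.Agent.N610.MS.LEG
set_option autoImplicit false

/-!
# Sieving a weight by one residue class modulo each of some small primes
-/

namespace Pool.Agent.Run7.h689.MK

open Finset
open Pool.Agent.N610.MS

/-- the indicator function of a residue class -/
noncomputable def cl (r : ℕ → ℕ) (n p : ℕ) : ℝ := if n ≡ r p [MOD p] then 1 else 0

theorem cl_mem (r : ℕ → ℕ) (n p : ℕ) : 0 ≤ cl r n p ∧ cl r n p ≤ 1 := by
  unfold cl; split_ifs <;> norm_num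

/-- several classes make up one class -/
theorem exists_class {T : Finset ℕ} (hT : ∀ p ∈ T, p.Prime) (r : ℕ → ℕ) :
    ∃ b : ℕ, ∀ n : ℕ, ∏ p ∈ T, cl r n p = if n ≡ b [MOD ∏ p ∈ T, p] then 1 else 0 := by
  classical
  obtain ⟨b, hb⟩ := Nat.chineseRemainderOfFinset r id T (fun p hp => (hT p hp).ne_zero) (by
    intro p hp q hq hne
    exact (Nat.coprime_primes (hT p hp) (hT q hq)).2 hne)
  refine ⟨b, fun n => ?_⟩
  unfold cl
  rw [Finset.prod_ite_zero]
  have h1 : (∀ p ∈ T, n ≡ r p [MOD p]) ↔ n ≡ b [MOD ∏ p ∈ T, p] := by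
    constructor
    · intro h
      have h2 : ∀ p ∈ T, n ≡ b [MOD p] := fun p hp => (h p hp).trans (hb p hp).symm
      rw [Nat.modEq_iff_dvd]
      push_cast
      apply Finset.prod_dvd_of_coprime
      · intro p hp q hq hne
        exact Nat.isCoprime_iff_coprime.2 ((Nat.coprime_primes (hT p hp) (hT q hq)).2 hne)
      · intro p hp
        exact (Nat.modEq_iff_dvd.1 (h2 p hp))
    · intro h p hp
      have h2 : n ≡ b [MOD p] := h.of_dvd (Finset.dvd_prod_of_mem _ hp)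
      exact h2.trans (hb p hp)
  simp only [h1, prod_const_one]

theorem sieve1 (S : Finset ℕ) (w : ℕ → ℝ) (hw : ∀ n, 0 ≤ w n) (P : Finset ℕ) (hP : ∀ p ∈ P, p.Prime)
    (r : ℕ → ℕ) (M E : ℝ) (hM : 0 ≤ M) (hE : 0 ≤ E) (k : ℕ)
    (h : ∀ T ⊆ P, T.card ≤ k + 1 → ∀ b,
      |∑ n ∈ S, w n * (if n ≡ b [MOD ∏ p ∈ T, p] then 1 else 0) - M * ∏ p ∈ T, (1 / (p : ℝ))| ≤ E) :
    |∑ n ∈ S, w n * ∏ p ∈ P, (1 - cl r n p) - M * ∏ p ∈ P, (1 - 1 / (p : ℝ))| ≤
      2 * M * ((∑ p ∈ P, 1 / (p : ℝ)) ^ (k + 1) / (k + 1).factorial) + E * ((P.card : ℝ) + 1) ^ (k + 1) := by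
  classical
  set x : ℕ → ℝ := fun p => 1 / (p : ℝ) with hx
  have hx01 : ∀ p ∈ P, 0 ≤ x p ∧ x p ≤ 1 := by
    intro p hp
    have : (1 : ℝ) ≤ p := by exact_mod_cast (hP p hp).one_le
    exact ⟨by positivity, by rw [hx]; simp only; rw [div_le_one (by linarith)]; exact this⟩
  have hsub : ∀ j, ∀ T ∈ P.powersetCard j, T ⊆ P ∧ T.card = j := fun j T hT => mem_powersetCard.1 hT
  -- averages of the elementary symmetric functions
  have hE1 : ∀ j ≤ k + 1, |∑ n ∈ S, w n * e P (cl r n) j - M * e P x j| ≤ E * (P.card.choose j) := by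
    intro j hj
    have e1 : ∑ n ∈ S, w n * e P (cl r n) j - M * e P x j =
        ∑ T ∈ P.powersetCard j, (∑ n ∈ S, w n * ∏ p ∈ T, cl r n p - M * ∏ p ∈ T, x p) := by
      unfold e
      rw [Finset.sum_sub_distrib, ← Finset.mul_sum, Finset.sum_comm]
      congr 1
      refine Finset.sum_congr rfl fun n _ => ?_
      rw [Finset.mul_sum]
    rw [e1]
    refine (Finset.abs_sum_le_sum_abs _ _).trans ?_
    have e2 : ∀ T ∈ P.powersetCard j, |∑ n ∈ S, w n * ∏ p ∈ T, cl r n p - M * ∏ p ∈ T, x p| ≤ E := by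
      intro T hT
      obtain ⟨hT1, hT2⟩ := hsub j T hT
      obtain ⟨b, hb⟩ := exists_class (fun p hp => hP p (hT1 hp)) r
      simp only [hb]
      exact h T hT1 (by omega) b
    refine (Finset.sum_le_sum e2).trans ?_
    rw [Finset.sum_const, card_powersetCard, nsmul_eq_mul, mul_comm]
  have hsc : ∑ j ∈ range (k + 1), ((P.card.choose j : ℕ) : ℝ) + (P.card.choose (k + 1) : ℕ) ≤
      ((P.card : ℝ) + 1) ^ (k + 1) := by
    have := LEG.sum_choose_le P.card (k + 1)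
    rw [sum_range_succ] at this
    exact_mod_cast this
  -- the truncated sums
  have hA : |∑ n ∈ S, w n * alt P (cl r n) k - M * alt P x k| ≤
      E * ∑ j ∈ range (k + 1), ((P.card.choose j : ℕ) : ℝ) := by
    have e1 : ∑ n ∈ S, w n * alt P (cl r n) k - M * alt P x k =
        ∑ j ∈ range (k + 1), (-1) ^ j * (∑ n ∈ S, w n * e P (cl r n) j - M * e P x j) := by
      unfold alt
      have : ∀ n ∈ S, w n * ∑ j ∈ range (k + 1), (-1) ^ j * e P (cl r n) j =
          ∑ j ∈ range (k + 1), (-1) ^ j * (w n * e P (cl r n) j) := by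
        intro n _
        rw [Finset.mul_sum]
        exact Finset.sum_congr rfl fun j _ => by ring
      rw [Finset.sum_congr rfl this, Finset.sum_comm, Finset.mul_sum, ← Finset.sum_sub_distrib]
      refine Finset.sum_congr rfl fun j _ => ?_
      rw [mul_sub, Finset.mul_sum]
      ring
    rw [e1, Finset.mul_sum]
    refine (Finset.abs_sum_le_sum_abs _ _).trans (Finset.sum_le_sum fun j hj => ?_)
    rw [abs_mul, abs_pow, abs_neg, abs_one, one_pow, one_mul]
    exact hE1 j (by have := mem_range.1 hj; omega)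
  have hb1 : ∀ n, |alt P (cl r n) k - ∏ p ∈ P, (1 - cl r n p)| ≤ e P (cl r n) (k + 1) := by
    intro n
    have h1 := (t_BON P (cl r n) (fun p _ => cl_mem r n p)).1 k
    have h2 : |alt P (cl r n) k - ∏ p ∈ P, (1 - cl r n p)| =
        |(-1 : ℝ) ^ k * (alt P (cl r n) k - ∏ p ∈ P, (1 - cl r n p))| := by
      rw [abs_mul, abs_pow, abs_neg, abs_one, one_pow, one_mul]
    rw [h2, abs_of_nonneg h1.1]
    exact h1.2
  have hb2 : |alt P x k - ∏ p ∈ P, (1 - x p)| ≤ e P x (k + 1) := by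
    have h1 := (t_BON P x hx01).1 k
    have h2 : |alt P x k - ∏ p ∈ P, (1 - x p)| = |(-1 : ℝ) ^ k * (alt P x k - ∏ p ∈ P, (1 - x p))| := by
      rw [abs_mul, abs_pow, abs_neg, abs_one, one_pow, one_mul]
    rw [h2, abs_of_nonneg h1.1]
    exact h1.2
  have hb3 : e P x (k + 1) ≤ (∑ p ∈ P, x p) ^ (k + 1) / (k + 1).factorial := (t_BON P x hx01).2.1 (k + 1)
  have hC : |∑ n ∈ S, w n * ∏ p ∈ P, (1 - cl r n p) - ∑ n ∈ S, w n * alt P (cl r n) k| ≤
      M * e P x (k + 1) + E * (P.card.choose (k + 1) : ℕ) := by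
    rw [← Finset.sum_sub_distrib]
    refine (Finset.abs_sum_le_sum_abs _ _).trans ?_
    have e1 : ∀ n ∈ S, |w n * ∏ p ∈ P, (1 - cl r n p) - w n * alt P (cl r n) k| ≤ w n * e P (cl r n) (k + 1) := by
      intro n _
      rw [← mul_sub, abs_mul, abs_of_nonneg (hw n), abs_sub_comm]
      exact mul_le_mul_of_nonneg_left (hb1 n) (hw n)
    refine (Finset.sum_le_sum e1).trans ?_
    have := (abs_le.1 (hE1 (k + 1) le_rfl)).2
    linarith
  have hD : |M * alt P x k - M * ∏ p ∈ P, (1 - x p)| ≤ M * e P x (k + 1) := by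
    rw [← mul_sub, abs_mul, abs_of_nonneg hM]
    exact mul_le_mul_of_nonneg_left hb2 hM
  have hfin : |∑ n ∈ S, w n * ∏ p ∈ P, (1 - cl r n p) - M * ∏ p ∈ P, (1 - x p)| ≤
      (M * e P x (k + 1) + E * (P.card.choose (k + 1) : ℕ)) +
      E * ∑ j ∈ range (k + 1), ((P.card.choose j : ℕ) : ℝ) + M * e P x (k + 1) := by
    have : ∑ n ∈ S, w n * ∏ p ∈ P, (1 - cl r n p) - M * ∏ p ∈ P, (1 - x p) =
      (∑ n ∈ S, w n * ∏ p ∈ P, (1 - cl r n p) - ∑ n ∈ S, w n * alt P (cl r n) k) +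
      (∑ n ∈ S, w n * alt P (cl r n) k - M * alt P x k) + (M * alt P x k - M * ∏ p ∈ P, (1 - x p)) := by ring
    rw [this]
    exact (abs_add_three _ _ _).trans (add_le_add (add_le_add hC hA) hD)
  refine hfin.trans ?_
  have h5 := mul_le_mul_of_nonneg_left hb3 hM
  have h6 := mul_le_mul_of_nonneg_left hsc hE
  have h7 : E * ∑ j ∈ range (k + 1), ((P.card.choose j : ℕ) : ℝ) + E * (P.card.choose (k + 1) : ℕ) =
    E * (∑ j ∈ range (k + 1), ((P.card.choose j : ℕ) : ℝ) + (P.card.choose (k + 1) : ℕ)) := by ring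
  linarith

end Pool.Agent.Run7.h689.MK
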