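import Pool.Agent.Run7.h689.MK2
set_option autoImplicit false

/-!
# The weights in residue classes; avoiding one residue class modulo each of many small primes
-/

namespace Pool.Agent.Run7.h689.MK

open Finset Filter Topology
open Pool.Agent.H378R2
open Pool.Agent.H510R2.Maier
open Pool.Agent.N610.MS

theorem wt_nonneg (X : ℝ) (W n : ℕ) : 0 ≤ wt X W n := by
  unfold wt NN
  exact div_nonneg (nu_nonneg _ _ _ _) (Finset.sum_nonneg fun _ _ => nu_nonneg _ _ _ _)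

theorem wt_sum (X : ℝ) (W : ℕ) (h : 0 < NN X W) : ∑ n ∈ Icc 1 ⌊3 * X⌋₊, wt X W n = 1 := by
  unfold wt
  rw [← Finset.sum_div]
  exact div_self h.ne'

theorem wt_le (X : ℝ) (hX : 0 < X) (W : ℕ) (hW : 0 < W) (h : X / (40 * W) ≤ NN X W) (n : ℕ) :
    wt X W n ≤ 20 * W / X := by
  have hWr : (0 : ℝ) < W := by exact_mod_cast hW
  have hN : 0 < NN X W := lt_of_lt_of_le (by positivity) h
  have c2 : nu X W 0 n ≤ 1 / 2 := by
    unfold nu
    split_ifs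
    · exact Phi_le_half _
    · norm_num
  unfold wt
  rw [div_le_iff₀ hN]
  have c3 : 20 * (W : ℝ) / X * (X / (40 * W)) ≤ 20 * (W : ℝ) / X * NN X W :=
    mul_le_mul_of_nonneg_left h (by positivity)
  have e1 : 20 * (W : ℝ) / X * (X / (40 * W)) = 1 / 2 := by field_simp; norm_num
  linarith

theorem wt_supp (X : ℝ) (hX : 0 < X) (W n : ℕ) (h : wt X W n ≠ 0) : X < n ∧ (n : ℝ) < 3 * X ∧ W ∣ n := by
  have c1 : nu X W 0 n ≠ 0 := by
    intro h1
    apply h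
    unfold wt
    rw [h1, zero_div]
  have c2 : X < n ∧ (n : ℝ) < 3 * X := by
    by_contra hc
    exact c1 (nu_eq_zero hX hc)
  refine ⟨c2.1, c2.2, ?_⟩
  unfold nu at c1
  split_ifs at c1 with hmod
  · exact (Nat.modEq_zero_iff_dvd).1 hmod
  · exact absurd rfl c1

theorem wt_class (X : ℝ) (hX : 4 ≤ X) (W q b : ℕ) (hW : 0 < W) (hq : 0 < q) (hco : W.Coprime q)
    (hWq : ((W * q : ℕ) : ℝ) ≤ X) (hN : X / (40 * W) ≤ NN X W) :
    |∑ n ∈ Icc 1 ⌊3 * X⌋₊, wt X W n * (if n ≡ b [MOD q] then 1 else 0) - 1 / (q : ℝ)| ≤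
      400 * W / X := by
  have hWr : (0 : ℝ) < W := by exact_mod_cast hW
  have hqr : (1 : ℝ) ≤ q := by exact_mod_cast hq
  have hX0 : 0 < X := by linarith
  have hN0 : 0 < NN X W := lt_of_lt_of_le (by positivity) hN
  obtain ⟨c, hc1, hc2⟩ := Nat.chineseRemainder hco 0 b
  have h1 := sum_nu X hX (W * q) c (Nat.mul_pos hW hq) hWq
  have hWX : (W : ℝ) ≤ X := by
    refine le_trans ?_ hWq
    have : W * 1 ≤ W * q := Nat.mul_le_mul_left _ hq
    rw [mul_one] at this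
    exact_mod_cast this
  have h2 := sum_nu X hX W 0 hW hWX
  have h3 : ∀ n, nu X W 0 n * (if n ≡ b [MOD q] then 1 else 0) = nu X (W * q) c n := by
    intro n
    unfold nu
    have : n ≡ c [MOD W * q] ↔ n ≡ 0 [MOD W] ∧ n ≡ b [MOD q] := by
      rw [← Nat.modEq_and_modEq_iff_modEq_mul hco]
      exact ⟨fun h => ⟨h.1.trans hc1, h.2.trans hc2⟩, fun h => ⟨h.1.trans hc1.symm, h.2.trans hc2.symm⟩⟩
    by_cases h4 : n ≡ 0 [MOD W] <;> by_cases h5 : n ≡ b [MOD q] <;> simp [this, h4, h5]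
  have h4 : ∑ n ∈ Icc 1 ⌊3 * X⌋₊, wt X W n * (if n ≡ b [MOD q] then 1 else 0) - 1 / (q : ℝ) =
      ((∑ n ∈ Icc 1 ⌊3 * X⌋₊, nu X (W * q) c n - MPhi X * (1 / ((W * q : ℕ) : ℝ))) -
        (NN X W - MPhi X * (1 / W)) * (1 / q)) / NN X W := by
    have e1 : ∑ n ∈ Icc 1 ⌊3 * X⌋₊, wt X W n * (if n ≡ b [MOD q] then 1 else 0) =
        (∑ n ∈ Icc 1 ⌊3 * X⌋₊, nu X (W * q) c n) / NN X W := by
      rw [Finset.sum_div]
      refine Finset.sum_congr rfl fun n _ => ?_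
      rw [← h3 n]
      unfold wt
      ring
    rw [e1]
    push_cast
    have hq0 : (q : ℝ) ≠ 0 := by linarith
    field_simp
    ring
  rw [h4, abs_div, abs_of_pos hN0, div_le_iff₀ hN0]
  have h5 : |(∑ n ∈ Icc 1 ⌊3 * X⌋₊, nu X (W * q) c n - MPhi X * (1 / ((W * q : ℕ) : ℝ))) -
        (NN X W - MPhi X * (1 / W)) * (1 / q)| ≤ 10 := by
    refine (abs_sub _ _).trans ?_
    rw [abs_mul]
    have h6 : |(1 : ℝ) / q| ≤ 1 := by
      rw [abs_of_nonneg (by positivity), div_le_one (by linarith)]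
      exact hqr
    have h7 : |NN X W - MPhi X * (1 / W)| ≤ 5 := h2
    have h8 : |NN X W - MPhi X * (1 / W)| * |(1 : ℝ) / q| ≤ 5 * 1 :=
      mul_le_mul h7 h6 (abs_nonneg _) (by norm_num)
    linarith
  refine h5.trans ?_
  have c3 : 400 * (W : ℝ) / X * (X / (40 * W)) ≤ 400 * (W : ℝ) / X * NN X W :=
    mul_le_mul_of_nonneg_left hN (by positivity)
  have e1 : 400 * (W : ℝ) / X * (X / (40 * W)) = 10 := by field_simp; norm_num
  linarith

/-- the proportion of the `u` which avoid one residue class modulo each `p ∈ Q` -/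
theorem avoid (X : ℝ) (hX : 4 ≤ X) (W Z m : ℕ) (hW : 0 < W) (hZ : 1 ≤ Z)
    (hWZ : (W : ℝ) * (Z : ℝ) ^ m ≤ X) (hm : 1 ≤ m)
    (hN : X / (40 * W) ≤ NN X W) (Q : Finset ℕ) (hQ : Q ⊆ (Icc 1 Z).filter Nat.Prime)
    (hQW : ∀ p ∈ Q, ¬ p ∣ W) (r : ℕ → ℕ) :
    |∑ n ∈ Icc 1 ⌊3 * X⌋₊, wt X W n * ∏ p ∈ Q, (1 - cl r n p) - ∏ p ∈ Q, (1 - 1 / (p : ℝ))| ≤
      2 * ((∑ p ∈ Q, 1 / (p : ℝ)) ^ m / m.factorial) + 400 * W / X * ((Q.card : ℝ) + 1) ^ m := by
  obtain ⟨k, rfl⟩ : ∃ k, m = k + 1 := ⟨m - 1, by omega⟩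
  have hWr : (0 : ℝ) < W := by exact_mod_cast hW
  have hX0 : 0 < X := by linarith
  have hQp : ∀ p ∈ Q, p.Prime := fun p hp => (mem_filter.1 (hQ hp)).2
  have h := sieve1 (Icc 1 ⌊3 * X⌋₊) (wt X W) (wt_nonneg X W) Q hQp r 1 (400 * W / X) (by norm_num)
    (by positivity) k (by
      intro T hT hTc b
      have hTp : ∀ p ∈ T, p.Prime := fun p hp => hQp p (hT hp)
      have hq : 0 < ∏ p ∈ T, p := Finset.prod_pos fun p hp => (hTp p hp).pos
      have hco : W.Coprime (∏ p ∈ T, p) := by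
        rw [Nat.coprime_prod_right_iff]
        intro p hp
        exact ((hTp p hp).coprime_iff_not_dvd.2 (hQW p (hT hp))).symm
      have hle : (∏ p ∈ T, p) ≤ Z ^ (k + 1) := by
        calc ∏ p ∈ T, p ≤ ∏ _p ∈ T, Z := Finset.prod_le_prod' fun p hp => by
              have := (mem_filter.1 (hQ (hT hp))).1
              exact (mem_Icc.1 this).2
          _ = Z ^ T.card := by rw [prod_const]
          _ ≤ Z ^ (k + 1) := Nat.pow_le_pow_right hZ hTc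
      have h1 := wt_class X hX W (∏ p ∈ T, p) b hW hq hco (by
        refine le_trans ?_ hWZ
        have : W * ∏ p ∈ T, p ≤ W * Z ^ (k + 1) := Nat.mul_le_mul_left _ hle
        exact_mod_cast this) hN
      have h2 : 1 * ∏ p ∈ T, (1 / (p : ℝ)) = 1 / ((∏ p ∈ T, p : ℕ) : ℝ) := by
        push_cast
        rw [Finset.prod_div_distrib]
        simp
      rw [h2]
      exact h1)
  rw [one_mul, mul_one] at h
  exact h

theorem prod_ge (Z : ℕ) (hZ : 1 ≤ Z) :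
    1 / (Z : ℝ) ≤ ∏ p ∈ (Icc 1 Z).filter Nat.Prime, (1 - 1 / (p : ℝ)) := by
  induction Z, hZ using Nat.le_induction with
  | base =>
    have : (Icc 1 1).filter Nat.Prime = ∅ := by
      ext p; simp; rintro rfl; exact Nat.not_prime_one
    rw [this]; simp
  | succ Z hZ ih =>
    have hZr : (1 : ℝ) ≤ Z := by exact_mod_cast hZ
    have h1 : (Icc 1 (Z + 1)) = insert (Z + 1) (Icc 1 Z) := by
      ext x; simp only [mem_Icc, mem_insert]; omega
    have h2 : Z + 1 ∉ (Icc 1 Z).filter Nat.Prime := by simp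
    have h0 : 0 ≤ 1 - 1 / (((Z + 1 : ℕ)) : ℝ) := by
      rw [sub_nonneg, div_le_one (by positivity)]
      push_cast; linarith
    have h3 : 1 / (((Z + 1 : ℕ)) : ℝ) = (1 - 1 / (((Z + 1 : ℕ)) : ℝ)) * (1 / (Z : ℝ)) := by
      push_cast
      have : (Z : ℝ) ≠ 0 := by linarith
      field_simp
      ring
    have h4 : (1 - 1 / (((Z + 1 : ℕ)) : ℝ)) * (1 / (Z : ℝ)) ≤
        (1 - 1 / (((Z + 1 : ℕ)) : ℝ)) * ∏ p ∈ (Icc 1 Z).filter Nat.Prime, (1 - 1 / (p : ℝ)) :=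
      mul_le_mul_of_nonneg_left ih h0
    rw [h1, filter_insert]
    split_ifs with hp
    · rw [prod_insert h2]
      exact h3.le.trans h4
    · have h5 : 0 ≤ ∏ p ∈ (Icc 1 Z).filter Nat.Prime, (1 - 1 / (p : ℝ)) :=
        le_trans (by positivity) ih
      have h6 : (1 - 1 / (((Z + 1 : ℕ)) : ℝ)) ≤ 1 := by
        have : 0 ≤ 1 / (((Z + 1 : ℕ)) : ℝ) := by positivity
        linarith
      calc 1 / (((Z + 1 : ℕ)) : ℝ) ≤ _ := h3.le.trans h4
        _ ≤ 1 * ∏ p ∈ (Icc 1 Z).filter Nat.Prime, (1 - 1 / (p : ℝ)) :=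
          mul_le_mul_of_nonneg_right h6 h5
        _ = _ := one_mul _

theorem one_sub_mem {p : ℕ} (hp : p.Prime) : 1 / 2 ≤ 1 - 1 / (p : ℝ) ∧ 1 - 1 / (p : ℝ) ≤ 1 := by
  have h2 : (2 : ℝ) ≤ p := by exact_mod_cast hp.two_le
  constructor
  · have : 1 / (p : ℝ) ≤ 1 / 2 := one_div_le_one_div_of_le (by norm_num) h2
    linarith
  · have : 0 ≤ 1 / (p : ℝ) := by positivity
    linarith

theorem prod_sub_ge {Z : ℕ} (hZ : 1 ≤ Z) {Q : Finset ℕ} (hQ : Q ⊆ (Icc 1 Z).filter Nat.Prime) :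
    1 / (Z : ℝ) ≤ ∏ p ∈ Q, (1 - 1 / (p : ℝ)) := by
  refine (prod_ge Z hZ).trans ?_
  rw [← Finset.prod_sdiff hQ]
  have h1 : ∏ p ∈ ((Icc 1 Z).filter Nat.Prime) \ Q, (1 - 1 / (p : ℝ)) ≤ 1 := by
    apply Finset.prod_le_one
    · intro p hp
      have := (one_sub_mem (mem_filter.1 (mem_sdiff.1 hp).1).2).1
      linarith
    · intro p hp
      exact (one_sub_mem (mem_filter.1 (mem_sdiff.1 hp).1).2).2
  have h2 : 0 ≤ ∏ p ∈ Q, (1 - 1 / (p : ℝ)) := by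
    apply Finset.prod_nonneg
    intro p hp
    have := (one_sub_mem (mem_filter.1 (hQ hp)).2).1
    linarith
  calc _ ≤ 1 * ∏ p ∈ Q, (1 - 1 / (p : ℝ)) := mul_le_mul_of_nonneg_right h1 h2
    _ = _ := one_mul _

theorem sum_inv_le {Z : ℕ} {Q : Finset ℕ} (hQ : Q ⊆ (Icc 1 Z).filter Nat.Prime) :
    ∑ p ∈ Q, 1 / (p : ℝ) ≤ 1 + Real.log Z := by
  have h1 : ∑ p ∈ Q, 1 / (p : ℝ) ≤ ∑ p ∈ Icc 1 Z, 1 / (p : ℝ) :=
    Finset.sum_le_sum_of_subset_of_nonneg (hQ.trans (filter_subset _ _)) fun _ _ _ => by positivity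
  have h2 := harmonic_le_one_add_log Z
  have h3 : ((harmonic Z : ℚ) : ℝ) = ∑ p ∈ Icc 1 Z, 1 / (p : ℝ) := by
    rw [harmonic_eq_sum_Icc]
    push_cast
    simp
  rw [h3] at h2
  exact h1.trans h2

/-- `s^m / m! ≤ e^{8 s} e^{-2 m}` -/
theorem pow_div_fact (s : ℝ) (hs : 0 ≤ s) (m : ℕ) :
    s ^ m / m.factorial ≤ Real.exp (8 * s) * Real.exp (-2 * m) := by
  have h1 := Real.pow_div_factorial_le_exp (8 * s) (by linarith) m
  have h2 : s ^ m / m.factorial = (8 * s) ^ m / m.factorial * (1 / 8) ^ m := by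
    have h8 : (8 * s) ^ m / m.factorial * (1 / 8) ^ m = ((8 * s) * (1 / 8)) ^ m / m.factorial := by
      rw [mul_pow (8 * s)]; ring
    rw [h8]
    congr 2
    ring
  rw [h2]
  have h3 : ((1 : ℝ) / 8) ^ m ≤ Real.exp (-2 * m) := by
    have h4 : Real.exp (-2 * m) = (Real.exp (-2)) ^ m := by
      rw [← Real.exp_nat_mul]; congr 1; ring
    rw [h4]
    apply pow_le_pow_left₀ (by norm_num)
    rw [Real.exp_neg, one_div]
    apply inv_anti₀ (Real.exp_pos _)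
    have h5 : Real.exp 1 < 2.7182818286 := Real.exp_one_lt_d9
    have h6 : Real.exp 2 = Real.exp 1 * Real.exp 1 := by rw [← Real.exp_add]; norm_num
    rw [h6]
    have h7 := Real.exp_pos 1
    nlinarith
  exact mul_le_mul h1 h3 (by positivity) (Real.exp_pos _).le

end Pool.Agent.Run7.h689.MK
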