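import Pool.Agent.Run7.h689.MK3
set_option autoImplicit false

/-!
# Asymptotics of the proportion; independence of the shifts
-/

namespace Pool.Agent.Run7.h689.MK

open Finset Filter Topology

theorem ev_l (C1 C2 : ℝ) (h1 : 0 < C1) : ∀ᶠ L : ℝ in atTop, 1 ≤ Real.log L ∧ C1 * Real.log L ^ 2 + C2 ≤ L / 2 := by
  have h2 := (Real.isLittleO_pow_log_id_atTop (n := 2)).def (show (0 : ℝ) < 1 / (4 * C1) by positivity)
  filter_upwards [h2, Real.tendsto_log_atTop.eventually_ge_atTop 1, eventually_ge_atTop (4 * C2),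
    eventually_ge_atTop (0 : ℝ)] with L h3 h4 h5 h6
  refine ⟨h4, ?_⟩
  simp only [id, Real.norm_eq_abs] at h3
  rw [abs_of_nonneg (by positivity), abs_of_nonneg h6] at h3
  have h7 : C1 * Real.log L ^ 2 ≤ C1 * (1 / (4 * C1) * L) := mul_le_mul_of_nonneg_left h3 h1.le
  have h8 : C1 * (1 / (4 * C1) * L) = L / 4 := by field_simp
  linarith

theorem avoid_asymp (B : ℕ) (ε : ℝ) (hε : 0 < ε) : ∀ᶠ X : ℝ in atTop, ∀ W : ℕ, 0 < W →
    (W : ℝ) ≤ Real.exp (Real.log X / 700) → X / (40 * W) ≤ NN X W → ∀ Z : ℕ, 1 ≤ Z →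
    (Z : ℝ) ≤ Real.log X ^ B → ∀ Q ⊆ (Icc 1 Z).filter Nat.Prime, (∀ p ∈ Q, ¬ p ∣ W) → ∀ r : ℕ → ℕ,
    |∑ n ∈ Icc 1 ⌊3 * X⌋₊, wt X W n * ∏ p ∈ Q, (1 - cl r n p) - ∏ p ∈ Q, (1 - 1 / (p : ℝ))| ≤
      ε * ∏ p ∈ Q, (1 - 1 / (p : ℝ)) := by
  have hB : (0 : ℝ) ≤ B := Nat.cast_nonneg _
  set K : ℝ := 5 * B + 1 with hK
  set C1 : ℝ := (B + 1) * (K + 1) + B with hC1
  have hC10 : 0 < C1 := by positivity
  filter_upwards [Real.tendsto_log_atTop.eventually (ev_l C1 (Real.log (800 / ε)) hC10),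
    Real.tendsto_log_atTop.eventually (ev_l C1 0 hC10),
    Real.tendsto_log_atTop.eventually_ge_atTop (4 * Real.exp 8 / ε),
    Real.tendsto_log_atTop.eventually_ge_atTop 2, eventually_ge_atTop (4 : ℝ)]
    with X h1 h1' h2 h3 h4 W hW hWle hN Z hZ hZle Q hQ hQW r
  set L := Real.log X with hL
  set l := Real.log L with hl
  have hX0 : 0 < X := by linarith
  have hexpL : Real.exp L = X := Real.exp_log hX0
  have hL0 : 0 < L := by linarith
  have hexpl : Real.exp l = L := Real.exp_log hL0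
  have hl1 : 1 ≤ l := h1.1
  have hWr : (0 : ℝ) < W := by exact_mod_cast hW
  have hZr : (1 : ℝ) ≤ Z := by exact_mod_cast hZ
  set m := ⌈K * l⌉₊ with hm
  have hKl : 0 < K * l := by positivity
  have hm1 : 1 ≤ m := Nat.ceil_pos.2 hKl
  have hm2 : K * l ≤ m := Nat.le_ceil _
  have hm3 : (m : ℝ) ≤ (K + 1) * l := by
    have : (m : ℝ) < K * l + 1 := Nat.ceil_lt_add_one hKl.le
    nlinarith
  have hLB : L ^ B = Real.exp (B * l) := by
    conv_lhs => rw [← hexpl]
    rw [← Real.exp_nat_mul]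
  have hZexp : (Z : ℝ) ≤ Real.exp (B * l) := by rw [← hLB]; exact hZle
  have hlogZ : Real.log Z ≤ B * l := by
    rw [Real.log_le_iff_le_exp (by linarith)]; exact hZexp
  -- exponent bounds
  have hq1 : (B + 1 : ℝ) * l * ((K + 1) * l) + B * l ≤ C1 * l ^ 2 := by
    rw [hC1]
    have : (B : ℝ) * l ≤ B * l ^ 2 := by
      apply mul_le_mul_of_nonneg_left _ hB
      nlinarith
    nlinarith
  have hZm : (Z : ℝ) ^ m ≤ Real.exp (L / 2) := by
    calc (Z : ℝ) ^ m ≤ (Real.exp (B * l)) ^ m := pow_le_pow_left₀ (by linarith) hZexp m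
      _ = Real.exp (m * (B * l)) := by rw [← Real.exp_nat_mul]
      _ ≤ Real.exp (L / 2) := by
        apply Real.exp_le_exp.2
        have h5 : (m : ℝ) * (B * l) ≤ (K + 1) * l * (B * l) :=
          mul_le_mul_of_nonneg_right hm3 (by positivity)
        have h6 := h1'.2
        have h7 : (K + 1) * l * (B * l) ≤ (B + 1 : ℝ) * l * ((K + 1) * l) + B * l := by
          have : 0 ≤ B * l := by positivity
          have : 0 ≤ l * ((K + 1) * l) := by positivity
          nlinarith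
        linarith
  have hWZ : (W : ℝ) * (Z : ℝ) ^ m ≤ X := by
    calc (W : ℝ) * (Z : ℝ) ^ m ≤ Real.exp (L / 700) * Real.exp (L / 2) := by gcongr
      _ = Real.exp (L / 700 + L / 2) := by rw [← Real.exp_add]
      _ ≤ Real.exp L := Real.exp_le_exp.2 (by linarith)
      _ = X := hexpL
  have hmain := avoid X h4 W Z m hW hZ hWZ hm1 hN Q hQ hQW r
  refine hmain.trans ?_
  have hprod := prod_sub_ge hZ hQ
  have hZinv : Real.exp (-(B * l)) ≤ 1 / Z := by
    rw [Real.exp_neg, one_div]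
    exact inv_anti₀ (by linarith) hZexp
  -- first error term
  have hs0 : 0 ≤ ∑ p ∈ Q, 1 / (p : ℝ) := Finset.sum_nonneg fun _ _ => by positivity
  have hs1 : ∑ p ∈ Q, 1 / (p : ℝ) ≤ 1 + B * l := (sum_inv_le hQ).trans (by linarith)
  have hE1 : 2 * ((∑ p ∈ Q, 1 / (p : ℝ)) ^ m / m.factorial) ≤ ε / 2 * (1 / Z) := by
    have h5 := pow_div_fact _ hs0 m
    have h6 : Real.exp (8 * ∑ p ∈ Q, 1 / (p : ℝ)) * Real.exp (-2 * m) ≤
        Real.exp 8 * Real.exp (-((2 * B + 2) * l)) := by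
      rw [← Real.exp_add, ← Real.exp_add]
      apply Real.exp_le_exp.2
      have a1 : K * l = 5 * (B * l) + l := by rw [hK]; ring
      have a2 : (2 * (B : ℝ) + 2) * l = 2 * (B * l) + 2 * l := by ring
      rw [a1] at hm2
      rw [a2]
      linarith
    have h7 : Real.exp (-((2 * B + 2) * l)) ≤ Real.exp (-l) * Real.exp (-(B * l)) := by
      rw [← Real.exp_add]
      apply Real.exp_le_exp.2
      have a2 : (2 * (B : ℝ) + 2) * l = 2 * (B * l) + 2 * l := by ring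
      have a3 : 0 ≤ (B : ℝ) * l := by positivity
      rw [a2]
      linarith
    have h8 : Real.exp (-l) = 1 / L := by rw [Real.exp_neg, hexpl, one_div]
    have h9 : 2 * (Real.exp 8 * (1 / L)) ≤ ε / 2 := by
      have : 4 * Real.exp 8 ≤ L * ε := by
        rw [div_le_iff₀ hε] at h2; exact h2
      rw [mul_one_div, ← mul_div_assoc, div_le_iff₀ hL0]
      linarith
    calc 2 * ((∑ p ∈ Q, 1 / (p : ℝ)) ^ m / m.factorial)
        ≤ 2 * (Real.exp 8 * (1 / L * Real.exp (-(B * l)))) := by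
          rw [h8] at h7
          have := h5.trans h6
          have h10 : Real.exp 8 * Real.exp (-((2 * B + 2) * l)) ≤ Real.exp 8 * (1 / L * Real.exp (-(B * l))) :=
            mul_le_mul_of_nonneg_left h7 (Real.exp_pos _).le
          linarith
      _ = 2 * (Real.exp 8 * (1 / L)) * Real.exp (-(B * l)) := by ring
      _ ≤ ε / 2 * (1 / Z) := mul_le_mul h9 hZinv (Real.exp_pos _).le (by positivity)
  -- second error term
  have hcard : (Q.card : ℝ) + 1 ≤ Real.exp ((B + 1) * l) := by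
    have h5 : Q.card ≤ Z := by
      calc Q.card ≤ ((Icc 1 Z).filter Nat.Prime).card := Finset.card_le_card hQ
        _ ≤ (Icc 1 Z).card := Finset.card_filter_le _ _
        _ = Z := by simp
    have h6 : (Q.card : ℝ) ≤ Z := by exact_mod_cast h5
    have h7 : Real.exp ((B + 1) * l) = Real.exp (B * l) * L := by
      rw [add_mul, one_mul, Real.exp_add, hexpl]
    rw [h7]
    have h8 : 1 ≤ Real.exp (B * l) := hZr.trans hZexp
    nlinarith
  have hE2 : 400 * W / X * ((Q.card : ℝ) + 1) ^ m ≤ ε / 2 * (1 / Z) := by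
    have h5 : ((Q.card : ℝ) + 1) ^ m ≤ Real.exp ((B + 1) * l * ((K + 1) * l)) := by
      calc ((Q.card : ℝ) + 1) ^ m ≤ (Real.exp ((B + 1) * l)) ^ m :=
            pow_le_pow_left₀ (by positivity) hcard m
        _ = Real.exp (m * ((B + 1) * l)) := by rw [← Real.exp_nat_mul]
        _ ≤ _ := by
          apply Real.exp_le_exp.2
          have : (m : ℝ) * ((B + 1) * l) ≤ (K + 1) * l * ((B + 1) * l) :=
            mul_le_mul_of_nonneg_right hm3 (by positivity)
          linarith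
    have h6 : 400 * (W : ℝ) / X ≤ 400 * Real.exp (L / 700 - L) := by
      rw [Real.exp_sub, hexpL, ← mul_div_assoc]
      gcongr
    have h7 : 400 * Real.exp (L / 700 - L) * Real.exp ((B + 1) * l * ((K + 1) * l)) ≤
        ε / 2 * Real.exp (-(B * l)) := by
      have h8 : (800 / ε) * (Real.exp (L / 700 - L) * Real.exp ((B + 1) * l * ((K + 1) * l))) ≤
          Real.exp (-(B * l)) := by
        rw [← Real.exp_log (show 0 < 800 / ε by positivity), ← Real.exp_add, ← Real.exp_add]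
        apply Real.exp_le_exp.2
        have := h1.2
        linarith
      calc 400 * Real.exp (L / 700 - L) * Real.exp ((B + 1) * l * ((K + 1) * l)) =
          ε / 2 * ((800 / ε) * (Real.exp (L / 700 - L) * Real.exp ((B + 1) * l * ((K + 1) * l)))) := by
            field_simp; ring
        _ ≤ _ := mul_le_mul_of_nonneg_left h8 (by positivity)
    calc 400 * W / X * ((Q.card : ℝ) + 1) ^ m ≤
        400 * Real.exp (L / 700 - L) * Real.exp ((B + 1) * l * ((K + 1) * l)) :=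
          mul_le_mul h6 h5 (by positivity) (by positivity)
      _ ≤ _ := h7
      _ ≤ ε / 2 * (1 / Z) := mul_le_mul_of_nonneg_left hZinv (by positivity)
  calc 2 * ((∑ p ∈ Q, 1 / (p : ℝ)) ^ m / m.factorial) + 400 * W / X * ((Q.card : ℝ) + 1) ^ m ≤
      ε / 2 * (1 / Z) + ε / 2 * (1 / Z) := add_le_add hE1 hE2
    _ = ε * (1 / Z) := by ring
    _ ≤ _ := mul_le_mul_of_nonneg_left hprod hε.le

/-- expectation over independent shifts -/
noncomputable def Ex (S : Finset ℕ) (w : ℕ → ℝ) {k : ℕ} (G : (Fin k → ℕ) → ℝ) : ℝ :=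
  ∑ u ∈ Fintype.piFinset (fun _ : Fin k => S), (∏ i, w (u i)) * G u

section
variable {S : Finset ℕ} {w : ℕ → ℝ} {k : ℕ}

theorem Ex_prod (g : Fin k → ℕ → ℝ) :
    Ex S w (fun u : Fin k → ℕ => ∏ i, g i (u i)) = ∏ i, ∑ n ∈ S, w n * g i n := by
  unfold Ex
  rw [Finset.prod_univ_sum]
  exact Finset.sum_congr rfl fun u _ => by rw [← Finset.prod_mul_distrib]

theorem Ex_mono (hw : ∀ n, 0 ≤ w n) (G H : (Fin k → ℕ) → ℝ)
    (h : ∀ u : Fin k → ℕ, (∀ i, u i ∈ S) → (∀ i, w (u i) ≠ 0) → G u ≤ H u) : Ex S w G ≤ Ex S w H := by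
  unfold Ex
  refine Finset.sum_le_sum fun u hu => ?_
  by_cases h1 : ∀ i, w (u i) ≠ 0
  · exact mul_le_mul_of_nonneg_left (h u (fun i => Fintype.mem_piFinset.1 hu i) h1)
      (Finset.prod_nonneg fun i _ => hw _)
  · push Not at h1
    obtain ⟨i, hi⟩ := h1
    rw [Finset.prod_eq_zero (mem_univ i) hi, zero_mul, zero_mul]

theorem Ex_sum {ι : Type} (T : Finset ι) (G : ι → (Fin k → ℕ) → ℝ) :
    Ex S w (fun u => ∑ t ∈ T, G t u) = ∑ t ∈ T, Ex S w (G t) := by
  unfold Ex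
  rw [Finset.sum_comm]
  exact Finset.sum_congr rfl fun u _ => by rw [Finset.mul_sum]

theorem Ex_smul (c : ℝ) (G : (Fin k → ℕ) → ℝ) : Ex S w (fun u => c * G u) = c * Ex S w G := by
  unfold Ex
  rw [Finset.mul_sum]
  exact Finset.sum_congr rfl fun u _ => by ring

theorem Ex_add (G H : (Fin k → ℕ) → ℝ) : Ex S w (fun u => G u + H u) = Ex S w G + Ex S w H := by
  unfold Ex
  rw [← Finset.sum_add_distrib]
  exact Finset.sum_congr rfl fun u _ => by ring

theorem Ex_sub (G H : (Fin k → ℕ) → ℝ) : Ex S w (fun u => G u - H u) = Ex S w G - Ex S w H := by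
  unfold Ex
  rw [← Finset.sum_sub_distrib]
  exact Finset.sum_congr rfl fun u _ => by ring

theorem Ex_const (hw : ∑ n ∈ S, w n = 1) (c : ℝ) : Ex S w (fun _ : Fin k → ℕ => c) = c := by
  have h := Ex_prod (S := S) (w := w) (k := k) (fun _ _ => 1)
  have h2 : Ex S w (fun _ : Fin k → ℕ => c) = c * Ex S w (fun _ : Fin k → ℕ => ∏ _i : Fin k, (1 : ℝ)) := by
    rw [← Ex_smul]; simp
  rw [h2, h]
  simp [hw]

/-- a choice of positive weight where `G` is positive -/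
theorem Ex_exists (hw : ∀ n, 0 ≤ w n) (G : (Fin k → ℕ) → ℝ) (h : 0 < Ex S w G) :
    ∃ u : Fin k → ℕ, (∀ i, u i ∈ S) ∧ (∀ i, w (u i) ≠ 0) ∧ 0 < G u := by
  by_contra hcon
  push Not at hcon
  have h1 : Ex S w G ≤ Ex S w (fun _ : Fin k → ℕ => 0) := Ex_mono hw _ _ fun u hu hu2 => hcon u hu hu2
  have h2 : Ex S w (fun _ : Fin k → ℕ => (0 : ℝ)) = 0 := by unfold Ex; simp
  linarith

end

/-- the local factor `1 - ω(p)/p` -/
noncomputable def loc {k : ℕ} (d : Fin k → ℕ) (u : Fin k → ℕ) (p : ℕ) : ℝ :=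
  (((range p).filter (fun n => ∀ i, ¬ p ∣ u i + n ^ d i)).card : ℝ) / p

theorem loc_nonneg {k : ℕ} (d : Fin k → ℕ) (u : Fin k → ℕ) (p : ℕ) : 0 ≤ loc d u p := by
  unfold loc; positivity

theorem loc_eq {k : ℕ} (d : Fin k → ℕ) (u : Fin k → ℕ) {p : ℕ} (hp : 0 < p) :
    loc d u p = ∑ n ∈ range p, 1 / (p : ℝ) * ∏ i, (1 - cl (fun q => (q - 1) * n ^ d i) (u i) p) := by
  unfold loc
  rw [← Finset.mul_sum, div_eq_mul_one_div, mul_comm]
  congr 1
  rw [← Finset.sum_boole]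
  refine Finset.sum_congr rfl fun n _ => ?_
  have h1 : ∀ i, (1 : ℝ) - cl (fun q => (q - 1) * n ^ d i) (u i) p = if ¬ p ∣ u i + n ^ d i then 1 else 0 := by
    intro i
    unfold cl
    have h2 : (u i ≡ (p - 1) * n ^ d i [MOD p]) ↔ p ∣ u i + n ^ d i := by
      rw [← Nat.modEq_zero_iff_dvd]
      have h3 : (p - 1) * n ^ d i + n ^ d i ≡ 0 [MOD p] := by
        have : (p - 1) * n ^ d i + n ^ d i = p * n ^ d i := by
          obtain ⟨q, rfl⟩ : ∃ q, p = q + 1 := ⟨p - 1, by omega⟩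
          simp; ring
        rw [this]
        exact (Nat.modEq_zero_iff_dvd).2 (dvd_mul_right _ _)
      constructor
      · intro h
        exact (Nat.ModEq.add_right _ h).trans h3
      · intro h
        exact Nat.ModEq.add_right_cancel' _ (h.trans h3.symm)
    simp only [h2]
    by_cases h3 : p ∣ u i + n ^ d i <;> simp [h3]
  simp only [h1]
  rw [Finset.prod_ite_zero]
  simp

theorem Ex_loc (S : Finset ℕ) (w : ℕ → ℝ) {k : ℕ} (d : Fin k → ℕ) (Q : Finset ℕ)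
    (hQ : ∀ p ∈ Q, p.Prime) (lo hi : ℝ) (hlo : 0 ≤ lo)
    (h : ∀ r : ℕ → ℕ, lo ≤ ∑ n ∈ S, w n * ∏ p ∈ Q, (1 - cl r n p) ∧
      ∑ n ∈ S, w n * ∏ p ∈ Q, (1 - cl r n p) ≤ hi) :
    lo ^ k ≤ Ex S w (fun u : Fin k → ℕ => ∏ p ∈ Q, loc d u p) ∧
      Ex S w (fun u : Fin k → ℕ => ∏ p ∈ Q, loc d u p) ≤ hi ^ k := by
  classical
  set ext : (∀ p ∈ Q, ℕ) → ℕ → ℕ := fun ν p => if hp : p ∈ Q then ν p hp else 0 with hext
  have e1 : ∀ u : Fin k → ℕ, ∏ p ∈ Q, loc d u p = ∑ ν ∈ Q.pi (fun p => range p),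
      (∏ p ∈ Q, 1 / (p : ℝ)) * ∏ i, ∏ p ∈ Q, (1 - cl (fun q => (q - 1) * ext ν q ^ d i) (u i) p) := by
    intro u
    rw [Finset.prod_congr rfl fun p hp => loc_eq d u (hQ p hp).pos, Finset.prod_sum]
    refine Finset.sum_congr rfl fun ν hν => ?_
    have h1 : ∀ x ∈ Q.attach, (1 / (x.1 : ℝ) * ∏ i, (1 - cl (fun q => (q - 1) * ν x.1 x.2 ^ d i) (u i) x.1)) =
        (fun p : ℕ => 1 / (p : ℝ) * ∏ i, (1 - cl (fun q => (q - 1) * ext ν q ^ d i) (u i) p)) x.1 := by
      intro x _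
      simp only
      congr 1
      refine Finset.prod_congr rfl fun i _ => ?_
      unfold cl
      have : ext ν x.1 = ν x.1 x.2 := by rw [hext]; simp
      show (1 - if u i ≡ (x.1 - 1) * ν x.1 x.2 ^ d i [MOD x.1] then (1 : ℝ) else 0) =
        1 - if u i ≡ (x.1 - 1) * ext ν x.1 ^ d i [MOD x.1] then 1 else 0
      rw [this]
    rw [Finset.prod_congr rfl h1, Finset.prod_attach Q
      (fun p : ℕ => 1 / (p : ℝ) * ∏ i, (1 - cl (fun q => (q - 1) * ext ν q ^ d i) (u i) p)),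
      Finset.prod_mul_distrib, Finset.prod_comm]
  have e2 : Ex S w (fun u : Fin k → ℕ => ∏ p ∈ Q, loc d u p) = ∑ ν ∈ Q.pi (fun p => range p),
      (∏ p ∈ Q, 1 / (p : ℝ)) * ∏ i : Fin k, ∑ n ∈ S, w n * ∏ p ∈ Q, (1 - cl (fun q => (q - 1) * ext ν q ^ d i) n p) := by
    simp only [e1]
    rw [Ex_sum]
    refine Finset.sum_congr rfl fun ν _ => ?_
    rw [Ex_smul, Ex_prod (fun i n => ∏ p ∈ Q, (1 - cl (fun q => (q - 1) * ext ν q ^ d i) n p))]
  have e3 : ∑ ν ∈ Q.pi (fun p => range p), (∏ p ∈ Q, 1 / (p : ℝ)) = 1 := by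
    rw [Finset.sum_const, Finset.card_pi, nsmul_eq_mul]
    simp only [card_range]
    push_cast
    rw [← Finset.prod_mul_distrib]
    apply Finset.prod_eq_one
    intro p hp
    have : (p : ℝ) ≠ 0 := by exact_mod_cast (hQ p hp).ne_zero
    field_simp
  have hc : 0 ≤ ∏ p ∈ Q, 1 / (p : ℝ) := Finset.prod_nonneg fun _ _ => by positivity
  rw [e2]
  constructor
  · calc lo ^ k = ∑ ν ∈ Q.pi (fun p => range p), (∏ p ∈ Q, 1 / (p : ℝ)) * lo ^ k := by
          rw [← Finset.sum_mul, e3, one_mul]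
      _ ≤ _ := by
        refine Finset.sum_le_sum fun ν _ => mul_le_mul_of_nonneg_left ?_ hc
        calc lo ^ k = ∏ _i : Fin k, lo := by simp
          _ ≤ _ := Finset.prod_le_prod (fun _ _ => hlo) fun i _ => (h _).1
  · calc _ ≤ ∑ ν ∈ Q.pi (fun p => range p), (∏ p ∈ Q, 1 / (p : ℝ)) * hi ^ k := by
          refine Finset.sum_le_sum fun ν _ => mul_le_mul_of_nonneg_left ?_ hc
          calc _ ≤ ∏ _i : Fin k, hi := Finset.prod_le_prod (fun i _ => hlo.trans (h _).1) fun i _ => (h _).2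
            _ = hi ^ k := by simp
      _ = hi ^ k := by rw [← Finset.sum_mul, e3, one_mul]

end Pool.Agent.Run7.h689.MK
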