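import Pool.Agent.Run7.h689.MK4
set_option autoImplicit false

/-!
# Expectation of the weighted count of prime values; the bad shifts
-/

namespace Pool.Agent.Run7.h689.MK

open Finset Filter Topology
open Pool.Agent.H378R2
open Pool.Agent.H510R2.Maier
open Pool.Agent.N610.MS

theorem th_nonneg (n : ℕ) : 0 ≤ th n := by
  unfold th
  split_ifs with h
  · exact Real.log_natCast_nonneg n
  · exact le_rfl

theorem lp_succ (n h : ℕ) : N610.MS.lp n (h + 1) = N610.MS.lp n h + th (n + (h + 1)) := by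
  unfold N610.MS.lp th
  have h1 : Ioc n (n + (h + 1)) = insert (n + (h + 1)) (Ioc n (n + h)) := by
    ext x; simp only [mem_Ioc, mem_insert]; omega
  rw [h1, sum_insert (by simp), add_comm]

theorem V_succ (P : Finset ℕ) (h : ℕ) :
    (V P (h + 1) : ℝ) = V P h + if (∀ p ∈ P, ¬ p ∣ h + 1) then 1 else 0 := by
  unfold V
  have h1 : Icc 1 (h + 1) = insert (h + 1) (Icc 1 h) := by
    ext x; simp only [mem_Icc, mem_insert]; omega
  rw [h1, filter_insert]
  split_ifs with h2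
  · rw [card_insert_of_notMem (by simp)]; push_cast; ring
  · simp

/-- the mean value of `th (n + h)` -/
theorem thE (S : Finset ℕ) (w : ℕ → ℝ) (P : Finset ℕ) (c E0 T : ℝ) (hE0 : 0 ≤ E0)
    (h : ∀ Y : ℕ, (Y : ℝ) ≤ T → |∑ n ∈ S, w n * N610.MS.lp n Y - c * V P Y| ≤ Y * E0) (t : ℕ) (ht : 1 ≤ t)
    (htT : (t : ℝ) ≤ T) :
    |∑ n ∈ S, w n * th (n + t) - (if (∀ p ∈ P, ¬ p ∣ t) then c else 0)| ≤ 2 * t * E0 := by
  obtain ⟨s, rfl⟩ : ∃ s, t = s + 1 := ⟨t - 1, by omega⟩
  have h1 := h (s + 1) htT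
  have h2 := h s (by push_cast at htT; linarith)
  have e1 : ∑ n ∈ S, w n * N610.MS.lp n (s + 1) = ∑ n ∈ S, w n * N610.MS.lp n s + ∑ n ∈ S, w n * th (n + (s + 1)) := by
    rw [← sum_add_distrib]
    exact sum_congr rfl fun n _ => by rw [lp_succ]; ring
  rw [e1, V_succ] at h1
  have e2 : (if (∀ p ∈ P, ¬ p ∣ s + 1) then c else 0) = c * (if (∀ p ∈ P, ¬ p ∣ s + 1) then (1 : ℝ) else 0) := by
    split_ifs <;> simp
  rw [e2]
  rw [abs_le] at h1 h2 ⊢
  push_cast at h1 ⊢
  constructor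
  · nlinarith [h1.1, h2.2]
  · nlinarith [h1.2, h2.1]

/-- the weighted number of the `n ≤ y` for which all values are primes -/
noncomputable def TT {k : ℕ} (d : Fin k → ℕ) (y : ℕ) (u : Fin k → ℕ) : ℝ :=
  ∑ n ∈ Icc 1 y, ∏ i, th (u i + n ^ d i)

theorem Ex_TT (S : Finset ℕ) (w : ℕ → ℝ) (hw : ∀ n, 0 ≤ w n) {k : ℕ} (hk : 1 ≤ k) (d : Fin k → ℕ)
    (hd : ∀ i, 1 ≤ d i) (P : Finset ℕ) (hP : ∀ p ∈ P, p.Prime) (c η : ℝ) (hc : 1 / 2 ≤ c)
    (hη0 : 0 ≤ η) (hη : η ≤ 1 / 2) (y : ℕ)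
    (h : ∀ n ∈ Icc 1 y, ∀ i, |∑ u ∈ S, w u * th (u + n ^ d i) -
      (if (∀ p ∈ P, ¬ p ∣ n ^ d i) then c else 0)| ≤ η) :
    (c * (1 - 2 * η)) ^ k * V P y ≤ Ex S w (TT d y) ∧
      Ex S w (TT d y) ≤ (c * (1 + 2 * η)) ^ k * V P y + y * η := by
  have e1 : Ex S w (TT d y) = ∑ n ∈ Icc 1 y, ∏ i, ∑ u ∈ S, w u * th (u + n ^ d i) := by
    unfold TT
    rw [Ex_sum]
    exact sum_congr rfl fun n _ => Ex_prod (fun i u => th (u + n ^ d i))
  have hdvd : ∀ (n : ℕ) (i : Fin k), (∀ p ∈ P, ¬ p ∣ n ^ d i) ↔ (∀ p ∈ P, ¬ p ∣ n) := by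
    intro n i
    refine forall₂_congr fun p hp => not_congr ?_
    exact ⟨fun h => (hP p hp).dvd_of_dvd_pow h, fun h => dvd_pow h (by have := hd i; omega)⟩
  have hV : ∀ x : ℝ, x * V P y = ∑ n ∈ Icc 1 y, if (∀ p ∈ P, ¬ p ∣ n) then x else 0 := by
    intro x
    rw [← sum_filter, sum_const, nsmul_eq_mul, mul_comm]
    rfl
  have ha0 : ∀ (n : ℕ) (i : Fin k), 0 ≤ ∑ u ∈ S, w u * th (u + n ^ d i) := fun n i =>
    sum_nonneg fun u _ => mul_nonneg (hw u) (th_nonneg _)
  rw [e1]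
  constructor
  · rw [hV]
    refine sum_le_sum fun n hn => ?_
    split_ifs with hg
    · calc (c * (1 - 2 * η)) ^ k = ∏ _i : Fin k, (c * (1 - 2 * η)) := by simp
        _ ≤ _ := by
          apply Finset.prod_le_prod
          · intro i _
            exact mul_nonneg (by linarith) (by linarith)
          · intro i _
            have h1 := h n hn i
            rw [if_pos ((hdvd n i).2 hg), abs_le] at h1
            nlinarith [h1.1]
    · exact prod_nonneg fun i _ => ha0 n i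
  · have e2 : (c * (1 + 2 * η)) ^ k * V P y + y * η =
        ∑ n ∈ Icc 1 y, ((if (∀ p ∈ P, ¬ p ∣ n) then (c * (1 + 2 * η)) ^ k else 0) + η) := by
      rw [sum_add_distrib, ← hV]
      simp
    rw [e2]
    refine sum_le_sum fun n hn => ?_
    split_ifs with hg
    · have : ∏ i, ∑ u ∈ S, w u * th (u + n ^ d i) ≤ (c * (1 + 2 * η)) ^ k := by
        calc _ ≤ ∏ _i : Fin k, (c * (1 + 2 * η)) := by
              apply Finset.prod_le_prod
              · intro i _
                exact ha0 n i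
              · intro i _
                have h1 := h n hn i
                rw [if_pos ((hdvd n i).2 hg), abs_le] at h1
                nlinarith [h1.2]
          _ = _ := by simp
      linarith
    · rw [zero_add]
      have h1 : ∀ i, ∑ u ∈ S, w u * th (u + n ^ d i) ≤ η := by
        intro i
        have h1 := h n hn i
        rw [if_neg (fun hh => hg ((hdvd n i).1 hh)), abs_le] at h1
        linarith [h1.2]
      obtain ⟨j, rfl⟩ : ∃ j, k = j + 1 := ⟨k - 1, by omega⟩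
      rw [Fin.prod_univ_succ]
      have h2 : ∏ i : Fin j, ∑ u ∈ S, w u * th (u + n ^ d i.succ) ≤ 1 := by
        apply prod_le_one
        · intro i _
          exact ha0 n _
        · intro i _
          have := h1 i.succ
          linarith
      have h3 : 0 ≤ ∏ i : Fin j, ∑ u ∈ S, w u * th (u + n ^ d i.succ) := prod_nonneg fun i _ => ha0 n _
      calc _ ≤ η * 1 := mul_le_mul (h1 0) h2 h3 hη0
        _ = η := mul_one η

/-- probability of one coordinate being bad -/
theorem Ex_one (S : Finset ℕ) (w : ℕ → ℝ) (hw1 : ∑ n ∈ S, w n = 1) {k : ℕ} (i : Fin k) (f : ℕ → ℝ) :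
    Ex S w (fun u : Fin k → ℕ => f (u i)) = ∑ n ∈ S, w n * f n := by
  have h1 := Ex_prod (S := S) (w := w) (k := k) (fun l n => if l = i then f n else 1)
  have h2 : (fun u : Fin k → ℕ => ∏ l, if l = i then f (u l) else 1) = fun u : Fin k → ℕ => f (u i) := by
    funext u
    rw [Finset.prod_ite_eq']
    simp
  rw [h2] at h1
  rw [h1]
  have h3 : ∀ l : Fin k, ∑ n ∈ S, w n * (if l = i then f n else 1) =
      if l = i then ∑ n ∈ S, w n * f n else 1 := by
    intro l
    split_ifs with hl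
    · rfl
    · simp [hw1]
  simp only [h3]
  rw [Finset.prod_ite_eq']
  simp

/-- probability of a coincidence -/
theorem Ex_coinc (S : Finset ℕ) (w : ℕ → ℝ) (hw : ∀ n, 0 ≤ w n) (hw1 : ∑ n ∈ S, w n = 1) (M : ℝ)
    (hM : ∀ n, w n ≤ M) {k : ℕ} (i j : Fin k) (hij : i ≠ j) :
    Ex S w (fun u : Fin k → ℕ => if u i = u j then 1 else 0) ≤ M := by
  classical
  have h1 : Ex S w (fun u : Fin k → ℕ => if u i = u j then 1 else 0) ≤
      Ex S w (fun u : Fin k → ℕ => ∑ m ∈ S, ∏ l, if l ∈ ({i, j} : Finset (Fin k)) then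
        (if u l = m then 1 else 0) else 1) := by
    refine Ex_mono hw _ _ fun u hu _ => ?_
    split_ifs with huij
    · rw [← Finset.sum_erase_add _ _ (hu i)]
      have h2 : (∏ l, if l ∈ ({i, j} : Finset (Fin k)) then (if u l = u i then (1 : ℝ) else 0) else 1) = 1 := by
        apply prod_eq_one
        intro l _
        split_ifs with hl hl2
        · rfl
        · exfalso
          apply hl2
          rw [mem_insert, mem_singleton] at hl
          rcases hl with rfl | rfl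
          · rfl
          · exact huij.symm
        · rfl
      rw [h2]
      have h3 : 0 ≤ ∑ m ∈ S.erase (u i), ∏ l, if l ∈ ({i, j} : Finset (Fin k)) then
          (if u l = m then (1 : ℝ) else 0) else 1 := by
        refine sum_nonneg fun m _ => prod_nonneg fun l _ => ?_
        split_ifs <;> norm_num
      linarith
    · refine sum_nonneg fun m _ => prod_nonneg fun l _ => ?_
      split_ifs <;> norm_num
  refine h1.trans ?_
  rw [Ex_sum]
  have h4 : ∀ m ∈ S, Ex S w (fun u : Fin k → ℕ => ∏ l, if l ∈ ({i, j} : Finset (Fin k)) then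
      (if u l = m then (1 : ℝ) else 0) else 1) = w m ^ 2 := by
    intro m hm
    rw [Ex_prod (fun l n => if l ∈ ({i, j} : Finset (Fin k)) then (if n = m then (1 : ℝ) else 0) else 1)]
    have h5 : ∀ l : Fin k, ∑ n ∈ S, w n * (if l ∈ ({i, j} : Finset (Fin k)) then
        (if n = m then (1 : ℝ) else 0) else 1) = if l ∈ ({i, j} : Finset (Fin k)) then w m else 1 := by
      intro l
      split_ifs with hl
      · simp [hm]
      · simp [hw1]
    simp only [h5]
    rw [Finset.prod_ite_mem, univ_inter, prod_const, card_pair hij]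
  rw [sum_congr rfl h4]
  calc ∑ m ∈ S, w m ^ 2 ≤ ∑ m ∈ S, M * w m := by
        refine sum_le_sum fun m _ => ?_
        rw [sq]
        exact mul_le_mul_of_nonneg_right (hM m) (hw m)
    _ = M := by rw [← mul_sum, hw1, mul_one]

/-- the probability that `W²` divides a shift -/
theorem sq_prob (X : ℝ) (hX : 4 ≤ X) (W : ℕ) (hW : 0 < W) (hWX : ((W ^ 2 : ℕ) : ℝ) ≤ X)
    (hN : X / (40 * W) ≤ NN X W) :
    ∑ n ∈ Icc 1 ⌊3 * X⌋₊, wt X W n * (if W ^ 2 ∣ n then 1 else 0) ≤ 1 / W + 400 * W / X := by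
  have hWr : (1 : ℝ) ≤ W := by exact_mod_cast hW
  have hX0 : 0 < X := by linarith
  have hN0 : 0 < NN X W := lt_of_lt_of_le (by positivity) hN
  have h1 := sum_nu X hX (W ^ 2) 0 (by positivity) hWX
  have hWX' : (W : ℝ) ≤ X := by
    refine le_trans ?_ hWX
    push_cast; nlinarith
  have h2 := sum_nu X hX W 0 hW hWX'
  have h3 : ∑ n ∈ Icc 1 ⌊3 * X⌋₊, wt X W n * (if W ^ 2 ∣ n then 1 else 0) =
      (∑ n ∈ Icc 1 ⌊3 * X⌋₊, nu X (W ^ 2) 0 n) / NN X W := by
    rw [sum_div]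
    refine sum_congr rfl fun n _ => ?_
    unfold wt nu
    simp only [Nat.modEq_zero_iff_dvd]
    by_cases h4 : W ^ 2 ∣ n
    · have h5 : W ∣ n := (dvd_pow_self W two_ne_zero).trans h4
      simp [h4, h5]
    · simp [h4]
  rw [h3, div_le_iff₀ hN0]
  have h4 : MPhi X * (1 / W) ≤ NN X W + 5 := by
    have := (abs_le.1 h2).1
    unfold NN
    linarith
  have h5 : ∑ n ∈ Icc 1 ⌊3 * X⌋₊, nu X (W ^ 2) 0 n ≤ MPhi X * (1 / ((W ^ 2 : ℕ) : ℝ)) + 5 := by
    have := (abs_le.1 h1).2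
    linarith
  have h6 : MPhi X * (1 / ((W ^ 2 : ℕ) : ℝ)) = MPhi X * (1 / W) * (1 / W) := by
    push_cast; field_simp
  have h7 : MPhi X * (1 / W) * (1 / W) ≤ (NN X W + 5) * (1 / W) :=
    mul_le_mul_of_nonneg_right h4 (by positivity)
  have h8 : (5 : ℝ) * (1 / W) ≤ 5 := by
    have : 1 / (W : ℝ) ≤ 1 := by rw [div_le_one (by linarith)]; exact hWr
    linarith
  have c3 : 400 * (W : ℝ) / X * (X / (40 * W)) ≤ 400 * (W : ℝ) / X * NN X W :=
    mul_le_mul_of_nonneg_left hN (by positivity)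
  have e1 : 400 * (W : ℝ) / X * (X / (40 * W)) = 10 := by field_simp; norm_num
  rw [h6] at h5
  nlinarith

end Pool.Agent.Run7.h689.MK
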