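import Pool.Agent.Run7.h689.MK5
set_option autoImplicit false

/-!
# The modulus is larger than any power of `log X`; the partial products of the constants
-/

namespace Pool.Agent.Run7.h689.MK

open Finset Filter Topology
open Pool.Agent.N610.MS

theorem V_insert (P : Finset ℕ) (hP : ∀ p ∈ P, p.Prime) (q : ℕ) (hq : q.Prime) (hqP : q ∉ P) (Y : ℕ) :
    (V (insert q P) Y : ℝ) = V P Y - V P (Y / q) := by
  classical
  have h1 : ((Icc 1 Y).filter (fun h => ∀ p ∈ P, ¬ p ∣ h)) =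
      ((Icc 1 Y).filter (fun h => ∀ p ∈ insert q P, ¬ p ∣ h)) ∪
        ((Icc 1 (Y / q)).filter (fun h => ∀ p ∈ P, ¬ p ∣ h)).image (fun h => q * h) := by
    ext h
    simp only [mem_filter, mem_union, mem_image, mem_Icc, mem_insert, forall_eq_or_imp]
    constructor
    · rintro ⟨⟨h2, h3⟩, h4⟩
      by_cases h5 : q ∣ h
      · right
        obtain ⟨m, rfl⟩ := h5
        refine ⟨m, ⟨⟨?_, ?_⟩, ?_⟩, rfl⟩
        · by_contra h6
          have : m = 0 := by omega
          subst this; omega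
        · rw [Nat.le_div_iff_mul_le hq.pos, mul_comm]; exact h3
        · intro p hp h6
          exact h4 p hp (h6.mul_left q)
      · left
        exact ⟨⟨h2, h3⟩, h5, h4⟩
    · rintro (⟨h2, h3, h4⟩ | ⟨m, ⟨⟨h2, h3⟩, h4⟩, rfl⟩)
      · exact ⟨h2, h4⟩
      · refine ⟨⟨Nat.mul_pos hq.pos (by omega), ?_⟩, ?_⟩
        · rw [Nat.le_div_iff_mul_le hq.pos, mul_comm] at h3; exact h3
        · intro p hp h6
          rcases (hP p hp).dvd_mul.1 h6 with h7 | h7
          · have := (Nat.prime_dvd_prime_iff_eq (hP p hp) hq).1 h7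
            subst this
            exact hqP hp
          · exact h4 p hp h7
  have h2 : Disjoint ((Icc 1 Y).filter (fun h => ∀ p ∈ insert q P, ¬ p ∣ h))
      (((Icc 1 (Y / q)).filter (fun h => ∀ p ∈ P, ¬ p ∣ h)).image (fun h => q * h)) := by
    rw [disjoint_left]
    intro h h3 h4
    rw [mem_image] at h4
    obtain ⟨m, _, rfl⟩ := h4
    rw [mem_filter] at h3
    exact h3.2 q (mem_insert_self _ _) (dvd_mul_right _ _)
  unfold V
  rw [h1, card_union_of_disjoint h2, card_image_of_injective _ (fun a b hab => by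
    exact Nat.eq_of_mul_eq_mul_left hq.pos hab)]
  push_cast
  ring

/-- the sieve of Legendre -/
theorem V_approx (P : Finset ℕ) (hP : ∀ p ∈ P, p.Prime) :
    ∀ y : ℝ, 0 ≤ y → |(V P ⌊y⌋₊ : ℝ) - y * ∏ p ∈ P, (1 - 1 / (p : ℝ))| ≤ 2 ^ P.card := by
  classical
  induction P using Finset.induction_on with
  | empty =>
    intro y hy
    have h1 : V ∅ ⌊y⌋₊ = ⌊y⌋₊ := by unfold V; simp
    rw [h1]
    simp only [prod_empty, card_empty, pow_zero, mul_one]
    rw [abs_le]
    have h2 := Nat.floor_le hy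
    have h3 := Nat.lt_floor_add_one y
    constructor <;> linarith
  | insert q P hqP ih =>
    intro y hy
    have hq : q.Prime := hP q (mem_insert_self _ _)
    have hP' : ∀ p ∈ P, p.Prime := fun p hp => hP p (mem_insert_of_mem hp)
    rw [V_insert P hP' q hq hqP, prod_insert hqP, card_insert_of_notMem hqP, pow_succ]
    have h1 := ih hP' y hy
    have hq0 : (0 : ℝ) < q := by exact_mod_cast hq.pos
    have h2 := ih hP' (y / q) (by positivity)
    have h3 : ⌊y / (q : ℝ)⌋₊ = ⌊y⌋₊ / q := Nat.floor_div_natCast y q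
    rw [h3] at h2
    have h4 : (V P ⌊y⌋₊ : ℝ) - V P (⌊y⌋₊ / q) - y * ((1 - 1 / (q : ℝ)) * ∏ p ∈ P, (1 - 1 / (p : ℝ))) =
        ((V P ⌊y⌋₊ : ℝ) - y * ∏ p ∈ P, (1 - 1 / (p : ℝ))) -
          ((V P (⌊y⌋₊ / q) : ℝ) - y / q * ∏ p ∈ P, (1 - 1 / (p : ℝ))) := by ring
    rw [h4]
    exact (abs_sub _ _).trans (by linarith)

theorem prod_ge_pow (P : Finset ℕ) (hP : ∀ p ∈ P, p.Prime) (M : ℕ) (hM : 1 ≤ M) :
    (M : ℝ) ^ ((P.card : ℝ) - M) ≤ ((∏ p ∈ P, p : ℕ) : ℝ) := by
  classical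
  have h1 : (P.filter (fun p => ¬ M ≤ p)).card ≤ M := by
    calc (P.filter (fun p => ¬ M ≤ p)).card ≤ (range M).card := by
          apply card_le_card
          intro p hp
          have := (mem_filter.1 hp).2
          rw [mem_range]; omega
      _ = M := card_range M
  have h2 : (P.filter (fun p => M ≤ p)).card + (P.filter (fun p => ¬ M ≤ p)).card = P.card :=
    card_filter_add_card_filter_not _
  have h3 : M ^ (P.filter (fun p => M ≤ p)).card ≤ ∏ p ∈ P, p := by
    calc M ^ (P.filter (fun p => M ≤ p)).card = ∏ _p ∈ P.filter (fun p => M ≤ p), M := by rw [prod_const]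
      _ ≤ ∏ p ∈ P.filter (fun p => M ≤ p), p := prod_le_prod' fun p hp => (mem_filter.1 hp).2
      _ ≤ ∏ p ∈ P, p := prod_le_prod_of_subset_of_one_le' (filter_subset _ _)
          fun p hp _ => (hP p hp).one_le
  have hMr : (1 : ℝ) ≤ M := by exact_mod_cast hM
  calc (M : ℝ) ^ ((P.card : ℝ) - M) ≤ (M : ℝ) ^ ((P.filter (fun p => M ≤ p)).card : ℝ) := by
        apply Real.rpow_le_rpow_of_exponent_le hMr
        have h4 : (P.card : ℝ) ≤ (P.filter (fun p => M ≤ p)).card + M := by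
          have : P.card ≤ (P.filter (fun p => M ≤ p)).card + M := by omega
          exact_mod_cast this
        linarith
    _ = (M : ℝ) ^ (P.filter (fun p => M ≤ p)).card := Real.rpow_natCast _ _
    _ ≤ _ := by exact_mod_cast h3

/-- the product of the primes of `P` is large -/
theorem W_ge (a δ : ℝ) (ha : 0 < a) (hδ : 0 < δ) (K : ℕ) : ∀ᶠ L : ℝ in atTop, ∀ P : Finset ℕ,
    (∀ p ∈ P, p.Prime) → δ * L ^ a ≤ 2 ^ P.card → L ^ K ≤ ((∏ p ∈ P, p : ℕ) : ℝ) := by
  -- choose `M` with `log M ≥ (K + 1) / a`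
  obtain ⟨M, hM⟩ := exists_nat_ge (Real.exp ((K + 1) / a))
  have hM0 : 0 < M := by
    rcases Nat.eq_zero_or_pos M with h | h
    · subst h
      have := Real.exp_pos ((K + 1) / a)
      push_cast at hM
      linarith
    · exact h
  have hMr : (0 : ℝ) < M := by exact_mod_cast hM0
  have hlogM : (K + 1) / a ≤ Real.log M := by
    rw [Real.le_log_iff_exp_le hMr]; exact hM
  set lM := Real.log M with hlM
  have hlM0 : 0 < lM := lt_of_lt_of_le (by positivity) hlogM
  filter_upwards [Real.tendsto_log_atTop.eventually_ge_atTop ((M + |Real.log δ| + 1) * lM),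
    eventually_gt_atTop (1 : ℝ)] with L h1 h2 P hP hPc
  have hL0 : 0 < L := by linarith
  refine le_trans ?_ (prod_ge_pow P hP M hM0)
  have hl0 : 0 < Real.log L := Real.log_pos h2
  set l := Real.log L with hl
  have h3 : Real.log (δ * L ^ a) ≤ Real.log (2 ^ P.card) :=
    Real.log_le_log (by positivity) hPc
  rw [Real.log_mul hδ.ne' (by positivity), Real.log_rpow hL0, Real.log_pow] at h3
  have h4 : (P.card : ℝ) * Real.log 2 ≤ P.card := by
    have := Real.log_two_lt_d9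
    have h5 : (0 : ℝ) ≤ P.card := Nat.cast_nonneg _
    nlinarith
  have h5 : a * l - |Real.log δ| ≤ P.card := by
    have := neg_abs_le (Real.log δ)
    linarith
  have e1 : L ^ K = Real.exp (K * l) := by
    rw [Real.exp_nat_mul, Real.exp_log hL0]
  have e2 : (M : ℝ) ^ ((P.card : ℝ) - M) = Real.exp (lM * (P.card - M)) := by
    rw [Real.rpow_def_of_pos hMr]
  rw [e1, e2]
  apply Real.exp_le_exp.2
  have h6 : (K + 1) * l ≤ lM * (a * l) := by
    have : K + 1 ≤ lM * a := by rwa [div_le_iff₀ ha] at hlogM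
    nlinarith
  have h7 : lM * (a * l - |Real.log δ| - M) ≤ lM * (P.card - M) :=
    mul_le_mul_of_nonneg_left (by linarith) hlM0.le
  have h8 : 0 ≤ |Real.log δ| := abs_nonneg _
  nlinarith

/-- the partial product of the constant of `x ^ d i + u i` -/
noncomputable def CZ {k : ℕ} (d u : Fin k → ℕ) (Z : ℕ) : ℝ :=
  ∏ p ∈ (Icc 1 Z).filter Nat.Prime, loc d u p / (1 - 1 / (p : ℝ)) ^ k

theorem loc_le_one {k : ℕ} (d u : Fin k → ℕ) (p : ℕ) : loc d u p ≤ 1 := by
  unfold loc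
  apply div_le_one_of_le₀ _ (Nat.cast_nonneg _)
  have : ((range p).filter (fun n => ∀ i, ¬ p ∣ u i + n ^ d i)).card ≤ p := by
    calc _ ≤ (range p).card := card_filter_le _ _
      _ = p := card_range p
  exact_mod_cast this

theorem CZ_nonneg {k : ℕ} (d u : Fin k → ℕ) (Z : ℕ) : 0 ≤ CZ d u Z := by
  unfold CZ
  refine prod_nonneg fun p hp => div_nonneg (loc_nonneg _ _ _) (pow_nonneg ?_ _)
  have := (one_sub_mem (mem_filter.1 hp).2).1
  linarith

theorem CZ_le {k : ℕ} (d u : Fin k → ℕ) (Z : ℕ) (hZ : 1 ≤ Z) : CZ d u Z ≤ (Z : ℝ) ^ k := by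
  unfold CZ
  have hZr : (0 : ℝ) < Z := by exact_mod_cast hZ
  have h1 : ∏ p ∈ (Icc 1 Z).filter Nat.Prime, loc d u p / (1 - 1 / (p : ℝ)) ^ k ≤
      ∏ p ∈ (Icc 1 Z).filter Nat.Prime, 1 / (1 - 1 / (p : ℝ)) ^ k := by
    apply Finset.prod_le_prod
    · intro p hp
      refine div_nonneg (loc_nonneg _ _ _) (pow_nonneg ?_ _)
      have := (one_sub_mem (mem_filter.1 hp).2).1
      linarith
    · intro p hp
      have := (one_sub_mem (mem_filter.1 hp).2).1
      exact div_le_div_of_nonneg_right (loc_le_one _ _ _) (pow_nonneg (by linarith) _)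
  refine h1.trans ?_
  rw [prod_div_distrib, prod_const_one, prod_pow]
  have h2 := prod_ge Z hZ
  have h3 : 0 < 1 / (Z : ℝ) := by positivity
  rw [div_le_iff₀ (pow_pos (lt_of_lt_of_le h3 h2) _), ← mul_pow]
  apply one_le_pow₀
  calc (1 : ℝ) = Z * (1 / Z) := by field_simp
    _ ≤ _ := mul_le_mul_of_nonneg_left h2 hZr.le

/-- the local factor when `p` divides all shifts -/
theorem loc_dvd {k : ℕ} (hk : 1 ≤ k) (d u : Fin k → ℕ) (hd : ∀ i, 1 ≤ d i) {p : ℕ} (hp : p.Prime)
    (h : ∀ i, p ∣ u i) : loc d u p = 1 - 1 / (p : ℝ) := by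
  have h1 : (range p).filter (fun n => ∀ i, ¬ p ∣ u i + n ^ d i) = (range p).erase 0 := by
    ext n
    simp only [mem_filter, mem_range, mem_erase]
    have h2 : ∀ i, (p ∣ u i + n ^ d i) ↔ p ∣ n := by
      intro i
      rw [Nat.dvd_add_right (h i)]
      exact ⟨fun h => hp.dvd_of_dvd_pow h, fun h => dvd_pow h (by have := hd i; omega)⟩
    simp only [h2]
    constructor
    · rintro ⟨h3, h4⟩
      refine ⟨?_, h3⟩
      rintro rfl
      exact h4 ⟨0, hk⟩ (dvd_zero _)
    · rintro ⟨h3, h4⟩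
      refine ⟨h4, fun _ h5 => ?_⟩
      exact absurd (Nat.le_of_dvd (Nat.pos_of_ne_zero h3) h5) (by omega)
  unfold loc
  rw [h1, card_erase_of_mem (by rw [mem_range]; exact hp.pos), card_range]
  have hp0 : (p : ℝ) ≠ 0 := by exact_mod_cast hp.ne_zero
  rw [Nat.cast_sub hp.one_le]
  field_simp
  simp

theorem CZ_split {k : ℕ} (hk : 1 ≤ k) (d u : Fin k → ℕ) (hd : ∀ i, 1 ≤ d i) (Z : ℕ) (P : Finset ℕ)
    (hP : P ⊆ (Icc 1 Z).filter Nat.Prime) (h : ∀ i, (∏ p ∈ P, p) ∣ u i) :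
    CZ d u Z = (∏ p ∈ P, (1 - 1 / (p : ℝ))) / (∏ p ∈ P, (1 - 1 / (p : ℝ))) ^ k *
      ((1 / (∏ p ∈ ((Icc 1 Z).filter Nat.Prime) \ P, (1 - 1 / (p : ℝ))) ^ k) *
        ∏ p ∈ ((Icc 1 Z).filter Nat.Prime) \ P, loc d u p) := by
  unfold CZ
  rw [← prod_sdiff hP, mul_comm]
  congr 1
  · rw [prod_div_distrib, prod_pow]
    congr 1
    refine prod_congr rfl fun p hp => ?_
    exact loc_dvd hk d u hd (mem_filter.1 (hP hp)).2 fun i => (dvd_prod_of_mem _ hp).trans (h i)
  · rw [prod_div_distrib, prod_pow, one_div, mul_comm, div_eq_mul_inv]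

end Pool.Agent.Run7.h689.MK
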