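import Pool.Agent.Run7.h689.MK6
set_option autoImplicit false

/-!
# All facts about the shifts
-/

namespace Pool.Agent.Run7.h689.MK

open Finset Filter Topology
open Pool.Agent.H378R2
open Pool.Agent.H510R2.Maier
open Pool.Agent.N610.MS

theorem Ex_congr {S : Finset ℕ} {w : ℕ → ℝ} {k : ℕ} (hw : ∀ n, 0 ≤ w n) (G H : (Fin k → ℕ) → ℝ)
    (h : ∀ u : Fin k → ℕ, (∀ i, u i ∈ S) → (∀ i, w (u i) ≠ 0) → G u = H u) : Ex S w G = Ex S w H :=
  le_antisymm (Ex_mono hw _ _ fun u h1 h2 => (h u h1 h2).le) (Ex_mono hw _ _ fun u h1 h2 => (h u h1 h2).ge)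

/-- the mean value of the partial product -/
theorem Ex_CZ {k : ℕ} (hk : 1 ≤ k) (d : Fin k → ℕ) (hd : ∀ i, 1 ≤ d i) (X : ℝ) (hX : 0 < X) (Z : ℕ)
    (P : Finset ℕ) (hP : P ⊆ (Icc 1 Z).filter Nat.Prime) (t : ℝ) (ht1 : t ≤ 1)
    (h : ∀ r : ℕ → ℕ, |∑ n ∈ Icc 1 ⌊3 * X⌋₊, wt X (∏ p ∈ P, p) n *
      ∏ p ∈ ((Icc 1 Z).filter Nat.Prime) \ P, (1 - cl r n p) -
      ∏ p ∈ ((Icc 1 Z).filter Nat.Prime) \ P, (1 - 1 / (p : ℝ))| ≤
      t * ∏ p ∈ ((Icc 1 Z).filter Nat.Prime) \ P, (1 - 1 / (p : ℝ))) :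
    (∏ p ∈ P, (1 - 1 / (p : ℝ))) / (∏ p ∈ P, (1 - 1 / (p : ℝ))) ^ k * (1 - t) ^ k ≤
      Ex (Icc 1 ⌊3 * X⌋₊) (wt X (∏ p ∈ P, p)) (fun u : Fin k → ℕ => CZ d u Z) ∧
    Ex (Icc 1 ⌊3 * X⌋₊) (wt X (∏ p ∈ P, p)) (fun u : Fin k → ℕ => CZ d u Z) ≤
      (∏ p ∈ P, (1 - 1 / (p : ℝ))) / (∏ p ∈ P, (1 - 1 / (p : ℝ))) ^ k * (1 + t) ^ k := by
  set Q := ((Icc 1 Z).filter Nat.Prime) \ P with hQ
  have hQp : ∀ p ∈ Q, p.Prime := fun p hp => (mem_filter.1 (mem_sdiff.1 hp).1).2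
  set b := ∏ p ∈ Q, (1 - 1 / (p : ℝ)) with hb
  have hb0 : 0 < b := prod_pos fun p hp => by
    have := (one_sub_mem (hQp p hp)).1
    linarith
  have hBp0 : 0 < ∏ p ∈ P, (1 - 1 / (p : ℝ)) := prod_pos fun p hp => by
    have := (one_sub_mem (mem_filter.1 (hP hp)).2).1
    linarith
  set Bp := ∏ p ∈ P, (1 - 1 / (p : ℝ)) with hBp
  have h1 := Ex_loc (Icc 1 ⌊3 * X⌋₊) (wt X (∏ p ∈ P, p)) d Q hQp ((1 - t) * b) ((1 + t) * b)
    (mul_nonneg (by linarith) hb0.le) (fun r => by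
      have := abs_le.1 (h r)
      constructor <;> linarith [this.1, this.2])
  have h2 : Ex (Icc 1 ⌊3 * X⌋₊) (wt X (∏ p ∈ P, p)) (fun u : Fin k → ℕ => CZ d u Z) =
      (Bp / Bp ^ k * (1 / b ^ k)) * Ex (Icc 1 ⌊3 * X⌋₊) (wt X (∏ p ∈ P, p)) (fun u : Fin k → ℕ => ∏ p ∈ Q, loc d u p) := by
    rw [← Ex_smul]
    refine Ex_congr (wt_nonneg _ _) _ _ fun u _ hu => ?_
    rw [CZ_split hk d u hd Z P hP fun i => (wt_supp X hX _ _ (hu i)).2.2]
    ring
  rw [h2]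
  have hc : 0 ≤ Bp / Bp ^ k * (1 / b ^ k) := by positivity
  have e : ∀ x : ℝ, Bp / Bp ^ k * x ^ k = (Bp / Bp ^ k * (1 / b ^ k)) * (x * b) ^ k := by
    intro x
    rw [mul_pow]
    field_simp
  rw [e, e]
  exact ⟨mul_le_mul_of_nonneg_left h1.1 hc, mul_le_mul_of_nonneg_left h1.2 hc⟩

open Classical in
/-- the number of defects of the shifts -/
noncomputable def bad {k : ℕ} (W : ℕ) (u : Fin k → ℕ) : ℝ :=
  ∑ i, (if W ^ 2 ∣ u i then (1 : ℝ) else 0) + ∑ i, ∑ j, (if i ≠ j ∧ u i = u j then (1 : ℝ) else 0)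

theorem bad_nonneg {k : ℕ} (W : ℕ) (u : Fin k → ℕ) : 0 ≤ bad W u := by
  unfold bad
  refine add_nonneg (sum_nonneg fun i _ => ?_) (sum_nonneg fun i _ => sum_nonneg fun j _ => ?_) <;>
    split_ifs <;> norm_num

theorem bad_spec {k : ℕ} (W : ℕ) (u : Fin k → ℕ) (h : bad W u < 1) :
    (∀ i, ¬ W ^ 2 ∣ u i) ∧ Function.Injective u := by
  classical
  have h1 : 0 ≤ ∑ i, (if W ^ 2 ∣ u i then (1 : ℝ) else 0) := sum_nonneg fun i _ => by split_ifs <;> norm_num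
  have h2 : 0 ≤ ∑ i, ∑ j, (if i ≠ j ∧ u i = u j then (1 : ℝ) else 0) :=
    sum_nonneg fun i _ => sum_nonneg fun j _ => by split_ifs <;> norm_num
  unfold bad at h
  constructor
  · intro i hi
    have h3 : (if W ^ 2 ∣ u i then (1 : ℝ) else 0) ≤ ∑ i, (if W ^ 2 ∣ u i then (1 : ℝ) else 0) :=
      single_le_sum (f := fun i => if W ^ 2 ∣ u i then (1 : ℝ) else 0)
        (fun i _ => by split_ifs <;> norm_num) (mem_univ i)
    rw [if_pos hi] at h3
    linarith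
  · intro i j hij
    by_contra hne
    have h3 : (if i ≠ j ∧ u i = u j then (1 : ℝ) else 0) ≤ ∑ j, (if i ≠ j ∧ u i = u j then (1 : ℝ) else 0) :=
      single_le_sum (f := fun j => if i ≠ j ∧ u i = u j then (1 : ℝ) else 0)
        (fun i _ => by split_ifs <;> norm_num) (mem_univ j)
    have h4 : ∑ j, (if i ≠ j ∧ u i = u j then (1 : ℝ) else 0) ≤
        ∑ i, ∑ j, (if i ≠ j ∧ u i = u j then (1 : ℝ) else 0) :=
      single_le_sum (f := fun i => ∑ j, (if i ≠ j ∧ u i = u j then (1 : ℝ) else 0))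
        (fun i _ => sum_nonneg fun j _ => by split_ifs <;> norm_num) (mem_univ i)
    rw [if_pos ⟨hne, hij⟩] at h3
    linarith

theorem Ex_bad {k : ℕ} (X : ℝ) (hX : 4 ≤ X) (W : ℕ) (hW : 0 < W) (hWX : ((W ^ 2 : ℕ) : ℝ) ≤ X)
    (hN : X / (40 * W) ≤ NN X W) :
    Ex (Icc 1 ⌊3 * X⌋₊) (wt X W) (fun u : Fin k → ℕ => bad W u) ≤
      k * (1 / W + 400 * W / X) + k * (k * (20 * W / X)) := by
  classical
  have hX0 : 0 < X := by linarith
  have hWr : (0 : ℝ) < W := by exact_mod_cast hW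
  have hN0 : 0 < NN X W := lt_of_lt_of_le (by positivity) hN
  have hw1 := wt_sum X W hN0
  unfold bad
  rw [Ex_add, Ex_sum, Ex_sum]
  apply add_le_add
  · calc _ ≤ ∑ _i : Fin k, (1 / (W : ℝ) + 400 * W / X) := by
          refine sum_le_sum fun i _ => ?_
          have h1 := Ex_one (Icc 1 ⌊3 * X⌋₊) (wt X W) hw1 i (fun n => if W ^ 2 ∣ n then (1 : ℝ) else 0)
          refine le_trans (le_of_eq ?_) (sq_prob X hX W hW hWX hN)
          exact h1
      _ = _ := by simp; ring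
  · calc _ ≤ ∑ _i : Fin k, ((k : ℝ) * (20 * W / X)) := by
          refine sum_le_sum fun i _ => ?_
          rw [Ex_sum]
          calc _ ≤ ∑ _j : Fin k, (20 * (W : ℝ) / X) := by
                refine sum_le_sum fun j _ => ?_
                by_cases hij : i = j
                · have : Ex (Icc 1 ⌊3 * X⌋₊) (wt X W) (fun u : Fin k → ℕ => if i ≠ j ∧ u i = u j then (1 : ℝ) else 0) = 0 := by
                    unfold Ex
                    apply sum_eq_zero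
                    intro u _
                    show _ * (if i ≠ j ∧ u i = u j then (1 : ℝ) else 0) = 0
                    rw [if_neg (fun h => h.1 hij), mul_zero]
                  rw [this]
                  positivity
                · have h1 := Ex_coinc (Icc 1 ⌊3 * X⌋₊) (wt X W) (wt_nonneg X W) hw1 (20 * W / X)
                    (fun n => wt_le X hX0 W hW hN n) i j hij
                  refine le_trans (le_of_eq ?_) h1
                  congr 1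
                  funext u
                  simp [hij]
            _ = _ := by simp
      _ = _ := by simp

theorem ev_exp (C : ℝ) (n : ℕ) : ∀ᶠ L : ℝ in atTop, C * L ^ n ≤ Real.exp (L / 2) := by
  have h1 := (isLittleO_pow_exp_pos_mul_atTop (k := n) (show (0 : ℝ) < 1 / 2 by norm_num)).def
    (show (0 : ℝ) < 1 / (|C| + 1) by positivity)
  filter_upwards [h1, eventually_ge_atTop (0 : ℝ)] with L h2 h3
  rw [Real.norm_eq_abs, Real.norm_eq_abs, abs_of_nonneg (by positivity), abs_of_pos (Real.exp_pos _)] at h2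
  have h4 : (|C| + 1) * L ^ n ≤ Real.exp (1 / 2 * L) := by
    have h5 : (0 : ℝ) < |C| + 1 := by positivity
    calc (|C| + 1) * L ^ n ≤ (|C| + 1) * (1 / (|C| + 1) * Real.exp (1 / 2 * L)) :=
          mul_le_mul_of_nonneg_left h2 h5.le
      _ = Real.exp (1 / 2 * L) := by field_simp
  have h5 : C * L ^ n ≤ (|C| + 1) * L ^ n := by
    apply mul_le_mul_of_nonneg_right _ (by positivity)
    have := le_abs_self C
    linarith
  have h6 : (1 : ℝ) / 2 * L = L / 2 := by ring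
  rw [h6] at h4
  linarith

theorem ev_exp' (C : ℝ) (n : ℕ) (c : ℝ) (hc : 0 < c) : ∀ᶠ L : ℝ in atTop, C * L ^ n ≤ Real.exp (c * L) := by
  have h1 := (isLittleO_pow_exp_pos_mul_atTop (k := n) hc).def
    (show (0 : ℝ) < 1 / (|C| + 1) by positivity)
  filter_upwards [h1, eventually_ge_atTop (0 : ℝ)] with L h2 h3
  rw [Real.norm_eq_abs, Real.norm_eq_abs, abs_of_nonneg (by positivity), abs_of_pos (Real.exp_pos _)] at h2
  have h4 : (|C| + 1) * L ^ n ≤ Real.exp (c * L) := by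
    have h5 : (0 : ℝ) < |C| + 1 := by positivity
    calc (|C| + 1) * L ^ n ≤ (|C| + 1) * (1 / (|C| + 1) * Real.exp (c * L)) :=
          mul_le_mul_of_nonneg_left h2 h5.le
      _ = Real.exp (c * L) := by field_simp
  have h5 : C * L ^ n ≤ (|C| + 1) * L ^ n := by
    apply mul_le_mul_of_nonneg_right _ (by positivity)
    have := le_abs_self C
    linarith
  linarith

/-- many choices where `G` is positive -/
theorem Ex_many {S : Finset ℕ} {w : ℕ → ℝ} {k : ℕ} (hw : ∀ n, 0 ≤ w n) (M : ℝ) (hM : ∀ n, w n ≤ M)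
    (G : (Fin k → ℕ) → ℝ) (g : ℝ)
    (hg : ∀ u : Fin k → ℕ, (∀ i, u i ∈ S) → (∀ i, w (u i) ≠ 0) → G u ≤ g) :
    ∃ U : Finset (Fin k → ℕ), (∀ u ∈ U, (∀ i, w (u i) ≠ 0) ∧ 0 < G u) ∧ Ex S w G ≤ U.card * (M ^ k * g) := by
  classical
  set U := (Fintype.piFinset (fun _ : Fin k => S)).filter (fun u => (∀ i, w (u i) ≠ 0) ∧ 0 < G u) with hU
  refine ⟨U, fun u hu => (mem_filter.1 hu).2, ?_⟩
  unfold Ex
  have h1 : ∑ u ∈ Fintype.piFinset (fun _ : Fin k => S), (∏ i, w (u i)) * G u ≤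
      ∑ u ∈ Fintype.piFinset (fun _ : Fin k => S), if (∀ i, w (u i) ≠ 0) ∧ 0 < G u then M ^ k * g else 0 := by
    refine sum_le_sum fun u hu => ?_
    have hp0 : 0 ≤ ∏ i, w (u i) := prod_nonneg fun i _ => hw _
    split_ifs with h2
    · have h3 : ∏ i, w (u i) ≤ M ^ k := by
        calc ∏ i, w (u i) ≤ ∏ _i : Fin k, M := Finset.prod_le_prod (fun i _ => hw _) fun i _ => hM _
          _ = M ^ k := by simp
      exact mul_le_mul h3 (hg u (fun i => Fintype.mem_piFinset.1 hu i) h2.1) h2.2.le (hp0.trans h3)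
    · by_cases h3 : ∀ i, w (u i) ≠ 0
      · have h4 : G u ≤ 0 := by
          by_contra h5
          exact h2 ⟨h3, not_le.1 h5⟩
        exact mul_nonpos_of_nonneg_of_nonpos hp0 h4
      · push Not at h3
        obtain ⟨i, hi⟩ := h3
        rw [prod_eq_zero (mem_univ i) hi, zero_mul]
  refine h1.trans (le_of_eq ?_)
  rw [← sum_filter, sum_const, nsmul_eq_mul]

theorem many_of_Ex {k : ℕ} (X : ℝ) (hX : 4 ≤ X) (W : ℕ) (hW : 0 < W) (hN : X / (40 * W) ≤ NN X W) (ε ε' : ℝ)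
    (hWX : (W : ℝ) ≤ X ^ ε') (y Z : ℝ) (hy : 0 < y) (hZ : 0 < Z) (δ : ℝ) (hδ : 0 < δ)
    (G : (Fin k → ℕ) → ℝ)
    (hg : ∀ u : Fin k → ℕ, (∀ i, u i ∈ Icc 1 ⌊3 * X⌋₊) → (∀ i, wt X W (u i) ≠ 0) → G u ≤ y * Z ^ k)
    (hEx : δ / 4 * (y / Real.log X ^ k) ≤ Ex (Icc 1 ⌊3 * X⌋₊) (wt X W) G)
    (hfin : (4 / δ) * (20 * Real.log X * Z) ^ k ≤ X ^ (ε - k * ε')) :
    ∃ U : Finset (Fin k → ℕ), X ^ (k - ε) ≤ U.card ∧ ∀ u ∈ U, (∀ i, wt X W (u i) ≠ 0) ∧ 0 < G u := by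
  have hX0 : 0 < X := by linarith
  have hL0 : 0 < Real.log X := Real.log_pos (by linarith)
  have hWr : (0 : ℝ) < W := by exact_mod_cast hW
  obtain ⟨U, hU1, hU2⟩ := Ex_many (k := k) (wt_nonneg X W) (20 * W / X) (fun n => wt_le X hX0 W hW hN n) G
    (y * Z ^ k) hg
  refine ⟨U, ?_, hU1⟩
  have h1 := hEx.trans hU2
  have h2 : δ / 4 ≤ U.card * (20 * W * Real.log X * Z / X) ^ k := by
    have e1 : δ / 4 * (y / Real.log X ^ k) = (δ / 4) * (y / Real.log X ^ k) := rfl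
    have e2 : (U.card : ℝ) * ((20 * W / X) ^ k * (y * Z ^ k)) =
        (U.card * (20 * W * Real.log X * Z / X) ^ k) * (y / Real.log X ^ k) := by
      have e3 : (20 * W * Real.log X * Z / X) = (20 * W / X) * Real.log X * Z := by ring
      rw [e3, mul_pow, mul_pow]
      field_simp
    rw [e2] at h1
    exact le_of_mul_le_mul_right h1 (by positivity)
  have h3 : (20 * W * Real.log X * Z / X) ^ k ≤ (20 * Real.log X * Z) ^ k * X ^ (k * ε') / X ^ (k : ℝ) := by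
    have e4 : X ^ (k * ε') = (X ^ ε') ^ k := by
      rw [← Real.rpow_natCast, ← Real.rpow_mul hX0.le, mul_comm]
    rw [e4, Real.rpow_natCast, ← mul_pow, ← div_pow]
    apply pow_le_pow_left₀ (by positivity)
    apply div_le_div_of_nonneg_right _ hX0.le
    calc 20 * W * Real.log X * Z = 20 * Real.log X * Z * W := by ring
      _ ≤ 20 * Real.log X * Z * X ^ ε' := by gcongr
  have hc0 : (0 : ℝ) ≤ U.card := Nat.cast_nonneg _
  have h4 : δ / 4 ≤ U.card * ((20 * Real.log X * Z) ^ k * X ^ (k * ε') / X ^ (k : ℝ)) :=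
    h2.trans (mul_le_mul_of_nonneg_left h3 hc0)
  have h5 : (20 * Real.log X * Z) ^ k ≤ δ / 4 * X ^ (ε - k * ε') := by
    calc (20 * Real.log X * Z) ^ k = δ / 4 * ((4 / δ) * (20 * Real.log X * Z) ^ k) := by field_simp
      _ ≤ _ := mul_le_mul_of_nonneg_left hfin (by positivity)
  have h6 : (20 * Real.log X * Z) ^ k * X ^ (k * ε') / X ^ (k : ℝ) ≤ δ / 4 * X ^ (ε - k) := by
    calc (20 * Real.log X * Z) ^ k * X ^ (k * ε') / X ^ (k : ℝ) ≤
        (δ / 4 * X ^ (ε - k * ε')) * X ^ (k * ε') / X ^ (k : ℝ) := by gcongr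
      _ = δ / 4 * (X ^ (ε - k * ε') * X ^ (k * ε') / X ^ (k : ℝ)) := by ring
      _ = δ / 4 * X ^ (ε - k) := by
        rw [← Real.rpow_add hX0, ← Real.rpow_sub hX0]
        congr 2
        ring
  have h7 : δ / 4 ≤ U.card * (δ / 4 * X ^ (ε - k)) := h4.trans (mul_le_mul_of_nonneg_left h6 hc0)
  have h8 : 1 ≤ U.card * X ^ (ε - k) := by
    have : (δ / 4) * 1 ≤ (δ / 4) * (U.card * X ^ (ε - k)) := by linarith
    exact le_of_mul_le_mul_left this (by positivity)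
  have h9 : X ^ (k - ε) = (X ^ (ε - k))⁻¹ := by
    rw [← Real.rpow_neg hX0.le]
    congr 1
    ring
  rw [h9, inv_le_iff_one_le_mul₀ (Real.rpow_pos_of_pos hX0 _)]
  exact h8

/-- all facts -/
theorem facts {k : ℕ} (hk : 1 ≤ k) (d : Fin k → ℕ) (hd : ∀ i, 1 ≤ d i) (D : ℕ) (hD : ∀ i, d i ≤ D)
    (a a' : ℝ) (ha : 0 < a) (B K : ℕ) (t θ β : ℝ) (ht : 0 < t) (ht1 : t ≤ 1) (hθ : 0 < θ) (hβ : 0 < β) :
    ∀ᶠ X : ℝ in atTop, ∃ (ps : ℕ) (S : Finset ℕ), GoodS X S ∧ ∀ P : Finset ℕ, P ⊆ PW X S ps →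
      1 / 2 ≤ ∏ p ∈ P, (1 - 1 / (p : ℝ)) → θ * Real.log X ^ a ≤ 2 ^ P.card →
      X / (40 * ((∏ p ∈ P, p : ℕ) : ℝ)) ≤ NN X (∏ p ∈ P, p) ∧
      ∃ ρ : ℝ, |ρ - 1| ≤ t ∧ ∀ y Z : ℕ, (y : ℝ) ≤ Real.log X ^ a' → Real.log X ≤ Z →
        (Z : ℝ) ≤ Real.log X ^ B →
        (∀ n ∈ Icc 1 y, ∀ i, ((n : ℝ) ^ d i ≤ X) ∧ |∑ u ∈ Icc 1 ⌊3 * X⌋₊, wt X (∏ p ∈ P, p) u * th (u + n ^ d i) -
          (if (∀ p ∈ P, ¬ p ∣ n ^ d i) then ρ / ∏ p ∈ P, (1 - 1 / (p : ℝ)) else 0)| ≤ t / 2) ∧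
        (∏ p ∈ P, (1 - 1 / (p : ℝ))) / (∏ p ∈ P, (1 - 1 / (p : ℝ))) ^ k * (1 - t) ^ k ≤
          Ex (Icc 1 ⌊3 * X⌋₊) (wt X (∏ p ∈ P, p)) (fun u : Fin k → ℕ => CZ d u Z) ∧
        Ex (Icc 1 ⌊3 * X⌋₊) (wt X (∏ p ∈ P, p)) (fun u : Fin k → ℕ => CZ d u Z) ≤
          (∏ p ∈ P, (1 - 1 / (p : ℝ))) / (∏ p ∈ P, (1 - 1 / (p : ℝ))) ^ k * (1 + t) ^ k ∧
        Ex (Icc 1 ⌊3 * X⌋₊) (wt X (∏ p ∈ P, p)) (fun u : Fin k → ℕ => bad (∏ p ∈ P, p) u) ≤
          β / Real.log X ^ K := by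
  classical
  obtain ⟨A, hA⟩ := exists_nat_ge (a' * D)
  have hlogtop := Real.tendsto_log_atTop
  have hkr : (1 : ℝ) ≤ k := by exact_mod_cast hk
  filter_upwards [avoid_asymp B t ht, rows (A + 1) t ht, hlogtop.eventually (W_ge a θ ha hθ (K + 1)),
    hlogtop.eventually (ev_exp (2 / β * (420 * k ^ 2)) K), hlogtop.eventually (ev_exp 1 A),
    hlogtop.eventually_ge_atTop (2 * k / β), hlogtop.eventually_ge_atTop (4 / t),
    hlogtop.eventually_ge_atTop (160 : ℝ), eventually_ge_atTop (4 : ℝ)]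
    with X h1 h2 h3 h4 h5 h6 h7 h8 h9
  obtain ⟨ps, S, hS, hrows⟩ := h2
  refine ⟨ps, S, hS, fun P hP hhalf hcard => ?_⟩
  have hX0 : 0 < X := by linarith
  obtain ⟨ρ, hρ, hWle, hNge, hrow⟩ := hrows P hP hhalf
  have hPp : ∀ p ∈ P, p.Prime := fun p hp => (mem_PW.1 (hP hp)).2.1
  have hW0 : 0 < ∏ p ∈ P, p := prod_pos fun p hp => (hPp p hp).pos
  have hWK := h3 P hPp hcard
  have hWlow : ∀ p ∈ P, (p : ℝ) ≤ Real.log X := by
    intro p hp
    have g8 := (mem_PW.1 (hP hp)).1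
    have g9 : (p : ℝ) ≤ yy X := by exact_mod_cast g8
    have g10 : (yy X : ℝ) ≤ Real.log X / 1000 := Nat.floor_le (by positivity)
    linarith
  set Bp : ℝ := ∏ p ∈ P, (1 - 1 / (p : ℝ)) with hBp
  have hWndvd : ∀ q : ℕ, q.Prime → q ∉ P → ¬ q ∣ ∏ p ∈ P, p := by
    intro q hq hqP hd
    rw [Prime.dvd_finsetProd_iff hq.prime] at hd
    obtain ⟨p, hp, hqp⟩ := hd
    have := (Nat.prime_dvd_prime_iff_eq hq (hPp p hp)).1 hqp
    subst this
    exact hqP hp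
  set W := ∏ p ∈ P, p with hW
  set L := Real.log X with hL
  have hL0 : 0 < L := by linarith
  have hexpL : Real.exp L = X := Real.exp_log hX0
  have hWr : (0 : ℝ) < W := by exact_mod_cast hW0
  have hN0 : 0 < NN X W := lt_of_lt_of_le (by positivity) hNge
  have hBp0 : 0 < Bp := lt_of_lt_of_le (by norm_num) hhalf
  refine ⟨hNge, ρ, hρ, fun y Z hy hZ1 hZ2 => ?_⟩
  have hZ1' : 1 ≤ Z := by
    have : (1 : ℝ) ≤ Z := by linarith
    exact_mod_cast this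
  have hPZ : P ⊆ (Icc 1 Z).filter Nat.Prime := by
    intro p hp
    rw [mem_filter, mem_Icc]
    refine ⟨⟨(hPp p hp).one_le, ?_⟩, hPp p hp⟩
    have := (hWlow p hp).trans hZ1
    exact_mod_cast this
  refine ⟨?_, ?_⟩
  · intro n hn i
    rw [mem_Icc] at hn
    have hy1 : 1 ≤ y := hn.1.trans hn.2
    have hyr : (1 : ℝ) ≤ y := by exact_mod_cast hy1
    have g1 : ((n ^ d i : ℕ) : ℝ) ≤ L ^ A := by
      push_cast
      calc (n : ℝ) ^ d i ≤ (y : ℝ) ^ d i := pow_le_pow_left₀ (Nat.cast_nonneg _) (by exact_mod_cast hn.2) _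
        _ ≤ (y : ℝ) ^ D := pow_le_pow_right₀ hyr (hD i)
        _ ≤ (L ^ a') ^ D := pow_le_pow_left₀ (by linarith) hy D
        _ = L ^ (a' * D) := by rw [← Real.rpow_natCast, ← Real.rpow_mul hL0.le]
        _ ≤ L ^ (A : ℝ) := Real.rpow_le_rpow_of_exponent_le (by linarith) hA
        _ = L ^ A := Real.rpow_natCast _ _
    have g2 : ((n ^ d i : ℕ) : ℝ) ≤ X ^ (9 / 10 : ℝ) := by
      rw [Real.rpow_def_of_pos hX0]
      refine g1.trans ?_
      rw [one_mul] at h5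
      refine h5.trans (Real.exp_le_exp.2 ?_)
      rw [← hL]; linarith
    have g2' : ((n ^ d i : ℕ) : ℝ) ≤ X := by
      refine g1.trans ?_
      rw [one_mul] at h5
      refine h5.trans ?_
      rw [← hexpL]
      exact Real.exp_le_exp.2 (by linarith)
    refine ⟨by push_cast at g2'; exact g2', ?_⟩
    have g3 := thE (Icc 1 ⌊3 * X⌋₊) (wt X W) P (ρ / Bp) (1 / L ^ (A + 1)) (X ^ (9 / 10 : ℝ)) (by positivity)
      (fun Y hY => by
        have := hrow Y hY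
        have e1 : ρ / Bp * (V P Y : ℝ) = ρ * (V P Y / Bp) := by ring
        have e2 : (Y : ℝ) * (1 / L ^ (A + 1)) = Y / L ^ (A + 1) := by ring
        rw [e1, e2]
        exact this) (n ^ d i) (Nat.pow_pos hn.1) g2
    refine g3.trans ?_
    have g4 : 2 * ((n ^ d i : ℕ) : ℝ) * (1 / L ^ (A + 1)) ≤ 2 * L ^ A * (1 / L ^ (A + 1)) := by
      gcongr
    refine g4.trans ?_
    have g5 : 2 * L ^ A * (1 / L ^ (A + 1)) = 2 / L := by
      rw [pow_succ]; field_simp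
    rw [g5, div_le_iff₀ hL0]
    rw [div_le_iff₀ ht] at h7
    linarith
  · have g1 := Ex_CZ hk d hd X hX0 Z P hPZ t ht1 (fun r => by
      refine h1 W hW0 hWle hNge Z hZ1' hZ2 _ sdiff_subset ?_ r
      intro p hp
      rw [Finset.mem_sdiff] at hp
      exact hWndvd p (mem_filter.1 hp.1).2 hp.2)
    refine ⟨g1.1, g1.2, ?_⟩
    have hW2 : ((W ^ 2 : ℕ) : ℝ) ≤ X := by
      push_cast
      calc (W : ℝ) ^ 2 ≤ (Real.exp (L / 700)) ^ 2 := pow_le_pow_left₀ hWr.le hWle 2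
        _ = Real.exp (2 * (L / 700)) := by rw [← Real.exp_nat_mul]; norm_num
        _ ≤ Real.exp L := Real.exp_le_exp.2 (by linarith)
        _ = X := hexpL
    refine (Ex_bad X h9 W hW0 hW2 hNge).trans ?_
    have g3 : (W : ℝ) / X ≤ Real.exp (-(L / 2)) := by
      rw [div_le_iff₀ hX0]
      calc (W : ℝ) ≤ Real.exp (-(L / 2) + L) := hWle.trans (Real.exp_le_exp.2 (by linarith))
        _ = Real.exp (-(L / 2)) * Real.exp L := Real.exp_add _ _
        _ = Real.exp (-(L / 2)) * X := by rw [hexpL]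
    have g4 : (k : ℝ) * (1 / W) ≤ β / 2 / L ^ K := by
      have g5 : 1 / (W : ℝ) ≤ 1 / L ^ (K + 1) := one_div_le_one_div_of_le (by positivity) hWK
      calc (k : ℝ) * (1 / W) ≤ k * (1 / L ^ (K + 1)) := mul_le_mul_of_nonneg_left g5 (by linarith)
        _ = (k / L) / L ^ K := by rw [pow_succ]; field_simp
        _ ≤ β / 2 / L ^ K := by
          apply div_le_div_of_nonneg_right _ (by positivity)
          rw [div_le_iff₀ hL0]
          rw [div_le_iff₀ hβ] at h6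
          linarith
    have g5 : (k : ℝ) * (400 * W / X) + k * (k * (20 * W / X)) ≤ β / 2 / L ^ K := by
      have g6 : (k : ℝ) * (400 * W / X) + k * (k * (20 * W / X)) ≤ 420 * k ^ 2 * (W / X) := by
        have : 0 ≤ (W : ℝ) / X := by positivity
        have e1 : (k : ℝ) * (400 * W / X) + k * (k * (20 * W / X)) = (400 * k + 20 * k ^ 2) * (W / X) := by ring
        rw [e1]
        apply mul_le_mul_of_nonneg_right _ this
        nlinarith
      have g7 : 420 * (k : ℝ) ^ 2 * (W / X) ≤ 420 * k ^ 2 * Real.exp (-(L / 2)) :=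
        mul_le_mul_of_nonneg_left g3 (by positivity)
      refine g6.trans (g7.trans ?_)
      rw [le_div_iff₀ (by positivity), Real.exp_neg]
      have g8 : 2 / β * (420 * k ^ 2) * L ^ K * (Real.exp (L / 2))⁻¹ ≤ 1 := by
        rw [← div_eq_mul_inv, div_le_one (Real.exp_pos _)]
        exact h4
      calc 420 * (k : ℝ) ^ 2 * (Real.exp (L / 2))⁻¹ * L ^ K =
          β / 2 * (2 / β * (420 * k ^ 2) * L ^ K * (Real.exp (L / 2))⁻¹) := by field_simp
        _ ≤ β / 2 * 1 := mul_le_mul_of_nonneg_left g8 (by positivity)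
        _ = β / 2 := mul_one _
    have e1 : (k : ℝ) * (1 / W + 400 * W / X) + k * (k * (20 * W / X)) =
        k * (1 / W) + (k * (400 * W / X) + k * (k * (20 * W / X))) := by ring
    have e2 : β / L ^ K = β / 2 / L ^ K + β / 2 / L ^ K := by ring
    rw [e1, e2]
    exact add_le_add g4 g5

end Pool.Agent.Run7.h689.MK
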