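import Pool.Agent.Run7.h689.MK7
import Pool.Agent.N610.MS.CNT
set_option autoImplicit false

/-!
# Existence of irregular systems, in terms of the weighted counts
-/

namespace Pool.Agent.Run7.h689.MK

open Finset Filter Topology
open Pool.Agent.H378R2
open Pool.Agent.H510R2.Maier
open Pool.Agent.N610.MS

theorem pow_le_self' {B : ℝ} (hB0 : 0 < B) (hB1 : B ≤ 1) {k : ℕ} (hk : 1 ≤ k) : 1 ≤ B / B ^ k := by
  rw [le_div_iff₀ (pow_pos hB0 k), one_mul]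
  exact pow_le_of_le_one hB0.le hB1 (by omega)

theorem R1 (k : ℕ) (hk : 1 ≤ k) (B L y t δ ρ η V ET EC : ℝ) (hB0 : 0 < B) (hB1 : B ≤ 1) (hL : 0 < L)
    (hy : 0 < y) (ht1 : t ≤ 1) (hρ : 1 - t ≤ ρ) (hη : 2 * η ≤ t)
    (hLt : 1 - t ≤ L / (L + 2)) (hδ : 0 < δ) (hV : B * y * (1 + 2 * δ) ≤ V)
    (hET : (ρ / B * (1 - 2 * η)) ^ k * V ≤ ET) (hEC : EC ≤ B / B ^ k * (1 + t) ^ k)
    (hg : δ / 2 ≤ (1 - t) ^ (3 * k) * (1 + 2 * δ) - (1 + δ) * (1 + t) ^ k) :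
    δ / 2 * (y / L ^ k) ≤ ET / (L + 2) ^ k - (1 + δ) * EC * y / L ^ k := by
  set Q := B / B ^ k * (y / L ^ k) with hQ
  have hyL : 0 < y / L ^ k := by positivity
  have hQy : y / L ^ k ≤ Q := by
    have := mul_le_mul_of_nonneg_right (pow_le_self' hB0 hB1 hk) hyL.le
    rwa [one_mul] at this
  have hQ0 : 0 < Q := lt_of_lt_of_le hyL hQy
  have h1 : Q * ((1 - t) ^ (3 * k) * (1 + 2 * δ)) ≤ ET / (L + 2) ^ k := by
    have e1 : (ρ / B * (1 - 2 * η)) ^ k * V / (L + 2) ^ k =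
        (ρ * (1 - 2 * η) * (L / (L + 2))) ^ k * V / (B ^ k * L ^ k) := by
      rw [mul_pow, mul_pow, mul_pow, div_pow, div_pow]
      field_simp
    have h2 : (ρ / B * (1 - 2 * η)) ^ k * V / (L + 2) ^ k ≤ ET / (L + 2) ^ k :=
      div_le_div_of_nonneg_right hET (by positivity)
    refine le_trans ?_ h2
    rw [e1]
    have h3 : (1 - t) ^ (3 * k) ≤ (ρ * (1 - 2 * η) * (L / (L + 2))) ^ k := by
      rw [pow_mul]
      apply pow_le_pow_left₀ (by positivity)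
      have h0 : 0 ≤ 1 - t := by linarith
      have a1 : (1 - t) * (1 - t) ≤ ρ * (1 - 2 * η) :=
        mul_le_mul hρ (by linarith) h0 (by linarith)
      calc (1 - t) ^ 3 = (1 - t) * (1 - t) * (1 - t) := by ring
        _ ≤ ρ * (1 - 2 * η) * (L / (L + 2)) := mul_le_mul a1 hLt h0 (le_trans (by positivity) a1)
    have e2 : Q * ((1 - t) ^ (3 * k) * (1 + 2 * δ)) =
        (1 - t) ^ (3 * k) * (B * y * (1 + 2 * δ)) / (B ^ k * L ^ k) := by
      rw [hQ]; field_simp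
    rw [e2]
    apply div_le_div_of_nonneg_right _ (by positivity)
    exact mul_le_mul h3 hV (by positivity) (le_trans (pow_nonneg (by linarith) _) h3)
  have h2 : (1 + δ) * EC * y / L ^ k ≤ Q * ((1 + δ) * (1 + t) ^ k) := by
    calc (1 + δ) * EC * y / L ^ k = (1 + δ) * (y / L ^ k) * EC := by ring
      _ ≤ (1 + δ) * (y / L ^ k) * (B / B ^ k * (1 + t) ^ k) := mul_le_mul_of_nonneg_left hEC (by positivity)
      _ = _ := by rw [hQ]; ring
  have h3 : Q * (δ / 2) ≤ Q * ((1 - t) ^ (3 * k) * (1 + 2 * δ) - (1 + δ) * (1 + t) ^ k) :=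
    mul_le_mul_of_nonneg_left hg hQ0.le
  have h4 : δ / 2 * (y / L ^ k) ≤ Q * (δ / 2) := by
    rw [mul_comm]
    exact mul_le_mul_of_nonneg_right hQy (by linarith)
  rw [mul_sub] at h3
  linarith

theorem R2 (k : ℕ) (hk : 1 ≤ k) (B L y t δ ρ η V ET EC : ℝ) (hB0 : 0 < B) (hB1 : B ≤ 1) (hL : 0 < L)
    (hy : 0 < y) (ht0 : 0 ≤ t) (ht1 : t ≤ 1) (hρ : ρ ≤ 1 + t) (hρ0 : 0 ≤ ρ) (hη0 : 0 ≤ η) (hη : 2 * η ≤ t)
    (hLt : 1 - t ≤ L / (L + 2)) (hδ : 0 < δ) (_hδ1 : δ ≤ 1) (hV : V ≤ B * y * (1 - 2 * δ))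
    (hV0 : 0 ≤ V)
    (hET : ET ≤ (ρ / B * (1 + 2 * η)) ^ k * V + y * η) (hEC : B / B ^ k * (1 - t) ^ k ≤ EC)
    (hg : δ / 2 ≤ (1 - δ) * (1 - t) ^ (2 * k) - (1 + t) ^ (2 * k) * (1 - 2 * δ) - t) :
    δ / 2 * (y / L ^ k) ≤ (1 - δ) * EC * y / (L + 2) ^ k - ET / L ^ k := by
  set Q := B / B ^ k * (y / L ^ k) with hQ
  have hyL : 0 < y / L ^ k := by positivity
  have hQy : y / L ^ k ≤ Q := by
    have := mul_le_mul_of_nonneg_right (pow_le_self' hB0 hB1 hk) hyL.le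
    rwa [one_mul] at this
  have hQ0 : 0 < Q := lt_of_lt_of_le hyL hQy
  have hd0 : 0 ≤ 1 - 2 * δ := by
    by_contra h
    push Not at h
    have : B * y * (1 - 2 * δ) < 0 := mul_neg_of_pos_of_neg (by positivity) h
    linarith
  have h1 : Q * ((1 - δ) * (1 - t) ^ (2 * k)) ≤ (1 - δ) * EC * y / (L + 2) ^ k := by
    have e1 : (1 - δ) * EC * y / (L + 2) ^ k = (1 - δ) * (y / L ^ k) * (EC * (L / (L + 2)) ^ k) := by
      rw [div_pow]; field_simp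
    rw [e1]
    have e2 : Q * ((1 - δ) * (1 - t) ^ (2 * k)) =
        (1 - δ) * (y / L ^ k) * ((B / B ^ k * (1 - t) ^ k) * (1 - t) ^ k) := by
      rw [hQ, two_mul, pow_add]; ring
    rw [e2]
    apply mul_le_mul_of_nonneg_left _ (mul_nonneg (by linarith) hyL.le)
    have h0 : 0 ≤ B / B ^ k * (1 - t) ^ k := mul_nonneg (by positivity) (pow_nonneg (by linarith) _)
    exact mul_le_mul hEC (pow_le_pow_left₀ (by linarith) hLt k) (pow_nonneg (by linarith) _) (h0.trans hEC)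
  have h2 : ET / L ^ k ≤ Q * ((1 + t) ^ (2 * k) * (1 - 2 * δ)) + Q * t := by
    have h3 : ET / L ^ k ≤ ((ρ / B * (1 + 2 * η)) ^ k * V + y * η) / L ^ k :=
      div_le_div_of_nonneg_right hET (by positivity)
    refine h3.trans ?_
    rw [add_div]
    apply add_le_add
    · have e1 : (ρ / B * (1 + 2 * η)) ^ k * V / L ^ k = (ρ * (1 + 2 * η)) ^ k * V / (B ^ k * L ^ k) := by
        rw [mul_pow, mul_pow, div_pow]; field_simp
      have e2 : Q * ((1 + t) ^ (2 * k) * (1 - 2 * δ)) =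
          (1 + t) ^ (2 * k) * (B * y * (1 - 2 * δ)) / (B ^ k * L ^ k) := by
        rw [hQ]; field_simp
      rw [e1, e2]
      apply div_le_div_of_nonneg_right _ (by positivity)
      have h4 : (ρ * (1 + 2 * η)) ^ k ≤ (1 + t) ^ (2 * k) := by
        rw [pow_mul]
        apply pow_le_pow_left₀ (by positivity)
        calc ρ * (1 + 2 * η) ≤ (1 + t) * (1 + t) := mul_le_mul hρ (by linarith) (by positivity) (by linarith)
          _ = _ := by ring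
      exact mul_le_mul h4 hV hV0 (by positivity)
    · calc y * η / L ^ k = (y / L ^ k) * η := by ring
        _ ≤ Q * t := mul_le_mul hQy (by linarith) hη0 hQ0.le
  have h3 : Q * (δ / 2) ≤ Q * ((1 - δ) * (1 - t) ^ (2 * k) - (1 + t) ^ (2 * k) * (1 - 2 * δ) - t) :=
    mul_le_mul_of_nonneg_left hg hQ0.le
  have h4 : δ / 2 * (y / L ^ k) ≤ Q * (δ / 2) := by
    rw [mul_comm]
    exact mul_le_mul_of_nonneg_right hQy (by linarith)
  rw [mul_sub, mul_sub] at h3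
  linarith

theorem exists_t (k : ℕ) (δ : ℝ) (hδ : 0 < δ) : ∃ t : ℝ, 0 < t ∧ t ≤ 1 / 4 ∧
    δ / 2 ≤ (1 - t) ^ (3 * k) * (1 + 2 * δ) - (1 + δ) * (1 + t) ^ k ∧
    δ / 2 ≤ (1 - δ) * (1 - t) ^ (2 * k) - (1 + t) ^ (2 * k) * (1 - 2 * δ) - t := by
  have c1 : Continuous (fun t : ℝ => (1 - t) ^ (3 * k) * (1 + 2 * δ) - (1 + δ) * (1 + t) ^ k) := by fun_prop
  have c2 : Continuous (fun t : ℝ => (1 - δ) * (1 - t) ^ (2 * k) - (1 + t) ^ (2 * k) * (1 - 2 * δ) - t) := by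
    fun_prop
  have h1 := c1.tendsto 0
  have h2 := c2.tendsto 0
  have h3 : ∀ᶠ t in 𝓝 (0 : ℝ), δ / 2 < (1 - t) ^ (3 * k) * (1 + 2 * δ) - (1 + δ) * (1 + t) ^ k :=
    h1.eventually_const_lt (by simp; linarith)
  have h4 : ∀ᶠ t in 𝓝 (0 : ℝ), δ / 2 < (1 - δ) * (1 - t) ^ (2 * k) - (1 + t) ^ (2 * k) * (1 - 2 * δ) - t :=
    h2.eventually_const_lt (by simp; linarith)
  obtain ⟨r, hr, hball⟩ := Metric.eventually_nhds_iff.1 (h3.and h4)
  have hm : 0 < min (r / 2) (1 / 4) := lt_min (by linarith) (by norm_num)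
  have h5 := hball (y := min (r / 2) (1 / 4)) (by
    rw [Real.dist_eq, sub_zero, abs_of_pos hm]
    exact (min_le_left _ _).trans_lt (by linarith))
  exact ⟨min (r / 2) (1 / 4), hm, min_le_right _ _, h5.1.le, h5.2.le⟩

theorem TT_nonneg {k : ℕ} (d : Fin k → ℕ) (y : ℕ) (u : Fin k → ℕ) : 0 ≤ TT d y u := by
  unfold TT
  exact sum_nonneg fun n _ => prod_nonneg fun i _ => th_nonneg _

theorem TT_le {k : ℕ} (d : Fin k → ℕ) (y : ℕ) (u : Fin k → ℕ) (X : ℝ) (hX : 4 ≤ X) (hu : ∀ i, (u i : ℝ) < 3 * X)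
    (hn : ∀ n ∈ Icc 1 y, ∀ i, (n : ℝ) ^ d i ≤ X) : TT d y u ≤ y * (Real.log X + 2) ^ k := by
  unfold TT
  have hX0 : 0 < X := by linarith
  have hL : 0 < Real.log X := Real.log_pos (by linarith)
  calc ∑ n ∈ Icc 1 y, ∏ i, th (u i + n ^ d i) ≤ ∑ _n ∈ Icc 1 y, (Real.log X + 2) ^ k := by
        refine sum_le_sum fun n hn' => ?_
        calc ∏ i, th (u i + n ^ d i) ≤ ∏ _i : Fin k, (Real.log X + 2) := by
              apply Finset.prod_le_prod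
              · intro i _
                exact th_nonneg _
              · intro i _
                unfold th
                split_ifs with hp
                · have h1 : ((u i + n ^ d i : ℕ) : ℝ) ≤ 4 * X := by
                    push_cast
                    linarith [hu i, hn n hn' i]
                  have h2 : (0 : ℝ) < ((u i + n ^ d i : ℕ) : ℝ) := by exact_mod_cast hp.pos
                  have h3 := Real.log_le_log h2 h1
                  rw [Real.log_mul (by norm_num) hX0.ne'] at h3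
                  have h4 : Real.log 4 ≤ 2 := by
                    rw [show (4 : ℝ) = 2 ^ 2 by norm_num, Real.log_pow]
                    have := Real.log_two_lt_d9
                    push_cast; linarith
                  linarith
                · linarith
          _ = _ := by simp
    _ = _ := by simp

theorem card_of_rel (P : Finset ℕ) (hP : ∀ p ∈ P, p.Prime) (hhalf : 1 / 2 ≤ ∏ p ∈ P, (1 - 1 / (p : ℝ)))
    (δ y : ℝ) (hδ : 0 < δ) (hy : 0 < y) (h : 2 * δ ≤ |rel P y - 1|) : δ * y ≤ 2 ^ P.card := by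
  have h1 := V_approx P hP y hy.le
  set Bp := ∏ p ∈ P, (1 - 1 / (p : ℝ)) with hBp
  have hB0 : 0 < Bp := by linarith
  have h2 : rel P y - 1 = ((V P ⌊y⌋₊ : ℝ) - y * Bp) / (y * Bp) := by
    unfold rel
    rw [← hBp]
    field_simp
  rw [h2, abs_div, abs_of_pos (show 0 < y * Bp by positivity), le_div_iff₀ (by positivity)] at h
  calc δ * y = 2 * δ * (y * (1 / 2)) := by ring
    _ ≤ 2 * δ * (y * Bp) := by gcongr
    _ ≤ _ := h
    _ ≤ _ := h1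

/-- Eisenstein primes -/
theorem exists_eis (P : Finset ℕ) (hP : ∀ p ∈ P, p.Prime) (u : ℕ) (h1 : (∏ p ∈ P, p) ∣ u)
    (h2 : ¬ (∏ p ∈ P, p) ^ 2 ∣ u) : ∃ p : ℕ, p.Prime ∧ p ∣ u ∧ ¬ p ^ 2 ∣ u := by
  by_contra hcon
  push Not at hcon
  apply h2
  rw [← Finset.prod_pow]
  have h3 : (∏ p ∈ P, ((p : ℤ) ^ 2)) ∣ (u : ℤ) := by
    apply Finset.prod_dvd_of_coprime
    · intro p hp q hq hne
      exact (Nat.isCoprime_iff_coprime.2 ((Nat.coprime_primes (hP p hp) (hP q hq)).2 hne)).pow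
    · intro p hp
      have := hcon p (hP p hp) ((dvd_prod_of_mem _ hp).trans h1)
      exact_mod_cast this
  exact_mod_cast h3

/-- the conditions on the shifts -/
def Adm {k : ℕ} (X : ℝ) (u : Fin k → ℕ) : Prop :=
  (∀ i, X < u i ∧ (u i : ℝ) < 3 * X) ∧ Function.Injective u ∧ ∀ i, ∃ p : ℕ, p.Prime ∧ p ∣ u i ∧ ¬ p ^ 2 ∣ u i

theorem fin_ineq {k B : ℕ} {X δ Z ε : ℝ} (hk : (1 : ℝ) ≤ k) (hX : 0 < X) (hL : 0 < Real.log X) (hδ : 0 < δ)
    (hZ0 : 0 ≤ Z) (hZ : Z ≤ Real.log X ^ B)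
    (h : 4 / δ * 20 ^ k * Real.log X ^ ((B + 1) * k) ≤ Real.exp (ε / 2 * Real.log X)) :
    (4 / δ) * (20 * Real.log X * Z) ^ k ≤ X ^ (ε - k * (ε / (2 * k))) := by
  have e1 : ε - k * (ε / (2 * k)) = ε / 2 := by
    have : (k : ℝ) ≠ 0 := by linarith
    field_simp; ring
  rw [e1, Real.rpow_def_of_pos hX, mul_comm (Real.log X)]
  refine le_trans ?_ h
  rw [mul_assoc (4 / δ)]
  apply mul_le_mul_of_nonneg_left _ (by positivity)
  rw [pow_mul, ← mul_pow]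
  apply pow_le_pow_left₀ (by positivity)
  rw [pow_succ]
  have := mul_le_mul_of_nonneg_left hZ (show 0 ≤ 20 * Real.log X by positivity)
  linarith

theorem upper {k : ℕ} (hk : 1 ≤ k) (d : Fin k → ℕ) (hd : ∀ i, 1 ≤ d i) (a κ δ : ℝ) (ha : 0 < a) (hκ : 0 < κ)
    (hδ : 0 < δ)
    (hc : ∀ ε : ℝ, 0 < ε → ∀ᶠ X : ℝ in atTop, ∀ (S : Finset ℕ) (ps : ℕ), GoodS X S →
      ∃ P : Finset ℕ, P ⊆ PW X S ps ∧ ((∏ p ∈ P, p : ℕ) : ℝ) ≤ X ^ ε ∧ 1 / 2 ≤ ∏ p ∈ P, (1 - 1 / (p : ℝ)) ∧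
        (∀ y : ℝ, Real.log X ^ a ≤ y → y ≤ Real.log X ^ (a + κ) → 2 * δ ≤ rel P y - 1)) (B : ℕ)
    (ε : ℝ) (hε : 0 < ε) :
    ∀ᶠ X : ℝ in atTop, ∀ y Z : ℕ, Real.log X ^ a ≤ y → (y : ℝ) ≤ Real.log X ^ (a + κ) → Real.log X ≤ Z →
      (Z : ℝ) ≤ Real.log X ^ B → ∃ U : Finset (Fin k → ℕ), X ^ (k - ε) ≤ U.card ∧ ∀ u ∈ U, Adm X u ∧
        (1 + δ) * CZ d u Z * y / Real.log X ^ k < TT d y u / (Real.log X + 2) ^ k := by
  have hkr : (1 : ℝ) ≤ k := by exact_mod_cast hk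
  obtain ⟨t, ht0, ht1, hg, -⟩ := exists_t k δ hδ
  have hfac := facts hk d hd (∑ i, d i) (fun i => single_le_sum (f := d) (fun _ _ => Nat.zero_le _) (mem_univ i))
    a (a + κ) ha B k t δ (δ / 4) ht0 (by linarith) hδ (by linarith)
  filter_upwards [hfac, hc (ε / (2 * k)) (by positivity), Real.tendsto_log_atTop.eventually_ge_atTop (2 / t),
    Real.tendsto_log_atTop.eventually_ge_atTop 1, eventually_ge_atTop (4 : ℝ),
    Real.tendsto_log_atTop.eventually (ev_exp' (4 / δ * 20 ^ k) ((B + 1) * k) (ε / 2) (by positivity))]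
    with X h1 h2 h3 h4 h5 h6
  intro y Z hy1 hy2 hZ1 hZ2
  obtain ⟨ps, S, hS, h1⟩ := h1
  obtain ⟨P, hP, hWε, hhalf, hrel⟩ := h2 S ps hS
  have hX0 : 0 < X := by linarith
  have hPp : ∀ p ∈ P, p.Prime := fun p hp => (mem_PW.1 (hP hp)).2.1
  set L := Real.log X with hL
  have hL0 : 0 < L := by linarith
  have hLa : 0 < L ^ a := Real.rpow_pos_of_pos hL0 a
  have hLaκ : L ^ a ≤ L ^ (a + κ) := Real.rpow_le_rpow_of_exponent_le h4 (by linarith)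
  have hcard : δ * L ^ a ≤ 2 ^ P.card := card_of_rel P hPp hhalf δ _ hδ hLa
    ((hrel _ le_rfl hLaκ).trans (le_abs_self _))
  obtain ⟨hNge, ρ, hρ, h1⟩ := h1 P hP hhalf hcard
  have hW0 : 0 < ∏ p ∈ P, p := prod_pos fun p hp => (hPp p hp).pos
  obtain ⟨f1, f2, f3, f4⟩ := h1 y Z hy2 hZ1 hZ2
  set W := ∏ p ∈ P, p with hW
  set Bp := ∏ p ∈ P, (1 - 1 / (p : ℝ)) with hBp
  have hB0 : 0 < Bp := by linarith
  have hB1 : Bp ≤ 1 := by
    apply Finset.prod_le_one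
    · intro p hp; linarith [(one_sub_mem (hPp p hp)).1]
    · intro p hp; exact (one_sub_mem (hPp p hp)).2
  have hy0 : (0 : ℝ) < y := lt_of_lt_of_le hLa hy1
  have hρ' := abs_le.1 hρ
  have hET := Ex_TT (Icc 1 ⌊3 * X⌋₊) (wt X W) (wt_nonneg X W) hk d hd P hPp (ρ / Bp) (t / 2)
    (by rw [le_div_iff₀ hB0]; linarith [hρ'.1]) (by linarith) (by linarith) y
    (fun n hn i => (f1 n hn i).2)
  have hV : Bp * y * (1 + 2 * δ) ≤ V P y := by
    have h6 := hrel y hy1 hy2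
    unfold rel at h6
    rw [Nat.floor_natCast, ← hBp, le_sub_iff_add_le, le_div_iff₀ (by positivity)] at h6
    linarith
  have hmain := R1 k hk Bp L y t δ ρ (t / 2) (V P y) _ _ hB0 hB1 hL0 hy0 (by linarith) (by linarith [hρ'.1])
    (by linarith) (by
      rw [le_div_iff₀ (by linarith)]
      rw [div_le_iff₀ ht0] at h3
      nlinarith) hδ hV hET.1 f3 hg
  have hEx : δ / 4 * (y / L ^ k) ≤ Ex (Icc 1 ⌊3 * X⌋₊) (wt X W) (fun u : Fin k → ℕ => (1 / (L + 2) ^ k * TT d y u -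
      ((1 + δ) * y / L ^ k) * CZ d u Z) - y * bad W u) := by
    rw [Ex_sub, Ex_sub, Ex_smul, Ex_smul, Ex_smul]
    have e1 : (1 / (L + 2) ^ k) * Ex (Icc 1 ⌊3 * X⌋₊) (wt X W) (fun u : Fin k → ℕ => TT d y u) =
        Ex (Icc 1 ⌊3 * X⌋₊) (wt X W) (TT d y) / (L + 2) ^ k := by ring
    have e2 : ((1 + δ) * y / L ^ k) * Ex (Icc 1 ⌊3 * X⌋₊) (wt X W) (fun u : Fin k → ℕ => CZ d u Z) =
        (1 + δ) * Ex (Icc 1 ⌊3 * X⌋₊) (wt X W) (fun u : Fin k → ℕ => CZ d u Z) * y / L ^ k := by ring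
    rw [e1, e2]
    have e3 : (y : ℝ) * Ex (Icc 1 ⌊3 * X⌋₊) (wt X W) (fun u : Fin k → ℕ => bad W u) ≤
        y * (δ / 4 / L ^ k) := mul_le_mul_of_nonneg_left f4 hy0.le
    have e4 : (y : ℝ) * (δ / 4 / L ^ k) = δ / 4 * (y / L ^ k) := by ring
    have e5 : 0 < δ / 4 * ((y : ℝ) / L ^ k) := by positivity
    have e6 : δ / 2 * ((y : ℝ) / L ^ k) = 2 * (δ / 4 * ((y : ℝ) / L ^ k)) := by ring
    linarith
  have hfin := fin_ineq hkr hX0 hL0 hδ (by linarith) hZ2 h6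
  obtain ⟨U, hUc, hU⟩ := many_of_Ex X h5 W hW0 hNge ε (ε / (2 * k)) hWε y Z hy0 (by linarith) δ hδ _ (by
    intro u _ hu2
    have hsupp := fun i => wt_supp X hX0 W (u i) (hu2 i)
    have hTle := TT_le d y u X h5 (fun i => (hsupp i).2.1) (fun n hn i => (f1 n hn i).1)
    have hCZ := CZ_nonneg d u Z
    have g1 : 1 / (L + 2) ^ k * TT d y u ≤ y := by
      rw [one_div, ← div_eq_inv_mul, div_le_iff₀ (by positivity)]
      exact hTle
    have g2 : 0 ≤ (y : ℝ) * bad W u := mul_nonneg hy0.le (bad_nonneg W u)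
    have g3 : 0 ≤ ((1 + δ) * y / L ^ k) * CZ d u Z := by positivity
    have g4 : (y : ℝ) ≤ y * (Z : ℝ) ^ k := by
      have : (1 : ℝ) ≤ (Z : ℝ) ^ k := one_le_pow₀ (by linarith)
      nlinarith
    linarith) hEx hfin
  refine ⟨U, hUc, fun u hu => ?_⟩
  obtain ⟨hu2, hu3⟩ := hU u hu
  have hsupp := fun i => wt_supp X hX0 W (u i) (hu2 i)
  have hTle := TT_le d y u X h5 (fun i => (hsupp i).2.1) (fun n hn i => (f1 n hn i).1)
  have hCZ := CZ_nonneg d u Z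
  have hbad : bad W u < 1 := by
    by_contra hcon
    push Not at hcon
    have g1 : 1 / (L + 2) ^ k * TT d y u ≤ y := by
      rw [one_div, ← div_eq_inv_mul, div_le_iff₀ (by positivity)]
      exact hTle
    have g2 : (y : ℝ) * 1 ≤ y * bad W u := mul_le_mul_of_nonneg_left hcon hy0.le
    have g3 : 0 ≤ ((1 + δ) * y / L ^ k) * CZ d u Z := by positivity
    linarith
  obtain ⟨b1, b2⟩ := bad_spec W u hbad
  refine ⟨⟨fun i => ⟨(hsupp i).1, (hsupp i).2.1⟩, b2, fun i => exists_eis P hPp (u i) (hsupp i).2.2 (b1 i)⟩, ?_⟩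
  have g2 : 0 ≤ (y : ℝ) * bad W u := mul_nonneg hy0.le (bad_nonneg W u)
  have e1 : (1 + δ) * CZ d u Z * y / L ^ k = ((1 + δ) * y / L ^ k) * CZ d u Z := by ring
  have e2 : TT d y u / (L + 2) ^ k = 1 / (L + 2) ^ k * TT d y u := by ring
  rw [e1, e2]
  linarith

theorem lower {k : ℕ} (hk : 1 ≤ k) (d : Fin k → ℕ) (hd : ∀ i, 1 ≤ d i) (a κ δ : ℝ) (ha : 0 < a) (hκ : 0 < κ)
    (hδ : 0 < δ) (hδ1 : δ ≤ 1)
    (hc : ∀ ε : ℝ, 0 < ε → ∀ᶠ X : ℝ in atTop, ∀ (S : Finset ℕ) (ps : ℕ), GoodS X S →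
      ∃ P : Finset ℕ, P ⊆ PW X S ps ∧ ((∏ p ∈ P, p : ℕ) : ℝ) ≤ X ^ ε ∧ 1 / 2 ≤ ∏ p ∈ P, (1 - 1 / (p : ℝ)) ∧
        (∀ y : ℝ, Real.log X ^ a ≤ y → y ≤ Real.log X ^ (a + κ) → 2 * δ ≤ -(rel P y - 1))) (B : ℕ)
    (ε : ℝ) (hε : 0 < ε) :
    ∀ᶠ X : ℝ in atTop, ∀ y Z : ℕ, Real.log X ^ a ≤ y → (y : ℝ) ≤ Real.log X ^ (a + κ) → Real.log X ≤ Z →
      (Z : ℝ) ≤ Real.log X ^ B → ∃ U : Finset (Fin k → ℕ), X ^ (k - ε) ≤ U.card ∧ ∀ u ∈ U, Adm X u ∧
        TT d y u / Real.log X ^ k < (1 - δ) * CZ d u Z * y / (Real.log X + 2) ^ k := by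
  have hkr : (1 : ℝ) ≤ k := by exact_mod_cast hk
  obtain ⟨t, ht0, ht1, -, hg⟩ := exists_t k δ hδ
  have hfac := facts hk d hd (∑ i, d i) (fun i => single_le_sum (f := d) (fun _ _ => Nat.zero_le _) (mem_univ i))
    a (a + κ) ha B (k + B * k) t δ (δ / 4) ht0 (by linarith) hδ (by linarith)
  filter_upwards [hfac, hc (ε / (2 * k)) (by positivity), Real.tendsto_log_atTop.eventually_ge_atTop (2 / t),
    Real.tendsto_log_atTop.eventually_ge_atTop 1, eventually_ge_atTop (4 : ℝ),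
    Real.tendsto_log_atTop.eventually (ev_exp' (4 / δ * 20 ^ k) ((B + 1) * k) (ε / 2) (by positivity))]
    with X h1 h2 h3 h4 h5 h6
  intro y Z hy1 hy2 hZ1 hZ2
  obtain ⟨ps, S, hS, h1⟩ := h1
  obtain ⟨P, hP, hWε, hhalf, hrel⟩ := h2 S ps hS
  have hX0 : 0 < X := by linarith
  have hPp : ∀ p ∈ P, p.Prime := fun p hp => (mem_PW.1 (hP hp)).2.1
  set L := Real.log X with hL
  have hL0 : 0 < L := by linarith
  have hLa : 0 < L ^ a := Real.rpow_pos_of_pos hL0 a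
  have hLaκ : L ^ a ≤ L ^ (a + κ) := Real.rpow_le_rpow_of_exponent_le h4 (by linarith)
  have hcard : δ * L ^ a ≤ 2 ^ P.card := card_of_rel P hPp hhalf δ _ hδ hLa
    ((hrel _ le_rfl hLaκ).trans (neg_le_abs _))
  obtain ⟨hNge, ρ, hρ, h1⟩ := h1 P hP hhalf hcard
  have hW0 : 0 < ∏ p ∈ P, p := prod_pos fun p hp => (hPp p hp).pos
  obtain ⟨f1, f2, f3, f4⟩ := h1 y Z hy2 hZ1 hZ2
  set W := ∏ p ∈ P, p with hW
  set Bp := ∏ p ∈ P, (1 - 1 / (p : ℝ)) with hBp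
  have hB0 : 0 < Bp := by linarith
  have hB1 : Bp ≤ 1 := by
    apply Finset.prod_le_one
    · intro p hp; linarith [(one_sub_mem (hPp p hp)).1]
    · intro p hp; exact (one_sub_mem (hPp p hp)).2
  have hy0 : (0 : ℝ) < y := lt_of_lt_of_le hLa hy1
  have hZr : (1 : ℝ) ≤ Z := by linarith
  have hZ1' : 1 ≤ Z := by exact_mod_cast hZr
  have hρ' := abs_le.1 hρ
  have hET := Ex_TT (Icc 1 ⌊3 * X⌋₊) (wt X W) (wt_nonneg X W) hk d hd P hPp (ρ / Bp) (t / 2)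
    (by rw [le_div_iff₀ hB0]; linarith [hρ'.1]) (by linarith) (by linarith) y
    (fun n hn i => (f1 n hn i).2)
  have hV : (V P y : ℝ) ≤ Bp * y * (1 - 2 * δ) := by
    have h6 := hrel y hy1 hy2
    unfold rel at h6
    rw [Nat.floor_natCast, ← hBp] at h6
    have h7 : (V P y : ℝ) / (y * Bp) ≤ 1 - 2 * δ := by linarith
    rw [div_le_iff₀ (by positivity)] at h7
    linarith
  have hmain := R2 k hk Bp L y t δ ρ (t / 2) (V P y) _ _ hB0 hB1 hL0 hy0 ht0.le (by linarith)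
    (by linarith [hρ'.2]) (by linarith [hρ'.1]) (by linarith)
    (by linarith) (by
      rw [le_div_iff₀ (by linarith)]
      rw [div_le_iff₀ ht0] at h3
      nlinarith) hδ hδ1 hV (Nat.cast_nonneg _) hET.2 f2 hg
  have hEx : δ / 4 * (y / L ^ k) ≤ Ex (Icc 1 ⌊3 * X⌋₊) (wt X W) (fun u : Fin k → ℕ => (((1 - δ) * y / (L + 2) ^ k) * CZ d u Z -
      1 / L ^ k * TT d y u) - ((Z : ℝ) ^ k * y) * bad W u) := by
    rw [Ex_sub, Ex_sub, Ex_smul, Ex_smul, Ex_smul]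
    have e1 : (1 / L ^ k) * Ex (Icc 1 ⌊3 * X⌋₊) (wt X W) (fun u : Fin k → ℕ => TT d y u) =
        Ex (Icc 1 ⌊3 * X⌋₊) (wt X W) (TT d y) / L ^ k := by ring
    have e2 : ((1 - δ) * y / (L + 2) ^ k) * Ex (Icc 1 ⌊3 * X⌋₊) (wt X W) (fun u : Fin k → ℕ => CZ d u Z) =
        (1 - δ) * Ex (Icc 1 ⌊3 * X⌋₊) (wt X W) (fun u : Fin k → ℕ => CZ d u Z) * y / (L + 2) ^ k := by ring
    rw [e1, e2]
    have e3 : ((Z : ℝ) ^ k * y) * Ex (Icc 1 ⌊3 * X⌋₊) (wt X W) (fun u : Fin k → ℕ => bad W u) ≤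
        ((Z : ℝ) ^ k * y) * (δ / 4 / L ^ (k + B * k)) := mul_le_mul_of_nonneg_left f4 (by positivity)
    have e4 : ((Z : ℝ) ^ k * y) * (δ / 4 / L ^ (k + B * k)) ≤ δ / 4 * (y / L ^ k) := by
      have e7 : (Z : ℝ) ^ k ≤ L ^ (B * k) := by
        rw [pow_mul]
        exact pow_le_pow_left₀ (by linarith) hZ2 k
      calc ((Z : ℝ) ^ k * y) * (δ / 4 / L ^ (k + B * k)) ≤ (L ^ (B * k) * y) * (δ / 4 / L ^ (k + B * k)) := by
            gcongr
        _ = δ / 4 * (y / L ^ k) := by rw [pow_add]; field_simp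
    have e5 : 0 < δ / 4 * ((y : ℝ) / L ^ k) := by positivity
    have e6 : δ / 2 * ((y : ℝ) / L ^ k) = 2 * (δ / 4 * ((y : ℝ) / L ^ k)) := by ring
    linarith
  have hfin := fin_ineq hkr hX0 hL0 hδ (by linarith) hZ2 h6
  have g1' : ∀ u : Fin k → ℕ, ((1 - δ) * y / (L + 2) ^ k) * CZ d u Z ≤ (Z : ℝ) ^ k * y := by
    intro u
    have hCle := CZ_le d u Z hZ1'
    have hCZ := CZ_nonneg d u Z
    have g4 : (1 - δ) * y / (L + 2) ^ k ≤ y := by
      rw [div_le_iff₀ (by positivity)]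
      have g5 : 1 ≤ (L + 2) ^ k := one_le_pow₀ (by linarith)
      nlinarith
    calc ((1 - δ) * y / (L + 2) ^ k) * CZ d u Z ≤ y * (Z : ℝ) ^ k := mul_le_mul g4 hCle hCZ hy0.le
      _ = _ := mul_comm _ _
  obtain ⟨U, hUc, hU⟩ := many_of_Ex X h5 W hW0 hNge ε (ε / (2 * k)) hWε y Z hy0 (by linarith) δ hδ _ (by
    intro u _ hu2
    have hT0 := TT_nonneg d y u
    have g2 : 0 ≤ ((Z : ℝ) ^ k * y) * bad W u := mul_nonneg (by positivity) (bad_nonneg W u)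
    have g3 : 0 ≤ 1 / L ^ k * TT d y u := by positivity
    have g4 := g1' u
    have e1 : (y : ℝ) * (Z : ℝ) ^ k = (Z : ℝ) ^ k * y := mul_comm _ _
    rw [e1]
    linarith) hEx hfin
  refine ⟨U, hUc, fun u hu => ?_⟩
  obtain ⟨hu2, hu3⟩ := hU u hu
  have hsupp := fun i => wt_supp X hX0 W (u i) (hu2 i)
  have hT0 := TT_nonneg d y u
  have hCle := CZ_le d u Z hZ1'
  have hCZ := CZ_nonneg d u Z
  have hbad : bad W u < 1 := by
    by_contra hcon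
    push Not at hcon
    have g1 := g1' u
    have g2 : ((Z : ℝ) ^ k * y) * 1 ≤ ((Z : ℝ) ^ k * y) * bad W u := mul_le_mul_of_nonneg_left hcon (by positivity)
    have g3 : 0 ≤ 1 / L ^ k * TT d y u := by positivity
    linarith
  obtain ⟨b1, b2⟩ := bad_spec W u hbad
  refine ⟨⟨fun i => ⟨(hsupp i).1, (hsupp i).2.1⟩, b2, fun i => exists_eis P hPp (u i) (hsupp i).2.2 (b1 i)⟩, ?_⟩
  have g2 : 0 ≤ ((Z : ℝ) ^ k * y) * bad W u := mul_nonneg (by positivity) (bad_nonneg W u)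
  have e1 : (1 - δ) * CZ d u Z * y / (L + 2) ^ k = ((1 - δ) * y / (L + 2) ^ k) * CZ d u Z := by ring
  have e2 : TT d y u / L ^ k = 1 / L ^ k * TT d y u := by ring
  rw [e1, e2]
  linarith

end Pool.Agent.Run7.h689.MK
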