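import Pool.Agent.Run7.h689.MK8
set_option autoImplicit false

/-!
# The systems `x ^ d i + u i`; the complete constants of systems of linear polynomials
-/

namespace Pool.Agent.Run7.h689.MK

open Finset Filter Topology
open Polynomial (C)

theorem prod_one_sub_ge {ι : Type} (s : Finset ι) (x : ι → ℝ) (h : ∀ i ∈ s, 0 ≤ x i ∧ x i ≤ 1) :
    1 - ∑ i ∈ s, x i ≤ ∏ i ∈ s, (1 - x i) := by
  classical
  induction s using Finset.induction_on with
  | empty => simp
  | insert a s ha ih =>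
    rw [sum_insert ha, prod_insert ha]
    have h1 := ih fun i hi => h i (mem_insert_of_mem hi)
    obtain ⟨h2, h3⟩ := h a (mem_insert_self _ _)
    have h4 : 0 ≤ ∑ i ∈ s, x i := sum_nonneg fun i hi => (h i (mem_insert_of_mem hi)).1
    have h5 : (1 - x a) * (1 - ∑ i ∈ s, x i) ≤ (1 - x a) * ∏ i ∈ s, (1 - x i) :=
      mul_le_mul_of_nonneg_left h1 (by linarith)
    nlinarith

/-- number of the residue classes of the shifts -/
theorem loc_lin {k : ℕ} (u : Fin k → ℕ) {p : ℕ} (hp : 0 < p) :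
    loc (fun _ => 1) u p = 1 - ((univ.image (fun i => u i % p)).card : ℝ) / p := by
  classical
  have h1 : ((range p).filter (fun n => ∃ i, p ∣ u i + n)).card = (univ.image (fun i => u i % p)).card := by
    refine Finset.card_nbij' (fun n => (p - n) % p) (fun r => (p - r) % p) ?_ ?_ ?_ ?_
    · intro n hn
      simp only [coe_filter, mem_range, Set.mem_ofPred_eq] at hn
      obtain ⟨hn1, i, hi⟩ := hn
      simp only [coe_image, coe_univ, Set.image_univ, Set.mem_range]
      refine ⟨i, ?_⟩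
      have h2 : u i + n ≡ (p - n) + n [MOD p] := by
        rw [Nat.sub_add_cancel hn1.le]
        exact ((Nat.modEq_zero_iff_dvd).2 hi).trans ((Nat.modEq_zero_iff_dvd).2 dvd_rfl).symm
      exact Nat.ModEq.add_right_cancel' n h2
    · intro r hr
      simp only [coe_image, coe_univ, Set.image_univ, Set.mem_range] at hr
      obtain ⟨i, rfl⟩ := hr
      simp only [coe_filter, mem_range, Set.mem_ofPred_eq]
      refine ⟨Nat.mod_lt _ hp, i, ?_⟩
      rw [← Nat.modEq_zero_iff_dvd]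
      have h3 : (p - u i % p) % p ≡ p - u i % p [MOD p] := Nat.mod_modEq _ _
      have h4 : u i % p ≡ u i [MOD p] := Nat.mod_modEq _ _
      calc u i + (p - u i % p) % p ≡ u i % p + (p - u i % p) [MOD p] := h4.symm.add h3
        _ = p := by have := (Nat.mod_lt (u i) hp).le; omega
        _ ≡ 0 [MOD p] := (Nat.modEq_zero_iff_dvd).2 dvd_rfl
    · intro n hn
      simp only [coe_filter, mem_range, Set.mem_ofPred_eq] at hn
      show (p - (p - n) % p) % p = n
      rcases Nat.eq_zero_or_pos n with h0 | h0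
      · subst h0; simp
      · rw [Nat.mod_eq_of_lt (show p - n < p by omega), Nat.sub_sub_self hn.1.le, Nat.mod_eq_of_lt hn.1]
    · intro r hr
      simp only [coe_image, coe_univ, Set.image_univ, Set.mem_range] at hr
      obtain ⟨i, rfl⟩ := hr
      have hlt := Nat.mod_lt (u i) hp
      show (p - (p - u i % p) % p) % p = u i % p
      set r := u i % p
      rcases Nat.eq_zero_or_pos r with h0 | h0
      · rw [h0]; simp
      · rw [Nat.mod_eq_of_lt (show p - r < p by omega), Nat.sub_sub_self hlt.le, Nat.mod_eq_of_lt hlt]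
  have h2 : ((range p).filter (fun n => ∀ i, ¬ p ∣ u i + n ^ 1)).card +
      ((range p).filter (fun n => ∃ i, p ∣ u i + n)).card = p := by
    have h3 := card_filter_add_card_filter_not (s := range p) (fun n => ∀ i, ¬ p ∣ u i + n ^ 1)
    rw [card_range] at h3
    have h4 : (range p).filter (fun n => ¬ ∀ i, ¬ p ∣ u i + n ^ 1) = (range p).filter (fun n => ∃ i, p ∣ u i + n) := by
      ext n; simp
    rw [h4] at h3
    exact h3
  unfold loc
  have hpr : (0 : ℝ) < p := by exact_mod_cast hp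
  rw [← h1, eq_sub_iff_add_eq, ← add_div, div_eq_one_iff_eq hpr.ne']
  exact_mod_cast h2

/-- the local factor of a system of linear polynomials -/
noncomputable def gp {k : ℕ} (u : Fin k → ℕ) (p : ℕ) : ℝ := loc (fun _ => 1) u p / (1 - 1 / (p : ℝ)) ^ k

theorem gp_bounds {k : ℕ} (u : Fin k → ℕ) {p : ℕ} (hp : p.Prime) (hkp : k ≤ p) :
    1 - k / (p : ℝ) ≤ gp u p ∧ gp u p ≤ 1 / (1 - 1 / (p : ℝ)) ^ k ∧
      (Function.Injective (fun i => u i % p) → 1 - (k : ℝ) ^ 2 * (1 / (p : ℝ) ^ 2) ≤ gp u p ∧ gp u p ≤ 1) := by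
  classical
  obtain ⟨h1, h2⟩ := one_sub_mem hp
  have hp0 : (0 : ℝ) < p := by exact_mod_cast hp.pos
  have hq0 : 0 < (1 - 1 / (p : ℝ)) ^ k := pow_pos (by linarith) k
  have hq1 : (1 - 1 / (p : ℝ)) ^ k ≤ 1 := pow_le_one₀ (by linarith) h2
  have hkp' : (k : ℝ) / p ≤ 1 := by
    rw [div_le_one hp0]; exact_mod_cast hkp
  refine ⟨?_, ?_, fun hinj => ?_⟩
  · unfold gp
    rw [le_div_iff₀ hq0, loc_lin u hp.pos]
    have hc : (univ.image (fun i => u i % p)).card ≤ k := by
      calc _ ≤ (univ : Finset (Fin k)).card := card_image_le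
        _ = k := by simp
    have hc' : ((univ.image (fun i => u i % p)).card : ℝ) / p ≤ k / p := by
      apply div_le_div_of_nonneg_right _ hp0.le
      exact_mod_cast hc
    calc (1 - k / (p : ℝ)) * (1 - 1 / (p : ℝ)) ^ k ≤ (1 - k / (p : ℝ)) * 1 :=
          mul_le_mul_of_nonneg_left hq1 (by linarith)
      _ ≤ _ := by linarith
  · unfold gp
    exact div_le_div_of_nonneg_right (loc_le_one _ _ _) hq0.le
  · have hc : (univ.image (fun i => u i % p)).card = k := by
      rw [card_image_of_injective _ hinj]; simp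
    have hloc : loc (fun _ => 1) u p = 1 - (k : ℝ) / p := by rw [loc_lin u hp.pos, hc]
    unfold gp
    rw [hloc]
    constructor
    · rw [le_div_iff₀ hq0]
      have h3 : (1 + (k : ℝ) / p) * (1 - 1 / (p : ℝ)) ^ k ≤ 1 := by
        have h4 : 1 + (k : ℝ) * (1 / p) ≤ (1 + 1 / (p : ℝ)) ^ k := by
          apply one_add_mul_le_pow
          have : 0 ≤ 1 / (p : ℝ) := by positivity
          linarith
        calc (1 + (k : ℝ) / p) * (1 - 1 / (p : ℝ)) ^ k ≤ (1 + 1 / (p : ℝ)) ^ k * (1 - 1 / (p : ℝ)) ^ k := by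
              apply mul_le_mul_of_nonneg_right _ hq0.le
              rw [mul_one_div] at h4; exact h4
          _ = (1 - (1 / (p : ℝ)) ^ 2) ^ k := by rw [← mul_pow]; congr 1; ring
          _ ≤ 1 := by
            apply pow_le_one₀
            · have : (1 / (p : ℝ)) ^ 2 ≤ 1 := pow_le_one₀ (by positivity) (by rw [div_le_one hp0]; exact_mod_cast hp.one_le)
              linarith
            · have : 0 ≤ (1 / (p : ℝ)) ^ 2 := by positivity
              linarith
      have e1 : 1 - (k : ℝ) ^ 2 * (1 / (p : ℝ) ^ 2) = (1 - k / p) * (1 + k / p) := by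
        field_simp; ring
      rw [e1, mul_assoc]
      calc (1 - (k : ℝ) / p) * ((1 + k / p) * (1 - 1 / (p : ℝ)) ^ k) ≤ (1 - (k : ℝ) / p) * 1 :=
            mul_le_mul_of_nonneg_left h3 (by linarith)
        _ = _ := mul_one _
    · rw [div_le_one hq0]
      have h4 : 1 + (k : ℝ) * (-(1 / p)) ≤ (1 + -(1 / (p : ℝ))) ^ k := by
        apply one_add_mul_le_pow
        linarith
      have e1 : 1 - (k : ℝ) / p = 1 + (k : ℝ) * (-(1 / p)) := by ring
      have e2 : 1 - 1 / (p : ℝ) = 1 + -(1 / (p : ℝ)) := by ring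
      rw [e1, e2]
      exact h4

/-- number of the primes modulo which two of the shifts coincide -/
theorem exc_card {k : ℕ} (u : Fin k → ℕ) (hu : Function.Injective u) (M : ℕ) (hM : ∀ i, u i ≤ 2 ^ M) (T : Finset ℕ)
    (hT : ∀ p ∈ T, p.Prime) : (T.filter (fun p => ¬ Function.Injective (fun i => u i % p))).card ≤ k * (k * M) := by
  classical
  have h1 : T.filter (fun p => ¬ Function.Injective (fun i => u i % p)) ⊆
      univ.biUnion (fun i : Fin k => univ.biUnion (fun j : Fin k => if u i < u j then (u j - u i).primeFactors else ∅)) := by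
    intro p hp
    rw [mem_filter] at hp
    obtain ⟨hp1, hp2⟩ := hp
    unfold Function.Injective at hp2
    push Not at hp2
    obtain ⟨i, j, h3, h4⟩ := hp2
    have hne : u i ≠ u j := fun h => h4 (hu h)
    simp only [mem_biUnion, mem_univ, true_and]
    rcases lt_or_gt_of_ne hne with h5 | h5
    · refine ⟨i, j, ?_⟩
      rw [if_pos h5, Nat.mem_primeFactors]
      exact ⟨hT p hp1, (Nat.modEq_iff_dvd' h5.le).1 h3, by omega⟩
    · refine ⟨j, i, ?_⟩
      rw [if_pos h5, Nat.mem_primeFactors]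
      exact ⟨hT p hp1, (Nat.modEq_iff_dvd' h5.le).1 h3.symm, by omega⟩
  refine (card_le_card h1).trans ?_
  have h2 : ∀ i j : Fin k, (if u i < u j then (u j - u i).primeFactors else ∅).card ≤ M := by
    intro i j
    split_ifs with h
    · have h3 : 2 ^ (u j - u i).primeFactors.card ≤ 2 ^ M := by
        calc 2 ^ (u j - u i).primeFactors.card = ∏ _p ∈ (u j - u i).primeFactors, 2 := by rw [prod_const]
          _ ≤ ∏ p ∈ (u j - u i).primeFactors, p := prod_le_prod' fun p hp => (Nat.prime_of_mem_primeFactors hp).two_le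
          _ ≤ u j - u i := Nat.le_of_dvd (by omega) (Nat.prod_primeFactors_dvd _)
          _ ≤ 2 ^ M := (Nat.sub_le _ _).trans (hM j)
      exact (Nat.pow_le_pow_iff_right (by norm_num)).1 h3
    · simp
  calc _ ≤ ∑ i : Fin k, (univ.biUnion (fun j : Fin k => if u i < u j then (u j - u i).primeFactors else ∅)).card :=
        card_biUnion_le
    _ ≤ ∑ _i : Fin k, k * M := by
        refine sum_le_sum fun i _ => ?_
        calc _ ≤ ∑ j : Fin k, (if u i < u j then (u j - u i).primeFactors else ∅).card := card_biUnion_le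
          _ ≤ ∑ _j : Fin k, M := sum_le_sum fun j _ => h2 i j
          _ = k * M := by simp
    _ = k * (k * M) := by simp

theorem sum_inv_sq_tail (Z N : ℕ) (hZ : 1 ≤ Z) : ∑ n ∈ Ioc Z N, 1 / (n : ℝ) ^ 2 ≤ 1 / (Z : ℝ) := by
  rcases le_or_gt N Z with h | h
  · rw [Ioc_eq_empty_of_le h]; simp
  · have hZr : (0 : ℝ) < Z := by exact_mod_cast hZ
    have h2 : ∀ N : ℕ, Z ≤ N → ∑ n ∈ Ioc Z N, 1 / (n : ℝ) ^ 2 ≤ 1 / (Z : ℝ) - 1 / (N : ℝ) := by
      intro N hN
      induction N, hN using Nat.le_induction with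
      | base => simp
      | succ N hN ih =>
        have h1 : Ioc Z (N + 1) = insert (N + 1) (Ioc Z N) := by
          ext x; simp only [mem_Ioc, mem_insert]; omega
        rw [h1, sum_insert (by simp)]
        have hNr : (0 : ℝ) < N := by
          have : 0 < N := by omega
          exact_mod_cast this
        have h3 : 1 / (((N + 1 : ℕ)) : ℝ) ^ 2 ≤ 1 / (N : ℝ) - 1 / ((N + 1 : ℕ) : ℝ) := by
          push_cast
          rw [div_sub_div _ _ hNr.ne' (by positivity), div_le_div_iff₀ (by positivity) (by positivity)]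
          nlinarith
        linarith
    have h3 := h2 N h.le
    have h4 : 0 ≤ 1 / (N : ℝ) := by positivity
    linarith

theorem CZ_mul {k : ℕ} (u : Fin k → ℕ) (Z N : ℕ) (h : Z ≤ N) :
    CZ (fun _ => 1) u N = CZ (fun _ => 1) u Z * ∏ p ∈ (Ioc Z N).filter Nat.Prime, gp u p := by
  unfold CZ
  have h1 : (Icc 1 N).filter Nat.Prime = (Icc 1 Z).filter Nat.Prime ∪ (Ioc Z N).filter Nat.Prime := by
    ext p
    simp only [mem_filter, mem_union, mem_Icc, mem_Ioc]
    constructor
    · rintro ⟨⟨h2, h3⟩, h4⟩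
      rcases le_or_gt p Z with h5 | h5
      · exact Or.inl ⟨⟨h2, h5⟩, h4⟩
      · exact Or.inr ⟨⟨h5, h3⟩, h4⟩
    · rintro (⟨⟨h2, h3⟩, h4⟩ | ⟨⟨h2, h3⟩, h4⟩)
      · exact ⟨⟨h2, h3.trans h⟩, h4⟩
      · exact ⟨⟨by omega, h3⟩, h4⟩
  have h2 : Disjoint ((Icc 1 Z).filter Nat.Prime) ((Ioc Z N).filter Nat.Prime) := by
    rw [disjoint_left]
    intro p hp hq
    have := (mem_Icc.1 (mem_filter.1 hp).1).2
    have := (mem_Ioc.1 (mem_filter.1 hq).1).1
    omega
  rw [h1, prod_union h2]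
  rfl

/-- the part of the product beyond `Z` -/
theorem tail_prod {k : ℕ} (u : Fin k → ℕ) (hu : Function.Injective u) (M : ℕ) (hM : ∀ i, u i ≤ 2 ^ M) (Z : ℕ)
    (hZ : 1 ≤ Z) (hkZ : k ≤ Z) (τ : ℝ) (hτ1 : τ ≤ 1 / 2)
    (h : (k : ℝ) ^ 2 / Z + (k + 1) * (k * (k * M)) / Z ≤ τ) (N : ℕ) :
    1 - τ ≤ ∏ p ∈ (Ioc Z N).filter Nat.Prime, gp u p ∧
      ∏ p ∈ (Ioc Z N).filter Nat.Prime, gp u p ≤ (1 - τ)⁻¹ ^ k := by
  classical
  set T := (Ioc Z N).filter Nat.Prime with hT
  have hTp : ∀ p ∈ T, p.Prime := fun p hp => (mem_filter.1 hp).2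
  have hTZ : ∀ p ∈ T, Z < p := fun p hp => (mem_Ioc.1 (mem_filter.1 hp).1).1
  have hTI : T ⊆ Ioc Z N := filter_subset _ _
  clear_value T
  have hZr : (0 : ℝ) < Z := by exact_mod_cast hZ
  have hkr : (0 : ℝ) ≤ k := Nat.cast_nonneg _
  set E := T.filter (fun p => ¬ Function.Injective (fun i => u i % p)) with hE
  have hEc : (E.card : ℝ) ≤ k * (k * M) := by exact_mod_cast exc_card u hu M hM T hTp
  have hkp : ∀ p ∈ T, k ≤ p := fun p hp => hkZ.trans (hTZ p hp).le
  have hpr : ∀ p ∈ T, (Z : ℝ) ≤ p := fun p hp => by exact_mod_cast (hTZ p hp).le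
  have hEinv : ∑ p ∈ E, 1 / (p : ℝ) ≤ k * (k * M) / Z := by
    calc ∑ p ∈ E, 1 / (p : ℝ) ≤ ∑ _p ∈ E, 1 / (Z : ℝ) := by
          refine sum_le_sum fun p hp => ?_
          exact one_div_le_one_div_of_le hZr (hpr p (mem_filter.1 hp).1)
      _ = E.card / Z := by rw [sum_const, nsmul_eq_mul]; ring
      _ ≤ _ := div_le_div_of_nonneg_right hEc hZr.le
  have hEZ0 : 0 ≤ (k * (k * M) : ℝ) / Z := by positivity
  have e0 : (k + 1) * (k * (k * M)) / (Z : ℝ) = k * ((k * (k * M)) / Z) + (k * (k * M)) / Z := by ring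
  rw [e0] at h
  have hk2 : 0 ≤ (k : ℝ) ^ 2 / Z := by positivity
  have hkE : 0 ≤ (k : ℝ) * ((k * (k * M)) / Z) := by positivity
  constructor
  · -- lower bound
    set x : ℕ → ℝ := fun p => if Function.Injective (fun i => u i % p) then (k : ℝ) ^ 2 * (1 / (p : ℝ) ^ 2) else k * (1 / p) with hx
    have hx1 : ∀ p ∈ T, 0 ≤ x p ∧ x p ≤ 1 := by
      intro p hp
      have h1 : (k : ℝ) ≤ p := by exact_mod_cast hkp p hp
      have h2 : (0 : ℝ) < p := by exact_mod_cast (hTp p hp).pos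
      rw [hx]
      simp only
      split_ifs
      · refine ⟨by positivity, ?_⟩
        rw [mul_one_div, ← div_pow]
        exact pow_le_one₀ (by positivity) (by rw [div_le_one h2]; exact h1)
      · refine ⟨by positivity, ?_⟩
        rw [mul_one_div, div_le_one h2]; exact h1
    have hx2 : ∀ p ∈ T, 1 - x p ≤ gp u p := by
      intro p hp
      obtain ⟨g1, g2, g3⟩ := gp_bounds u (hTp p hp) (hkp p hp)
      rw [hx]
      simp only
      split_ifs with hinj
      · exact (g3 hinj).1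
      · rw [mul_one_div]; exact g1
    have hx3 : ∑ p ∈ T, x p ≤ τ := by
      have h1 : ∑ p ∈ T, x p ≤ ∑ p ∈ T, (k : ℝ) ^ 2 * (1 / (p : ℝ) ^ 2) + ∑ p ∈ E, (k : ℝ) * (1 / p) := by
        rw [hE, sum_filter, ← sum_add_distrib]
        refine sum_le_sum fun p hp => ?_
        rw [hx]
        simp only
        by_cases hinj : Function.Injective (fun i => u i % p)
        · rw [if_pos hinj, if_neg (not_not.2 hinj)]; linarith
        · rw [if_neg hinj, if_pos hinj]
          have : 0 ≤ (k : ℝ) ^ 2 * (1 / (p : ℝ) ^ 2) := by positivity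
          linarith
      have h2 : ∑ p ∈ T, (k : ℝ) ^ 2 * (1 / (p : ℝ) ^ 2) ≤ (k : ℝ) ^ 2 / Z := by
        rw [← mul_sum]
        calc (k : ℝ) ^ 2 * ∑ p ∈ T, 1 / (p : ℝ) ^ 2 ≤ (k : ℝ) ^ 2 * ∑ p ∈ Ioc Z N, 1 / (p : ℝ) ^ 2 := by
              apply mul_le_mul_of_nonneg_left _ (by positivity)
              exact sum_le_sum_of_subset_of_nonneg hTI fun _ _ _ => by positivity
          _ ≤ (k : ℝ) ^ 2 * (1 / Z) := mul_le_mul_of_nonneg_left (sum_inv_sq_tail Z N hZ) (by positivity)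
          _ = _ := by ring
      have h3 : ∑ p ∈ E, (k : ℝ) * (1 / p) ≤ k * ((k * (k * M)) / Z) := by
        rw [← mul_sum]
        exact mul_le_mul_of_nonneg_left hEinv hkr
      linarith
    calc 1 - τ ≤ 1 - ∑ p ∈ T, x p := by linarith
      _ ≤ ∏ p ∈ T, (1 - x p) := prod_one_sub_ge T x hx1
      _ ≤ _ := Finset.prod_le_prod (fun p hp => by linarith [(hx1 p hp).2]) hx2
  · -- upper bound
    have h1 : ∏ p ∈ T, gp u p ≤ ∏ p ∈ T, (if Function.Injective (fun i => u i % p) then 1 else (1 / (1 - 1 / (p : ℝ))) ^ k) := by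
      apply Finset.prod_le_prod
      · intro p hp
        unfold gp
        refine div_nonneg (loc_nonneg _ _ _) (pow_nonneg ?_ _)
        linarith [(one_sub_mem (hTp p hp)).1]
      · intro p hp
        obtain ⟨g1, g2, g3⟩ := gp_bounds u (hTp p hp) (hkp p hp)
        split_ifs with hinj
        · exact (g3 hinj).2
        · rw [one_div_pow]; exact g2
    have h2 : ∏ p ∈ T, (if Function.Injective (fun i => u i % p) then 1 else (1 / (1 - 1 / (p : ℝ))) ^ k) =
        ∏ p ∈ E, (1 / (1 - 1 / (p : ℝ))) ^ k := by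
      rw [hE, prod_filter]
      refine prod_congr rfl fun p _ => ?_
      by_cases hinj : Function.Injective (fun i => u i % p)
      · rw [if_pos hinj, if_neg (not_not.2 hinj)]
      · rw [if_neg hinj, if_pos hinj]
    rw [h2] at h1
    refine h1.trans ?_
    rw [prod_pow, prod_div_distrib, prod_const_one, one_div]
    have h3 : 1 - ∑ p ∈ E, 1 / (p : ℝ) ≤ ∏ p ∈ E, (1 - 1 / (p : ℝ)) := prod_one_sub_ge E _ fun p hp => by
      have := one_sub_mem (hTp p (mem_filter.1 hp).1)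
      constructor <;> linarith [this.1, this.2]
    have h4 : 1 - τ ≤ ∏ p ∈ E, (1 - 1 / (p : ℝ)) := by linarith
    have h5 : 0 < 1 - τ := by linarith
    exact pow_le_pow_left₀ (inv_nonneg.2 (h5.le.trans h4)) (inv_anti₀ h5 h4) k

/-- the complete constant of a system of linear polynomials -/
theorem lin_limit (k : ℕ) (hk : 1 ≤ k) (ε : ℝ) (hε : 0 < ε) : ∀ᶠ X : ℝ in atTop, ∀ u : Fin k → ℕ,
    Function.Injective u → (∀ i, X < u i ∧ (u i : ℝ) < 3 * X) → ∀ Z : ℕ, Real.log X ^ 2 ≤ Z →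
    ∃ C : ℝ, Tendsto (fun N => CZ (fun _ => 1) u N) atTop (𝓝 C) ∧ (1 - ε) * CZ (fun _ => 1) u Z ≤ C ∧
      C ≤ (1 + ε) * CZ (fun _ => 1) u Z := by
  -- the size of the tail
  have hkr : (1 : ℝ) ≤ k := by exact_mod_cast hk
  obtain ⟨τ, hτ0, hτ1, hτ2, hτ3⟩ : ∃ τ : ℝ, 0 < τ ∧ τ ≤ 1 / 2 ∧ τ ≤ ε ∧ (1 - τ)⁻¹ ^ k ≤ 1 + ε := by
    have c1 : ContinuousAt (fun τ : ℝ => (1 - τ)⁻¹ ^ k) 0 := by
      apply ContinuousAt.pow
      apply ContinuousAt.inv₀ (by fun_prop)
      norm_num
    have h1 : ∀ᶠ τ in 𝓝 (0 : ℝ), (1 - τ)⁻¹ ^ k < 1 + ε := c1.tendsto.eventually_lt_const (by simp; linarith)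
    obtain ⟨r, hr, hball⟩ := Metric.eventually_nhds_iff.1 h1
    have hm : 0 < min (r / 2) (min (1 / 2) ε) := lt_min (by linarith) (lt_min (by norm_num) hε)
    refine ⟨min (r / 2) (min (1 / 2) ε), hm, (min_le_right _ _).trans (min_le_left _ _),
      (min_le_right _ _).trans (min_le_right _ _), (hball ?_).le⟩
    rw [Real.dist_eq, sub_zero, abs_of_pos hm]
    exact (min_le_left _ _).trans_lt (by linarith)
  filter_upwards [Real.tendsto_log_atTop.eventually_ge_atTop (k : ℝ),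
    Real.tendsto_log_atTop.eventually_ge_atTop (20 * (k + 1) * k ^ 2 / τ),
    eventually_ge_atTop (4 : ℝ), Real.tendsto_log_atTop.eventually_ge_atTop (4 : ℝ)] with X h1 h2 h3 h4
  intro u hu huX Z hZ
  set L := Real.log X with hL
  have hX0 : 0 < X := by linarith
  have hL0 : 0 < L := by linarith
  have hZr : (0 : ℝ) < Z := lt_of_lt_of_le (by positivity) hZ
  have hZ1 : 1 ≤ Z := by exact_mod_cast hZr
  have hkZ : k ≤ Z := by
    have : (k : ℝ) ≤ Z := by nlinarith
    exact_mod_cast this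
  -- all shifts are at most 2 ^ M
  obtain ⟨M, hM1, hM2⟩ : ∃ M : ℕ, (M : ℝ) ≤ 5 * L ∧ 3 * X ≤ 2 ^ M := by
    refine ⟨⌈4 * L⌉₊, ?_, ?_⟩
    · have := Nat.ceil_lt_add_one (show 0 ≤ 4 * L by positivity)
      linarith
    · have g1 : 4 * L ≤ (⌈4 * L⌉₊ : ℝ) := Nat.le_ceil _
      have g2 : (2 : ℝ) ^ (⌈4 * L⌉₊) = Real.exp (⌈4 * L⌉₊ * Real.log 2) := by
        rw [Real.exp_nat_mul, Real.exp_log (by norm_num)]
      rw [g2]
      have g3 : 3 * X ≤ Real.exp (2 * L) := by
        rw [two_mul, Real.exp_add, Real.exp_log hX0]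
        nlinarith
      refine g3.trans (Real.exp_le_exp.2 ?_)
      have g4 : (1 : ℝ) / 2 ≤ Real.log 2 := by linarith [Real.log_two_gt_d9]
      nlinarith
  have hM : ∀ i, u i ≤ 2 ^ M := by
    intro i
    have : (u i : ℝ) ≤ 2 ^ M := (huX i).2.le.trans hM2
    exact_mod_cast this
  have hsmall : (k : ℝ) ^ 2 / Z + (k + 1) * (k * (k * M)) / Z ≤ τ := by
    rw [← add_div, div_le_iff₀ hZr]
    have g1 : 20 * (k + 1) * k ^ 2 ≤ L * τ := by rwa [div_le_iff₀ hτ0] at h2
    have g2 : (k : ℝ) ^ 2 + (k + 1) * (k * (k * M)) ≤ (k + 1) * k ^ 2 * (1 + 5 * L) := by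
      have g3 : (k + 1) * (k * (k * (M : ℝ))) ≤ (k + 1) * (k * (k * (5 * L))) := by gcongr
      have g4 : (k : ℝ) ^ 2 ≤ (k + 1) * k ^ 2 := by nlinarith [sq_nonneg (k : ℝ)]
      nlinarith
    have g3 : (k + 1) * (k : ℝ) ^ 2 * (1 + 5 * L) ≤ (k + 1) * k ^ 2 * (20 * L) := by
      apply mul_le_mul_of_nonneg_left _ (by positivity)
      linarith
    have g4 : (k + 1) * (k : ℝ) ^ 2 * (20 * L) ≤ τ * L ^ 2 := by nlinarith
    have g5 : τ * L ^ 2 ≤ τ * Z := mul_le_mul_of_nonneg_left hZ hτ0.le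
    linarith
  have htail := tail_prod u hu M hM Z hZ1 hkZ τ hτ1 hsmall
  have hC0 := CZ_nonneg (fun _ : Fin k => 1) u Z
  have hlow : ∀ N, Z ≤ N → (1 - ε) * CZ (fun _ => 1) u Z ≤ CZ (fun _ => 1) u N ∧
      CZ (fun _ => 1) u N ≤ (1 + ε) * CZ (fun _ => 1) u Z := by
    intro N hN
    rw [CZ_mul u Z N hN]
    constructor
    · rw [mul_comm]
      exact mul_le_mul_of_nonneg_left (by linarith [(htail N).1]) hC0
    · rw [mul_comm]
      exact mul_le_mul_of_nonneg_right ((htail N).2.trans hτ3) hC0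
  -- convergence
  have hanti : ∀ N, max Z (2 ^ M) ≤ N → CZ (fun _ => 1) u (N + 1) ≤ CZ (fun _ => 1) u N := by
    intro N hN
    rw [CZ_mul u N (N + 1) (Nat.le_succ N)]
    have hCN := CZ_nonneg (fun _ : Fin k => 1) u N
    have g1 : ∏ p ∈ (Ioc N (N + 1)).filter Nat.Prime, gp u p ≤ 1 := by
      apply Finset.prod_le_one
      · intro p hp
        unfold gp
        refine div_nonneg (loc_nonneg _ _ _) (pow_nonneg ?_ _)
        linarith [(one_sub_mem (mem_filter.1 hp).2).1]
      · intro p hp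
        rw [mem_filter, mem_Ioc] at hp
        have hpM : 2 ^ M < p := lt_of_le_of_lt ((le_max_right _ _).trans hN) hp.1.1
        have hkp : k ≤ p := hkZ.trans ((le_max_left _ _).trans (hN.trans hp.1.1.le))
        refine ((gp_bounds u hp.2 hkp).2.2 ?_).2
        intro i j hij
        simp only [Nat.mod_eq_of_lt ((hM i).trans_lt hpM), Nat.mod_eq_of_lt ((hM j).trans_lt hpM)] at hij
        exact hu hij
    calc _ ≤ CZ (fun _ => 1) u N * 1 := mul_le_mul_of_nonneg_left g1 hCN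
      _ = _ := mul_one _
  set N0 := max Z (2 ^ M) with hN0
  have hanti' : Antitone (fun n => CZ (fun _ => 1) u (n + N0)) := by
    apply antitone_nat_of_succ_le
    intro n
    have := hanti (n + N0) (Nat.le_add_left _ _)
    have e : n + 1 + N0 = n + N0 + 1 := by ring
    rw [e]
    exact this
  have hbdd : BddBelow (Set.range (fun n => CZ (fun _ => 1) u (n + N0))) := by
    refine ⟨0, ?_⟩
    rintro _ ⟨n, rfl⟩
    exact CZ_nonneg _ _ _
  have hlim := tendsto_atTop_ciInf hanti' hbdd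
  rw [tendsto_add_atTop_iff_nat (f := fun n => CZ (fun _ => 1) u n) N0] at hlim
  refine ⟨_, hlim, ?_, ?_⟩
  · apply ge_of_tendsto hlim
    filter_upwards [eventually_ge_atTop Z] with N hN
    exact (hlow N hN).1
  · apply le_of_tendsto hlim
    filter_upwards [eventually_ge_atTop Z] with N hN
    exact (hlow N hN).2

end Pool.Agent.Run7.h689.MK
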